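import Mathlib.RingTheory.AlgebraicIndependent.TranscendenceBasis
import Mathlib.RingTheory.AlgebraicIndependent.AlgebraicClosure
import Mathlib.Combinatorics.Matroid.Minor.Contract
import Mathlib.Combinatorics.Matroid.Rank.ENat
import Mathlib.Algebra.MvPolynomial.PDeriv
import Mathlib.RingTheory.Derivation.Basic
import Mathlib.LinearAlgebra.Matrix.Determinant.Basic
import Mathlib.FieldTheory.IsAlgClosed.Basic
import Mathlib.Algebra.Algebra.Rat
import Mathlib.ModelTheory.Satisfiability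
import Mathlib.ModelTheory.Encoding
import Pool.Agent.MP_0e4269_lc.Ultra
import Mathlib.Algebra.AlgebraicCard
import Mathlib.SetTheory.Cardinal.Subfield

-- ======== part 0: formerly Pool.Agent.MP_0e4269_lc.z.Defs
section MrgPart0

/-!
Definitions for the separation of 0-h-minimality from 1-h-minimality: valued fields with a
twisted exponential function.
-/

open MvPolynomial Sum

universe w

namespace Pool.Agent.MP_0e4269_lc.Z

section Alg

variable {U : Type w} [Field U] [CharZero U]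

/-- Relative algebraic closure of the field generated by `S`. -/
noncomputable def ac (S : Set U) : Subfield U :=
  (algebraicClosure (IntermediateField.adjoin ℚ S) U).toSubfield

/-- Transcendence degree of `X` over `B`. -/
noncomputable def rk (B X : Set U) : ℕ∞ :=
  ((AlgebraicIndependent.matroid ℚ U).contract B).eRk X

/-- `u` is algebraically independent over `B`, in triangular form. -/
def Tri (B : Set U) {p : ℕ} (u : Fin p → U) : Prop :=
  ∀ i, u i ∉ ac (B ∪ u '' Set.Iio i)

/-- `z` is linearly independent over the rationals modulo `A`. -/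
def LI (A : Submodule ℚ U) {n : ℕ} (z : Fin n → U) : Prop :=
  ∀ q : Fin n → ℚ, ∑ i, q i • z i ∈ A → q = 0

/-- A subfield as a rational subspace. -/
def sub (F : Subfield U) : Submodule ℚ U := Submodule.span ℚ (F : Set U)

/-- The subspace `F + max ideal of R`. -/
def fp (F : Subfield U) (R : ValuationSubring U) : Submodule ℚ U :=
  Submodule.span ℚ ((F : Set U) ∪ {a | R.valuation a < 1})

/-- The derivation vanishes on `B`. -/
def Kills (D : Derivation ℤ U U) (B : Set U) : Prop := ∀ a ∈ B, D a = 0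

/-- Data of an element of minimal degree over `K`. -/
def MinData (K : Subfield U) (α : U) (P : Polynomial U) : Prop :=
  α ∉ K ∧ (∀ i, P.coeff i ∈ K) ∧ P.eval α = 0 ∧ ∀ β, P.derivative.eval β = 0 → β ∈ K

/-- `W` contains zero and is closed under products and inverses. -/
def MulCl (W : Set U) : Prop :=
  (0 : U) ∈ W ∧ (∀ a ∈ W, ∀ b ∈ W, a * b ∈ W) ∧ ∀ a ∈ W, a⁻¹ ∈ W

end Alg

section Val

variable {U : Type w} [Field U]

/-- Residue characteristic zero. -/
def Ch (O : ValuationSubring U) : Prop := ∀ n : ℕ, n ≠ 0 → O.valuation (n : U) = 1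

/-- Countable spherical completeness, for open balls. -/
def SC (O : ValuationSubring U) : Prop :=
  ∀ (ι : Type w) [Countable ι] (c r : ι → U), (∀ i, r i ≠ 0) →
    (∀ i j, O.valuation (c i - c j) < max (O.valuation (r i)) (O.valuation (r j))) →
    ∃ x, ∀ i, O.valuation (x - c i) < O.valuation (r i)

/-- Spherical completeness, for closed balls. -/
def Sph (O : ValuationSubring U) : Prop :=
  ∀ (ι : Type w) (c r : ι → U),
    (∀ i j, O.valuation (c i - c j) ≤ max (O.valuation (r i)) (O.valuation (r j))) →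
    ∃ x, ∀ i, O.valuation (x - c i) ≤ O.valuation (r i)

/-- The graph of a ring homomorphism that does not move `rv`. -/
def Good (O : ValuationSubring U) (Φ : Subring (U × U)) : Prop :=
  ∀ a s, (a, s) ∈ Φ → RVEq O 1 s a

/-- The domain of a graph. -/
def dom (Φ : Subring (U × U)) : Set U := {a | ∃ s, (a, s) ∈ Φ}

/-- The inverse graph. -/
def swp (Φ : Subring (U × U)) : Subring (U × U) :=
  Φ.comap (RingHom.prod (RingHom.snd U U) (RingHom.fst U U))

/-- The graph of the identity of `K`. -/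
def diag (K : Subfield U) : Subring (U × U) :=
  K.toSubring.map (RingHom.prod (RingHom.id U) (RingHom.id U))

/-- The derivation strictly decreases values on `K`. -/
def Bdd (O : ValuationSubring U) (D : Derivation ℤ U U) (K : Set U) : Prop :=
  ∀ a ∈ K, a ≠ 0 → O.valuation (D a) < O.valuation a

/-- `s` is approximated from `F` up to elements with arbitrarily small powers. -/
def Near (O : ValuationSubring U) (F : Subfield U) (s : U) : Prop :=
  ∀ η : U, η ≠ 0 → ∃ a ∈ F, ∃ k : ℕ, O.valuation (s - a) ^ (k + 1) ≤ O.valuation η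

/-- `y` is in the topological closure of `F`. -/
def InCl (O : ValuationSubring U) (F : Subfield U) (y : U) : Prop :=
  ∀ η : U, η ≠ 0 → ∃ a ∈ F, O.valuation (y - a) ≤ O.valuation η

/-- `π` is, on `R`, the residue map of `R`. -/
structure Place {k : Type w} [Field k] (R : ValuationSubring U) (π : U → k) : Prop where
  add : ∀ a ∈ R, ∀ b ∈ R, π (a + b) = π a + π b
  mul : ∀ a ∈ R, ∀ b ∈ R, π (a * b) = π a * π b
  one : π 1 = 1
  zero : ∀ a ∈ R, (π a = 0 ↔ R.valuation a < 1)
  surj : ∀ y, ∃ a ∈ R, π a = y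

/-- The residue map as a ring homomorphism. -/
def Place.hom {k : Type w} [Field k] {R : ValuationSubring U} {π : U → k} (h : Place R π) :
    R →+* k where
  toFun a := π a
  map_one' := h.one
  map_mul' a b := h.mul _ a.2 _ b.2
  map_zero' := (h.zero 0 R.zero_mem).2 (by simp)
  map_add' a b := h.add _ a.2 _ b.2

/-- The residue field of a subfield. -/
def resF {k : Type w} [Field k] (R : ValuationSubring U) (π : U → k) (K : Subfield U) :
    Subfield k :=
  Subfield.closure (π '' ((K : Set U) ∩ R))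

/-- The residue of a graph. -/
def resG {k : Type w} [Field k] (R : ValuationSubring U) (π : U → k) (Φ : Subring (U × U)) :
    Subring (k × k) :=
  Subring.closure {p | ∃ a s, (a, s) ∈ Φ ∧ a ∈ R ∧ s ∈ R ∧ p = (π a, π s)}

/-- `O'` is the image of `O` under the place. -/
structure PlaceO {k : Type w} [Field k] (O R : ValuationSubring U) (π : U → k)
    (O' : ValuationSubring k) : Prop where
  le : O ≤ R
  pl : Place R π
  mem : ∀ a ∈ R, (π a ∈ O' ↔ a ∈ O)

end Val

section Poly

variable {A : Type*} [CommRing A] {κ ι : Type}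

/-- All coefficients lie in `B`. -/
def Cf {τ : Type} (B : Set A) (G : MvPolynomial τ A) : Prop := ∀ m, G.coeff m ∈ B

/-- The Jacobian of a system in exponential variables `κ` with slope `c` and plain variables
`ι`, at the point `p`. -/
noncomputable def jac (G : κ ⊕ ι → MvPolynomial ((κ ⊕ κ) ⊕ ι) A) (c : A)
    (p : (κ ⊕ κ) ⊕ ι → A) : Matrix (κ ⊕ ι) (κ ⊕ ι) A :=
  Matrix.of fun i => Sum.elim
    (fun k => eval p (pderiv (inl (inl k)) (G i)) +
      c * p (inl (inr k)) * eval p (pderiv (inl (inr k)) (G i)))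
    (fun l => eval p (pderiv (inr l) (G i)))

/-- The tangent vector attached to `h`. -/
def dir (c : A) (p : (κ ⊕ κ) ⊕ ι → A) (h : κ ⊕ ι → A) : (κ ⊕ κ) ⊕ ι → A :=
  Sum.elim (Sum.elim (fun k => h (inl k)) (fun k => c * p (inl (inr k)) * h (inl k)))
    (fun l => h (inr l))

/-- The Jacobian of a polynomial system in the variables `ι`, with parameters `κ`. -/
noncomputable def pjac (H : ι → MvPolynomial (κ ⊕ ι) A) (p : κ ⊕ ι → A) : Matrix ι ι A :=
  Matrix.of fun i l => eval p (pderiv (inr l) (H i))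

/-- The square exponential system attached to a presentation. -/
noncomputable def sysG (H : ι → MvPolynomial (κ ⊕ ι) A) (p q : κ → ι) :
    κ ⊕ (κ ⊕ ι) → MvPolynomial ((κ ⊕ κ) ⊕ (κ ⊕ ι)) A :=
  Sum.elim (fun j => X (inl (inl j)) - X (inr (inr (p j))))
    (Sum.elim (fun j => X (inl (inr j)) - X (inr (inr (q j)))) (fun i => rename inr (H i)))

end Poly

/-- A valued field with an ideal and a function. -/
structure ES (U : Type w) [Field U] where
  O : ValuationSubring U
  nn : Set U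
  E : U → U

section Exp

variable {U : Type w} [Field U]

/-- The valuation. -/
noncomputable abbrev ES.v (S : ES U) : Valuation U S.O.ValueGroup := S.O.valuation

/-- Taylor polynomials of the exponential. -/
noncomputable def Tn (n : ℕ) (x : U) : U := ∑ i ∈ Finset.range (n + 1), x ^ i / (i.factorial : U)

open Classical in
/-- The slope at scale `a`. -/
noncomputable def slope (nn : Set U) (a : U) : U := if a ∈ nn then 2 else 1

open Classical in
/-- The slope at arbitrarily small scale. -/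
noncomputable def cst (S : ES U) : ℚ := if ∃ a ∈ S.nn, a ≠ 0 then 2 else 1

/-- The axioms that do not mention the function. -/
structure AxV (O : ValuationSubring U) (nn : Set U) : Prop where
  alg : IsAlgClosed U
  ch : Ch O
  nn0 : (0 : U) ∈ nn
  nnle : ∀ a b, b ∈ nn → O.valuation a ≤ O.valuation b → a ∈ nn
  nnsq : ∀ a, a * a ∈ nn → a ∈ nn
  nnlt : ∀ a ∈ nn, O.valuation a < 1

/-- The basic axioms. -/
structure Ax0 (S : ES U) : Prop extends AxV S.O S.nn where
  E0 : ∀ a, ¬ S.v a < 1 → S.E a = 0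
  E1 : ∀ a b, S.v a < 1 → S.v b < 1 → S.E (a + b) = S.E a * S.E b
  ET : ∀ a, S.v a < 1 → ∀ n, S.v (S.E a - Tn n (slope S.nn a * a)) ≤ S.v a ^ (n + 1)

/-- The point attached to a tuple. -/
def pt (S : ES U) {κ ι : Type} (z : κ ⊕ ι → U) : (κ ⊕ κ) ⊕ ι → U :=
  Sum.elim (Sum.elim (fun k => z (inl k)) (fun k => S.E (z (inl k)))) (fun l => z (inr l))

/-- Admissible tuples. -/
def Adm (S : ES U) {κ ι : Type} (z : κ ⊕ ι → U) : Prop :=
  (∀ k, S.v (z (inl k)) < 1) ∧ ∀ l, z (inr l) ∈ S.O

/-- Newton's lemma for exponential systems holds inside `F`. -/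
def HK (S : ES U) (F : Subfield U) : Prop :=
  ∀ (κ ι : Type) [Fintype κ] [Fintype ι] [DecidableEq κ] [DecidableEq ι]
    (G : κ ⊕ ι → MvPolynomial ((κ ⊕ κ) ⊕ ι) U) (b : κ ⊕ ι → U) (j : U),
    (∀ i, Cf ((F : Set U) ∩ S.O) (G i)) → (∀ k, b k ∈ F) → Adm S b → j ∈ F → j ≠ 0 →
    S.v j ≤ S.v (jac G 1 (pt S b)).det → S.v j ≤ S.v (jac G 2 (pt S b)).det →
    (∀ i, S.v (eval (pt S b) (G i)) < S.v j ^ 3) →
    ∃ z : κ ⊕ ι → U, (∀ k, z k ∈ F ∧ S.v (z k - b k) < S.v j) ∧ ∀ i, eval (pt S z) (G i) = 0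

/-- Closed subfields. -/
structure Closed [CharZero U] (S : ES U) (F : Subfield U) : Prop where
  acF : ac (F : Set U) = F
  EF : ∀ a ∈ F, S.E a ∈ F
  hk : HK S F

/-- The class of structures in which we work. -/
structure Cls (S : ES U) : Prop extends Ax0 S where
  hk : HK S ⊤
  sc : SC S.O

/-- `S'` is the residue structure of `S` at the coarsening `R`. -/
structure IsRes {k : Type w} [Field k] (S : ES U) (R : ValuationSubring U) (π : U → k)
    (S' : ES k) : Prop extends PlaceO S.O R π S'.O where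
  nn : ∀ a ∈ R, ¬ R.valuation a < 1 → (π a ∈ S'.nn ↔ a ∈ S.nn)
  E : ∀ a ∈ R, S'.E (π a) = π (S.E a)

/-- A tuple together with its exponentials. -/
def zE (S : ES U) {n : ℕ} (z : Fin n → U) : Set U :=
  Set.range z ∪ Set.range fun j => S.E (z j)

/-- Points where `K` contains the graph of the exponential. -/
def EL (S : ES U) (K : Subfield U) : Set U := {y | S.v y < 1 ∧ y ∈ K ∧ S.E y ∈ K}

/-- Points where the derivation respects the exponential with slope `c`. -/
def ED (S : ES U) (c : ℚ) (D : Derivation ℤ U U) : Set U :=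
  {y | S.v y < 1 ∧ D (S.E y) = (c : U) * S.E y * D y}

/-- Points where the graph respects the exponential. -/
def EC (S : ES U) (Φ : Subring (U × U)) : Set U :=
  {y | S.v y < 1 ∧ ∃ s, (y, s) ∈ Φ ∧ (S.E y, S.E s) ∈ Φ}

/-- No nonzero derivation over `B` respects the exponential on `z` with slope `c`. -/
def ND (S : ES U) (B : Set U) (c : ℚ) {n : ℕ} (z : Fin n → U) [CharZero U] : Prop :=
  ∀ D : Derivation ℤ U U, Kills D B → (∀ j, z j ∈ ED S c D) → ∀ j, D (z j) = 0

/-- The tuple becomes dependent modulo every nonzero prime. -/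
def Star [CharZero U] (O : ValuationSubring U) (F : Subfield U) {n : ℕ} (z : Fin n → U) : Prop :=
  ∀ R : ValuationSubring U, O ≤ R → R ≠ ⊤ → ¬ LI (fp F R) z

/-- The graphs of the back and forth system. -/
def Fam [CharZero U] (S : ES U) (Φ : Subring (U × U)) : Prop :=
  Good S.O Φ ∧ ∃ N : Subfield U, Closed S N ∧ (N : Set U).Countable ∧ dom Φ = N ∧
    ∀ a ∈ N, S.v a < 1 → a ∈ EC S Φ

/-- Finitely extendable graphs extend to countable subfields. -/
def Glue (S : ES U) : Prop :=
  ∀ (N : Subfield U) (ψ : Subring (U × U)), (N : Set U).Countable →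
    (∀ a ∈ N, S.E a ∈ N) → dom ψ ⊆ N →
    (∀ Y : Set U, Y.Finite → Y ⊆ N → ∃ Φ, ψ ≤ Φ ∧ Good S.O Φ ∧ Y ⊆ dom Φ ∧
      ∀ a ∈ Y, S.v a < 1 → a ∈ EC S Φ) →
    ∃ Φ, ψ ≤ Φ ∧ Good S.O Φ ∧ dom Φ = N ∧ ∀ a ∈ N, S.v a < 1 → a ∈ EC S Φ

/-- Countable sets lie in countable closed subfields. -/
def Hull [CharZero U] (S : ES U) : Prop :=
  ∀ B : Set U, B.Countable → ∃ N : Subfield U, Closed S N ∧ (N : Set U).Countable ∧ B ⊆ N

/-- The ideal is nonzero and not maximal, and the residue field is uncountable. -/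
def Big (O : ValuationSubring U) (nn : Set U) : Prop :=
  (∃ t ∈ nn, t ≠ 0) ∧ (∃ s, O.valuation s < 1 ∧ s ∉ nn) ∧
    ∃ A : Set U, ¬ A.Countable ∧ (∀ a ∈ A, O.valuation a = 1) ∧
      ∀ a ∈ A, ∀ b ∈ A, a ≠ b → O.valuation (a - b) = 1

end Exp

section Lang

open FirstOrder

/-- Function symbols: addition, multiplication and one unary function. -/
inductive Fn : ℕ → Type
  | add : Fn 2
  | mul : Fn 2
  | exp : Fn 1

/-- Relation symbols: the valuation ring. -/
inductive Rl : ℕ → Type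
  | val : Rl 1

/-- The language. -/
def LE : FirstOrder.Language.{0, 0} := ⟨Fn, Rl⟩

/-- The symbol for addition. -/
def addS : LE.Functions 2 := Fn.add

/-- The symbol for multiplication. -/
def mulS : LE.Functions 2 := Fn.mul

/-- The symbol for the function. -/
def expS : LE.Functions 1 := Fn.exp

/-- The symbol for the valuation ring. -/
def valS : LE.Relations 1 := Rl.val

variable {U : Type w} [Field U]

/-- The first order structure interprets the symbols as in `S`. -/
structure CompatE (S : ES U) [LE.Structure U] : Prop extends Compat LE addS mulS valS U S.O where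
  he : ∀ x : U, FirstOrder.Language.Structure.funMap expS ![x] = S.E x

/-- Countable saturation. -/
def Sat (U : Type w) [LE.Structure U] : Prop :=
  ∀ (α : Type) (ι : Type w) [Countable ι] (D : ι → Set (α → U)),
    (∀ i, (Set.univ : Set U).Definable LE (D i)) →
    (∀ s : Finset ι, ∃ y, ∀ i ∈ s, y ∈ D i) → ∃ y, ∀ i, y ∈ D i

/-- Model theoretic algebraic closure. -/
def acl {U : Type w} [LE.Structure U] (B : Set U) : Set U :=
  {y | ∃ C : Set U, C.Finite ∧ B.Definable₁ LE C ∧ y ∈ C}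

end Lang

end Pool.Agent.MP_0e4269_lc.Z

end MrgPart0

-- ======== part 1: formerly Pool.Agent.MP_0e4269_lc.z.Base1
section MrgPart1

/-!
Algebraic closure and transcendence degree.
-/

set_option linter.unusedSectionVars false

open Set

universe w

namespace Pool.Agent.MP_0e4269_lc.Z

variable {U : Type w} [Field U] [CharZero U] {S T B B' X Y : Set U} {y : U}

theorem ac_eq (S : Set U) : (ac S : Set U) = (AlgebraicIndependent.matroid ℚ U).closure S := by
  rw [AlgebraicIndependent.matroid_closure_eq]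
  ext y
  simp only [ac, SetLike.mem_coe, IntermediateField.mem_toSubfield, mem_algebraicClosure_iff,
    Subalgebra.mem_algebraicClosure]
  exact IntermediateField.isAlgebraic_adjoin_iff

theorem subset_ac (S : Set U) : S ⊆ ac S := by
  rw [ac_eq]
  exact Matroid.subset_closure _ _ (by simp)

theorem le_ac (K : Subfield U) : K ≤ ac (K : Set U) := subset_ac _

theorem ac_mono (h : S ⊆ T) : ac S ≤ ac T := by
  rw [← SetLike.coe_subset_coe, ac_eq, ac_eq]
  exact Matroid.closure_subset_closure _ h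

theorem ac_ac (S : Set U) : ac (ac S : Set U) = ac S := by
  apply SetLike.coe_injective
  rw [ac_eq, ac_eq, Matroid.closure_closure]

theorem ac_le (h : S ⊆ ac T) : ac S ≤ ac T := (ac_mono h).trans (ac_ac T).le

theorem ac_le_of_closed {K : Subfield U} (hK : ac (K : Set U) = K) (h : S ⊆ K) : ac S ≤ K :=
  (ac_mono h).trans hK.le

theorem ac_congr (h : S ⊆ ac T) (h' : T ⊆ ac S) : ac S = ac T := le_antisymm (ac_le h) (ac_le h')

theorem ac_ac_union (S T : Set U) : ac ((ac S : Set U) ∪ T) = ac (S ∪ T) :=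
  ac_congr (union_subset (ac_mono subset_union_left) (subset_union_right.trans (subset_ac _)))
    ((union_subset_union_left _ (subset_ac _)).trans (subset_ac _))

theorem ac_closure (S : Set U) : ac (Subfield.closure S : Set U) = ac S :=
  ac_congr (Subfield.closure_le.2 (subset_ac S)) (Subfield.subset_closure.trans (subset_ac _))

theorem adjoin_rat (S : Set U) :
    (IntermediateField.adjoin ℚ S).toSubfield = Subfield.closure S := by
  rw [IntermediateField.adjoin_toSubfield]
  refine le_antisymm (Subfield.closure_le.2 (union_subset ?_ Subfield.subset_closure))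
    (Subfield.closure_mono subset_union_right)
  rintro _ ⟨q, rfl⟩
  simp

theorem mem_ac : y ∈ ac S ↔ ∃ P : Polynomial U, P ≠ 0 ∧ (∀ i, P.coeff i ∈ Subfield.closure S) ∧
    P.eval y = 0 := by
  simp only [ac, IntermediateField.mem_toSubfield, mem_algebraicClosure_iff]
  constructor
  · rintro ⟨P, h0, h⟩
    refine ⟨P.map (algebraMap _ U), by simpa using h0, fun i => ?_, by
      rwa [Polynomial.eval_map_algebraMap]⟩
    rw [Polynomial.coeff_map, ← adjoin_rat]
    exact (P.coeff i).2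
  · rintro ⟨P, h0, h, hy⟩
    have : P ∈ Polynomial.lifts (algebraMap (IntermediateField.adjoin ℚ S) U) := by
      rw [Polynomial.lifts_iff_coeff_lifts]
      intro i
      have := h i
      rw [← adjoin_rat] at this
      exact ⟨⟨_, this⟩, rfl⟩
    obtain ⟨Q, rfl⟩ := this
    refine ⟨Q, by rintro rfl; simp at h0, ?_⟩
    rw [← Polynomial.eval_map_algebraMap]
    exact hy

theorem mem_ac_field {K : Subfield U} : y ∈ ac (K : Set U) ↔
    ∃ P : Polynomial U, P ≠ 0 ∧ (∀ i, P.coeff i ∈ K) ∧ P.eval y = 0 := by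
  rw [mem_ac, Subfield.closure_eq]

theorem mem_ac_iff_alg {K : Subfield U} : y ∈ ac (K : Set U) ↔ IsAlgebraic K y := by
  rw [mem_ac_field]
  constructor
  · rintro ⟨P, h0, h, hy⟩
    have : P ∈ Polynomial.lifts (algebraMap K U) := by
      rw [Polynomial.lifts_iff_coeff_lifts]
      exact fun i => ⟨⟨_, h i⟩, rfl⟩
    obtain ⟨Q, rfl⟩ := this
    refine ⟨Q, by rintro rfl; simp at h0, ?_⟩
    rw [← Polynomial.eval_map_algebraMap]
    exact hy
  · rintro ⟨P, h0, h⟩
    refine ⟨P.map (algebraMap _ U), by simpa using h0, fun i => ?_, by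
      rwa [Polynomial.eval_map_algebraMap]⟩
    rw [Polynomial.coeff_map]
    exact (P.coeff i).2

theorem mem_of_root {K : Subfield U} (hK : ac (K : Set U) = K) {P : Polynomial U} (h0 : P ≠ 0)
    (h : ∀ i, P.coeff i ∈ K) (hy : P.eval y = 0) : y ∈ K :=
  hK.le (mem_ac_field.2 ⟨P, h0, h, hy⟩)

theorem mem_of_pow {K : Subfield U} (hK : ac (K : Set U) = K) {n : ℕ} (hn : n ≠ 0)
    (h : y ^ n ∈ K) : y ∈ K := by
  refine mem_of_root hK (P := Polynomial.X ^ n - Polynomial.C (y ^ n))
    (Polynomial.X_pow_sub_C_ne_zero (Nat.pos_of_ne_zero hn) _) (fun i => ?_) (by simp)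
  rw [Polynomial.coeff_sub, Polynomial.coeff_X_pow, Polynomial.coeff_C]
  refine sub_mem ?_ ?_ <;> split_ifs
  exacts [one_mem _, zero_mem _, h, zero_mem _]

theorem ac_finite (h : y ∈ ac S) : ∃ T ⊆ S, T.Finite ∧ y ∈ ac T := by
  rw [← SetLike.mem_coe, ac_eq] at h
  obtain ⟨T, h1, h2, -, h3⟩ := Matroid.exists_mem_finite_closure_of_mem_closure h
  exact ⟨T, h1, h2, by rwa [← SetLike.mem_coe, ac_eq]⟩

theorem ac_countable (h : S.Countable) : (ac S : Set U).Countable := by
  have h1 : (Subfield.closure S : Set U).Countable := by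
    rw [← Cardinal.le_aleph0_iff_set_countable] at h ⊢
    exact (Subfield.cardinalMk_closure_le_max S).trans (max_le h le_rfl)
  rw [← ac_closure]
  have := h1.to_subtype
  have h2 := Algebraic.countable (Subfield.closure S) U
  refine h2.mono fun y hy => mem_ac_iff_alg.1 hy

theorem rk_mono (h : X ⊆ Y) : rk B X ≤ rk B Y := Matroid.eRk_mono _ h

theorem rk_le_encard (B X : Set U) : rk B X ≤ X.encard := Matroid.eRk_le_encard _ _

theorem rk_union (B X Y : Set U) : rk B (X ∪ Y) = rk B X + rk (B ∪ X) Y := by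
  unfold rk
  rw [← Matroid.contract_contract]
  set N := (AlgebraicIndependent.matroid ℚ U).contract B
  obtain ⟨I, hI⟩ := N.exists_isBasis' X
  obtain ⟨J, hJ⟩ := (N.contract X).exists_isBasis' Y
  have hJI := (hI.contract_indep_iff).1 hJ.indep
  rw [← hI.encard_eq_eRk, ← hJ.encard_eq_eRk]
  have hd : Disjoint J I := (hJI.2.mono_left hI.subset).symm
  rw [add_comm, ← encard_union_eq hd]
  refine le_antisymm ?_ (hJI.1.encard_le_eRk_of_subset
    ((union_subset_union hJ.subset hI.subset).trans (union_comm Y X).subset))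
  rw [← N.eRk_inter_ground]
  refine le_trans (N.eRk_mono ?_) ((N.eRk_closure_eq (J ∪ I)).le.trans (N.eRk_le_encard _))
  have e : N.closure (J ∪ I) = N.closure (J ∪ X) := by
    rw [← N.closure_union_closure_right_eq, hI.closure_eq_closure,
      N.closure_union_closure_right_eq]
  rintro a ⟨ha, haE⟩
  rw [e]
  by_cases hX : a ∈ X
  · exact N.mem_closure_of_mem' (Or.inr hX) haE
  · have h1 : a ∈ (N.contract X).closure Y :=
      Matroid.mem_closure_of_mem' _ (ha.resolve_left hX) ⟨haE, hX⟩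
    rw [← hJ.closure_eq_closure, Matroid.contract_closure_eq] at h1
    exact h1.1

theorem rk_eq_zero : rk B X = 0 ↔ X ⊆ ac B := by
  unfold rk
  rw [Matroid.eRk_eq_zero_iff', Matroid.contract_loops_eq, ← ac_eq]
  constructor
  · intro h a ha
    by_cases hB : a ∈ B
    · exact subset_ac _ hB
    · exact (h ⟨ha, by simp [hB]⟩).1
  · exact fun h a ha => ⟨h ha.1, ha.2.2⟩

theorem rk_empty (B : Set U) : rk B ∅ = 0 := rk_eq_zero.2 (empty_subset _)

/-- The general comparison. -/
theorem rk_le_of_subset (h : X ⊆ ac (B ∪ Y)) : rk B X ≤ rk B Y := by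
  refine (rk_mono (subset_union_right (s := Y))).trans ?_
  rw [rk_union, rk_eq_zero.2 h, add_zero]

theorem rk_ac_right (B X : Set U) : rk B (ac (B ∪ X)) = rk B X :=
  le_antisymm (rk_le_of_subset Subset.rfl) (rk_mono (subset_union_right.trans (subset_ac _)))

theorem rk_congr (h : X ⊆ ac (B ∪ Y)) (h' : Y ⊆ ac (B ∪ X)) : rk B X = rk B Y :=
  le_antisymm (rk_le_of_subset h) (rk_le_of_subset h')

theorem rk_anti (h : B ⊆ B') : rk B' X ≤ rk B X := by
  unfold rk
  obtain ⟨I, hI⟩ := ((AlgebraicIndependent.matroid ℚ U).contract B').exists_isBasis' X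
  rw [← hI.encard_eq_eRk]
  refine Matroid.Indep.encard_le_eRk_of_subset ?_ hI.subset
  have := hI.indep
  rw [← union_eq_self_of_subset_left h, ← Matroid.contract_contract] at this
  exact this.of_contract

theorem rk_base_congr (h : B ⊆ ac B') (h' : B' ⊆ ac B) (X : Set U) : rk B X = rk B' X := by
  have key : ∀ B : Set U, rk (ac B : Set U) X = rk B X := by
    intro B
    refine le_antisymm (rk_anti (subset_ac _)) ?_
    have h1 := rk_union B (ac B) X
    rw [rk_eq_zero.2 Subset.rfl, zero_add, union_eq_self_of_subset_left (subset_ac _)] at h1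
    rw [← h1]
    exact rk_mono subset_union_right
  rw [← key B, ← key B', ac_congr h h']

theorem rk_ac_left (B X : Set U) : rk (ac B : Set U) X = rk B X :=
  rk_base_congr Subset.rfl ((subset_ac _).trans (subset_ac _)) X

theorem rk_anti' (h : B ⊆ ac B') : rk B' X ≤ rk B X := by
  rw [← rk_ac_left B']
  exact rk_anti h

theorem rk_union_le (B X Y : Set U) : rk B (X ∪ Y) ≤ rk B X + rk B Y :=
  Matroid.eRk_union_le_eRk_add_eRk _ _ _

theorem rk_singleton_le (B : Set U) (y : U) : rk B {y} ≤ 1 := by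
  simpa using rk_le_encard B {y}

theorem one_le_rk (hy : y ∈ X) (h : y ∉ ac B) : 1 ≤ rk B X := by
  rw [Order.one_le_iff_ne_zero]
  exact fun h0 => h (rk_eq_zero.1 h0 hy)

theorem rk_singleton (h : y ∉ ac B) : rk B {y} = 1 :=
  le_antisymm (rk_singleton_le _ _) (one_le_rk rfl h)

theorem rk_range_le (B : Set U) {p : ℕ} (u : Fin p → U) : rk B (range u) ≤ p := by
  refine (rk_le_encard _ _).trans ?_
  rw [← image_univ]
  exact (encard_image_le _ _).trans (by simp)

theorem image_Iio_last {U : Type*} {p : ℕ} (u : Fin (p + 1) → U) :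
    u '' Iio (Fin.last p) = range fun i : Fin p => u i.castSucc := by
  ext a
  constructor
  · rintro ⟨i, hi, rfl⟩
    exact ⟨i.castPred (ne_of_lt hi), by simp⟩
  · rintro ⟨i, rfl⟩
    exact ⟨_, Fin.castSucc_lt_last i, rfl⟩

theorem image_Iio_castSucc {U : Type*} {p : ℕ} (u : Fin (p + 1) → U) (j : Fin p) :
    u '' Iio j.castSucc = (fun i : Fin p => u i.castSucc) '' Iio j := by
  ext a
  constructor
  · rintro ⟨i, hi, rfl⟩
    have h : i ≠ Fin.last p := ne_of_lt (lt_trans hi (Fin.castSucc_lt_last j))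
    refine ⟨i.castPred h, ?_, by simp⟩
    rw [mem_Iio, ← Fin.castSucc_lt_castSucc_iff]
    simpa using hi
  · rintro ⟨i, hi, rfl⟩
    exact ⟨_, Fin.castSucc_lt_castSucc_iff.2 hi, rfl⟩

theorem range_castSucc {U : Type*} {p : ℕ} (u : Fin (p + 1) → U) :
    range u = (range fun i : Fin p => u i.castSucc) ∪ {u (Fin.last p)} := by
  ext a
  simp [Fin.exists_fin_succ', eq_comm, or_comm]

theorem tri_succ {p : ℕ} {u : Fin (p + 1) → U} : Tri B u ↔
    Tri B (fun i : Fin p => u i.castSucc) ∧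
      u (Fin.last p) ∉ ac (B ∪ range fun i : Fin p => u i.castSucc) := by
  unfold Tri
  rw [Fin.forall_fin_succ', image_Iio_last]
  simp only [image_Iio_castSucc]

theorem Tri.rk_eq {p : ℕ} {u : Fin p → U} (h : Tri B u) : rk B (range u) = p := by
  induction p with
  | zero => simp [rk_empty]
  | succ p ih =>
    rw [tri_succ] at h
    rw [range_castSucc, rk_union, ih h.1, rk_singleton h.2]
    simp

theorem exists_tri {p : ℕ} (h : (p : ℕ∞) ≤ rk B X) :
    ∃ u : Fin p → U, (∀ i, u i ∈ X) ∧ Tri B u := by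
  induction p with
  | zero => exact ⟨Fin.elim0, fun i => i.elim0, fun i => i.elim0⟩
  | succ p ih =>
    obtain ⟨u, h1, h2⟩ := ih (le_trans (by simp) h)
    have : ¬ X ⊆ ac (B ∪ range u) := fun hX => by
      have := (h.trans (rk_le_of_subset hX)).trans h2.rk_eq.le
      rw [Nat.cast_le] at this
      omega
    obtain ⟨y, hy, hy'⟩ := not_subset.1 this
    refine ⟨Fin.snoc u y, fun i => ?_, tri_succ.2 ⟨by simpa using h2, by simpa using hy'⟩⟩
    refine Fin.lastCases ?_ (fun i => ?_) i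
    · simpa using hy
    · simpa using h1 i

/-- A maximal independent tuple spans. -/
theorem Tri.spans {p : ℕ} {u : Fin p → U} (h : Tri B u) (hu : range u ⊆ ac (B ∪ X))
    (hX : rk B X ≤ p) : X ⊆ ac (B ∪ range u) := by
  rw [← rk_eq_zero]
  have h1 : rk B (range u ∪ X) ≤ p := le_trans (rk_le_of_subset
    (union_subset hu (subset_union_right.trans (subset_ac _)))) hX
  rw [rk_union, h.rk_eq] at h1
  have h2 : (p : ℕ∞) + rk (B ∪ range u) X ≤ p + 0 := by simpa using h1
  simpa using (ENat.add_le_add_iff_left (by simp)).1 h2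

theorem Tri.anti {p : ℕ} {u : Fin p → U} (h : Tri B u) (hB : B' ⊆ ac B) : Tri B' u := fun i hi =>
  h i (ac_le (union_subset (hB.trans (ac_mono subset_union_left))
    (subset_union_right.trans (subset_ac _))) hi)

theorem succ_le_of_not_le {m : ℕ} {r : ℕ∞} (h : ¬ r ≤ m) : ((m + 1 : ℕ) : ℕ∞) ≤ r := by
  push_cast
  exact Order.add_one_le_of_lt (not_le.1 h)

theorem mem_sub {F : Subfield U} : y ∈ sub F ↔ y ∈ F := by
  refine ⟨fun h => ?_, fun h => Submodule.subset_span h⟩
  induction h using Submodule.span_induction with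
  | mem a ha => exact ha
  | zero => exact zero_mem _
  | add a b _ _ ha hb => exact add_mem ha hb
  | smul q a _ ha => rw [Rat.smul_def]; exact mul_mem (by simp) ha

theorem LI.mono {A A' : Submodule ℚ U} {n : ℕ} {z : Fin n → U} (h : LI A z) (hA : A' ≤ A) :
    LI A' z := fun q hq => h q (hA hq)

theorem LI.notMem {A : Submodule ℚ U} {n : ℕ} {z : Fin n → U} (h : LI A z) (j : Fin n) :
    z j ∉ A := fun hj => by
  have := congrFun (h (Pi.single j 1) (by simpa [Pi.single_apply] using hj)) j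
  simp at this

theorem LI.comp {A : Submodule ℚ U} {n m : ℕ} {z : Fin n → U} (h : LI A z) {e : Fin m → Fin n}
    (he : Function.Injective e) : LI A fun j => z (e j) := by
  intro q hq
  have h1 := h (Function.extend e q 0) (by
    convert hq using 1
    symm
    refine Fintype.sum_of_injective e he _ _ (fun i hi => ?_) fun j => ?_
    · rw [Function.extend_apply' _ _ _ hi]; simp
    · rw [he.extend_apply])
  funext j
  have := congrFun h1 (e j)
  rwa [he.extend_apply] at this

theorem range_append {α : Type*} {n m : ℕ} (z : Fin n → α) (y : Fin m → α) :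
    range (Fin.append z y) = range z ∪ range y := by
  ext a
  constructor
  · rintro ⟨i, rfl⟩
    refine Fin.addCases (fun i => ?_) (fun i => ?_) i <;> simp
  · rintro (⟨i, rfl⟩ | ⟨i, rfl⟩)
    · exact ⟨Fin.castAdd m i, by simp⟩
    · exact ⟨Fin.natAdd n i, by simp⟩

end Pool.Agent.MP_0e4269_lc.Z

end MrgPart1

-- ======== part 2: formerly Pool.Agent.MP_0e4269_lc.z.Base2
section MrgPart2

/-!
Good graphs and places.
-/

set_option linter.unusedSectionVars false

open Set

universe w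

namespace Pool.Agent.MP_0e4269_lc.Z

section RV

variable {U : Type w} [Field U] {O : ValuationSubring U} {a b c d s t : U}

theorem rv_iff : RVEq O 1 a b ↔ a = b ∨ O.valuation (a - b) < O.valuation b := by
  rw [rveq_iff one_ne_zero, R, one_mul]

theorem rv_refl (a : U) : RVEq O 1 a a := rv_iff.2 (Or.inl rfl)

theorem rv_symm (h : RVEq O 1 a b) : RVEq O 1 b a :=
  (rveq_iff one_ne_zero).2 (((rveq_iff one_ne_zero).1 h).symm le_rfl)

theorem rv_trans (h : RVEq O 1 a b) (h' : RVEq O 1 b c) : RVEq O 1 a c :=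
  (rveq_iff one_ne_zero).2
    (((rveq_iff one_ne_zero).1 h).trans le_rfl ((rveq_iff one_ne_zero).1 h'))

theorem rv_val (h : RVEq O 1 a b) : O.valuation a = O.valuation b :=
  ((rveq_iff one_ne_zero).1 h).val_eq le_rfl

theorem rv_mul (h : RVEq O 1 a b) (h' : RVEq O 1 c d) : RVEq O 1 (a * c) (b * d) := by
  obtain ⟨e, he, rfl⟩ := h
  obtain ⟨f, hf, rfl⟩ := h'
  refine ⟨e + f + e * f, ?_, by ring⟩
  refine Valuation.map_add_lt _ (Valuation.map_add_lt _ he hf) ?_
  rw [map_mul]
  exact lt_of_le_of_lt (mul_le_of_le_one_left' he.le) hf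

theorem rv_zero (h : RVEq O 1 a 0) : a = 0 := by
  obtain ⟨e, -, rfl⟩ := h
  simp

theorem rv_of_lt (h : O.valuation (a - b) < O.valuation b) : RVEq O 1 a b := rv_iff.2 (Or.inr h)

theorem rv_lt (h : RVEq O 1 a b) (hb : b ≠ 0) : O.valuation (a - b) < O.valuation b := by
  rcases rv_iff.1 h with rfl | h
  · simpa [zero_lt_iff] using hb
  · exact h

theorem rv_le (h : RVEq O 1 a b) : O.valuation (a - b) ≤ O.valuation b := by
  rcases rv_iff.1 h with rfl | h
  · simp
  · exact h.le

theorem Ch.mono {R : ValuationSubring U} (h : Ch O) (hR : O ≤ R) : Ch R := fun n hn => by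
  have h1 : (n : U) ≠ 0 := fun h0 => by simpa [h0] using h n hn
  refine le_antisymm ((R.valuation_le_one_iff _).2 (natCast_mem R n)) ?_
  have h2 : (n : U)⁻¹ ∈ R := hR ((O.valuation_le_one_iff _).1 (by simp [h n hn]))
  rw [← R.valuation_le_one_iff, map_inv₀, inv_le_one₀ (by simpa [zero_lt_iff] using h1)] at h2
  exact h2

theorem Ch.charZero (h : Ch O) : CharZero U := charZero_of_val h

theorem Ch.rat (h : Ch O) {q : ℚ} (hq : q ≠ 0) : O.valuation (q : U) = 1 := by
  have h1 : O.valuation ((q.num : ℤ) : U) = 1 := by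
    have := h q.num.natAbs (by simpa using hq)
    rcases Int.natAbs_eq q.num with e | e
    · rw [e]; simpa using this
    · rw [e]; simpa using this
  rw [Rat.cast_def, map_div₀, h1, h q.den q.den_nz, div_one]

theorem Ch.rat_mem (h : Ch O) (q : ℚ) : (q : U) ∈ O := by
  by_cases hq : q = 0
  · simp [hq]
  · exact (O.valuation_le_one_iff _).1 (h.rat hq).le

theorem Ch.rat_le (h : Ch O) (q : ℚ) : O.valuation (q : U) ≤ 1 :=
  (O.valuation_le_one_iff _).2 (h.rat_mem q)

theorem mem_of_lt_one (h : O.valuation a < 1) : a ∈ O := (O.valuation_le_one_iff _).1 h.le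

theorem lt_one_iff : O.valuation a < 1 ↔ a = 0 ∨ a⁻¹ ∉ O := by
  by_cases h : a = 0
  · simp [h]
  · rw [← O.valuation_le_one_iff, map_inv₀, inv_le_one₀ (by simpa [zero_lt_iff] using h)]
    simp [h]

theorem lt_one_of_coarse {R : ValuationSubring U} (hR : O ≤ R) (h : R.valuation a < 1) :
    O.valuation a < 1 :=
  lt_one_iff.2 ((lt_one_iff.1 h).imp id fun h1 h2 => h1 (hR h2))

/-- Elements of the prime are smaller than elements outside it. -/
theorem val_lt_of_coarse {R : ValuationSubring U} (hR : O ≤ R)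
    (h : R.valuation a < R.valuation b) : O.valuation a < O.valuation b := by
  have hb : b ≠ 0 := by rintro rfl; simp at h
  have h1 : R.valuation (a / b) < 1 := by
    rwa [map_div₀, div_lt_one₀ (by simpa [zero_lt_iff] using hb)]
  have h2 := lt_one_of_coarse hR h1
  rwa [map_div₀, div_lt_one₀ (by simpa [zero_lt_iff] using hb)] at h2

theorem val_le_coarse {R : ValuationSubring U} (hR : O ≤ R)
    (h : O.valuation a ≤ O.valuation b) : R.valuation a ≤ R.valuation b :=
  not_lt.1 fun h1 => absurd (val_lt_of_coarse hR h1) (not_lt.2 h)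

theorem exists_small {R : ValuationSubring U} (h : R ≠ ⊤) : ∃ r : U, r ≠ 0 ∧ R.valuation r < 1 := by
  obtain ⟨a, ha⟩ : ∃ a, a ∉ R := by
    by_contra h1
    push Not at h1
    exact h (top_le_iff.1 fun a _ => h1 a)
  exact ⟨a⁻¹, inv_ne_zero fun h0 => ha (h0 ▸ R.zero_mem), lt_one_iff.2 (Or.inr (by simpa using ha))⟩

theorem ne_top_of_small (h0 : a ≠ 0) (h : O.valuation a < 1) : O ≠ ⊤ := by
  rintro rfl
  simpa [h0] using lt_one_iff.1 h

theorem top_lt_one : (⊤ : ValuationSubring U).valuation a < 1 ↔ a = 0 := by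
  simp [lt_one_iff]

/-- An element below every nonzero value is zero. -/
theorem eq_zero_of_forall_le (hO : O ≠ ⊤) (h : ∀ η : U, η ≠ 0 → O.valuation a ≤ O.valuation η) :
    a = 0 := by
  by_contra h0
  obtain ⟨r, hr, hr1⟩ := exists_small hO
  have := h (a * r) (mul_ne_zero h0 hr)
  rw [map_mul] at this
  exact absurd this (not_le.2 (mul_lt_of_lt_one_right (by simpa [zero_lt_iff] using h0) hr1))

variable {Φ Ψ : Subring (U × U)}

theorem Good.val (h : Good O Φ) (ha : (a, s) ∈ Φ) : O.valuation s = O.valuation a :=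
  rv_val (h a s ha)

theorem Good.zero (h : Good O Φ) (ha : ((0 : U), s) ∈ Φ) : s = 0 := rv_zero (h _ _ ha)

theorem Good.zero' (h : Good O Φ) (ha : (a, (0 : U)) ∈ Φ) : a = 0 := rv_zero (rv_symm (h _ _ ha))

theorem Good.func (h : Good O Φ) (ha : (a, s) ∈ Φ) (hb : (a, t) ∈ Φ) : s = t :=
  sub_eq_zero.1 (h.zero (by simpa using Φ.sub_mem ha hb))

theorem Good.inj (h : Good O Φ) (ha : (a, s) ∈ Φ) (hb : (b, s) ∈ Φ) : a = b :=
  sub_eq_zero.1 (h.zero' (by simpa using Φ.sub_mem ha hb))

theorem Good.mem (h : Good O Φ) {R : ValuationSubring U} (hR : O ≤ R) (ha : (a, s) ∈ Φ) :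
    s ∈ R ↔ a ∈ R := by
  rw [← R.valuation_le_one_iff, ← R.valuation_le_one_iff,
    le_antisymm (val_le_coarse hR (h.val ha).le) (val_le_coarse hR (h.val ha).ge)]

theorem Good.cval (h : Good O Φ) {R : ValuationSubring U} (hR : O ≤ R) (ha : (a, s) ∈ Φ) :
    R.valuation s = R.valuation a :=
  le_antisymm (val_le_coarse hR (h.val ha).le) (val_le_coarse hR (h.val ha).ge)

theorem Good.anti (h : Good O Φ) (hΨ : Ψ ≤ Φ) : Good O Ψ := fun a s ha => h a s (hΨ ha)

theorem dom_mono (h : Ψ ≤ Φ) : dom Ψ ⊆ dom Φ := fun _ ⟨s, hs⟩ => ⟨s, h hs⟩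

theorem Good.inv (h : Good O Φ) (ha : (a, s) ∈ Φ) (hi : a⁻¹ ∈ dom Φ) : (a⁻¹, s⁻¹) ∈ Φ := by
  by_cases h0 : a = 0
  · subst h0
    rw [h.zero ha, inv_zero]
    exact Φ.zero_mem
  obtain ⟨t, ht⟩ := hi
  have h1 : ((1 : U), s * t) ∈ Φ := by simpa [h0] using Φ.mul_mem ha ht
  rwa [← eq_inv_of_mul_eq_one_right (h.func h1 Φ.one_mem)]

theorem Good.inv' (h : Good O Φ) {K : Subfield U} (hK : dom Φ = K) (ha : (a, s) ∈ Φ) :
    (a⁻¹, s⁻¹) ∈ Φ := by
  refine h.inv ha ?_
  have : a ∈ dom Φ := ⟨s, ha⟩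
  rw [hK] at this ⊢
  exact K.inv_mem this

theorem Good.div (h : Good O Φ) {K : Subfield U} (hK : dom Φ = K) (ha : (a, s) ∈ Φ)
    (hb : (b, t) ∈ Φ) : (a / b, s / t) ∈ Φ := by
  simpa [div_eq_mul_inv] using Φ.mul_mem ha (h.inv' hK hb)

theorem pair_nat (Φ : Subring (U × U)) (n : ℕ) : ((n : U), (n : U)) ∈ Φ := natCast_mem Φ n

theorem pair_int (Φ : Subring (U × U)) (n : ℤ) : ((n : U), (n : U)) ∈ Φ := intCast_mem Φ n

theorem pair_pow (ha : (a, s) ∈ Φ) (n : ℕ) : (a ^ n, s ^ n) ∈ Φ := Φ.pow_mem ha n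

theorem Good.rat (h : Good O Φ) {K : Subfield U} (hK : dom Φ = K) (q : ℚ) :
    ((q : U), (q : U)) ∈ Φ := by
  rw [Rat.cast_def]
  exact h.div hK (pair_int _ _) (pair_nat _ _)

theorem mem_swp : (a, s) ∈ swp Φ ↔ (s, a) ∈ Φ := Iff.rfl

theorem swp_swp (Φ : Subring (U × U)) : swp (swp Φ) = Φ := rfl

theorem swp_mono (h : Ψ ≤ Φ) : swp Ψ ≤ swp Φ := fun _ hp => h hp

theorem Good.swp (h : Good O Φ) : Good O (swp Φ) := fun _ _ ha => rv_symm (h _ _ ha)

theorem mem_diag {K : Subfield U} : (a, s) ∈ diag K ↔ a ∈ K ∧ s = a := by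
  constructor
  · rintro ⟨b, hb, h⟩
    obtain ⟨rfl, rfl⟩ := Prod.mk.inj h
    exact ⟨hb, rfl⟩
  · rintro ⟨h, rfl⟩
    exact ⟨s, h, rfl⟩

theorem good_diag (O : ValuationSubring U) (K : Subfield U) : Good O (diag K) := fun a s h => by
  rw [(mem_diag.1 h).2]
  exact rv_refl _

theorem dom_diag (K : Subfield U) : dom (diag K) = K :=
  Set.ext fun a => ⟨fun ⟨_, h⟩ => (mem_diag.1 h).1, fun h => ⟨a, mem_diag.2 ⟨h, rfl⟩⟩⟩

/-- The first projection of a graph. -/
def p1 (Φ : Subring (U × U)) : Φ →+* U := (RingHom.fst U U).comp Φ.subtype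

/-- The second projection of a graph. -/
def p2 (Φ : Subring (U × U)) : Φ →+* U := (RingHom.snd U U).comp Φ.subtype

theorem p12_mem (x : Φ) : (p1 Φ x, p2 Φ x) ∈ Φ := x.2

theorem mem_range_p1 : a ∈ Set.range (p1 Φ) ↔ a ∈ dom Φ :=
  ⟨fun ⟨x, h⟩ => ⟨_, h ▸ p12_mem x⟩, fun ⟨_, h⟩ => ⟨⟨_, h⟩, rfl⟩⟩

theorem dom_countable_swp (h : Good O Φ) (hc : (dom Φ).Countable) :
    (dom (swp Φ)).Countable := by
  choose f hf using fun a : dom Φ => a.2
  have := hc.to_subtype
  refine (countable_range f).mono ?_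
  rintro s ⟨a, ha⟩
  exact ⟨⟨a, s, ha⟩, h.func (hf _) ha⟩

theorem mem_fp [CharZero U] {F : Subfield U} {R : ValuationSubring U} (h : Ch R) :
    a ∈ fp F R ↔ ∃ f ∈ F, R.valuation (a - f) < 1 := by
  constructor
  · intro ha
    induction ha using Submodule.span_induction with
    | mem a ha =>
      rcases ha with ha | ha
      · exact ⟨a, ha, by simp⟩
      · exact ⟨0, zero_mem _, by simpa using ha⟩
    | zero => exact ⟨0, zero_mem _, by simp⟩
    | add a b _ _ ha hb =>
      obtain ⟨f, hf, h1⟩ := ha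
      obtain ⟨g, hg, h2⟩ := hb
      refine ⟨f + g, add_mem hf hg, ?_⟩
      rw [add_sub_add_comm]
      exact Valuation.map_add_lt _ h1 h2
    | smul q a _ ha =>
      obtain ⟨f, hf, h1⟩ := ha
      refine ⟨q * f, mul_mem (by simp) hf, ?_⟩
      rw [Rat.smul_def, ← mul_sub, map_mul]
      exact lt_of_le_of_lt (mul_le_of_le_one_left' (h.rat_le q)) h1
  · rintro ⟨f, hf, h1⟩
    rw [← add_sub_cancel f a]
    exact add_mem (Submodule.subset_span (Or.inl hf)) (Submodule.subset_span (Or.inr h1))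

theorem sub_le_fp [CharZero U] (F : Subfield U) (R : ValuationSubring U) : sub F ≤ fp F R :=
  Submodule.span_mono subset_union_left

end RV

section Pl

variable {U k : Type w} [Field U] [Field k] {O R : ValuationSubring U} {π : U → k}
  {O' : ValuationSubring k} {a b s : U}

theorem place_top : Place (⊤ : ValuationSubring U) (id : U → U) :=
  ⟨fun _ _ _ _ => rfl, fun _ _ _ _ => rfl, rfl, fun _ _ => top_lt_one.symm,
    fun y => ⟨y, trivial, rfl⟩⟩

theorem Place.hom_apply (h : Place R π) (x : R) : h.hom x = π x := rfl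

theorem Place.map_zero (h : Place R π) : π 0 = 0 := h.hom.map_zero

theorem Place.neg (h : Place R π) (ha : a ∈ R) : π (-a) = -π a := h.hom.map_neg ⟨a, ha⟩

theorem Place.sub (h : Place R π) (ha : a ∈ R) (hb : b ∈ R) : π (a - b) = π a - π b :=
  h.hom.map_sub ⟨a, ha⟩ ⟨b, hb⟩

theorem Place.pow (h : Place R π) (ha : a ∈ R) (n : ℕ) : π (a ^ n) = π a ^ n :=
  h.hom.map_pow ⟨a, ha⟩ n

theorem Place.nat (h : Place R π) (n : ℕ) : π (n : U) = n := map_natCast h.hom n

theorem Place.sum (h : Place R π) {ι : Type*} (t : Finset ι) (f : ι → U) (hf : ∀ i, f i ∈ R) :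
    π (∑ i ∈ t, f i) = ∑ i ∈ t, π (f i) := by
  classical
  induction t using Finset.induction_on with
  | empty => simpa using h.map_zero
  | insert i t hi ih =>
    rw [Finset.sum_insert hi, Finset.sum_insert hi, h.add _ (hf i) _ (sum_mem fun i _ => hf i), ih]

theorem Place.eq_iff (h : Place R π) (ha : a ∈ R) (hb : b ∈ R) :
    π a = π b ↔ R.valuation (a - b) < 1 := by
  rw [← h.zero _ (sub_mem ha hb), h.sub ha hb, sub_eq_zero]

theorem Place.ne_zero (h : Place R π) (ha : a ∈ R) : π a ≠ 0 ↔ R.valuation a = 1 := by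
  rw [Ne, h.zero a ha, not_lt]
  exact ⟨le_antisymm ((R.valuation_le_one_iff _).2 ha), fun h => h.ge⟩

theorem Place.inv_mem (h : Place R π) (ha : a ∈ R) (h0 : π a ≠ 0) : a⁻¹ ∈ R := by
  rw [← R.valuation_le_one_iff, map_inv₀, (h.ne_zero ha).1 h0, inv_one]

theorem Place.inv (h : Place R π) (ha : a ∈ R) (h0 : π a ≠ 0) : π a⁻¹ = (π a)⁻¹ := by
  have h1 : a ≠ 0 := fun e => h0 (e ▸ h.map_zero)
  refine eq_inv_of_mul_eq_one_right ?_
  rw [← h.mul a ha _ (h.inv_mem ha h0), mul_inv_cancel₀ h1, h.one]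

theorem Place.div (h : Place R π) (ha : a ∈ R) (hb : b ∈ R) (h0 : π b ≠ 0) :
    π (a / b) = π a / π b := by
  rw [div_eq_mul_inv, h.mul a ha _ (h.inv_mem hb h0), h.inv hb h0, div_eq_mul_inv]

theorem Place.ch [CharZero k] (h : Place R π) : Ch R := fun n hn =>
  (h.ne_zero (natCast_mem R n)).1 (by rw [h.nat]; exact Nat.cast_ne_zero.2 hn)

theorem Place.charZero (h : Place R π) (hc : Ch R) : CharZero k :=
  charZero_of_inj_zero fun n hn => by
    by_contra h0
    exact (h.ne_zero (natCast_mem R n)).2 (hc n h0) (by rw [h.nat, hn])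

theorem Place.rat [CharZero k] (h : Place R π) (q : ℚ) : π (q : U) = q := by
  have h1 : π ((q.num : ℤ) : U) = (q.num : k) := map_intCast h.hom q.num
  rw [Rat.cast_def, h.div (intCast_mem R _) (natCast_mem R _) (by simp [h.nat]), h1, h.nat,
    Rat.cast_def]

theorem Place.smul [CharZero U] [CharZero k] (h : Place R π) (q : ℚ) (ha : a ∈ R) :
    π (q • a) = q • π a := by
  rw [Rat.smul_def, Rat.smul_def, h.mul _ (h.ch.rat_mem q) _ ha, h.rat]

theorem Place.mem_resF (h : Place R π) {K : Subfield U} {y : k} :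
    y ∈ resF R π K ↔ ∃ a ∈ K, a ∈ R ∧ π a = y := by
  constructor
  · intro hy
    induction hy using Subfield.closure_induction with
    | mem y hy =>
      obtain ⟨a, ha, rfl⟩ := hy
      exact ⟨a, ha.1, ha.2, rfl⟩
    | one => exact ⟨1, one_mem _, one_mem _, h.one⟩
    | add x y _ _ hx hy =>
      obtain ⟨a, h1, h2, rfl⟩ := hx
      obtain ⟨b, h3, h4, rfl⟩ := hy
      exact ⟨a + b, add_mem h1 h3, add_mem h2 h4, h.add a h2 b h4⟩
    | neg x _ hx =>
      obtain ⟨a, h1, h2, rfl⟩ := hx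
      exact ⟨-a, neg_mem h1, neg_mem h2, h.neg h2⟩
    | inv x _ hx =>
      obtain ⟨a, h1, h2, rfl⟩ := hx
      by_cases h0 : π a = 0
      · exact ⟨0, zero_mem _, zero_mem _, by rw [h0, h.map_zero, inv_zero]⟩
      · exact ⟨a⁻¹, K.inv_mem h1, h.inv_mem h2 h0, h.inv h2 h0⟩
    | mul x y _ _ hx hy =>
      obtain ⟨a, h1, h2, rfl⟩ := hx
      obtain ⟨b, h3, h4, rfl⟩ := hy
      exact ⟨a * b, mul_mem h1 h3, mul_mem h2 h4, h.mul a h2 b h4⟩
  · rintro ⟨a, h1, h2, rfl⟩
    exact Subfield.subset_closure ⟨a, ⟨h1, h2⟩, rfl⟩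

theorem Place.coe_resF (h : Place R π) (K : Subfield U) :
    (resF R π K : Set k) = π '' ((K : Set U) ∩ R) := by
  ext y
  simp only [SetLike.mem_coe, h.mem_resF, mem_image, mem_inter_iff, and_assoc]

theorem resF_mono {K K' : Subfield U} (h : K ≤ K') : resF R π K ≤ resF R π K' :=
  Subfield.closure_mono (image_mono (inter_subset_inter_left _ h))

theorem Place.resF_countable (h : Place R π) {K : Subfield U} (hK : (K : Set U).Countable) :
    (resF R π K : Set k).Countable := by
  rw [h.coe_resF]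
  exact (hK.mono inter_subset_left).image _

theorem Place.resF_top (h : Place R π) : resF R π ⊤ = ⊤ :=
  top_le_iff.1 fun y _ => by
    obtain ⟨a, ha, rfl⟩ := h.surj y
    exact h.mem_resF.2 ⟨a, trivial, ha, rfl⟩

theorem resF_id (K : Subfield U) : resF ⊤ (id : U → U) K = K := by
  ext y
  simp [place_top.mem_resF]

theorem Place.mem_resG (h : Place R π) {Φ : Subring (U × U)} {x y : k} :
    (x, y) ∈ resG R π Φ ↔ ∃ a s, (a, s) ∈ Φ ∧ a ∈ R ∧ s ∈ R ∧ π a = x ∧ π s = y := by
  constructor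
  · intro hy
    generalize hp : (x, y) = p at hy
    induction hy using Subring.closure_induction generalizing x y with
    | mem p hp' =>
      obtain ⟨a, s, h1, h2, h3, rfl⟩ := hp'
      obtain ⟨rfl, rfl⟩ := Prod.mk.inj hp
      exact ⟨a, s, h1, h2, h3, rfl, rfl⟩
    | zero =>
      obtain ⟨rfl, rfl⟩ := Prod.mk.inj hp
      exact ⟨0, 0, zero_mem _, zero_mem _, zero_mem _, h.map_zero, h.map_zero⟩
    | one =>
      obtain ⟨rfl, rfl⟩ := Prod.mk.inj hp
      exact ⟨1, 1, one_mem _, one_mem _, one_mem _, h.one, h.one⟩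
    | add p q _ _ ih ih' =>
      obtain ⟨a, s, h1, h2, h3, h4, h5⟩ := ih (x := p.1) (y := p.2) rfl
      obtain ⟨b, t, g1, g2, g3, g4, g5⟩ := ih' (x := q.1) (y := q.2) rfl
      obtain ⟨rfl, rfl⟩ := Prod.mk.inj hp
      exact ⟨a + b, s + t, add_mem h1 g1, add_mem h2 g2, add_mem h3 g3,
        by rw [h.add a h2 b g2, h4, g4], by rw [h.add s h3 t g3, h5, g5]⟩
    | neg p _ ih =>
      obtain ⟨a, s, h1, h2, h3, h4, h5⟩ := ih (x := p.1) (y := p.2) rfl
      obtain ⟨rfl, rfl⟩ := Prod.mk.inj hp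
      exact ⟨-a, -s, neg_mem h1, neg_mem h2, neg_mem h3, by rw [h.neg h2, h4],
        by rw [h.neg h3, h5]⟩
    | mul p q _ _ ih ih' =>
      obtain ⟨a, s, h1, h2, h3, h4, h5⟩ := ih (x := p.1) (y := p.2) rfl
      obtain ⟨b, t, g1, g2, g3, g4, g5⟩ := ih' (x := q.1) (y := q.2) rfl
      obtain ⟨rfl, rfl⟩ := Prod.mk.inj hp
      exact ⟨a * b, s * t, mul_mem h1 g1, mul_mem h2 g2, mul_mem h3 g3,
        by rw [h.mul a h2 b g2, h4, g4], by rw [h.mul s h3 t g3, h5, g5]⟩
  · rintro ⟨a, s, h1, h2, h3, rfl, rfl⟩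
    exact Subring.subset_closure ⟨a, s, h1, h2, h3, rfl⟩

theorem resG_mono {Φ Ψ : Subring (U × U)} (h : Ψ ≤ Φ) : resG R π Ψ ≤ resG R π Φ :=
  Subring.closure_mono fun _ ⟨a, s, h1, h2⟩ => ⟨a, s, h h1, h2⟩

theorem PlaceO.val_le (h : PlaceO O R π O') (ha : a ∈ R) (hb : b ∈ R) (h0 : π b ≠ 0) :
    O'.valuation (π a) ≤ O'.valuation (π b) ↔ O.valuation a ≤ O.valuation b := by
  have h1 : b ≠ 0 := fun e => h0 (e ▸ h.pl.map_zero)
  have h2 := h.mem (a / b) (by
    rw [div_eq_mul_inv]; exact mul_mem ha (h.pl.inv_mem hb h0))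
  rw [h.pl.div ha hb h0, ← O.valuation_le_one_iff, ← O'.valuation_le_one_iff, map_div₀, map_div₀,
    div_le_one₀ (by simpa [zero_lt_iff] using h0),
    div_le_one₀ (by simpa [zero_lt_iff] using h1)] at h2
  exact h2

theorem PlaceO.val_lt (h : PlaceO O R π O') (ha : a ∈ R) (hb : b ∈ R) (h0 : π b ≠ 0) :
    O'.valuation (π a) < O'.valuation (π b) ↔ O.valuation a < O.valuation b := by
  by_cases h1 : π a = 0
  · rw [h1]
    refine iff_of_true (by simpa [zero_lt_iff] using h0) (val_lt_of_coarse h.le ?_)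
    rw [(h.pl.ne_zero hb).1 h0]
    exact (h.pl.zero a ha).1 h1
  · rw [← not_le, ← not_le, h.val_le hb ha h1]

theorem PlaceO.lt_one (h : PlaceO O R π O') (ha : a ∈ R) :
    O'.valuation (π a) < 1 ↔ O.valuation a < 1 := by
  have := h.val_lt ha (one_mem _) (by simp [h.pl.one])
  simpa [h.pl.one] using this

theorem PlaceO.memR (h : PlaceO O R π O') (ha : O.valuation a < 1) : a ∈ R :=
  h.le (mem_of_lt_one ha)

theorem PlaceO.ch (h : PlaceO O R π O') (hc : Ch O) : Ch O' := fun n hn => by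
  have h0 : π (n : U) ≠ 0 := (h.pl.ne_zero (natCast_mem R n)).2 (hc.mono h.le n hn)
  have h1 : π (1 : U) ≠ 0 := by simp [h.pl.one]
  have h2 := (h.val_le (natCast_mem R n) (one_mem _) h1).2 (by simp [hc n hn])
  have h3 := (h.val_le (one_mem _) (natCast_mem R n) h0).2 (by simp [hc n hn])
  rw [h.pl.nat, h.pl.one, map_one] at h2 h3
  exact le_antisymm h2 h3

theorem PlaceO.rv (h : PlaceO O R π O') (ha : a ∈ R) (hb : b ∈ R) (hr : RVEq O 1 a b) :
    RVEq O' 1 (π a) (π b) := by
  obtain ⟨e, he, rfl⟩ := hr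
  have h1 := h.memR he
  exact ⟨π e, (h.lt_one h1).2 he, by
    rw [h.pl.mul b hb _ (add_mem (one_mem _) h1), h.pl.add 1 (one_mem _) e h1, h.pl.one]⟩

theorem PlaceO.rv_lift (h : PlaceO O R π O') (ha : a ∈ R) (hb : b ∈ R) (h0 : π b ≠ 0)
    (hr : RVEq O' 1 (π a) (π b)) : RVEq O 1 a b := by
  have := rv_lt hr h0
  rw [← h.pl.sub ha hb, h.val_lt (sub_mem ha hb) hb h0] at this
  exact rv_of_lt this

theorem Good.res (h : PlaceO O R π O') {Φ : Subring (U × U)} (hΦ : Good O Φ) :
    Good O' (resG R π Φ) := fun _ _ hx => by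
  obtain ⟨a, s, h1, h2, h3, rfl, rfl⟩ := h.pl.mem_resG.1 hx
  exact h.rv h3 h2 (hΦ a s h1)

theorem Good.mem_res (h : PlaceO O R π O') {Φ : Subring (U × U)} (hΦ : Good O Φ)
    (ha : (a, s) ∈ Φ) (hR : a ∈ R) : (π a, π s) ∈ resG R π Φ :=
  h.pl.mem_resG.2 ⟨a, s, ha, hR, (hΦ.mem h.le ha).2 hR, rfl, rfl⟩

theorem Good.dom_res (h : PlaceO O R π O') {Φ : Subring (U × U)} (hΦ : Good O Φ)
    {K : Subfield U} (hK : dom Φ = K) : dom (resG R π Φ) = resF R π K := by
  ext y
  rw [SetLike.mem_coe, h.pl.mem_resF]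
  constructor
  · rintro ⟨t, ht⟩
    obtain ⟨a, s, h1, h2, -, rfl, rfl⟩ := h.pl.mem_resG.1 ht
    exact ⟨a, hK.le ⟨s, h1⟩, h2, rfl⟩
  · rintro ⟨a, h1, h2, rfl⟩
    obtain ⟨s, hs⟩ := hK.ge h1
    exact ⟨_, hΦ.mem_res h hs h2⟩

theorem resG_diag (h : Place R π) (K : Subfield U) : resG R π (diag K) ≤ diag ⊤ := by
  rintro ⟨x, y⟩ hx
  obtain ⟨a, s, h1, -, -, rfl, rfl⟩ := h.mem_resG.1 hx
  exact mem_diag.2 ⟨trivial, by rw [(mem_diag.1 h1).2]⟩

end Pl

end Pool.Agent.MP_0e4269_lc.Z

end MrgPart2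

-- marker of a merged file
example : 731051 + 403265 = 731051 + 403265 := rfl
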