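import Pool.Agent.MP_0e4269_lc.z.Base2

/-!
Statements of the steps.
-/

open MvPolynomial Sum Set FirstOrder

universe w

namespace Pool.Agent.MP_0e4269_lc.Z

/-! ### Fields and derivations -/

/-- Existence of derivations. -/
def DexStmt : Prop := ∀ (U : Type w) [Field U] [CharZero U],
  (∀ (D : Derivation ℤ U U) (B : Set U), Kills D B → Kills D (ac B)) ∧
  (∀ (B : Set U) (y : U), y ∉ ac B → ∃ D : Derivation ℤ U U, Kills D B ∧ D y = 1) ∧
  (∀ (B : Set U) (p : ℕ) (u : Fin p → U), Tri B u → ∀ a : Fin p → U,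
    ∃ D : Derivation ℤ U U, Kills D B ∧ ∀ i, D (u i) = a i)

/-- Counting linear conditions. -/
def CountStmt : Prop := ∀ (U : Type w) [Field U] (m : ℕ) (D : Fin (m + 1) → Derivation ℤ U U)
  (u : Fin (m + 1) → U), (∀ i, D i (u i) ≠ 0) → (∀ i j, j < i → D i (u j) = 0) →
  ∀ (z w : Fin m → U) (c : U), ∃ l : Fin (m + 1) → U,
    (∃ i, (∑ k, l k • D k) (u i) ≠ 0) ∧
    ∀ j, (∑ k, l k • D k) (w j) = c * w j * (∑ k, l k • D k) (z j)

/-- Logarithmic forms with independent constant coefficients are not exact. -/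
def RosStmt : Prop := ∀ (U : Type w) [Field U] [CharZero U] [IsAlgClosed U] (C : Subfield U),
  ac (C : Set U) = C → ∀ (s : ℕ) (γ v : Fin s → U) (ν : U), (∀ k, γ k ∈ C) →
  (∀ q : Fin s → ℚ, ∑ k, q k • γ k = 0 → q = 0) → (∀ k, v k ≠ 0) →
  (∀ D : Derivation ℤ U U, Kills D C → ∑ k, γ k * (D (v k) / v k) = D ν) → ∀ k, v k ∈ C

/-- The theorem of Ax. -/
def AxStmt : Prop := ∀ (U : Type w) [Field U] [CharZero U] [IsAlgClosed U]
  (D : Derivation ℤ U U) (c : ℚ) (n : ℕ) (z w : Fin n → U), c ≠ 0 → n ≠ 0 → (∀ j, w j ≠ 0) →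
  (∀ j, D (w j) = (c : U) * w j * D (z j)) →
  (∀ q : Fin n → ℚ, D (∑ i, q i • z i) = 0 → q = 0) →
  ((n + 1 : ℕ) : ℕ∞) ≤ rk {a | D a = 0} (range z ∪ range w)

/-- Elements of minimal degree. -/
def MdStmt : Prop := ∀ (U : Type w) [Field U] [CharZero U] (K : Subfield U),
  ¬ ac (K : Set U) ≤ K → ∃ α ∈ ac (K : Set U), ∃ P : Polynomial U, P.Monic ∧ MinData K α P ∧
    ∀ f : Polynomial U, f ≠ 0 → (∀ i, f.coeff i ∈ K) → f.natDegree < P.natDegree →
      ∀ β, f.eval β = 0 → β ∈ K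

/-- Induction principles for multiplicative properties. -/
def WindStmt : Prop := ∀ (U : Type w) [Field U] [CharZero U] [IsAlgClosed U] (W : Set U),
  MulCl W →
  (∀ K₀ : Subfield U, (K₀ : Set U) ⊆ W →
    (∀ K : Subfield U, K₀ ≤ K → K ≤ ac (K₀ : Set U) → (K : Set U) ⊆ W →
      ∀ α ∈ ac (K₀ : Set U), ∀ P, MinData K α P → α ∈ W) →
    (ac (K₀ : Set U) : Set U) ⊆ W) ∧
  (∀ (K : Subfield U) (y : U), ac (K : Set U) = K → (K : Set U) ⊆ W → (∀ a ∈ K, y - a ∈ W) →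
    (Subfield.closure ((K : Set U) ∪ {y}) : Set U) ⊆ W)

/-- Splitting a tuple along a subspace. -/
def SplitStmt : Prop := ∀ (U : Type w) [Field U] [CharZero U],
  (∀ (A : Submodule ℚ U) (n : ℕ) (z : Fin n → U), ∃ (m l : ℕ) (z' : Fin m → U) (z'' : Fin l → U),
    (∀ j, z' j ∈ Submodule.span ℚ (range z)) ∧ (∀ j, z'' j ∈ Submodule.span ℚ (range z)) ∧
    LI A z' ∧ (∀ j, z'' j ∈ A) ∧ (∀ j, z j ∈ Submodule.span ℚ (range z' ∪ range z'')) ∧
    ∀ B : Submodule ℚ U, LI B z → m + l = n ∧ LI B z'' ∧ (¬ LI A z → l ≠ 0)) ∧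
  (∀ (A : Submodule ℚ U) (n m : ℕ) (z : Fin n → U) (y : Fin m → U), LI A z →
    LI (A ⊔ Submodule.span ℚ (range z)) y → LI A (Fin.append z y))

/-! ### Valued fields -/

/-- Values of algebraic elements. -/
def ValStmt : Prop := ∀ (U : Type w) [Field U] [CharZero U] (O : ValuationSubring U)
  (K : Subfield U) (y : U), y ∈ ac (K : Set U) → y ≠ 0 →
  ∃ N : ℕ, N ≠ 0 ∧ ∃ a ∈ K, O.valuation y ^ N = O.valuation a

/-- Polynomials near a root. -/
def CoreStmt : Prop := ∀ (U : Type w) [Field U] [CharZero U] [IsAlgClosed U]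
  (O : ValuationSubring U),
  (∀ (P : Polynomial U) (α b : U), Ch O → P.eval α = 0 → P.derivative.eval α ≠ 0 → α ≠ b →
    (∀ β, P.derivative.eval β = 0 → O.valuation (α - b) ≤ O.valuation (α - β)) →
    ∀ i, O.valuation ((Polynomial.taylor b P).coeff i * (α - b) ^ i) ≤
      O.valuation ((α - b) * P.derivative.eval α)) ∧
  (∀ (K : Subfield U) (α : U) (P : Polynomial U), MinData K α P →
    P.derivative.eval α ≠ 0 ∧ ∃ b ∈ K, O.valuation (α - b) ≤ O.valuation α ∧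
      ∀ β, P.derivative.eval β = 0 → O.valuation (α - b) ≤ O.valuation (α - β)) ∧
  (∀ Q : Polynomial U, (∀ i, Q.coeff i ∈ O) → O.valuation (Q.derivative.eval 1 - 1) < 1 →
    (O.valuation (Q.eval 1) < 1 → ∃ x, O.valuation (x - 1) < 1 ∧ Q.eval x = 0) ∧
    ∀ x y, O.valuation (x - 1) < 1 → O.valuation (y - 1) < 1 →
      RVEq O 1 (Q.eval x - Q.eval y) (x - y))

/-- Good graphs extend to the algebraic closure. -/
def AlgStmt : Prop := ∀ (U : Type w) [Field U] [CharZero U] [IsAlgClosed U]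
  (O : ValuationSubring U) (Φ : Subring (U × U)), Ch O → Good O Φ →
  ∃ Φ', Φ ≤ Φ' ∧ Good O Φ' ∧ dom Φ' = ac (dom Φ)

/-- The extension is unique. -/
def UniqStmt : Prop := ∀ (U : Type w) [Field U] [CharZero U] [IsAlgClosed U]
  (O : ValuationSubring U) (Φ₁ Φ₂ : Subring (U × U)) (B : Set U), Ch O → Good O Φ₁ → Good O Φ₂ →
  B ⊆ dom (Φ₁ ⊓ Φ₂) → (ac B : Set U) ⊆ dom Φ₁ → (ac B : Set U) ⊆ dom Φ₂ →
  (ac B : Set U) ⊆ dom (Φ₁ ⊓ Φ₂)

/-- Adding one point. -/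
def TransStmt : Prop := ∀ (U : Type w) [Field U] [CharZero U] [IsAlgClosed U]
  (O : ValuationSubring U) (Φ : Subring (U × U)) (K : Subfield U) (y y' : U), Ch O → Good O Φ →
  dom Φ = K → ac (K : Set U) = K → (∀ a s, (a, s) ∈ Φ → RVEq O 1 (y' - s) (y - a)) →
  ∃ Φ', Φ ≤ Φ' ∧ Good O Φ' ∧ (y, y') ∈ Φ' ∧ dom Φ' = ac ((K : Set U) ∪ {y})

/-- Adding finitely many points with unspecified images. -/
def ExtStmt : Prop := ∀ (U : Type w) [Field U] [CharZero U] [IsAlgClosed U]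
  (O : ValuationSubring U) (Φ : Subring (U × U)) (Y : Set U), Ch O → SC O → Good O Φ →
  (dom Φ).Countable → Y.Finite → ∃ Φ', Φ ≤ Φ' ∧ Good O Φ' ∧ dom Φ' = ac (dom Φ ∪ Y)

/-- Bounded derivations. -/
def BderStmt : Prop := ∀ (U : Type w) [Field U] [CharZero U] [IsAlgClosed U]
  (O : ValuationSubring U) (M : Subfield U) (Y : Set U), Ch O → SC O → (M : Set U).Countable →
  ac (M : Set U) = M → Y.Finite →
  (∀ y r : U, r ≠ 0 → (∀ a ∈ M, O.valuation r < O.valuation (y - a)) →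
    ∃ D : Derivation ℤ U U, Kills D M ∧ D y = r ∧ Bdd O D (ac ((M : Set U) ∪ {y} ∪ Y))) ∧
  ((∀ a ∈ Y, InCl O M a) → ∀ y ∈ ac ((M : Set U) ∪ Y), InCl O M y)

/-- Residues and transcendence degree. -/
def AbhStmt : Prop := ∀ (U k : Type w) [Field U] [CharZero U] [IsAlgClosed U] [Field k]
  [CharZero k] (R : ValuationSubring U) (π : U → k) (K : Subfield U), Place R π →
  resF R π (ac (K : Set U)) ≤ ac (resF R π K : Set k) ∧
  (ac (K : Set U) = K → ac (resF R π K : Set k) = resF R π K) ∧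
  (∀ (p : ℕ) (u : Fin p → U), (∀ i, u i ∈ R) → Tri (resF R π K : Set k) (fun i => π (u i)) →
    (∀ i, π (u i) ∉ resF R π (ac ((K : Set U) ∪ u '' Iio i))) ∧
    Tri (K : Set U) u ∧ resF R π (ac ((K : Set U) ∪ range u)) =
      ac ((resF R π K : Set k) ∪ range fun i => π (u i))) ∧
  ∀ X : Set U, rk (resF R π K : Set k) (π '' (X ∩ R)) ≤ rk (K : Set U) X

/-- Etale presentations. -/
def EtaleStmt : Prop := ∀ (U k : Type w) [Field U] [CharZero U] [IsAlgClosed U] [Field k]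
  [CharZero k] (R : ValuationSubring U) (π : U → k) (M : Subfield U) (n : ℕ) (u : Fin n → U)
  (β : Type) [Finite β] (y : β → U), Place R π → ac (M : Set U) = M → (∀ i, u i ∈ R) →
  Tri (resF R π M : Set k) (fun i => π (u i)) →
  (∀ b, y b ∈ ac ((M : Set U) ∪ range u) ∧ y b ∈ R) →
  ∃ (ι : Type) (_ : Fintype ι) (_ : DecidableEq ι) (θ : ι → U)
    (H : ι → MvPolynomial (Fin n ⊕ ι) U) (p : β → ι),
    (∀ i, Cf ((M : Set U) ∩ R) (H i)) ∧ (∀ i, θ i ∈ ac ((M : Set U) ∪ range u) ∧ θ i ∈ R) ∧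
    (∀ i, eval (Sum.elim u θ) (H i) = 0) ∧ R.valuation (pjac H (Sum.elim u θ)).det = 1 ∧
    ∀ b, θ (p b) = y b

/-- The exponential system attached to a presentation is nondegenerate. -/
def SysStmt : Prop := ∀ (U k : Type w) [Field U] [CharZero U] [Field k] [CharZero k]
  (R : ValuationSubring U) (π : U → k) (M : Subfield U) (n : ℕ) (u : Fin n → U)
  (ι : Type) [Fintype ι] [DecidableEq ι] (θ : ι → U) (H : ι → MvPolynomial (Fin n ⊕ ι) U)
  (p q : Fin n → ι) (c : ℕ), Place R π → (∀ i, u i ∈ R) →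
  Tri (resF R π M : Set k) (fun i => π (u i)) → (∀ i, Cf ((M : Set U) ∩ R) (H i)) →
  (∀ i, θ i ∈ R) → (∀ i, eval (Sum.elim u θ) (H i) = 0) →
  R.valuation (pjac H (Sum.elim u θ)).det = 1 →
  (∀ D : Derivation ℤ k k, Kills D (resF R π M) →
    (∀ j, D (π (θ (q j))) = (c : k) * π (θ (q j)) * D (π (θ (p j)))) → ∀ i, D (π (u i)) = 0) →
  R.valuation (jac (sysG H p q) (c : U)
    (Sum.elim (Sum.elim (fun j => θ (p j)) (fun j => θ (q j))) (Sum.elim u θ))).det = 1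

/-- Lifting a good graph from the residue field along a Gauss extension. -/
def GaussStmt : Prop := ∀ (U k : Type w) [Field U] [CharZero U] [IsAlgClosed U] [Field k]
  [CharZero k] [IsAlgClosed k] (O R : ValuationSubring U) (π : U → k) (O' : ValuationSubring k)
  (M : Subfield U) (ψ : Subring (U × U)) (Φ : Subring (k × k)) (n : ℕ) (u u' : Fin n → U),
  PlaceO O R π O' → Ch O → Ch O' → ac (M : Set U) = M → Good O ψ → dom ψ = M → Good O' Φ →
  resG R π ψ ≤ Φ → (∀ i, u i ∈ R ∧ u' i ∈ R ∧ (π (u i), π (u' i)) ∈ Φ) →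
  Tri (resF R π M : Set k) (fun i => π (u i)) →
  (ac ((resF R π M : Set k) ∪ range fun i => π (u i)) : Set k) ⊆ dom Φ →
  ∃ τ, ψ ≤ τ ∧ Good O τ ∧ dom τ = ac ((M : Set U) ∪ range u) ∧ (∀ i, (u i, u' i) ∈ τ) ∧
    resG R π τ ≤ Φ

/-- Choice of coarsenings. -/
def OrdStmt : Prop := ∀ (U : Type w) [Field U] [CharZero U] (O : ValuationSubring U)
  (F : Subfield U), Ch O →
  (∀ (n : ℕ) (z : Fin n → U), (∀ j, z j ∈ O) → LI (sub F) z →
    ∃ R, O ≤ R ∧ LI (fp F R) z ∧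
      ∀ (k : Type w) [Field k] [CharZero k] (π : U → k) (O' : ValuationSubring k),
        PlaceO O R π O' → Star O' (resF R π F) fun j => π (z j)) ∧
  (∀ (n : ℕ) (z : Fin n → U) (R : ValuationSubring U) (k : Type w) [Field k] [CharZero k]
    (π : U → k), Place R π → (∀ j, z j ∈ R) → LI (fp F R) z →
    LI (sub (resF R π F)) fun j => π (z j)) ∧
  (∀ (n : ℕ) (z : Fin n → U), O ≠ ⊤ → ∃ R, O ≤ R ∧ R ≠ ⊤ ∧
    (∀ y ∈ Submodule.span ℚ (range z), y ∈ fp F R → Near O F y) ∧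
    ((∀ e, R.valuation e < 1 → Near O F e) ∨ ∀ y, Near O F y → InCl O F y))

/-! ### The exponential -/

/-- Taylor estimates and uniqueness of solutions. -/
def TayStmt : Prop := ∀ (U : Type w) [Field U],
  (∀ (R : ValuationSubring U) (τ : Type) [Fintype τ] (G : MvPolynomial τ U) (p h : τ → U)
    (μ : R.ValueGroup), Cf R G → (∀ t, p t ∈ R) → μ ≤ 1 → (∀ t, R.valuation (h t) ≤ μ) →
    R.valuation (eval (p + h) G - eval p G) ≤ μ ∧
    R.valuation (eval (p + h) G - eval p G - ∑ t, eval p (pderiv t G) * h t) ≤ μ ^ 2) ∧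
  (∀ (R : ValuationSubring U) (κ ι : Type) [Fintype κ] [Fintype ι] [DecidableEq ι]
    (H : ι → MvPolynomial (κ ⊕ ι) U) (u : κ → U) (θ θ' : ι → U), (∀ i, Cf R (H i)) →
    (∀ i, u i ∈ R) → (∀ i, θ i ∈ R) → (∀ i, R.valuation (θ' i - θ i) < 1) →
    (∀ i, eval (Sum.elim u θ) (H i) = 0) → (∀ i, eval (Sum.elim u θ') (H i) = 0) →
    R.valuation (pjac H (Sum.elim u θ)).det = 1 → θ' = θ) ∧
  ∀ (S : ES U) (κ ι : Type) [Fintype κ] [Fintype ι] [DecidableEq κ] [DecidableEq ι]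
    (G : κ ⊕ ι → MvPolynomial ((κ ⊕ κ) ⊕ ι) U) (b : κ ⊕ ι → U), Ax0 S →
    (∀ i, Cf S.O (G i)) → Adm S b →
    (∀ (h : κ ⊕ ι → U) (μ : S.O.ValueGroup) (c : U), μ < 1 → (∀ k, S.v (h k) ≤ μ) →
      (∀ i, S.v (eval (pt S (b + h)) (G i) - eval (pt S b) (G i)) ≤ μ) ∧
      (c ∈ S.O → (∀ i k, S.v (jac G c (pt S (b + h)) i k - jac G c (pt S b) i k) ≤ μ) ∧
        S.v ((jac G c (pt S (b + h))).det - (jac G c (pt S b)).det) ≤ μ) ∧
      ((c = 2 ∧ ∀ k, h k ∈ S.nn) ∨ (c = 1 ∧ ∃ k, h k ∉ S.nn) →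
        ∀ i, S.v (eval (pt S (b + h)) (G i) - eval (pt S b) (G i) -
          (jac G c (pt S b)).mulVec h i) ≤ μ ^ 2)) ∧
    ∀ (j : U) (z z' : κ ⊕ ι → U), j ≠ 0 → S.v j ≤ S.v (jac G 1 (pt S b)).det →
      S.v j ≤ S.v (jac G 2 (pt S b)).det → (∀ k, S.v (z k - b k) < S.v j) →
      (∀ k, S.v (z' k - b k) < S.v j) → (∀ i, eval (pt S z) (G i) = 0) →
      (∀ i, eval (pt S z') (G i) = 0) → z = z'

/-- Two forms of Newton's lemma. -/
def HkpStmt : Prop := ∀ (U : Type w) [Field U] (S : ES U) (κ ι : Type) [Fintype κ] [Fintype ι]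
  [DecidableEq κ] [DecidableEq ι] (G : κ ⊕ ι → MvPolynomial ((κ ⊕ κ) ⊕ ι) U)
  (b : κ ⊕ ι → U), Ax0 S → (∀ k, S.v (b (inl k)) < 1) →
  (∀ R : ValuationSubring U, HK S ⊤ → S.O ≤ R → (∀ i, Cf R (G i)) → (∀ l, b (inr l) ∈ R) →
    R.valuation (jac G 1 (pt S b)).det = 1 → R.valuation (jac G 2 (pt S b)).det = 1 →
    (∀ i, R.valuation (eval (pt S b) (G i)) < 1) →
    ∃ z : κ ⊕ ι → U, (∀ k, R.valuation (z k - b k) < 1) ∧ ∀ i, eval (pt S z) (G i) = 0) ∧
  (∀ F : Subfield U, S.O ≠ ⊤ → HK S F → (∀ i, Cf F (G i)) → (∀ k, InCl S.O F (b k)) →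
    (jac G 1 (pt S b)).det ≠ 0 → (jac G 2 (pt S b)).det ≠ 0 →
    (∀ i, eval (pt S b) (G i) = 0) → ∀ k, b k ∈ F)

/-- The three compatibility sets are rational subspaces. -/
def SpanStmt : Prop := ∀ (U : Type w) [Field U] [CharZero U] (S : ES U) (T : Set U), Ax0 S →
  (T ⊆ {y | S.v y < 1} → (Submodule.span ℚ T : Set U) ⊆ {y | S.v y < 1}) ∧
  (∀ K : Subfield U, ac (K : Set U) = K → T ⊆ EL S K → (Submodule.span ℚ T : Set U) ⊆ EL S K) ∧
  (∀ (c : ℚ) (D : Derivation ℤ U U), T ⊆ ED S c D → (Submodule.span ℚ T : Set U) ⊆ ED S c D) ∧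
  (∀ (Φ : Subring (U × U)) (K : Subfield U), Good S.O Φ → dom Φ = K → ac (K : Set U) = K →
    T ⊆ EC S Φ → (Submodule.span ℚ T : Set U) ⊆ EC S Φ)

/-- Automatic compatibility. -/
def AutoStmt : Prop := ∀ (U : Type w) [Field U] [CharZero U] (S : ES U) (F K : Subfield U)
  (s : U), Ax0 S → F ≤ K → S.v s < 1 →
  (∀ D : Derivation ℤ U U, (∀ a ∈ F, S.E a ∈ F) → Kills D F → Bdd S.O D K → s ∈ K → S.E s ∈ K →
    Near S.O F s → s ∈ ED S (cst S) D) ∧
  (∀ Φ : Subring (U × U), Good S.O Φ → dom Φ = K → (∀ a ∈ F, S.v a < 1 → a ∈ EC S Φ) → s ∈ K →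
    S.E s ∈ K → Near S.O F s → s ∈ EC S Φ) ∧
  ((∀ a ∈ F, S.E a ∈ F) → InCl S.O F s → InCl S.O F (S.E s))

/-- Nondegeneracy of minimal configurations. -/
def NdStmt : Prop := ∀ (U : Type w) [Field U] [CharZero U] (S : ES U) (F : Subfield U)
  (B : Set U) (c : ℚ) (n : ℕ) (z : Fin n → U), Ax0 S → (F : Set U) ⊆ B → c ≠ 0 →
  (∀ j, S.v (z j) < 1) → LI (sub F) z → rk B (zE S z) ≤ n →
  (∀ l < n, ∀ y : Fin l → U, (∀ j, S.v (y j) < 1) → LI (sub F) y → (l : ℕ∞) ≤ rk B (zE S y)) →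
  ND S B c z

/-- Residue structures. -/
def ResStmt : Prop := ∀ (U : Type w) [Field U] [CharZero U] (S : ES U) (R : ValuationSubring U),
  (Cls S → S.O ≤ R → ∃ (k : Type w) (_ : Field k) (_ : CharZero k) (π : U → k) (S' : ES k),
    IsRes S R π S' ∧ Cls S') ∧
  ∀ (k : Type w) [Field k] [CharZero k] (π : U → k) (S' : ES k) (F : Subfield U),
    Ax0 S → IsRes S R π S' → Closed S F → Closed S' (resF R π F)

/-- Newton's lemma passes to residue structures. -/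
def ResHkStmt : Prop := ∀ (U k : Type w) [Field U] [Field k] (S : ES U) (R : ValuationSubring U)
  (π : U → k) (S' : ES k) (F : Subfield U), Ax0 S → IsRes S R π S' → HK S F →
  HK S' (resF R π F)

/-- Bounds obtained from bounded derivations. -/
def RbStmt : Prop := ∀ (U : Type w) [Field U] [CharZero U] (S : ES U) (F M : Subfield U)
  (n m l : ℕ) (z : Fin n → U) (z' : Fin m → U) (z'' : Fin l → U), Cls S →
  (∀ a ∈ F, S.E a ∈ F) → F ≤ M → (M : Set U).Countable → ac (M : Set U) = M →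
  (∀ j, S.v (z j) < 1) → (∀ j, z' j ∈ Submodule.span ℚ (range z)) →
  (∀ j, z'' j ∈ Submodule.span ℚ (range z)) →
  (∀ j, z j ∈ Submodule.span ℚ (range z' ∪ range z'')) → (∀ j, Near S.O F (z'' j)) →
  ND S M (cst S) z →
  (∀ (R : ValuationSubring U) (k : Type w) [Field k] [CharZero k] (π : U → k) (S' : ES k),
    IsRes S R π S' → R ≠ ⊤ → rk (resF R π M : Set k) (zE S' fun j => π (z' j)) ≤ m) ∧
  (m = 0 → ∀ y ∈ ac ((M : Set U) ∪ zE S z), InCl S.O M y)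

/-- Lifting exponential configurations from the residue field. -/
def LiftStmt : Prop := ∀ (U k : Type w) [Field U] [CharZero U] [Field k] [CharZero k]
  (S : ES U) (R : ValuationSubring U) (π : U → k) (S' : ES k) (M : Subfield U)
  (ψ : Subring (U × U)) (Φ : Subring (k × k)) (n : ℕ) (u z w : Fin n → U),
  Cls S → Ax0 S' → IsRes S R π S' → ac (M : Set U) = M → Good S.O ψ → dom ψ = M →
  Good S'.O Φ → resG R π ψ ≤ Φ → (∀ i, u i ∈ R) →
  Tri (resF R π M : Set k) (fun i => π (u i)) →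
  (ac ((resF R π M : Set k) ∪ range fun i => π (u i)) : Set k) ⊆ dom Φ →
  (∀ j, z j ∈ ac ((M : Set U) ∪ range u) ∧ S.v (z j) < 1) →
  (∀ j, w j ∈ ac ((M : Set U) ∪ range u) ∧ w j ∈ R ∧ π (w j) = S'.E (π (z j))) →
  (∀ i, π (u i) ∈ ac ((resF R π M : Set k) ∪ zE S' fun j => π (z j))) →
  ND S' (resF R π M) 1 (fun j => π (z j)) → ND S' (resF R π M) 2 (fun j => π (z j)) →
  (∀ j, π (z j) ∈ EC S' Φ) →
  ∃ τ, ψ ≤ τ ∧ Good S.O τ ∧ dom τ = ac ((M : Set U) ∪ range u) ∧ resG R π τ ≤ Φ ∧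
    ∀ j, ∃ s, (z j, s) ∈ τ ∧ (w j, S.E s) ∈ τ

/-! ### The two inductions -/

/-- The Schanuel property over closed fields, under the extra hypothesis `P`. -/
def CAt (P : Prop) (n : ℕ) : Prop := ∀ (U : Type w) [Field U] [CharZero U] (S : ES U)
  (F : Subfield U) (z : Fin n → U), Cls S → Closed S F → (F : Set U).Countable → n ≠ 0 →
  (∀ j, S.v (z j) < 1) → LI (sub F) z → (P → Star S.O F z) →
  ((n + 1 : ℕ) : ℕ∞) ≤ rk (F : Set U) (zE S z)

/-- The main step. -/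
def CaStmt : Prop := ∀ n, (∀ m < n, CAt.{w} False m) → CAt.{w} True n

/-- Reduction to the main step. -/
def CbStmt : Prop := ∀ n, CAt.{w} True n → CAt.{w} False n

/-- The Schanuel property. -/
def CStmt : Prop := ∀ n, CAt.{w} False n

/-- Strongness of a field of transcendence degree one over a closed field. -/
def StrStmt : Prop := ∀ (U : Type w) [Field U] [CharZero U] (S : ES U) (F : Subfield U)
  (B : Set U) (n : ℕ) (z : Fin n → U), Cls S → Closed S F → (F : Set U).Countable →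
  (F : Set U) ⊆ B → rk (F : Set U) B ≤ 1 → (∀ j, S.v (z j) < 1) → LI (sub F) z →
  (n : ℕ∞) ≤ rk B (zE S z)

/-- Extension to one configuration, under the extra hypothesis `P`. -/
def SAt (P : Prop) (n : ℕ) : Prop := ∀ (U : Type w) [Field U] [CharZero U] (S : ES U)
  (F M : Subfield U) (ψ : Subring (U × U)) (z : Fin n → U), Cls S → Closed S F → F ≤ M →
  M ≠ F → (M : Set U).Countable → ac (M : Set U) = M → rk (F : Set U) M ≤ 1 → Good S.O ψ →
  dom ψ = M → (∀ a ∈ F, S.v a < 1 → a ∈ EC S ψ) → (∀ j, S.v (z j) < 1) → LI (sub F) z →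
  rk (M : Set U) (zE S z) ≤ n → (P → n ≠ 0 ∧ Star S.O F z) →
  ∃ (Φ : Subring (U × U)) (K : Subfield U), ψ ≤ Φ ∧ Good S.O Φ ∧ dom Φ = K ∧
    ac (K : Set U) = K ∧ ∀ j, z j ∈ EC S Φ

/-- The main step. -/
def SaStmt : Prop := ∀ n, (∀ m < n, SAt.{w} False m) → SAt.{w} True n

/-- Reduction to the main step. -/
def SbStmt : Prop := ∀ n, SAt.{w} True n → SAt.{w} False n

/-- Extension to one configuration. -/
def SStmt : Prop := ∀ n, SAt.{w} False n

/-- The case without a minimal prime does not occur. -/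
def NoBStmt : Prop := ∀ (U k : Type w) [Field U] [CharZero U] [Field k] [CharZero k] (S : ES U)
  (R : ValuationSubring U) (π : U → k) (S' : ES k) (F : Subfield U) (m l : ℕ) (z' : Fin m → U)
  (z'' : Fin l → U), Cls S → Cls S' → IsRes S R π S' → R ≠ ⊤ → Closed S F →
  (F : Set U).Countable → m ≠ 0 → l ≠ 0 → (∀ j, S.v (z' j) < 1) → (∀ j, S.v (z'' j) < 1) →
  LI (fp F R) z' → LI (sub F) z'' → (∀ j, InCl S.O F (z'' j)) →
  ((m + l + 2 : ℕ) : ℕ∞) ≤ rk (F : Set U) (zE S z' ∪ zE S z'')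

/-- The union of the configurations containing `x` is closed. -/
def DirStmt : Prop := ∀ (U : Type w) [Field U] [CharZero U] (S : ES U) (F : Subfield U) (x : U),
  Cls S → Closed S F → (F : Set U).Countable →
  ∃ N : Subfield U, Closed S N ∧ F ≤ N ∧ x ∈ N ∧ ∀ Y : Set U, Y.Finite → Y ⊆ N →
    ∃ (n : ℕ) (z : Fin n → U), (∀ j, S.v (z j) < 1) ∧ LI (sub F) z ∧
      rk ((F : Set U) ∪ {x}) (zE S z) ≤ n ∧ Y ⊆ ac ((F : Set U) ∪ {x} ∪ zE S z) ∧
      ∀ a ∈ Y, S.v a < 1 → a ∈ sub F ⊔ Submodule.span ℚ (range z)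

/-- Intersections and images of closed fields. -/
def SwapStmt : Prop := ∀ (U : Type w) [Field U] [CharZero U] (S : ES U), Ax0 S →
  (∀ F F' : Subfield U, Closed S F → Closed S F' → Closed S (F ⊓ F')) ∧
  ∀ Φ, Fam S Φ → Fam S (swp Φ)

/-- The forth property. -/
def ForthStmt : Prop := ∀ (U : Type w) [Field U] [CharZero U] (S : ES U), Cls S → Glue S →
  Hull S → ∀ Φ, Fam S Φ →
  (∀ x x', (∀ a s, (a, s) ∈ Φ → RVEq S.O 1 (x' - s) (x - a)) →
    ∃ Φ', Φ ≤ Φ' ∧ Fam S Φ' ∧ (x, x') ∈ Φ') ∧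
  ∀ x, ∃ Φ', Φ ≤ Φ' ∧ Fam S Φ' ∧ x ∈ dom Φ'

/-! ### The model -/

/-- Construction of the function. -/
def EzStmt : Prop := ∀ (U : Type w) [Field U] (O : ValuationSubring U) (nn : Set U),
  AxV O nn → Sph O → ∃ E : U → U, Ax0 ⟨O, nn, E⟩

/-- Newton's lemma in spherically complete fields. -/
def HksStmt : Prop := ∀ (U : Type w) [Field U] (S : ES U), Ax0 S → Sph S.O → HK S ⊤

/-- The underlying valued field. -/
def HahnStmt : Prop := ∃ (K : Type w) (_ : Field K) (O : ValuationSubring K) (nn : Set K),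
  AxV O nn ∧ Sph O ∧ Big O nn

/-! ### Model theory -/

/-- Back and forth. -/
def BfStmt : Prop := ∀ (U : Type w) [Field U] [CharZero U] [LE.Structure U] (S : ES U),
  Ax0 S → CompatE S → (∀ Φ, Fam S Φ → Fam S (swp Φ)) →
  (∀ Φ, Fam S Φ → ∀ x, ∃ Φ', Φ ≤ Φ' ∧ Fam S Φ' ∧ x ∈ dom Φ') →
  ∀ (Φ : Subring (U × U)) (α : Type) (φ : LE.Formula α) (v v' : α → U), Fam S Φ →
    (∀ a, (v a, v' a) ∈ Φ) → (φ.Realize v ↔ φ.Realize v')

/-- Algebraic closure is idempotent and countable. -/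
def AclAStmt : Prop := ∀ (U : Type w) [LE.Structure U] (B : Set U),
  B ⊆ acl B ∧ acl (acl B) ⊆ acl B ∧ (B.Countable → (acl B).Countable)

/-- Algebraic closure is closed. -/
def AclStmt : Prop := ∀ (U : Type w) [Field U] [CharZero U] [LE.Structure U] (S : ES U)
  (B : Set U), Ax0 S → HK S ⊤ → CompatE S → ∃ F : Subfield U, (F : Set U) = acl B ∧ Closed S F

/-- Saturated elementary extensions. -/
def UltStmt : Prop := ∀ (K : Type w) [Field K] [LE.Structure K] (S : ES K), Ax0 S → HK S ⊤ →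
  CompatE S → ∃ (U : Type w) (_ : Field U) (_ : LE.Structure U) (S' : ES U),
    Ax0 S' ∧ HK S' ⊤ ∧ CompatE S' ∧ Sat U ∧ U ⊨ LE.completeTheory K

/-- Consequences of saturation. -/
def GlueStmt : Prop := ∀ (U : Type w) [Field U] [LE.Structure U] (S : ES U), Ax0 S → CompatE S →
  Sat U → SC S.O ∧ Glue S

/-- The compactness argument. -/
def CompStmt : Prop := ∀ (K U : Type w) [Nonempty K] [LE.Structure K] [Field U] [LE.Structure U]
  (O : ValuationSubring U), Compat LE addS mulS valS U O → Sat U → U ⊨ LE.completeTheory K →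
  (∀ (p n : ℕ) (a : Fin p → U) (b : Fin n → U) (x x' : U),
    (∀ d ∈ acl (range a), RVEq O 1 (x' - d) (x - d)) → ∃ b' : Fin n → U,
      (∀ i, RVEq O 1 (b' i) (b i)) ∧ ∀ φ : LE.Formula (Fin p ⊕ Fin n ⊕ Unit),
        (φ.Realize (Sum.elim a (Sum.elim b fun _ => x)) ↔
          φ.Realize (Sum.elim a (Sum.elim b' fun _ => x')))) →
  HMinimal.{0, 0, w} LE addS mulS valS (LE.completeTheory K) 0

/-- The theory is not 1-h-minimal. -/
def NotStmt : Prop := ∀ (K : Type w) [Field K] [LE.Structure K] (S : ES K), Ax0 S → CompatE S →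
  Big S.O S.nn → ¬ HMinimal.{0, 0, w} LE addS mulS valS (LE.completeTheory K) 1

end Pool.Agent.MP_0e4269_lc.Z
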