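import Mathlib.Algebra.Polynomial.Lifts
import Mathlib.Algebra.Polynomial.Taylor
import Pool.Agent.MP_0e4269_lc.z.Spec
import Pool.Agent.MP_0e4269_lc.z.Base2
import Mathlib.RingTheory.Derivation.Lie
import Mathlib.RingTheory.Localization.Module
import Mathlib.LinearAlgebra.FreeModule.PID
import Mathlib.LinearAlgebra.Dimension.Free
import Mathlib.LinearAlgebra.FiniteDimensional.Lemmas

-- ======== part 0: formerly Pool.Agent.MP_0e4269_lc.z.Alg
section MrgPart0

/-!
Good graphs extend to the algebraic closure, and by one point.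
-/

set_option linter.unusedSectionVars false

open Set Polynomial

universe w

namespace Pool.Agent.MP_0e4269_lc.Z

namespace Alg

variable {U : Type w} [Field U] {O : ValuationSubring U}

theorem one_add {e : U} (he : O.valuation e < 1) : O.valuation (1 + e) = 1 :=
  O.valuation.map_one_add_of_lt he

theorem one_add_ne {e : U} (he : O.valuation e < 1) : (1 + e) ≠ 0 := by
  intro h
  have := one_add he
  rw [h, map_zero] at this
  exact zero_ne_one this

theorem rv_refl (x : U) : RVEq O 1 x x := ⟨0, by simp, by simp⟩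

theorem rv_mul {x y x' y' : U} (h : RVEq O 1 x y) (h' : RVEq O 1 x' y') :
    RVEq O 1 (x * x') (y * y') := by
  obtain ⟨e, he, rfl⟩ := h
  obtain ⟨e', he', rfl⟩ := h'
  refine ⟨e + e' * (1 + e), ?_, by ring⟩
  refine O.valuation.map_add_lt he ?_
  rw [map_mul, one_add he, mul_one]
  exact he'

theorem rv_inv {x y : U} (h : RVEq O 1 x y) : RVEq O 1 x⁻¹ y⁻¹ := by
  obtain ⟨e, he, rfl⟩ := h
  have h1 := one_add_ne he
  refine ⟨-e / (1 + e), ?_, ?_⟩
  · rw [map_div₀, one_add he, div_one, Valuation.map_neg]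
    exact he
  · rw [mul_inv]
    congr 1
    field_simp
    ring

theorem rv_symm {x y : U} (h : RVEq O 1 x y) : RVEq O 1 y x := by
  obtain ⟨e, he, rfl⟩ := h
  have h1 := one_add_ne he
  refine ⟨-e / (1 + e), ?_, ?_⟩
  · rw [map_div₀, one_add he, div_one, Valuation.map_neg]
    exact he
  · field_simp
    ring

theorem rv_trans {x y z : U} (h : RVEq O 1 x y) (h' : RVEq O 1 y z) : RVEq O 1 x z := by
  obtain ⟨e, he, rfl⟩ := h
  obtain ⟨e', he', rfl⟩ := h'
  refine ⟨e + e' * (1 + e), ?_, by ring⟩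
  refine O.valuation.map_add_lt he ?_
  rw [map_mul, one_add he, mul_one]
  exact he'

theorem rv_of_lt {x y : U} (h : O.valuation (x - y) < O.valuation y) : RVEq O 1 x y := by
  have hy : y ≠ 0 := by
    rintro rfl
    simp at h
  refine ⟨(x - y) / y, ?_, by field_simp; ring⟩
  rw [map_div₀, div_lt_one₀ (by simpa [pos_iff_ne_zero] using hy)]
  exact h

theorem rv_ne {x y : U} (h : RVEq O 1 x y) (hy : y ≠ 0) : x ≠ 0 := by
  obtain ⟨e, he, rfl⟩ := h
  exact mul_ne_zero hy (one_add_ne he)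

theorem rv_zero {x : U} (h : RVEq O 1 x 0) : x = 0 := by
  obtain ⟨e, -, rfl⟩ := h
  simp

/-- First projection. -/
def p1 (Ψ : Subring (U × U)) : Ψ →+* U := (RingHom.fst U U).comp Ψ.subtype

/-- Second projection. -/
def p2 (Ψ : Subring (U × U)) : Ψ →+* U := (RingHom.snd U U).comp Ψ.subtype

variable {Ψ : Subring (U × U)}

theorem good_rv (h : Good O Ψ) (a : Ψ) : RVEq O 1 (p2 Ψ a) (p1 Ψ a) := h _ _ a.2

theorem p1_mem (a : Ψ) : p1 Ψ a ∈ dom Ψ := ⟨_, a.2⟩

theorem p1_inj (h : Good O Ψ) : Function.Injective (p1 Ψ) := by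
  rw [injective_iff_map_eq_zero]
  intro a ha
  have h2 := good_rv h a
  rw [ha] at h2
  exact Subtype.ext (Prod.ext ha (rv_zero h2))

theorem exists_p1 {a : U} (ha : a ∈ dom Ψ) : ∃ c : Ψ, p1 Ψ c = a := by
  obtain ⟨s, hs⟩ := ha
  exact ⟨⟨_, hs⟩, rfl⟩

/-- The degree induction. -/
theorem deg_ind [IsAlgClosed U] (h : Good O Ψ) {y y' : U} (N : ℕ)
    (hroot : ∀ f : U[X], f ≠ 0 → (∀ i, f.coeff i ∈ dom Ψ) → f.natDegree < N →
      ∀ β, f.eval β = 0 → β ∈ dom Ψ)
    (hy : ∀ a : Ψ, RVEq O 1 (y' - p2 Ψ a) (y - p1 Ψ a)) :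
    ∀ (n : ℕ) (r : Ψ[X]), r.natDegree = n → n < N →
      RVEq O 1 (r.eval₂ (p2 Ψ) y') (r.eval₂ (p1 Ψ) y) := by
  intro n
  induction n with
  | zero =>
    intro r hr _
    rw [eq_C_of_natDegree_eq_zero hr, eval₂_C, eval₂_C]
    exact good_rv h _
  | succ n ih =>
    intro r hr hN
    have hd : (r.map (p1 Ψ)).natDegree = n + 1 := by
      rw [natDegree_map_eq_of_injective (p1_inj h), hr]
    have h0 : r.map (p1 Ψ) ≠ 0 := by
      intro h0
      rw [h0] at hd
      simp at hd
    obtain ⟨β, hβ⟩ := IsAlgClosed.exists_root (r.map (p1 Ψ)) (by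
      rw [degree_eq_natDegree h0, hd]
      exact_mod_cast Nat.succ_ne_zero n)
    obtain ⟨c, rfl⟩ := exists_p1 (hroot _ h0 (fun i => by rw [coeff_map]; exact p1_mem _)
      (by omega) β hβ)
    have hc : r.IsRoot c := by
      apply p1_inj h
      rw [map_zero, ← eval₂_at_apply, ← eval_map]
      exact hβ
    obtain ⟨r', rfl⟩ := dvd_iff_isRoot.2 hc
    have hr0 : r' ≠ 0 := by
      rintro rfl
      simp at hr
    have hnt : Nontrivial Ψ := inferInstance
    have hr' : r'.natDegree = n := by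
      rw [(monic_X_sub_C c).natDegree_mul' hr0, natDegree_X_sub_C] at hr
      omega
    rw [eval₂_mul, eval₂_mul, eval₂_sub, eval₂_sub, eval₂_X, eval₂_X, eval₂_C, eval₂_C]
    exact rv_mul (hy c) (ih r' hr' (by omega))

/-- The graph generated by `Ψ` and one pair. -/
noncomputable def adj (Ψ : Subring (U × U)) (y y' : U) : Subring (U × U) :=
  ((eval₂RingHom (p1 Ψ) y).prod (eval₂RingHom (p2 Ψ) y')).range

theorem mem_adj {y y' a s : U} : (a, s) ∈ adj Ψ y y' ↔
    ∃ r : Ψ[X], r.eval₂ (p1 Ψ) y = a ∧ r.eval₂ (p2 Ψ) y' = s := by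
  simp [adj, RingHom.mem_range, Prod.ext_iff]

theorem le_adj (y y' : U) : Ψ ≤ adj Ψ y y' := by
  rintro ⟨a, s⟩ h
  exact mem_adj.2 ⟨C ⟨_, h⟩, by rw [eval₂_C]; rfl, by rw [eval₂_C]; rfl⟩

theorem pair_mem_adj (y y' : U) : (y, y') ∈ adj Ψ y y' :=
  mem_adj.2 ⟨X, eval₂_X _ _, eval₂_X _ _⟩

theorem dom_adj {y y' : U} {L : Subfield U} (h : dom Ψ ⊆ L) (hy : y ∈ L) :
    dom (adj Ψ y y') ⊆ L := by
  rintro a ⟨s, hs⟩
  obtain ⟨r, rfl, -⟩ := mem_adj.1 hs
  rw [eval₂_eq_sum_range]
  exact sum_mem fun i _ => mul_mem (h (p1_mem _)) (pow_mem hy _)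

theorem dom_mono {Φ : Subring (U × U)} (h : Φ ≤ Ψ) : dom Φ ⊆ dom Ψ :=
  fun _ ⟨s, hs⟩ => ⟨s, h hs⟩

/-- The graph of fractions. -/
def frac (h : Good O Ψ) : Subring (U × U) where
  carrier := {p | ∃ a b : Ψ, p1 Ψ b ≠ 0 ∧ p = (p1 Ψ a / p1 Ψ b, p2 Ψ a / p2 Ψ b)}
  mul_mem' := by
    rintro _ _ ⟨a, b, hb, rfl⟩ ⟨a', b', hb', rfl⟩
    refine ⟨a * a', b * b', by rw [map_mul]; exact mul_ne_zero hb hb', ?_⟩
    simp only [map_mul, Prod.mk_mul_mk, div_mul_div_comm]
  one_mem' := ⟨1, 1, by simp, by simp [Prod.ext_iff]⟩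
  add_mem' := by
    rintro _ _ ⟨a, b, hb, rfl⟩ ⟨a', b', hb', rfl⟩
    have h2 := rv_ne (good_rv h b) hb
    have h2' := rv_ne (good_rv h b') hb'
    refine ⟨a * b' + b * a', b * b', by rw [map_mul]; exact mul_ne_zero hb hb', ?_⟩
    simp only [map_mul, map_add, Prod.mk_add_mk, div_add_div _ _ hb hb', div_add_div _ _ h2 h2']
  zero_mem' := ⟨0, 1, by simp, by simp [Prod.ext_iff]⟩
  neg_mem' := by
    rintro _ ⟨a, b, hb, rfl⟩
    exact ⟨-a, b, hb, by simp only [map_neg, Prod.neg_mk, neg_div]⟩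

theorem le_frac (h : Good O Ψ) : Ψ ≤ frac h := by
  rintro ⟨a, s⟩ hs
  exact ⟨⟨_, hs⟩, 1, by simp, by simp [p1, p2]⟩

theorem good_frac (h : Good O Ψ) : Good O (frac h) := by
  rintro _ _ ⟨a, b, -, hp⟩
  obtain ⟨rfl, rfl⟩ := Prod.ext_iff.1 hp
  rw [div_eq_mul_inv, div_eq_mul_inv]
  exact rv_mul (good_rv h a) (rv_inv (good_rv h b))

theorem dom_frac (h : Good O Ψ) {L : Subfield U} (hL : dom Ψ ⊆ L) : dom (frac h) ⊆ L := by
  rintro _ ⟨_, a, b, -, hp⟩
  obtain ⟨rfl, rfl⟩ := Prod.ext_iff.1 hp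
  exact div_mem (hL (p1_mem a)) (hL (p1_mem b))

/-- A graph closed under fractions has a field as its domain. -/
theorem exists_field (h : Good O Ψ) (hf : frac h ≤ Ψ) : ∃ K : Subfield U, dom Ψ = K := by
  refine ⟨{ (p1 Ψ).range with inv_mem' := ?_ }, ?_⟩
  · rintro _ ⟨b, rfl⟩
    by_cases hb : p1 Ψ b = 0
    · exact ⟨0, by simp [hb]⟩
    · exact ⟨⟨_, hf ⟨1, b, hb, rfl⟩⟩, by simp [p1]⟩
  · ext a
    exact ⟨fun ha => exists_p1 ha, fun ⟨b, hb⟩ => hb ▸ p1_mem b⟩

theorem eval_one_lt {D : U[X]} (h : ∀ i, O.valuation (D.coeff i) < 1) :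
    O.valuation (D.eval 1) < 1 := by
  rw [eval_eq_sum_range]
  exact O.valuation.map_sum_lt one_ne_zero fun i _ => by simpa using h i

theorem deriv_lt {D : U[X]} (h : ∀ i, O.valuation (D.coeff i) < 1) (i : ℕ) :
    O.valuation (D.derivative.coeff i) < 1 := by
  rw [coeff_derivative, map_mul]
  refine lt_of_le_of_lt (mul_le_of_le_one_right' ?_) (h _)
  rw [O.valuation_le_one_iff]
  exact add_mem (natCast_mem _ _) (one_mem _)

/-- The rescaled polynomial. -/
noncomputable def sc (P : U[X]) (b ξ κ : U) : U[X] := C κ⁻¹ * (taylor b P).comp (C ξ * X)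

theorem sc_coeff (P : U[X]) (b ξ κ : U) (i : ℕ) :
    (sc P b ξ κ).coeff i = (taylor b P).coeff i * ξ ^ i / κ := by
  rw [sc, coeff_C_mul, comp_C_mul_X_coeff, div_eq_inv_mul]

theorem sc_eval (P : U[X]) (b ξ κ x : U) : (sc P b ξ κ).eval x = κ⁻¹ * P.eval (ξ * x + b) := by
  simp [sc, eval_comp, taylor_eval]

theorem sc_deriv (P : U[X]) (b ξ κ x : U) :
    (sc P b ξ κ).derivative.eval x = κ⁻¹ * (ξ * P.derivative.eval (ξ * x + b)) := by
  simp [sc, eval_comp, taylor_apply, derivative_comp]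

/-- The image of an element of minimal degree. -/
theorem exists_image [CharZero U] [IsAlgClosed U] (core : CoreStmt.{w}) (hc : Ch O)
    (h : Good O Ψ) {K : Subfield U} (hK : dom Ψ = K) {α : U} {F : Ψ[X]}
    (hm : MinData K α (F.map (p1 Ψ))) :
    ∃ α', F.eval₂ (p2 Ψ) α' = 0 ∧ ∀ a : Ψ, RVEq O 1 (α' - p2 Ψ a) (α - p1 Ψ a) := by
  obtain ⟨c1, c2, c3⟩ := core U O
  obtain ⟨hd, b, hbK, -, hb⟩ := c2 K α _ hm
  obtain ⟨b, rfl⟩ := exists_p1 (Ψ := Ψ) (a := b) (by rw [hK]; exact hbK)
  have hne : ∀ a : Ψ, α - p1 Ψ a ≠ 0 := fun a ha => hm.1 (by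
    rw [sub_eq_zero.1 ha, ← SetLike.mem_coe, ← hK]
    exact p1_mem a)
  have hb1 := c1 _ α _ hc hm.2.2.1 hd (sub_ne_zero.1 (hne b)) hb
  obtain ⟨ξ, hξ⟩ : ∃ ξ, ξ = α - p1 Ψ b := ⟨_, rfl⟩
  have hξ0 : ξ ≠ 0 := hξ ▸ hne b
  rw [← hξ] at hb1
  obtain ⟨κ, hκ⟩ : ∃ κ, κ = ξ * (F.map (p1 Ψ)).derivative.eval α := ⟨_, rfl⟩
  have hκ0 : κ ≠ 0 := hκ ▸ mul_ne_zero hξ0 hd
  rw [← hκ] at hb1
  have hα : ξ * 1 + p1 Ψ b = α := by rw [hξ]; ring
  obtain ⟨Q, hQ⟩ : ∃ Q, Q = sc (F.map (p1 Ψ)) (p1 Ψ b) ξ κ := ⟨_, rfl⟩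
  obtain ⟨Q', hQ'⟩ : ∃ Q, Q = sc (F.map (p2 Ψ)) (p2 Ψ b) ξ κ := ⟨_, rfl⟩
  have hQv : ∀ i, O.valuation (Q.coeff i) ≤ 1 := fun i => by
    rw [hQ, sc_coeff, map_div₀]
    exact div_le_one_of_le₀ (hb1 i) zero_le
  have hD : ∀ i, O.valuation ((Q' - Q).coeff i) < 1 := fun i => by
    obtain ⟨e, he, h1⟩ := good_rv h ((taylor b F).coeff i)
    have h2 : Q'.coeff i - Q.coeff i = Q.coeff i * e := by
      rw [hQ, hQ', sc_coeff, sc_coeff, ← map_taylor, ← map_taylor, coeff_map, coeff_map, h1]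
      ring
    rw [coeff_sub, h2, map_mul]
    exact lt_of_le_of_lt (mul_le_of_le_one_left' (hQv i)) he
  have hQ1 : Q.eval 1 = 0 := by rw [hQ, sc_eval, hα, hm.2.2.1, mul_zero]
  have hQd : Q.derivative.eval 1 = 1 := by
    rw [hQ, sc_deriv, hα, ← hκ, inv_mul_cancel₀ hκ0]
  obtain ⟨-, u1⟩ := c3 Q (fun i => (O.valuation_le_one_iff _).1 (hQv i)) (by simp [hQd])
  obtain ⟨u0, u2⟩ := c3 Q' (fun i => by
      rw [← O.valuation_le_one_iff, ← sub_add_cancel (Q'.coeff i) (Q.coeff i), ← coeff_sub]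
      exact O.valuation.map_add_le (hD i).le (hQv i)) (by
      have := eval_one_lt (deriv_lt hD)
      rwa [derivative_sub, eval_sub, hQd] at this)
  obtain ⟨x₀, hx₀, hr⟩ := u0 (by
    have := eval_one_lt hD
    rwa [eval_sub, hQ1, sub_zero] at this)
  refine ⟨ξ * x₀ + p2 Ψ b, ?_, fun a => ?_⟩
  · rw [hQ', sc_eval, eval_map] at hr
    exact (mul_eq_zero.1 hr).resolve_left (inv_ne_zero hκ0)
  obtain ⟨e, he, h1⟩ := good_rv h (a - b)
  rw [map_sub, map_sub] at h1
  have hv0 : 0 < O.valuation (α - p1 Ψ a) := by simpa [pos_iff_ne_zero] using hne a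
  have hvξ : 0 < O.valuation ξ := by simpa [pos_iff_ne_zero] using hξ0
  rcases le_or_gt (O.valuation ξ) (O.valuation (α - p1 Ψ a)) with hle | hlt
  · apply rv_of_lt
    have h2 : ξ * x₀ + p2 Ψ b - p2 Ψ a - (α - p1 Ψ a) =
        ξ * (x₀ - 1) - (ξ - (α - p1 Ψ a)) * e := by
      rw [hξ]
      linear_combination -h1
    rw [h2]
    refine O.valuation.map_sub_lt ?_ ?_
    · rw [map_mul]
      exact lt_of_lt_of_le (mul_lt_of_lt_one_right hvξ hx₀) hle
    · rw [map_mul]
      exact lt_of_le_of_lt (mul_le_mul_left (O.valuation.map_sub_le hle le_rfl) _)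
        (mul_lt_of_lt_one_right hv0 he)
  · obtain ⟨x, hx⟩ : ∃ x, x = (p1 Ψ a - p1 Ψ b) / ξ := ⟨_, rfl⟩
    have e1 : ξ * x + p1 Ψ b = p1 Ψ a := by
      rw [hx]
      field_simp
      ring
    have e2 : ξ * (x * (1 + e)) + p2 Ψ b = p2 Ψ a := by
      linear_combination (1 + e) * e1 - h1
    have e3 : α - p1 Ψ a = -ξ * (x - 1) := by linear_combination hα.symm.trans rfl + e1
    have hx1 : O.valuation (x - 1) < 1 := by
      rw [e3, map_mul, Valuation.map_neg] at hlt
      exact (mul_lt_iff_lt_one_right hvξ).1 hlt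
    have hx2 : O.valuation (x * (1 + e) - 1) < 1 := by
      have : x * (1 + e) - 1 = (x - 1) * (1 + e) + e := by ring
      rw [this]
      refine O.valuation.map_add_lt ?_ he
      rw [map_mul, one_add he, mul_one]
      exact hx1
    have r1 := u1 x 1 hx1 (by simp)
    have r2 := u2 _ x₀ hx2 hx₀
    rw [hQ1, sub_zero, hQ, sc_eval, e1, eval_map, eval₂_at_apply] at r1
    rw [hr, sub_zero, hQ', sc_eval, e2, eval_map, eval₂_at_apply] at r2
    have r3 := rv_trans (rv_trans (rv_symm r2) (rv_mul (rv_refl κ⁻¹) (good_rv h (F.eval a)))) r1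
    have e4 : ξ * x₀ + p2 Ψ b - p2 Ψ a = -ξ * (x * (1 + e) - x₀) := by linear_combination e2
    rw [e3, e4]
    exact rv_mul (rv_refl _) r3

/-- One algebraic step. -/
theorem step [CharZero U] [IsAlgClosed U] (md : MdStmt.{w}) (core : CoreStmt.{w}) (hc : Ch O)
    (h : Good O Ψ) {K : Subfield U} (hK : dom Ψ = K) (hn : ¬ ac (K : Set U) ≤ K) :
    ∃ α ∈ ac (K : Set U), α ∉ K ∧ ∃ α', Good O (adj Ψ α α') := by
  obtain ⟨α, hα, P, hP, hm, hmin⟩ := md U K hn
  have hl : P ∈ lifts (p1 Ψ) := by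
    rw [lifts_iff_coeff_lifts]
    intro i
    exact exists_p1 (hK ▸ hm.2.1 i)
  obtain ⟨F, rfl, hdeg, hF⟩ := lifts_and_natDegree_eq_and_monic hl hP
  obtain ⟨α', h0, h1⟩ := exists_image core hc h hK hm
  refine ⟨α, hα, hm.1, α', fun a s hs => ?_⟩
  obtain ⟨r, rfl, rfl⟩ := mem_adj.1 hs
  have hF1 : F ≠ 1 := by
    rintro rfl
    have := hm.2.2.1
    simp at this
  have h0' : F.eval₂ (p1 Ψ) α = 0 := by
    rw [← eval_map]
    exact hm.2.2.1
  rw [← modByMonic_add_div r F, eval₂_add, eval₂_add, eval₂_mul, eval₂_mul, h0, h0', zero_mul,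
    zero_mul, add_zero, add_zero]
  refine deg_ind h F.natDegree (fun f hf hc hd β hβ => ?_) h1 _ _ rfl
    (natDegree_modByMonic_lt r hF hF1)
  rw [hK] at hc ⊢
  exact hmin f hf hc (hdeg ▸ hd) β hβ

end Alg

open Alg

theorem alg (md : MdStmt.{w}) (core : CoreStmt.{w}) : AlgStmt.{w} := by
  intro U _ _ _ O Φ hc hΦ
  obtain ⟨Ψ, hle, hmax⟩ := zorn_le_nonempty₀
    {Ψ : Subring (U × U) | Good O Ψ ∧ dom Ψ ⊆ ac (dom Φ)} (fun c hcs hch y hy => by
      have hm : ∀ p, p ∈ sSup c → ∃ Ψ ∈ c, p ∈ Ψ := fun p hp =>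
        (Subring.mem_sSup_of_directedOn ⟨y, hy⟩ hch.directedOn).1 hp
      refine ⟨sSup c, ⟨fun a s hs => ?_, fun a ⟨s, hs⟩ => ?_⟩, fun z hz => le_sSup hz⟩
      · obtain ⟨Ψ, h1, h2⟩ := hm _ hs
        exact (hcs h1).1 a s h2
      · obtain ⟨Ψ, h1, h2⟩ := hm _ hs
        exact (hcs h1).2 ⟨s, h2⟩) Φ ⟨hΦ, subset_ac _⟩
  obtain ⟨hg, hd⟩ := hmax.prop
  obtain ⟨K, hK⟩ := exists_field hg
    (hmax.le_of_ge ⟨good_frac hg, dom_frac hg hd⟩ (le_frac hg))
  have hac : ac (K : Set U) = ac (dom Φ) :=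
    ac_congr (hK ▸ hd) ((dom_mono hle).trans (hK ▸ subset_ac _))
  refine ⟨Ψ, hle, hg, Subset.antisymm hd ?_⟩
  rw [← hac, hK, SetLike.coe_subset_coe]
  by_contra hn
  obtain ⟨α, h1, h2, α', h3⟩ := step md core hc hg hK hn
  have := hmax.le_of_ge ⟨h3, dom_adj hd (hac ▸ h1)⟩ (le_adj α α') (pair_mem_adj α α')
  apply h2
  rw [← SetLike.mem_coe, ← hK]
  exact ⟨α', this⟩

theorem trans (alg : AlgStmt.{w}) : TransStmt.{w} := by
  intro U _ _ _ O Φ K y y' hc hΦ hK hac hy
  have hg : Good O (adj Φ y y') := fun a s hs => by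
    obtain ⟨r, rfl, rfl⟩ := mem_adj.1 hs
    refine deg_ind hΦ (r.natDegree + 1) (fun f hf hc _ β hβ => ?_) (fun a => hy _ _ a.2) _ _ rfl
      (Nat.lt_succ_self _)
    rw [hK] at hc ⊢
    exact mem_of_root hac hf hc hβ
  obtain ⟨Φ', h1, h2, h3⟩ := alg U O _ hc hg
  refine ⟨Φ', (le_adj y y').trans h1, h2, h1 (pair_mem_adj y y'), ?_⟩
  rw [h3]
  congr 1
  refine ac_congr (dom_adj (hK ▸ subset_union_left.trans (subset_ac _))
    (subset_ac _ (Or.inr rfl))) (Subset.trans ?_ (subset_ac _))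
  rintro a (ha | rfl)
  · exact dom_mono (le_adj y y') (hK ▸ ha)
  · exact ⟨y', pair_mem_adj _ _⟩

end Pool.Agent.MP_0e4269_lc.Z

end MrgPart0

-- ======== part 1: formerly Pool.Agent.MP_0e4269_lc.z.Ax
section MrgPart1

/-!
The theorem of Ax for one derivation.
-/

set_option linter.unusedSectionVars false

open Set

universe w

namespace Pool.Agent.MP_0e4269_lc.Z

namespace AxAux

variable {U : Type w} [Field U] [CharZero U]

theorem der_rat (D : Derivation ℤ U U) (c : ℚ) : D (c : U) = 0 := by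
  rw [Rat.cast_def, Derivation.leibniz_div]
  simp

theorem sum_app {ι : Type} (s : Finset ι) (B : ι → Derivation ℤ U U) (y : U) :
    (∑ j ∈ s, B j) y = ∑ j ∈ s, B j y := by
  classical
  induction s using Finset.induction_on with
  | empty => simp
  | insert i s hi ih => simp [Finset.sum_insert hi, ih]

/-- The constants of a derivation. -/
def consts (D : Derivation ℤ U U) : Subfield U where
  carrier := {a | D a = 0}
  mul_mem' := fun {a b} ha hb => by
    simp only [mem_ofPred_eq] at ha hb ⊢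
    rw [Derivation.leibniz, ha, hb]; simp
  one_mem' := D.map_one_eq_zero
  add_mem' := fun {a b} ha hb => by
    simp only [mem_ofPred_eq] at ha hb ⊢
    rw [map_add, ha, hb, add_zero]
  zero_mem' := map_zero D
  neg_mem' := fun {a} ha => by
    simp only [mem_ofPred_eq] at ha ⊢
    rw [map_neg, ha, neg_zero]
  inv_mem' := fun a ha => by
    simp only [mem_ofPred_eq] at ha ⊢
    rw [Derivation.leibniz_inv, ha]; simp

/-- The logarithmic form attached to a pair. -/
noncomputable def om (c : ℚ) (z w : U) (E : Derivation ℤ U U) : U := E w / w - (c : U) * E z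

theorem om_lie {D : Derivation ℤ U U} {c : ℚ} {z w : U} (hw : w ≠ 0)
    (h : D w = (c : U) * w * D z) (E : Derivation ℤ U U) : D (om c z w E) = om c z w ⁅D, E⁆ := by
  simp only [om, Derivation.commutator_apply, map_sub, Derivation.leibniz_div, h,
    Derivation.leibniz, der_rat, smul_eq_mul]
  field_simp
  ring

/-- A set of vectors stable under scalars and under the derivation contains a constant vector. -/
theorem exists_const (D : Derivation ℤ U U) {n : ℕ} (R : Set (Fin n → U))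
    (h1 : ∀ a ∈ R, ∀ t : U, t • a ∈ R) (h2 : ∀ a ∈ R, (fun i => D (a i)) ∈ R)
    (h0 : ∃ a ∈ R, a ≠ 0) : ∃ a ∈ R, a ≠ 0 ∧ ∀ i, D (a i) = 0 := by
  classical
  obtain ⟨a, ⟨ha, ha0⟩, hmin⟩ := (measure fun a : Fin n → U =>
    (Finset.univ.filter fun i => a i ≠ 0).card).wf.has_min {a | a ∈ R ∧ a ≠ 0} h0
  obtain ⟨i, hi⟩ := Function.ne_iff.1 ha0
  simp only [Pi.zero_apply] at hi
  refine ⟨(a i)⁻¹ • a, h1 a ha _, smul_ne_zero (inv_ne_zero hi) ha0, ?_⟩
  by_contra hD
  refine hmin (fun k => D (((a i)⁻¹ • a) k)) ⟨h2 _ (h1 a ha _), fun h => hD fun k => congrFun h k⟩ ?_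
  refine Finset.card_lt_card ((Finset.ssubset_iff_of_subset fun k hk => ?_).2 ⟨i, ?_, ?_⟩)
  · simp only [Finset.mem_filter, Finset.mem_univ, true_and] at hk ⊢
    intro h
    exact hk (by simp [h])
  · simpa using hi
  · simp only [Finset.mem_filter, Finset.mem_univ, true_and, not_not, Pi.smul_apply, smul_eq_mul,
      inv_mul_cancel₀ hi, D.map_one_eq_zero]

theorem logd_prod (E : Derivation ℤ U U) {n : ℕ} (w : Fin n → U) (hw : ∀ i, w i ≠ 0)
    (m : Fin n → ℤ) (s : Finset (Fin n)) :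
    E (∏ i ∈ s, w i ^ m i) / ∏ i ∈ s, w i ^ m i = ∑ i ∈ s, (m i : U) * (E (w i) / w i) := by
  classical
  induction s using Finset.induction_on with
  | empty => simp
  | insert i s hi ih =>
    have h1 : (∏ i ∈ s, w i ^ m i) ≠ 0 := Finset.prod_ne_zero_iff.2 fun k _ => zpow_ne_zero _ (hw k)
    have h2 : w i ^ m i ≠ 0 := zpow_ne_zero _ (hw i)
    rw [Finset.prod_insert hi, Finset.sum_insert hi, ← ih, Derivation.leibniz,
      Derivation.leibniz_zpow, zpow_sub_one₀ (hw i)]
    have h3 := hw i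
    simp only [smul_eq_mul, zsmul_eq_mul]
    field_simp
    ring

/-- An integral basis of the group generated by finitely many elements. -/
theorem exists_basis {n : ℕ} (a : Fin n → U) : ∃ (s : ℕ) (γ : Fin s → U) (m : Fin n → Fin s → ℤ),
    (∀ k, γ k ∈ Submodule.span ℤ (range a)) ∧ (∀ q : Fin s → ℚ, ∑ k, q k • γ k = 0 → q = 0) ∧
    ∀ i, a i = ∑ k, (m i k : U) * γ k := by
  have : Module.Finite ℤ (Submodule.span ℤ (range a)) :=
    Module.Finite.span_of_finite ℤ (finite_range a)
  let b := Module.finBasis ℤ (Submodule.span ℤ (range a))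
  refine ⟨_, fun k => (b k : U), fun i k => b.repr ⟨a i, Submodule.subset_span ⟨i, rfl⟩⟩ k,
    fun k => (b k).2, fun q hq => ?_, fun i => ?_⟩
  · have h1 : LinearIndependent ℤ fun k => (b k : U) :=
      b.linearIndependent.map' (Submodule.subtype _) (Submodule.ker_subtype _)
    have h2 := (LinearIndependent.iff_fractionRing ℤ ℚ).1 h1
    exact funext (Fintype.linearIndependent_iff.1 h2 q hq)
  · have h := congrArg Subtype.val (b.sum_repr ⟨a i, Submodule.subset_span ⟨i, rfl⟩⟩)
    simp only [AddSubmonoidClass.coe_finsetSum, SetLike.val_smul, zsmul_eq_mul] at h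
    exact h.symm

/-- A nontrivial linear relation between the forms. -/
theorem exists_rel (dex : DexStmt.{w}) (D : Derivation ℤ U U) (c : ℚ) {n : ℕ} (z w : Fin n → U)
    (hw : ∀ j, w j ≠ 0) (hD : ∀ j, D (w j) = (c : U) * w j * D (z j)) (j₀ : Fin n)
    (hz : D (z j₀) ≠ 0) (hr : rk {a | D a = 0} (range z ∪ range w) ≤ n) :
    ∃ a : Fin n → U, a ≠ 0 ∧ ∀ E : Derivation ℤ U U, Kills E {a | D a = 0} →
      ∑ i, a i * om c (z i) (w i) E = 0 := by
  classical
  obtain ⟨d1, -, d3⟩ := dex U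
  obtain ⟨p, hp⟩ := ENat.ne_top_iff_exists.1 (ne_top_of_le_ne_top (ENat.natCast_ne_top n) hr)
  obtain ⟨u, hu, ht⟩ := exists_tri hp.le
  have hs := ht.spans (range_subset_iff.2 fun i => subset_ac _ (Or.inr (hu i))) hp.ge
  choose B hB hB' using fun j : Fin p => d3 _ p u ht (Pi.single j 1)
  let L := Fintype.linearCombination U fun (j : Fin p) (i : Fin n) => om c (z i) (w i) (B j)
  have key : ∀ E : Derivation ℤ U U, Kills E {a | D a = 0} → ∀ y ∈ range z ∪ range w,
      E y = ∑ j, E (u j) * B j y := by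
    intro E hE y hy
    have h1 : Kills (E - ∑ j, E (u j) • B j) ({a | D a = 0} ∪ range u) := by
      rintro a (ha | ⟨i, rfl⟩)
      · simp [sum_app, hE a ha, fun j => hB j a ha]
      · simp [sum_app, hB', Pi.single_apply]
    have h2 := d1 _ _ h1 y (hs hy)
    simpa [sum_app, sub_eq_zero] using h2
  have hL : ∀ E : Derivation ℤ U U, Kills E {a | D a = 0} →
      L (fun j => E (u j)) = fun i => om c (z i) (w i) E := by
    intro E hE
    funext i
    simp only [L, Fintype.linearCombination_apply, Finset.sum_apply, Pi.smul_apply, smul_eq_mul,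
      om]
    rw [key E hE (w i) (Or.inr ⟨i, rfl⟩), key E hE (z i) (Or.inl ⟨i, rfl⟩), div_eq_mul_inv (∑ j, _),
      Finset.sum_mul, Finset.mul_sum, ← Finset.sum_sub_distrib]
    exact Finset.sum_congr rfl fun j _ => by ring
  have hDD : Kills D {a | D a = 0} := fun a ha => ha
  have hker : LinearMap.ker L ≠ ⊥ := by
    intro h
    have h1 : (fun j => D (u j)) ∈ LinearMap.ker L := by
      rw [LinearMap.mem_ker, hL D hDD]
      funext i
      have := hw i
      simp only [om, hD, Pi.zero_apply]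
      field_simp
      ring
    rw [h, Submodule.mem_bot] at h1
    apply hz
    rw [key D hDD _ (Or.inl ⟨j₀, rfl⟩)]
    exact Finset.sum_eq_zero fun j _ => by rw [congrFun h1 j]; simp
  have hlt : LinearMap.range L < ⊤ := by
    refine lt_top_iff_ne_top.2 fun h => hker ?_
    have h1 := L.finrank_range_add_finrank_ker
    rw [h, finrank_top, Module.finrank_fin_fun, Module.finrank_fin_fun] at h1
    have h2 : p ≤ n := by exact_mod_cast hp.le.trans hr
    exact Submodule.finrank_eq_zero.1 (by omega)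
  obtain ⟨f, hf0, hf⟩ := (LinearMap.range L).exists_le_ker_of_lt_top hlt
  refine ⟨fun i => f (Pi.single i 1), fun h => hf0 ?_, fun E hE => ?_⟩
  · exact LinearMap.pi_ext' fun i => LinearMap.ext_ring (by simpa using congrFun h i)
  · have h1 : f (fun i => om c (z i) (w i) E) = 0 := hf ⟨_, hL E hE⟩
    rw [LinearMap.pi_apply_eq_sum_univ] at h1
    rw [← h1]
    refine Finset.sum_congr rfl fun i _ => ?_
    rw [smul_eq_mul, mul_comm]
    refine congrArg _ (congrArg f (funext fun j => ?_))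
    simp [Pi.single_apply, eq_comm]

end AxAux

open AxAux in
theorem ax (dex : DexStmt.{w}) (ros : RosStmt.{w}) : AxStmt.{w} := by
  intro U _ _ _ D c n z w hc hn hw hD hq
  classical
  refine succ_le_of_not_le fun hr => ?_
  have hz : D (z ⟨0, Nat.pos_of_ne_zero hn⟩) ≠ 0 := fun h => by
    have h1 := hq (Pi.single ⟨0, Nat.pos_of_ne_zero hn⟩ 1) (by simpa [Pi.single_apply] using h)
    simpa using congrFun h1 ⟨0, Nat.pos_of_ne_zero hn⟩
  obtain ⟨a, ha, ha0, hac⟩ := exists_const D
    {a | ∀ E : Derivation ℤ U U, Kills E {a | D a = 0} → ∑ i, a i * om c (z i) (w i) E = 0}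
    (fun a ha t E hE => by
      simp only [Pi.smul_apply, smul_eq_mul, mul_assoc]
      rw [← Finset.mul_sum, ha E hE, mul_zero])
    (fun a ha E hE => by
      have h1 := congrArg D (ha E hE)
      have h2 := ha ⁅D, E⁆ fun y hy => by
        rw [Derivation.commutator_apply, hE y hy, show D y = 0 from hy]
        simp
      rw [map_sum, map_zero] at h1
      simp only [Derivation.leibniz, om_lie (hw _) (hD _), smul_eq_mul, Finset.sum_add_distrib,
        h2, zero_add] at h1
      rw [← h1]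
      exact Finset.sum_congr rfl fun i _ => mul_comm _ _)
    (by
      obtain ⟨a, h1, h2⟩ := exists_rel dex D c z w hw hD _ hz hr
      exact ⟨a, h2, h1⟩)
  obtain ⟨s, γ, m, hγ, hli, hm⟩ := exists_basis a
  have hγC : ∀ k, γ k ∈ consts D := fun k =>
    (Submodule.span_le (p := (consts D).toAddSubgroup.toIntSubmodule)).2
      (range_subset_iff.2 hac) (hγ k)
  have hv := ros U (consts D) (le_antisymm (fun y hy => (dex U).1 D _ (fun a ha => ha) y hy)
    (le_ac _)) s γ (fun k => ∏ i, w i ^ m i k) ((c : U) * ∑ i, a i * z i) hγC hli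
    (fun k => Finset.prod_ne_zero_iff.2 fun i _ => zpow_ne_zero _ (hw i)) fun E hE => by
      have h1 := ha E hE
      simp only [om, mul_sub, Finset.sum_sub_distrib, sub_eq_zero] at h1
      have h2 : ∀ i, E (a i) = 0 := fun i => hE _ (hac i)
      simp only [logd_prod E w hw, Derivation.leibniz, der_rat, map_sum, h2, smul_eq_mul,
        mul_zero, add_zero, Finset.mul_sum]
      rw [Finset.sum_comm]
      calc ∑ i, ∑ k, γ k * ((m i k : U) * (E (w i) / w i))
          = ∑ i, a i * (E (w i) / w i) := Finset.sum_congr rfl fun i _ => by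
            rw [hm i, Finset.sum_mul]
            exact Finset.sum_congr rfl fun k _ => by ring
        _ = _ := by
            rw [h1]
            exact Finset.sum_congr rfl fun i _ => by ring
  have hm0 : ∀ k i, m i k = 0 := fun k i => by
    have h1 := logd_prod D w hw (fun i => m i k) Finset.univ
    rw [show D (∏ i, w i ^ m i k) = 0 from hv k, zero_div] at h1
    have h2 := hq (fun i => (m i k : ℚ)) (by
      have hc' : (c : U) ≠ 0 := by exact_mod_cast hc
      refine mul_left_cancel₀ hc' ?_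
      rw [mul_zero, h1, map_sum, Finset.mul_sum]
      refine Finset.sum_congr rfl fun i _ => ?_
      have := hw i
      rw [Rat.smul_def, Derivation.leibniz, der_rat, hD]
      simp only [smul_eq_mul, Rat.cast_intCast]
      field_simp
      ring)
    simpa using congrFun h2 i
  exact ha0 (funext fun i => by simp [hm i, hm0])

end Pool.Agent.MP_0e4269_lc.Z

end MrgPart1

-- ======== part 2: formerly Pool.Agent.MP_0e4269_lc.z.Bder
section MrgPart2

/-!
Derivations that strictly decrease values.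
-/

open Set

universe w

namespace Pool.Agent.MP_0e4269_lc.Z

namespace Bder

variable {U : Type w} [Field U]

/-- The elements whose value is decreased by `D`. -/
def W (O : ValuationSubring U) (D : Derivation ℤ U U) : Set U :=
  {a | a = 0 ∨ O.valuation (D a) < O.valuation a}

theorem lt_of_le {O : ValuationSubring U} {D : Derivation ℤ U U} {a c : U} (ha : a ∈ W O D)
    (hc : c ≠ 0) (h : O.valuation a ≤ O.valuation c) : O.valuation (D a) < O.valuation c := by
  rcases ha with rfl | ha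
  · simpa [pos_iff_ne_zero] using hc
  · exact ha.trans_le h

theorem mem_of_zero {O : ValuationSubring U} {D : Derivation ℤ U U} {a : U} (h : D a = 0) :
    a ∈ W O D := by
  by_cases ha : a = 0
  · exact Or.inl ha
  · exact Or.inr (by simpa [h, pos_iff_ne_zero] using ha)

theorem mulCl (O : ValuationSubring U) (D : Derivation ℤ U U) : MulCl (W O D) := by
  refine ⟨Or.inl rfl, fun a ha b hb => ?_, fun a ha => ?_⟩
  · rcases ha with rfl | ha
    · exact Or.inl (zero_mul _)
    rcases hb with rfl | hb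
    · exact Or.inl (mul_zero _)
    have ha0 : 0 < O.valuation a := lt_of_le_of_lt zero_le ha
    have hb0 : 0 < O.valuation b := lt_of_le_of_lt zero_le hb
    refine Or.inr ?_
    rw [D.leibniz, smul_eq_mul, smul_eq_mul, map_mul]
    refine Valuation.map_add_lt _ ?_ ?_
    · rw [map_mul]
      exact mul_lt_mul_of_pos_left hb ha0
    · rw [map_mul, mul_comm]
      exact mul_lt_mul_of_pos_right ha hb0
  · rcases ha with rfl | ha
    · exact Or.inl inv_zero
    have ha0 : 0 < O.valuation a := lt_of_le_of_lt zero_le ha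
    refine Or.inr ?_
    rw [D.leibniz_inv, smul_eq_mul, map_mul, Valuation.map_neg, map_pow, map_inv₀]
    calc (O.valuation a)⁻¹ ^ 2 * O.valuation (D a)
        < (O.valuation a)⁻¹ ^ 2 * O.valuation a :=
          mul_lt_mul_of_pos_left ha (pow_pos (inv_pos.2 ha0) 2)
      _ = (O.valuation a)⁻¹ := by
          rw [sq, mul_assoc, inv_mul_cancel₀ ha0.ne', mul_one]

theorem deriv_eval (D : Derivation ℤ U U) (Q : Polynomial U) (x : U) :
    D (Q.eval x) = (Q.sum fun i c => D c * x ^ i) + Q.derivative.eval x * D x := by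
  induction Q using Polynomial.induction_on' with
  | add p q hp hq =>
    rw [Polynomial.eval_add, map_add, hp, hq, Polynomial.sum_add_index _ _ _ (by simp)
      (fun i a b => by rw [map_add, add_mul]), map_add, Polynomial.eval_add]
    ring
  | monomial n a =>
    rw [Polynomial.sum_monomial_index _ _ (by simp), Polynomial.eval_monomial,
      Polynomial.derivative_monomial, Polynomial.eval_monomial, D.leibniz, D.leibniz_pow]
    simp only [smul_eq_mul, nsmul_eq_mul]
    ring

theorem taylor_mem {K : Subfield U} {P : Polynomial U} {b : U} (hb : b ∈ K)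
    (h : ∀ i, P.coeff i ∈ K) (i : ℕ) : (Polynomial.taylor b P).coeff i ∈ K := by
  rw [Polynomial.taylor_coeff, Polynomial.eval_eq_sum_range]
  refine sum_mem fun n _ => mul_mem ?_ (pow_mem hb _)
  rw [Polynomial.hasseDeriv_coeff]
  exact mul_mem (natCast_mem _ _) (h _)

variable [CharZero U] [IsAlgClosed U]

theorem minData_mem (core : CoreStmt.{w}) {O : ValuationSubring U} (hO : Ch O)
    {D : Derivation ℤ U U} {K : Subfield U} (hK : (K : Set U) ⊆ W O D) {α : U}
    {P : Polynomial U} (h : MinData K α P) : α ∈ W O D := by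
  obtain ⟨hd, b, hb, hbα, hn⟩ := (core U O).2.1 K α P h
  have hne : α ≠ b := fun e => h.1 (e ▸ hb)
  have hα0 : α ≠ 0 := fun e => h.1 (e ▸ zero_mem K)
  have hξ : α - b ≠ 0 := sub_ne_zero.2 hne
  have hc := (core U O).1 P α b hO h.2.2.1 hd hne hn
  have h0 := deriv_eval D (Polynomial.taylor b P) (α - b)
  have e1 : (Polynomial.taylor b P).eval (α - b) = 0 := by
    rw [Polynomial.taylor_eval_sub, h.2.2.1]
  have e2 : (Polynomial.taylor b P).derivative.eval (α - b) = P.derivative.eval α := by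
    rw [Polynomial.taylor_apply, Polynomial.derivative_comp]
    simp
  rw [e1, e2, map_zero] at h0
  have hκ : O.valuation ((α - b) * P.derivative.eval α) ≠ 0 := by
    simpa using ⟨hξ, hd⟩
  have h1 : O.valuation ((Polynomial.taylor b P).sum fun i c => D c * (α - b) ^ i) <
      O.valuation ((α - b) * P.derivative.eval α) := by
    refine Valuation.map_sum_lt _ hκ fun i _ => ?_
    beta_reduce
    rcases hK (taylor_mem hb h.2.1 i) with e | e
    · rw [e, map_zero, zero_mul, map_zero]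
      exact pos_iff_ne_zero.2 hκ
    · refine lt_of_lt_of_le ?_ (hc i)
      rw [map_mul, map_mul]
      exact mul_lt_mul_of_pos_right e (pos_iff_ne_zero.2 (by simpa using fun e' => absurd e' hξ))
  rw [eq_neg_of_add_eq_zero_left h0.symm, Valuation.map_neg, map_mul, map_mul, mul_comm] at h1
  have h2 : O.valuation (D (α - b)) < O.valuation (α - b) := lt_of_mul_lt_mul_right' h1
  have h3 : O.valuation b ≤ O.valuation α := by
    have : b = α - (α - b) := by ring
    rw [this]
    exact Valuation.map_sub_le _ le_rfl hbα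
  refine Or.inr ?_
  have : D α = D (α - b) + D b := by rw [← map_add, sub_add_cancel]
  rw [this]
  exact Valuation.map_add_lt _ (h2.trans_le hbα) (lt_of_le (hK hb) hα0 h3)

theorem step (wind : WindStmt.{w}) (core : CoreStmt.{w}) {O : ValuationSubring U} (hO : Ch O)
    {D : Derivation ℤ U U} {K : Subfield U} (hc : ac (K : Set U) = K)
    (hK : (K : Set U) ⊆ W O D) {y : U} (hy : ∀ a ∈ K, y - a ∈ W O D) :
    (ac ((K : Set U) ∪ {y}) : Set U) ⊆ W O D := by
  rw [← ac_closure]
  exact (wind U _ (mulCl O D)).1 _ ((wind U _ (mulCl O D)).2 K y hc hK hy)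
    fun _ _ _ hW _ _ _ h => minData_mem core hO hW h

theorem part1 (dex : DexStmt.{w}) (wind : WindStmt.{w}) (core : CoreStmt.{w})
    {O : ValuationSubring U} (hO : Ch O) (hS : SC O) {M : Subfield U}
    (hM : (M : Set U).Countable) (hc : ac (M : Set U) = M) {y r : U}
    (hy : ∀ a ∈ M, O.valuation r < O.valuation (y - a)) {Y : Set U} (hY : Y.Finite) :
    ∃ D : Derivation ℤ U U, Kills D M ∧ D y = r ∧
      (ac ((M : Set U) ∪ {y} ∪ Y) : Set U) ⊆ W O D := by
  induction Y, hY using Set.Finite.induction_on with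
  | empty =>
    have hyM : y ∉ ac (M : Set U) := by
      rw [hc]
      intro h
      simpa using hy y h
    obtain ⟨D, hD, h1⟩ := (dex U).2.1 M y hyM
    have hk : Kills (r • D) M := fun a ha => by simp [hD a ha]
    have hr : (r • D) y = r := by simp [h1]
    refine ⟨r • D, hk, hr, ?_⟩
    rw [union_empty]
    refine step wind core hO hc (fun a ha => mem_of_zero (hk a ha)) fun a ha => Or.inr ?_
    rw [map_sub, hr, hk a ha, sub_zero]
    exact hy a ha
  | @insert y' Y _ hY ih =>
    obtain ⟨D, hD, hr, hW⟩ := ih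
    have hcN : (ac ((M : Set U) ∪ {y} ∪ Y) : Set U).Countable :=
      ac_countable ((hM.union (countable_singleton y)).union hY.countable)
    have he : ac ((M : Set U) ∪ {y} ∪ insert y' Y) =
        ac ((ac ((M : Set U) ∪ {y} ∪ Y) : Set U) ∪ {y'}) := by
      rw [ac_ac_union, union_insert, union_singleton (s := _ ∪ Y)]
    have hMN : (M : Set U) ⊆ ac ((M : Set U) ∪ {y} ∪ Y) :=
      (subset_union_left.trans subset_union_left).trans (subset_ac _)
    have hyN : y ∈ ac ((M : Set U) ∪ {y} ∪ Y) := subset_ac _ (Or.inl (Or.inr rfl))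
    have hcl := ac_ac ((M : Set U) ∪ {y} ∪ Y)
    rw [he]
    generalize ac ((M : Set U) ∪ {y} ∪ Y) = N at *
    by_cases h' : y' ∈ N
    · refine ⟨D, hD, hr, Subset.trans ?_ hW⟩
      exact ac_le_of_closed hcl (union_subset Subset.rfl (singleton_subset_iff.2 h'))
    have hne : ∀ a ∈ N, y' - a ≠ 0 := fun a ha e => h' (sub_eq_zero.1 e ▸ ha)
    have : Countable (N : Set U) := hcN.to_subtype
    obtain ⟨x, hx⟩ := hS (N : Set U) (fun a => D a) (fun a => y' - a) (fun a => hne a a.2)
      (fun a b => by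
        rw [← map_sub]
        have h1 : O.valuation ((a : U) - b) ≤
            max (O.valuation (y' - a)) (O.valuation (y' - b)) := by
          have : (a : U) - b = (y' - b) - (y' - a) := by ring
          rw [this, max_comm]
          exact Valuation.map_sub _ _ _
        rcases le_max_iff.1 h1 with h2 | h2
        · exact lt_max_of_lt_left (lt_of_le (hW (sub_mem a.2 b.2)) (hne a a.2) h2)
        · exact lt_max_of_lt_right (lt_of_le (hW (sub_mem a.2 b.2)) (hne b b.2) h2))
    obtain ⟨D1, hD1, h1⟩ := (dex U).2.1 N y' (by rwa [hcl])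
    have hN : ∀ a ∈ N, (D + (x - D y') • D1) a = D a := fun a ha => by simp [hD1 a ha]
    have hy' : (D + (x - D y') • D1) y' = x := by simp [h1]
    refine ⟨D + (x - D y') • D1, fun a ha => by rw [hN a (hMN ha), hD a ha],
      by rw [hN y hyN, hr], step wind core hO hcl (fun a ha => ?_) fun a ha => Or.inr ?_⟩
    · have := hW ha
      simp only [W, mem_ofPred_eq] at this ⊢
      rwa [hN a ha]
    · rw [map_sub, hy', hN a ha]
      exact hx ⟨a, ha⟩

end Bder

theorem bder (dex : DexStmt.{w}) (wind : WindStmt.{w}) (core : CoreStmt.{w}) : BderStmt.{w} := by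
  intro U _ _ _ O M Y hO hS hM hc hY
  refine ⟨fun y r _ hy => ?_, fun hcl y hy => ?_⟩
  · obtain ⟨D, h1, h2, h3⟩ := Bder.part1 dex wind core hO hS hM hc hy hY
    exact ⟨D, h1, h2, fun a ha h0 => (h3 ha).resolve_left h0⟩
  · intro η hη
    by_contra hn
    push Not at hn
    obtain ⟨D, h1, h2, h3⟩ := Bder.part1 dex wind core hO hS hM hc hn hY
    have hk : Kills D ((M : Set U) ∪ Y) := by
      rintro a (ha | ha)
      · exact h1 a ha
      by_contra h0
      obtain ⟨m, hm, hv⟩ := hcl a ha (D a) h0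
      have hmem : a - m ∈ ac ((M : Set U) ∪ {y} ∪ Y) :=
        sub_mem (subset_ac _ (Or.inr ha)) (subset_ac _ (Or.inl (Or.inl hm)))
      have := Bder.lt_of_le (h3 hmem) h0 hv
      rw [map_sub, h1 m hm, sub_zero] at this
      exact lt_irrefl _ this
    exact hη (h2 ▸ (dex U).1 D _ hk y hy)

end Pool.Agent.MP_0e4269_lc.Z

end MrgPart2

-- ======== part 3: formerly Pool.Agent.MP_0e4269_lc.z.Etale
section MrgPart3

/-!
Etale presentations.
-/

open MvPolynomial Sum Set

universe w

namespace Pool.Agent.MP_0e4269_lc.Z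

namespace Etale

variable {U : Type w} [Field U]

theorem cf_iff {τ : Type} (B : Subring U) (G : MvPolynomial τ U) :
    Cf (B : Set U) G ↔ G ∈ (MvPolynomial.map (σ := τ) B.subtype).range := by
  constructor
  · intro h
    refine RingHom.mem_range.2 (Set.mem_range.1 (mem_range_map_iff_coeffs_subset.2 ?_))
    intro c hc
    obtain ⟨m, -, rfl⟩ := mem_coeffs_iff.1 (Finset.mem_coe.1 hc)
    exact ⟨⟨_, h m⟩, rfl⟩
  · rintro ⟨G₀, rfl⟩ m
    rw [coeff_map]
    exact (G₀.coeff m).2

theorem cf_rename {τ τ' : Type} {B : Subring U} {G : MvPolynomial τ U} (e : τ → τ')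
    (h : Cf (B : Set U) G) : Cf (B : Set U) (rename e G) := by
  obtain ⟨G₀, rfl⟩ := (cf_iff B G).1 h
  exact (cf_iff B _).2 ⟨rename e G₀, map_rename _ _ _⟩

theorem rep {τ : Type} (B : Subring U) (p : τ → U) {c : U}
    (h : c ∈ Subring.closure ((B : Set U) ∪ range p)) :
    ∃ G : MvPolynomial τ U, Cf (B : Set U) G ∧ eval p G = c := by
  have : Subring.closure ((B : Set U) ∪ range p) ≤
      ((MvPolynomial.map (σ := τ) B.subtype).range).map (eval p) := by
    refine Subring.closure_le.2 ?_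
    rintro x (hx | ⟨t, rfl⟩)
    · exact ⟨C x, ⟨C ⟨x, hx⟩, by simp⟩, by simp⟩
    · exact ⟨X t, ⟨X t, by simp⟩, by simp⟩
  obtain ⟨G, hG, rfl⟩ := this h
  exact ⟨G, (cf_iff B G).2 hG, rfl⟩

theorem pderiv_rename_zero {τ τ' : Type} (e : τ → τ') (x : τ') (hx : ∀ t, e t ≠ x)
    (G : MvPolynomial τ U) : pderiv x (rename e G) = 0 := by
  induction G using MvPolynomial.induction_on with
  | C a => simp
  | add p q hp hq => rw [map_add, map_add, hp, hq, add_zero]
  | mul_X p t hp =>
    rw [map_mul, rename_X, Derivation.leibniz, hp, pderiv_X_of_ne (hx t), smul_zero, smul_zero,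
      add_zero]

variable (R : ValuationSubring U) (B : Subring U) (L : Set U) {n : ℕ} (u : Fin n → U)

/-- the set `T` is part of a presentation -/
def JP (T : Set U) : Prop :=
  ∃ (ι : Type) (_ : Fintype ι) (_ : DecidableEq ι) (θ : ι → U)
    (H : ι → MvPolynomial (Fin n ⊕ ι) U), (∀ i, Cf (B : Set U) (H i)) ∧ (∀ i, θ i ∈ L ∧ θ i ∈ R) ∧
    (∀ i, eval (Sum.elim u θ) (H i) = 0) ∧ R.valuation (pjac H (Sum.elim u θ)).det = 1 ∧
    T ⊆ range θ

variable {R B L u}

theorem JP.mono {T T' : Set U} (h : JP R B L u T) (hT : T' ⊆ T) : JP R B L u T' := by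
  obtain ⟨ι, i1, i2, θ, H, h1, h2, h3, h4, h5⟩ := h
  exact ⟨ι, i1, i2, θ, H, h1, h2, h3, h4, hT.trans h5⟩

theorem jp_empty : JP R B L u ∅ :=
  ⟨Empty, inferInstance, inferInstance, Empty.elim, fun i => i.elim, fun i => i.elim,
    fun i => i.elim, fun i => i.elim, by simp, empty_subset _⟩

theorem JP.step {T : Set U} (h : JP R B L u T) {y : U} (hL : y ∈ L) (hR : y ∈ R)
    (Q : Polynomial U) (hQ : ∀ i, Q.coeff i ∈ Subring.closure ((B : Set U) ∪ range u ∪ T))
    (h0 : Q.eval y = 0) (h1 : R.valuation (Q.derivative.eval y) = 1) :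
    JP R B L u (insert y T) := by
  obtain ⟨ι, i1, i2, θ, H, hc, hθ, he, hd, hT⟩ := h
  have hsub : (B : Set U) ∪ range u ∪ T ⊆ (B : Set U) ∪ range (Sum.elim u θ) := by
    rw [Sum.elim_range, union_assoc]
    exact union_subset_union_right _ (union_subset_union_right _ hT)
  choose G hG hGe using fun i => rep B (Sum.elim u θ) (Subring.closure_mono hsub (hQ i))
  let e : Fin n ⊕ ι → Fin n ⊕ (ι ⊕ Unit) := Sum.map id inl
  have hinj : Function.Injective e := Function.injective_id.sumMap inl_injective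
  have hne : ∀ t, e t ≠ inr (inr ()) := by
    rintro (t | t) <;> simp [e]
  let θ' : ι ⊕ Unit → U := Sum.elim θ fun _ => y
  have hp : Sum.elim u θ' ∘ e = Sum.elim u θ := by
    funext t
    rcases t with t | t <;> rfl
  let N : MvPolynomial (Fin n ⊕ (ι ⊕ Unit)) U :=
    ∑ k ∈ Q.support, rename e (G k) * X (inr (inr ())) ^ k
  let H' : ι ⊕ Unit → MvPolynomial (Fin n ⊕ (ι ⊕ Unit)) U :=
    Sum.elim (fun i => rename e (H i)) fun _ => N
  refine ⟨ι ⊕ Unit, inferInstance, inferInstance, θ', H', ?_, ?_, ?_, ?_, ?_⟩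
  · rintro (i | i)
    · exact cf_rename e (hc i)
    · refine (cf_iff B N).2 (Subring.sum_mem _ fun k _ => Subring.mul_mem _ ?_ ?_)
      · exact (cf_iff B _).1 (cf_rename e (hG k))
      · exact Subring.pow_mem _ (RingHom.mem_range.2 ⟨X _, map_X _ _⟩) k
  · rintro (i | i)
    · exact hθ i
    · exact ⟨hL, hR⟩
  · rintro (i | i)
    · show eval _ (rename e (H i)) = 0
      rw [eval_rename, hp, he]
    · show eval _ N = 0
      rw [← h0, Polynomial.eval_eq_sum, Polynomial.sum, map_sum]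
      refine Finset.sum_congr rfl fun k _ => ?_
      rw [map_mul, eval_rename, hp, hGe, map_pow, eval_X]
      rfl
  · have hA : (pjac H' (Sum.elim u θ')).toBlocks₁₁ = pjac H (Sum.elim u θ) := by
      ext i l
      show eval _ (pderiv (e (inr l)) (rename e (H i))) = _
      rw [pderiv_rename hinj, eval_rename, hp]
      rfl
    have hB : (pjac H' (Sum.elim u θ')).toBlocks₁₂ = 0 := by
      ext i l
      show eval _ (pderiv (inr (inr ())) (rename e (H i))) = 0
      rw [pderiv_rename_zero e _ hne, map_zero]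
    have hD : (pjac H' (Sum.elim u θ')).toBlocks₂₂ () () = Q.derivative.eval y := by
      show eval _ (pderiv (inr (inr ())) N) = _
      rw [Polynomial.derivative_eval, Polynomial.sum, map_sum, map_sum]
      refine Finset.sum_congr rfl fun k _ => ?_
      rw [Derivation.leibniz, pderiv_rename_zero e _ hne, smul_zero, add_zero,
        Derivation.leibniz_pow, pderiv_X_self, smul_eq_mul, smul_eq_mul, mul_one, nsmul_eq_mul,
        map_mul, map_mul, eval_rename, hp, hGe, map_pow, eval_X, map_natCast, mul_assoc]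
      rfl
    rw [← Matrix.fromBlocks_toBlocks (pjac H' (Sum.elim u θ')), hB,
      Matrix.det_fromBlocks_zero₁₂, hA, map_mul, hd, one_mul, Matrix.det_unique]
    show R.valuation ((pjac H' (Sum.elim u θ')).toBlocks₂₂ () ()) = 1
    rw [hD]
    exact h1
  · rintro x (rfl | hx)
    · exact ⟨inr (), rfl⟩
    · obtain ⟨i, rfl⟩ := hT hx
      exact ⟨inl i, rfl⟩

/-- `y` can be added to every presentation -/
def Pres (R : ValuationSubring U) (B : Subring U) (L : Set U) (u : Fin n → U) (y : U) : Prop :=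
  y ∈ L ∧ y ∈ R ∧ ∀ T, JP R B L u T → JP R B L u (insert y T)

theorem JP.union {T A : Set U} (h : JP R B L u T) (hA : A.Finite)
    (hP : ∀ a ∈ A, Pres R B L u a) : JP R B L u (A ∪ T) := by
  induction A, hA using Set.Finite.induction_on with
  | empty => rwa [empty_union]
  | @insert a A _ _ ih =>
    rw [insert_union]
    exact (hP a (mem_insert _ _)).2.2 _ (ih fun b hb => hP b (mem_insert_of_mem _ hb))

theorem pres_root {y : U} (hL : y ∈ L) (hR : y ∈ R) (Q : Polynomial U) {A : Set U}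
    (hA : A.Finite) (hP : ∀ a ∈ A, Pres R B L u a)
    (hQ : ∀ i, Q.coeff i ∈ Subring.closure ((B : Set U) ∪ range u ∪ A))
    (h0 : Q.eval y = 0) (h1 : R.valuation (Q.derivative.eval y) = 1) : Pres R B L u y := by
  refine ⟨hL, hR, fun T hT => ((hT.union hA hP).step hL hR Q (fun i => ?_) h0 h1).mono ?_⟩
  · exact Subring.closure_mono (union_subset_union_right _ subset_union_left) (hQ i)
  · exact insert_subset_insert subset_union_right

theorem pres_mem {y : U} (hL : y ∈ L) (hR : y ∈ R) {A : Set U} (hA : A.Finite)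
    (hP : ∀ a ∈ A, Pres R B L u a) (hy : y ∈ Subring.closure ((B : Set U) ∪ range u ∪ A)) :
    Pres R B L u y := by
  refine pres_root hL hR (Polynomial.X - Polynomial.C y) hA hP (fun i => ?_) (by simp) (by simp)
  rw [Polynomial.coeff_sub, Polynomial.coeff_X, Polynomial.coeff_C]
  refine Subring.sub_mem _ ?_ ?_
  · split_ifs
    · exact Subring.one_mem _
    · exact Subring.zero_mem _
  · split_ifs
    · exact hy
    · exact Subring.zero_mem _

/-- the presentable elements form a subring -/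
def PR (R : ValuationSubring U) (B : Subring U) (L : Subfield U) (u : Fin n → U) : Subring U where
  carrier := {y | Pres R B L u y}
  zero_mem' := pres_mem L.zero_mem R.zero_mem finite_empty (fun _ h => h.elim) (Subring.zero_mem _)
  one_mem' := pres_mem L.one_mem R.one_mem finite_empty (fun _ h => h.elim) (Subring.one_mem _)
  add_mem' := fun {a b} ha hb =>
    pres_mem (L.add_mem ha.1 hb.1) (R.add_mem _ _ ha.2.1 hb.2.1) (toFinite {a, b})
      (by rintro x (rfl | rfl) <;> assumption)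
      (Subring.add_mem _ (Subring.subset_closure (by simp)) (Subring.subset_closure (by simp)))
  mul_mem' := fun {a b} ha hb =>
    pres_mem (L.mul_mem ha.1 hb.1) (R.mul_mem _ _ ha.2.1 hb.2.1) (toFinite {a, b})
      (by rintro x (rfl | rfl) <;> assumption)
      (Subring.mul_mem _ (Subring.subset_closure (by simp)) (Subring.subset_closure (by simp)))
  neg_mem' := fun {a} ha =>
    pres_mem (L.neg_mem ha.1) (R.neg_mem _ ha.2.1) (toFinite {a})
      (by rintro x rfl; assumption)
      (Subring.neg_mem _ (Subring.subset_closure (by simp)))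

theorem pr_root {L : Subfield U} {y : U} (hL : y ∈ L) (hR : y ∈ R) (Q : Polynomial U)
    (hQ : ∀ i, Q.coeff i ∈ PR R B L u) (h0 : Q.eval y = 0)
    (h1 : R.valuation (Q.derivative.eval y) = 1) : y ∈ PR R B L u := by
  refine pres_root hL hR Q (A := Q.coeff '' Q.support) (Q.support.finite_toSet.image _) ?_
    (fun i => ?_) h0 h1
  · rintro _ ⟨i, -, rfl⟩
    exact hQ i
  · by_cases hi : i ∈ Q.support
    · exact Subring.subset_closure (Or.inr ⟨i, hi, rfl⟩)
    · rw [Polynomial.notMem_support_iff.1 hi]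
      exact Subring.zero_mem _

theorem pr_inv {L : Subfield U} {e : U} (he : e ∈ PR R B L u) (h1 : R.valuation e = 1) :
    e⁻¹ ∈ PR R B L u := by
  have h0 : e ≠ 0 := by
    rintro rfl
    simp at h1
  refine pr_root (L.inv_mem he.1) ?_ (Polynomial.C e * Polynomial.X - Polynomial.C 1)
    (fun i => ?_) (by simp [h0]) (by simpa using h1)
  · rw [← R.valuation_le_one_iff, map_inv₀, h1, inv_one]
  · rw [Polynomial.coeff_sub, Polynomial.coeff_C_mul, Polynomial.coeff_X, Polynomial.coeff_C]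
    refine Subring.sub_mem _ (Subring.mul_mem _ he ?_) ?_ <;> split_ifs
    · exact Subring.one_mem _
    · exact Subring.zero_mem _
    · exact Subring.one_mem _
    · exact Subring.zero_mem _

theorem poly_mem {K : Subfield U} {P : Polynomial U} (hP : ∀ i, P.coeff i ∈ K) {b : U}
    (hb : b ∈ K) : (∀ i, (Polynomial.taylor b P).coeff i ∈ K) ∧ P.derivative.eval b ∈ K := by
  obtain ⟨P₀, rfl⟩ : P ∈ Polynomial.lifts K.subtype :=
    (Polynomial.lifts_iff_coeff_lifts P).2 fun i => ⟨⟨_, hP i⟩, rfl⟩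
  have h : ∀ i, (Polynomial.taylor b ((Polynomial.mapRingHom K.subtype) P₀)).coeff i ∈ K := by
    intro i
    have h := Polynomial.map_taylor P₀ ⟨b, hb⟩ K.subtype
    rw [Polynomial.coe_mapRingHom]
    erw [← h]
    rw [Polynomial.coeff_map]
    exact SetLike.coe_mem _
  exact ⟨h, Polynomial.taylor_coeff_one (r := b) _ ▸ h 1⟩

/-- One more variable. -/
theorem one [CharZero U] [IsAlgClosed U] (wind : WindStmt.{w}) (val : ValStmt.{w})
    (core : CoreStmt.{w}) (hch : Ch R) (A : Subring U) (K : Subfield U) (t : U)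
    (hK : ac (K : Set U) = K) (hAR : ∀ a ∈ A, a ∈ R) (hKA : ∀ a ∈ K, a ∈ R → a ∈ A) (ht : t ∈ A)
    (htK : ∀ a ∈ K, a ∈ R → R.valuation (t - a) = 1)
    (hinv : ∀ e ∈ A, R.valuation e = 1 → e⁻¹ ∈ A)
    (hroot : ∀ y ∈ ac ((K : Set U) ∪ {t}), y ∈ R → ∀ Q : Polynomial U, (∀ i, Q.coeff i ∈ A) →
      Q.eval y = 0 → R.valuation (Q.derivative.eval y) = 1 → y ∈ A) :
    ∀ y ∈ ac ((K : Set U) ∪ {t}), y ∈ R → y ∈ A := by
  let W : Set U := {x | ∃ m ∈ K, ∃ e ∈ A, R.valuation e = 1 ∧ x = m * e}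
  have hKW : (K : Set U) ⊆ W := fun a ha => ⟨a, ha, 1, A.one_mem, map_one _, (mul_one a).symm⟩
  have hW : MulCl W := by
    refine ⟨hKW K.zero_mem, ?_, ?_⟩
    · rintro _ ⟨m, hm, e, he, h1, rfl⟩ _ ⟨m', hm', e', he', h1', rfl⟩
      exact ⟨m * m', K.mul_mem hm hm', e * e', A.mul_mem he he', by rw [map_mul, h1, h1', one_mul],
        by ring⟩
    · rintro _ ⟨m, hm, e, he, h1, rfl⟩
      exact ⟨m⁻¹, K.inv_mem hm, e⁻¹, hinv e he h1, by rw [map_inv₀, h1, inv_one], mul_inv _ _⟩
  have hWA : ∀ x ∈ W, x ∈ R → x ∈ A := by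
    rintro _ ⟨m, hm, e, he, h1, rfl⟩ hx
    rw [← R.valuation_le_one_iff, map_mul, h1, mul_one, R.valuation_le_one_iff] at hx
    exact A.mul_mem (hKA m hm hx) he
  have h0 : (Subfield.closure ((K : Set U) ∪ {t}) : Set U) ⊆ W := by
    refine (wind U W hW).2 K t hK hKW fun a ha => ?_
    by_cases haR : a ∈ R
    · exact ⟨1, K.one_mem, t - a, A.sub_mem ht (hKA a ha haR), htK a ha haR, (one_mul _).symm⟩
    · have ha0 : a ≠ 0 := by
        rintro rfl
        exact haR R.zero_mem
      have h1 : R.valuation a⁻¹ < 1 := by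
        rw [← R.valuation_le_one_iff, not_le] at haR
        rw [map_inv₀]
        exact inv_lt_one_of_one_lt₀ haR
      have h2 : R.valuation (t * a⁻¹) < 1 := by
        rw [map_mul]
        exact lt_of_le_of_lt (mul_le_of_le_one_left' ((R.valuation_le_one_iff t).2 (hAR t ht))) h1
      refine ⟨-a, K.neg_mem ha, 1 - t * a⁻¹, A.sub_mem A.one_mem (A.mul_mem ht
        (hKA _ (K.inv_mem ha) ((R.valuation_le_one_iff _).1 h1.le))),
        R.valuation.map_one_sub_of_lt h2, ?_⟩
      field_simp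
      ring
  set K₀ := Subfield.closure ((K : Set U) ∪ {t}) with hK₀
  have hac : ac (K₀ : Set U) = ac ((K : Set U) ∪ {t}) := ac_closure _
  have hKK : K ≤ K₀ := fun a ha => Subfield.subset_closure (Or.inl ha)
  have hV : ∀ x ∈ ac (K₀ : Set U), x ≠ 0 → ∃ m ∈ K, m ≠ 0 ∧ R.valuation m = R.valuation x := by
    intro x hx hx0
    obtain ⟨N, hN, a, ha, hv⟩ := val U R K₀ x hx hx0
    obtain ⟨m₀, hm₀, e, -, h1, rfl⟩ := h0 ha
    obtain ⟨m, rfl⟩ := IsAlgClosed.exists_pow_nat_eq m₀ (Nat.pos_of_ne_zero hN)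
    rw [map_mul, h1, mul_one, map_pow] at hv
    have h2 : R.valuation x = R.valuation m := (pow_left_inj₀ zero_le zero_le hN).1 hv
    refine ⟨m, mem_of_pow hK hN hm₀, ?_, h2.symm⟩
    rintro rfl
    rw [map_zero, map_eq_zero] at h2
    exact hx0 h2
  have h1 : (ac (K₀ : Set U) : Set U) ⊆ W := by
    refine (wind U W hW).1 K₀ h0 fun K' hK' hK'' hKW' α hα P hP => ?_
    obtain ⟨hd, b, hb, hv, hβ⟩ := (core U R).2.1 K' α P hP
    have hne : α ≠ b := fun h => hP.1 (h ▸ hb)
    have hα0 : α ≠ 0 := fun h => hP.1 (h ▸ K'.zero_mem)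
    have hc := (core U R).1 P α b hch hP.2.2.1 hd hne hβ
    have hξ : α - b ∈ ac (K₀ : Set U) := Subfield.sub_mem _ hα (hK'' hb)
    have hξ0 : α - b ≠ 0 := sub_ne_zero.2 hne
    have hPα : P.derivative.eval α ∈ ac (K₀ : Set U) :=
      (poly_mem (fun i => hK'' (hP.2.1 i)) hα).2
    obtain ⟨m, hm, hm0, hmv⟩ := hV _ hξ hξ0
    obtain ⟨m', hm', hm0', hmv'⟩ := hV _ (Subfield.mul_mem _ hξ hPα) (mul_ne_zero hξ0 hd)
    obtain ⟨m₀, hm₀, hm00, hmv₀⟩ := hV _ hα hα0
    have vm : R.valuation m ≠ 0 := by rwa [ne_eq, map_eq_zero]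
    have vm' : R.valuation m' ≠ 0 := by rwa [ne_eq, map_eq_zero]
    have vm₀ : R.valuation m₀ ≠ 0 := by rwa [ne_eq, map_eq_zero]
    have hle : K ≤ K' := hKK.trans hK'
    have he1 : R.valuation ((α - b) / m) = 1 := by rw [map_div₀, ← hmv, div_self vm]
    have hpt : b + m * ((α - b) / m) = α := by field_simp; ring
    have he : (α - b) / m ∈ A := by
      refine hroot _ (hac ▸ Subfield.div_mem _ hξ (hK'' (hle hm)))
        ((R.valuation_le_one_iff _).1 he1.le)
        (Polynomial.C m'⁻¹ * (Polynomial.taylor b P).comp (Polynomial.C m * Polynomial.X))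
        (fun i => ?_) ?_ ?_
      · rw [Polynomial.coeff_C_mul, Polynomial.comp_C_mul_X_coeff]
        refine hWA _ (hKW' (K'.mul_mem (K'.inv_mem (hle hm')) (K'.mul_mem
          ((poly_mem hP.2.1 hb).1 i) (K'.pow_mem (hle hm) i)))) ?_
        have h3 := hc i
        rw [← hmv', map_mul, map_pow, ← hmv] at h3
        rw [← R.valuation_le_one_iff, map_mul, map_mul, map_pow, map_inv₀,
          inv_mul_le_iff₀ (zero_lt_iff.2 vm'), mul_one]
        exact h3
      · rw [Polynomial.eval_mul, Polynomial.eval_comp, Polynomial.taylor_eval, Polynomial.eval_mul,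
          Polynomial.eval_C, Polynomial.eval_C, Polynomial.eval_X, add_comm, hpt, hP.2.2.1,
          mul_zero]
      · have h4 : (Polynomial.derivative (Polynomial.C m'⁻¹ * (Polynomial.taylor b P).comp
            (Polynomial.C m * Polynomial.X))).eval ((α - b) / m) =
            m'⁻¹ * (m * P.derivative.eval α) := by
          rw [Polynomial.taylor_apply, Polynomial.comp_assoc, Polynomial.derivative_C_mul,
            Polynomial.derivative_comp]
          simp only [Polynomial.add_comp, Polynomial.X_comp, Polynomial.C_comp,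
            Polynomial.derivative_add, Polynomial.derivative_C_mul, Polynomial.derivative_X,
            Polynomial.derivative_C, Polynomial.eval_mul, Polynomial.eval_C, Polynomial.eval_comp,
            Polynomial.eval_add, Polynomial.eval_X, mul_one, add_zero]
          rw [add_comm, hpt]
        rw [h4, map_mul, map_mul, map_inv₀, hmv, ← map_mul, ← hmv', inv_mul_cancel₀ vm']
    have hvb : R.valuation b ≤ R.valuation α := by
      have h5 := R.valuation.map_sub α (α - b)
      rw [sub_sub_cancel] at h5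
      exact h5.trans (max_le le_rfl hv)
    refine ⟨m₀, hm₀, b / m₀ + m / m₀ * ((α - b) / m), A.add_mem ?_ (A.mul_mem ?_ he), ?_, ?_⟩
    · refine hWA _ (hKW' (K'.div_mem hb (hle hm₀))) ?_
      rw [← R.valuation_le_one_iff, map_div₀, div_le_one₀ (zero_lt_iff.2 vm₀), hmv₀]
      exact hvb
    · refine hKA _ (K.div_mem hm hm₀) ?_
      rw [← R.valuation_le_one_iff, map_div₀, div_le_one₀ (zero_lt_iff.2 vm₀), hmv₀, hmv]
      exact hv
    · have h6 : b / m₀ + m / m₀ * ((α - b) / m) = α / m₀ := by field_simp; ring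
      rw [h6, map_div₀, ← hmv₀, div_self vm₀]
    · field_simp
      ring
  intro y hy hyR
  exact hWA y (h1 (hac ▸ hy)) hyR

end Etale

open Etale in
theorem etale (wind : WindStmt.{w}) (val : ValStmt.{w}) (core : CoreStmt.{w})
    (abh : AbhStmt.{w}) : EtaleStmt.{w} := by
  intro U k _ _ _ _ _ R π M n u β _ y hπ hM hu htri hy
  let B : Subring U := M.toSubring ⊓ R.toSubring
  let L : Subfield U := ac ((M : Set U) ∪ range u)
  have hunit : ∀ a ∈ R, π a ≠ 0 → R.valuation a = 1 := fun a ha h =>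
    le_antisymm ((R.valuation_le_one_iff a).2 ha) (not_lt.1 fun h' => h ((hπ.zero a ha).2 h'))
  have hch : Ch R := by
    intro N hN
    refine hunit _ (natCast_mem R N) ?_
    have h := map_natCast hπ.hom N
    have h' : π (N : U) = (N : k) := h
    rw [h']
    exact Nat.cast_ne_zero.2 hN
  have hni := ((abh U k R π M hπ).2.2.1 n u hu htri).1
  have key : ∀ i : ℕ, ∀ x ∈ ac ((M : Set U) ∪ u '' {j | j.val < i}), x ∈ R → x ∈ PR R B L u := by
    intro i
    induction i with
    | zero =>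
      intro x hx hxR
      have h : u '' {j : Fin n | j.val < 0} = ∅ := by simp
      rw [h, union_empty, hM] at hx
      exact pres_mem (subset_ac _ (Or.inl hx)) hxR finite_empty (fun _ h => h.elim)
        (Subring.subset_closure (Or.inl (Or.inl ⟨hx, hxR⟩)))
    | succ i ih =>
      by_cases hi : i < n
      · have e1 : {j : Fin n | j.val < i} = Iio ⟨i, hi⟩ := rfl
        have e2 : (M : Set U) ∪ u '' {j : Fin n | j.val < i + 1} =
            ((M : Set U) ∪ u '' Iio ⟨i, hi⟩) ∪ {u ⟨i, hi⟩} := by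
          rw [union_assoc, ← image_singleton, ← image_union]
          congr 2
          ext j
          simp only [mem_ofPred_eq, mem_union, mem_Iio, mem_singleton_iff, Fin.lt_def, Fin.ext_iff]
          omega
        rw [e1] at ih
        rw [e2, ← ac_ac_union]
        refine one wind val core hch (PR R B L u) _ _ (ac_ac _) (fun a ha => ha.2.1) ih ?_ ?_
          (fun e he h1 => pr_inv he h1) ?_
        · exact pres_mem (subset_ac _ (Or.inr ⟨_, rfl⟩)) (hu _) finite_empty (fun _ h => h.elim)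
            (Subring.subset_closure (Or.inl (Or.inr ⟨_, rfl⟩)))
        · intro a ha haR
          refine hunit _ (sub_mem (hu _) haR) fun h => hni ⟨i, hi⟩ ?_
          have h1 := hπ.add _ (sub_mem (hu ⟨i, hi⟩) haR) _ haR
          rw [sub_add_cancel, h, zero_add] at h1
          rw [h1]
          exact Subfield.subset_closure ⟨a, ⟨ha, haR⟩, rfl⟩
        · intro x hx hxR Q hQ h0 h1
          refine pr_root ?_ hxR Q hQ h0 h1
          rw [ac_ac_union, ← e2] at hx
          exact ac_mono (union_subset_union_right _ (image_subset_range _ _)) hx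
      · have e : {j : Fin n | j.val < i + 1} = {j : Fin n | j.val < i} := by
          ext j
          have := j.2
          simp only [mem_ofPred_eq]
          omega
        rw [e]
        exact ih
  have hall : u '' {j : Fin n | j.val < n} = range u := by
    rw [← image_univ]
    congr 1
    exact eq_univ_of_forall fun j => j.2
  have hP : ∀ a ∈ range y, Pres R B L u a := by
    rintro _ ⟨b, rfl⟩
    exact key n _ (by rw [hall]; exact (hy b).1) (hy b).2
  obtain ⟨ι, i1, i2, θ, H, h1, h2, h3, h4, h5⟩ := jp_empty.union (finite_range y) hP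
  choose p hp using fun b => h5 (Or.inl (mem_range_self b))
  exact ⟨ι, i1, i2, θ, H, p, h1, h2, h3, h4, hp⟩

end Pool.Agent.MP_0e4269_lc.Z

end MrgPart3

-- marker of a merged file
example : 731051 + 223221 = 731051 + 223221 := rfl
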