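import Pool.Agent.MP_0e4269_lc.z.Base2
import Pool.Agent.MP_0e4269_lc.z.Spec
import Mathlib.RingTheory.Etale.Field
import Mathlib.RingTheory.Etale.Kaehler
import Mathlib.FieldTheory.Perfect

-- ======== part 0: formerly Pool.Agent.MP_0e4269_lc.z.Auto
section MrgPart0

/-!
Automatic compatibility with the exponential at points approximated from a subfield.
-/

open Set

universe w

namespace Pool.Agent.MP_0e4269_lc.Z

namespace Auto

variable {U : Type w} [Field U] {S : ES U}

theorem sub_one (h : Ax0 S) {a : U} (ha : S.v a < 1) : S.v (S.E a - 1) ≤ S.v a := by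
  simpa [Tn] using h.ET a ha 0

theorem val_E (h : Ax0 S) {a : U} (ha : S.v a < 1) : S.v (S.E a) = 1 := by
  have h1 := Valuation.map_one_add_of_lt S.v ((sub_one h ha).trans_lt ha)
  rwa [add_sub_cancel] at h1

theorem E_ne (h : Ax0 S) {a : U} (ha : S.v a < 1) : S.E a ≠ 0 := fun h0 => by
  simpa [h0] using val_E h ha

theorem E_zero (h : Ax0 S) : S.E 0 = 1 := by
  simpa [sub_eq_zero] using sub_one h (a := 0) (by simp)

theorem nn_of_pow (h : Ax0 S) {e : U} (he : S.v e < 1) (k : ℕ) (hk : e ^ (k + 1) ∈ S.nn) :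
    e ∈ S.nn := by
  induction k with
  | zero => simpa using hk
  | succ k ih =>
    refine ih (h.nnsq _ (h.nnle _ _ hk ?_))
    rw [← pow_add, map_pow, map_pow]
    exact pow_le_pow_right_of_le_one' he.le (by omega)

/-- Elements below which the slope is the limiting one. -/
def Small (S : ES U) (η : U) : Prop :=
  η ≠ 0 ∧ S.v η < 1 ∧ ∀ (e : U) (k : ℕ), S.v e ^ (k + 1) ≤ S.v η →
    S.v e < 1 ∧ slope S.nn e * e = (cst S : U) * e

theorem exists_small' (h : Ax0 S) (hO : S.O ≠ ⊤) {η : U} (h0 : η ≠ 0) :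
    ∃ η', Small S η' ∧ S.v η' ≤ S.v η := by
  obtain ⟨t, ht0, ht1, ht⟩ : ∃ t : U, t ≠ 0 ∧ S.v t < 1 ∧ ((∃ a ∈ S.nn, a ≠ 0) → t ∈ S.nn) := by
    by_cases hc : ∃ a ∈ S.nn, a ≠ 0
    · obtain ⟨a, ha, ha0⟩ := hc
      exact ⟨a, ha0, h.nnlt a ha, fun _ => ha⟩
    · obtain ⟨r, hr, hr1⟩ := exists_small hO
      exact ⟨r, hr, hr1, fun h1 => absurd h1 hc⟩
  obtain ⟨η', h1, h2, h3⟩ : ∃ η' : U, η' ≠ 0 ∧ S.v η' ≤ S.v t ∧ S.v η' ≤ S.v η := by
    rcases le_total (S.v t) (S.v η) with h1 | h1
    exacts [⟨t, ht0, le_rfl, h1⟩, ⟨η, h0, h1, le_rfl⟩]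
  refine ⟨η', ⟨h1, h2.trans_lt ht1, fun e k hk => ?_⟩, h3⟩
  have he : S.v e < 1 := by
    by_contra h4
    exact absurd ((one_le_pow₀ (not_lt.1 h4)).trans (hk.trans h2)) (not_le.2 ht1)
  refine ⟨he, ?_⟩
  by_cases hc : ∃ a ∈ S.nn, a ≠ 0
  · have h5 : e ∈ S.nn :=
      nn_of_pow h he k (h.nnle _ _ (ht hc) (by rw [map_pow]; exact hk.trans h2))
    simp [slope, cst, hc, h5]
  · by_cases he0 : e = 0
    · simp [he0]
    · have h5 : e ∉ S.nn := fun h5 => hc ⟨e, h5, he0⟩
      simp only [slope, cst, if_neg hc, if_neg h5, Rat.cast_one]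

theorem zero_of (h : Ax0 S) (hO : S.O ≠ ⊤) {x : U} (hx : ∀ η, Small S η → S.v x ≤ S.v η) :
    x = 0 :=
  eq_zero_of_forall_le hO fun _ h0 => by
    obtain ⟨η', h1, h2⟩ := exists_small' h hO h0
    exact (hx η' h1).trans h2

theorem lt_of_sub {s a : U} (hs : S.v s < 1) (he : S.v (s - a) < 1) : S.v a < 1 := by
  have h1 := Valuation.map_sub_lt S.v hs he
  rwa [sub_sub_cancel] at h1

theorem E_split (h : Ax0 S) {s a : U} (hs : S.v s < 1) (he : S.v (s - a) < 1) :
    S.E s = S.E a * S.E (s - a) := by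
  rw [← h.E1 a _ (lt_of_sub hs he) he, add_sub_cancel]

theorem Tn_mem (K : Subfield U) {x : U} (hx : x ∈ K) (n : ℕ) : Tn n x ∈ K :=
  sum_mem fun i _ => div_mem (pow_mem hx i) (natCast_mem K _)

theorem D_Tn [CharZero U] (D : Derivation ℤ U U) (x : U) (n : ℕ) :
    D (Tn (n + 1) x) = Tn n x * D x := by
  have h1 : ∀ m : ℕ, D (x ^ (m + 1) / ((m + 1).factorial : U)) = x ^ m / (m.factorial : U) * D x := by
    intro m
    have h2 : (m.factorial : U) ≠ 0 := Nat.cast_ne_zero.2 m.factorial_ne_zero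
    have h3 : ((m + 1 : ℕ) : U) ≠ 0 := Nat.cast_ne_zero.2 m.succ_ne_zero
    rw [D.leibniz_div, D.map_natCast, D.leibniz_pow, Nat.factorial_succ, Nat.cast_mul]
    simp only [smul_eq_mul, mul_zero, sub_zero, nsmul_eq_mul, Nat.add_sub_cancel]
    field_simp
  rw [Tn, Finset.sum_range_succ', map_add, map_sum, Tn, Finset.sum_mul]
  simp only [h1]
  simp

theorem Tn_pair [CharZero U] {O : ValuationSubring U} {Φ : Subring (U × U)} (h : Good O Φ)
    {K : Subfield U} (hK : dom Φ = K) {x y : U} (hx : (x, y) ∈ Φ) (n : ℕ) :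
    (Tn n x, Tn n y) ∈ Φ := by
  have h1 : (Tn n x, Tn n y) = ∑ i ∈ Finset.range (n + 1),
      (x ^ i / (i.factorial : U), y ^ i / (i.factorial : U)) := by
    rw [Tn, Tn, Prod.ext_iff, Prod.fst_sum, Prod.snd_sum]
    exact ⟨rfl, rfl⟩
  rw [h1]
  exact sum_mem fun i _ => h.div hK (pair_pow hx i) (pair_nat _ _)

end Auto

open Auto

theorem auto : AutoStmt.{w} := by
  intro U _ _ S F K s h hFK hs
  by_cases hO : S.O = ⊤
  · have hs0 : s = 0 := by
      rcases lt_one_iff.1 hs with h1 | h1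
      · exact h1
      · exact absurd (hO ▸ trivial) h1
    subst hs0
    refine ⟨fun D _ _ _ _ _ _ => ⟨hs, by simp [E_zero h]⟩, fun Φ _ _ _ _ _ _ =>
      ⟨hs, 0, zero_mem Φ, ?_⟩, fun _ _ η _ => ⟨1, one_mem _, by simp [E_zero h]⟩⟩
    rw [E_zero h]
    exact one_mem Φ
  refine ⟨fun D hE hD hB hsK hEK hN => ⟨hs, sub_eq_zero.1 (zero_of h hO fun η hη => ?_)⟩,
    fun Φ hG hK hF hsK hEK hN => ?_, fun hE hC η h0 => ?_⟩
  · obtain ⟨a, ha, k, hk⟩ := hN η hη.1
    obtain ⟨he, hc⟩ := hη.2.2 _ k hk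
    have ha1 := lt_of_sub hs he
    have hB' : ∀ x ∈ K, S.v (D x) ≤ S.v x := fun x hx => by
      by_cases h0 : x = 0
      · simp [h0]
      · exact (hB x hx h0).le
    have h1 := E_split h hs he
    have heK : s - a ∈ K := sub_mem hsK (hFK ha)
    have hDe : D s = D (s - a) := by rw [map_sub, hD a ha, sub_zero]
    rw [hDe]
    generalize s - a = e at *
    have hEe : S.E e ∈ K := by
      have h2 : S.E e = S.E s / S.E a := by rw [h1, mul_div_cancel_left₀ _ (E_ne h ha1)]
      rw [h2]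
      exact div_mem hEK (hFK (hE a ha))
    have hce : (cst S : U) * e ∈ K := mul_mem (by simp) heK
    have t1 := h.ET e he (k + 1)
    have t2 := h.ET e he k
    rw [hc] at t1 t2
    have hDc : D (cst S : U) = 0 := hD _ (by simp)
    have h3 : D (S.E s) - (cst S : U) * S.E s * D e = S.E a *
        (D (S.E e - Tn (k + 1) ((cst S : U) * e)) -
          (cst S : U) * (S.E e - Tn k ((cst S : U) * e)) * D e) := by
      rw [h1, D.leibniz, hD _ (hE a ha), map_sub, D_Tn, D.leibniz, hDc]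
      simp only [smul_eq_mul]
      ring
    rw [h3, map_mul, val_E h ha1, one_mul]
    refine Valuation.map_sub_le _ ?_ ?_
    · refine ((hB' _ (sub_mem hEe (Tn_mem K hce _))).trans t1).trans (le_trans ?_ hk)
      exact pow_le_pow_right_of_le_one' he.le (by omega)
    · rw [map_mul, map_mul]
      refine (mul_le_of_le_one_right' ((hB' e heK).trans he.le)).trans ?_
      exact (mul_le_of_le_one_left' (h.ch.rat_le _)).trans (t2.trans hk)
  · obtain ⟨s', hs'⟩ : s ∈ dom Φ := hK ▸ hsK
    obtain ⟨y, hy⟩ : S.E s ∈ dom Φ := hK ▸ hEK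
    have hs1 : S.v s' < 1 := (hG.val hs').trans_lt hs
    have key : y = S.E s' := by
      refine sub_eq_zero.1 (zero_of h hO fun η hη => ?_)
      obtain ⟨a, ha, k, hk⟩ := hN η hη.1
      obtain ⟨he, hc⟩ := hη.2.2 _ k hk
      have ha1 := lt_of_sub hs he
      obtain ⟨-, a', haa, hEa⟩ := hF a ha ha1
      have hp : (s - a, s' - a') ∈ Φ := Φ.sub_mem hs' haa
      have hk' : S.v (s' - a') ^ (k + 1) ≤ S.v η := by rw [hG.val hp]; exact hk
      obtain ⟨he', hc'⟩ := hη.2.2 _ k hk'
      have ha1' := lt_of_sub hs1 he'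
      have h1 := E_split h hs he
      have h1' := E_split h hs1 he'
      have h2 := hG.div hK hy hEa
      rw [h1, mul_div_cancel_left₀ _ (E_ne h ha1)] at h2
      have t1 := h.ET _ he k
      have t2 := h.ET _ he' k
      rw [hc] at t1
      rw [hc'] at t2
      have h3 : (S.E (s - a) - Tn k ((cst S : U) * (s - a)),
          y / S.E a' - Tn k ((cst S : U) * (s' - a'))) ∈ Φ :=
        Φ.sub_mem h2 (Tn_pair hG hK (Φ.mul_mem (hG.rat hK (cst S)) hp) k)
      have h4 : y - S.E s' = S.E a' * ((y / S.E a' - Tn k ((cst S : U) * (s' - a'))) -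
          (S.E (s' - a') - Tn k ((cst S : U) * (s' - a')))) := by
        rw [h1', sub_sub_sub_cancel_right, mul_sub, mul_div_cancel₀ _ (E_ne h ha1')]
      rw [h4, map_mul, val_E h ha1', one_mul]
      exact Valuation.map_sub_le _ ((hG.val h3).trans_le (t1.trans hk)) (t2.trans hk')
    exact ⟨hs, s', hs', key ▸ hy⟩
  · obtain ⟨η', h1, h2⟩ := exists_small' h hO h0
    obtain ⟨a, ha, h3⟩ := hC η' h1.1
    have he : S.v (s - a) < 1 := h3.trans_lt h1.2.1
    refine ⟨S.E a, hE a ha, ?_⟩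
    rw [E_split h hs he, ← mul_sub_one, map_mul, val_E h (lt_of_sub hs he), one_mul]
    exact (sub_one h he).trans (h3.trans h2)

end Pool.Agent.MP_0e4269_lc.Z

end MrgPart0

-- ======== part 1: formerly Pool.Agent.MP_0e4269_lc.z.Bf
section MrgPart1

/-!
Back and forth, and the model theoretic algebraic closure.
-/

open MvPolynomial Sum Set FirstOrder

universe w

namespace Pool.Agent.MP_0e4269_lc.Z

namespace Bf

section Forth

variable {U : Type w} [Field U] [CharZero U] [LE.Structure U] {S : ES U}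

theorem term (hS : Ax0 S) (H : CompatE S) {Φ : Subring (U × U)} (hΦ : Fam S Φ) {β : Type}
    {v v' : β → U} (hv : ∀ a, (v a, v' a) ∈ Φ) (t : LE.Term β) :
    (t.realize v, t.realize v') ∈ Φ := by
  induction t with
  | var a => exact hv a
  | func f ts ih =>
    cases f with
    | add =>
      have e : ∀ u : β → U, (Language.Term.func Fn.add ts).realize u =
          (ts 0).realize u + (ts 1).realize u := fun u => by
        rw [← H.hadd]
        exact congrArg (Language.Structure.funMap addS) (by ext i; fin_cases i <;> rfl)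
      rw [e, e]
      exact Φ.add_mem (ih 0) (ih 1)
    | mul =>
      have e : ∀ u : β → U, (Language.Term.func Fn.mul ts).realize u =
          (ts 0).realize u * (ts 1).realize u := fun u => by
        rw [← H.hmul]
        exact congrArg (Language.Structure.funMap mulS) (by ext i; fin_cases i <;> rfl)
      rw [e, e]
      exact Φ.mul_mem (ih 0) (ih 1)
    | exp =>
      have e : ∀ u : β → U, (Language.Term.func Fn.exp ts).realize u =
          S.E ((ts 0).realize u) := fun u => by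
        rw [← H.he]
        exact congrArg (Language.Structure.funMap expS) (by ext i; fin_cases i; rfl)
      rw [e, e]
      obtain ⟨hg, N, -, -, hN, hE⟩ := hΦ
      by_cases h : S.v ((ts 0).realize v) < 1
      · have hm : (ts 0).realize v ∈ (N : Set U) := hN ▸ ⟨_, ih 0⟩
        obtain ⟨-, s, h1, h2⟩ := hE _ hm h
        rwa [hg.func (ih 0) h1]
      · rw [hS.E0 _ h, hS.E0 _ (by rwa [ES.v, hg.val (ih 0)])]
        exact Φ.zero_mem

omit [CharZero U] [LE.Structure U] in
theorem snoc {Φ Φ' : Subring (U × U)} (h : Φ ≤ Φ') {n : ℕ} {xs xs' : Fin n → U}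
    (hx : ∀ i, (xs i, xs' i) ∈ Φ) {x x' : U} (hy : (x, x') ∈ Φ') (i : Fin (n + 1)) :
    ((Fin.snoc xs x : Fin (n + 1) → U) i, (Fin.snoc xs' x' : Fin (n + 1) → U) i) ∈ Φ' := by
  refine Fin.lastCases ?_ (fun j => ?_) i
  · simpa using hy
  · simpa using h (hx j)

theorem bounded (hS : Ax0 S) (H : CompatE S) (h1 : ∀ Φ, Fam S Φ → Fam S (swp Φ))
    (h2 : ∀ Φ, Fam S Φ → ∀ x, ∃ Φ', Φ ≤ Φ' ∧ Fam S Φ' ∧ x ∈ dom Φ') {α : Type} {n : ℕ}
    (φ : LE.BoundedFormula α n) : ∀ (Φ : Subring (U × U)) (v v' : α → U) (xs xs' : Fin n → U),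
      Fam S Φ → (∀ a, (v a, v' a) ∈ Φ) → (∀ i, (xs i, xs' i) ∈ Φ) →
      (φ.Realize v xs ↔ φ.Realize v' xs') := by
  induction φ with
  | falsum => exact fun _ _ _ _ _ _ _ _ => Iff.rfl
  | equal t₁ t₂ =>
    intro Φ v v' xs xs' hΦ hv hx
    have h : ∀ a, (Sum.elim v xs a, Sum.elim v' xs' a) ∈ Φ := by
      rintro (a | a)
      exacts [hv a, hx a]
    have e1 := term hS H hΦ h t₁
    have e2 := term hS H hΦ h t₂
    exact ⟨fun e => hΦ.1.func e1 (e.symm ▸ e2), fun e => hΦ.1.inj e1 (e.symm ▸ e2)⟩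
  | rel r ts =>
    intro Φ v v' xs xs' hΦ hv hx
    have h : ∀ a, (Sum.elim v xs a, Sum.elim v' xs' a) ∈ Φ := by
      rintro (a | a)
      exacts [hv a, hx a]
    cases r with
    | val =>
      have e : ∀ (u : α → U) (ys), (Language.BoundedFormula.rel Rl.val ts).Realize u ys ↔
          (ts 0).realize (Sum.elim u ys) ∈ S.O := fun u ys => by
        rw [← H.ho]
        exact iff_of_eq
          (congrArg (Language.Structure.RelMap valS) (by ext i; fin_cases i; rfl))
      rw [e, e]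
      exact (hΦ.1.mem le_rfl (term hS H hΦ h (ts 0))).symm
  | imp f₁ f₂ ih₁ ih₂ =>
    intro Φ v v' xs xs' hΦ hv hx
    exact imp_congr (ih₁ Φ v v' xs xs' hΦ hv hx) (ih₂ Φ v v' xs xs' hΦ hv hx)
  | all f ih =>
    intro Φ v v' xs xs' hΦ hv hx
    rw [Language.BoundedFormula.realize_all, Language.BoundedFormula.realize_all]
    refine ⟨fun h x' => ?_, fun h x => ?_⟩
    · obtain ⟨Φ', hle, hF, x, hy⟩ := h2 _ (h1 Φ hΦ) x'
      exact (ih Φ' v' v _ _ hF (fun a => hle (hv a)) (snoc hle hx hy)).2 (h x)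
    · obtain ⟨Φ', hle, hF, x', hy⟩ := h2 Φ hΦ x
      exact (ih Φ' v v' _ _ hF (fun a => hle (hv a)) (snoc hle hx hy)).2 (h x')

end Forth

section Acl

variable {U : Type w} [LE.Structure U] {A B : Set U}

theorem countable_symbols : Countable LE.Symbols := by
  have h1 : Countable (Σ l, LE.Functions l) := by
    refine Function.Surjective.countable (f := fun i : Fin 3 =>
      (![⟨2, Fn.add⟩, ⟨2, Fn.mul⟩, ⟨1, Fn.exp⟩] i : Σ l, Fn l)) ?_
    rintro ⟨l, f⟩
    cases f
    exacts [⟨0, rfl⟩, ⟨1, rfl⟩, ⟨2, rfl⟩]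
  have h2 : Countable (Σ l, LE.Relations l) := by
    refine Function.Surjective.countable (f := fun _ : Unit => (⟨1, Rl.val⟩ : Σ l, Rl l)) ?_
    rintro ⟨l, f⟩
    cases f
    exact ⟨(), rfl⟩
  exact inferInstanceAs (Countable ((Σ l, LE.Functions l) ⊕ (Σ l, LE.Relations l)))

theorem subset_acl (B : Set U) : B ⊆ acl B := fun a ha =>
  ⟨{a}, finite_singleton a, Definable.singleton_of_mem LE ha, rfl⟩

theorem acl_mono (h : A ⊆ B) : acl A ⊆ acl B := fun _ ⟨C, h1, h2, h3⟩ => ⟨C, h1, h2.mono h, h3⟩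

theorem congr {α : Type} {P Q : (α → U) → Prop} (h : A.Definable LE {x | P x})
    (e : ∀ x, P x ↔ Q x) : A.Definable LE {x | Q x} := by
  rwa [← show {x | P x} = {x | Q x} from Set.ext e]

theorem acl_insert {a : U} (ha : a ∈ acl B) : acl (insert a B) ⊆ acl B := by
  classical
  rintro y ⟨C, hC, hd, hy⟩
  obtain ⟨D, hD, hDd, haD⟩ := ha
  obtain ⟨φ, hφ⟩ := definable_iff_exists_formula_sum.1 hd
  let g : (insert a B : Set U) ⊕ Fin 1 → B ⊕ Fin 2 :=
    Sum.elim (fun c => if h : c.1 ∈ B then inl ⟨c.1, h⟩ else inr 0) fun _ => inr 1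
  let T : Set (Fin 2 → U) := {u | (φ.relabel g).Realize (Sum.elim (↑) u)}
  have hT : B.Definable LE T := definable_iff_exists_formula_sum.2 ⟨_, rfl⟩
  have hTC : ∀ z, ![a, z] ∈ T ↔ z ∈ C := fun z => by
    have h1 : (Sum.elim (↑) ![a, z] : B ⊕ Fin 2 → U) ∘ g = Sum.elim (↑) fun _ => z := by
      ext (c | i)
      · by_cases h : c.1 ∈ B
        · simp [g, h]
        · simp only [g, Function.comp_apply, Sum.elim_inl, dif_neg h]
          exact (c.2.resolve_right h).symm
      · rfl
    have h2 : (fun _ => z) ∈ {x : Fin 1 → U | x 0 ∈ C} ↔ z ∈ C := Iff.rfl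
    rw [← h2, hφ]
    simp only [T, mem_ofPred_eq, Language.Formula.realize_relabel, h1]
  have hT' : ∀ {β : Type} (i j : β), B.Definable LE {u : β → U | ![u i, u j] ∈ T} :=
    fun i j => congr (hT.preimage_comp ![i, j]) fun u => iff_of_eq (congrArg (· ∈ T)
      (by ext k; fin_cases k <;> rfl))
  let N := hC.toFinset.card + 1
  let P : U → Prop := fun x => ∃ f : Fin N → U, (∀ i j, i ≠ j → f i ≠ f j) ∧ ∀ i, ![x, f i] ∈ T
  have hP : B.Definable LE {x : Fin 1 → U | P (x 0)} := by
    refine Definable.exists_of_finite (β := Fin N) (S := {u | (∀ i j, i ≠ j →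
      u (inr i) ≠ u (inr j)) ∧ ∀ i, ![u (inl 0), u (inr i)] ∈ T}) (Definable.inter ?_ ?_)
    · refine congr (definable_iInter_of_finite (ι := {p : Fin N × Fin N // p.1 ≠ p.2})
        fun p => ((DefinableFun.proj LE (i := inr p.1.1)).ofPred_eq
          (DefinableFun.proj LE (i := inr p.1.2))).compl) fun u => ?_
      exact mem_iInter.trans ⟨fun h i j hij => h ⟨(i, j), hij⟩, fun h p => h _ _ p.2⟩
    · exact congr (definable_iInter_of_finite fun i => hT' (inl 0) (inr i)) fun u => mem_iInter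
  refine ⟨⋃ x ∈ {x ∈ D | ¬ P x}, {z | ![x, z] ∈ T},
    (hD.subset fun x hx => hx.1).biUnion fun x hx => ?_, ?_,
    mem_biUnion (show a ∈ {x ∈ D | ¬ P x} from ⟨haD, ?_⟩) ((hTC y).2 hy)⟩
  · by_contra hi
    let e := Set.Infinite.natEmbedding _ hi
    exact hx.2 ⟨fun i => e i, fun i j hij h => hij (Fin.ext (e.injective (Subtype.ext h))),
      fun i => (e i).2⟩
  · refine congr (Definable.exists_of_finite (β := Fin 1)
      (S := {u : Fin 1 ⊕ Fin 1 → U | (u (inr 0) ∈ D ∧ ¬ P (u (inr 0))) ∧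
        ![u (inr 0), u (inl 0)] ∈ T})
      (((hDd.preimage_comp inr).inter (hP.preimage_comp inr).compl).inter (hT' _ _))) fun u => ?_
    rw [mem_iUnion₂]
    exact ⟨fun ⟨x, h1, h2⟩ => ⟨x 0, h1, h2⟩, fun ⟨x, h1, h2⟩ => ⟨fun _ => x, h1, h2⟩⟩
  · rintro ⟨f, h1, h2⟩
    have := Finset.card_le_card_of_injOn (s := Finset.univ) (t := hC.toFinset) f
      (fun i _ => by simpa using (hTC _).1 (h2 i)) fun i _ j _ h => by_contra fun hij => h1 i j hij h
    simp [N] at this

theorem acl_acl (B : Set U) : acl (acl B) ⊆ acl B := by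
  classical
  have key : ∀ s : Finset U, (s : Set U) ⊆ acl B → acl ((s : Set U) ∪ B) ⊆ acl B := fun s => by
    induction s using Finset.induction_on with
    | empty => simp
    | insert a s _ ih =>
      intro h
      rw [Finset.coe_insert, insert_subset_iff] at h
      rw [Finset.coe_insert, insert_union]
      exact (acl_insert (acl_mono subset_union_right h.1)).trans (ih h.2)
  rintro y ⟨C, hC, hd, hy⟩
  obtain ⟨s, h1, h2⟩ := definable_iff_finitely_definable.1 hd
  exact key s h1 ⟨C, hC, h2.mono subset_union_left, hy⟩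

theorem acl_countable (h : B.Countable) : (acl B).Countable := by
  have := h.to_subtype
  have := countable_symbols
  let F : (LE.withConstants B).Formula (Fin 1) → Set U := fun φ => {y | φ.Realize fun _ => y}
  refine ((Set.to_countable {φ | (F φ).Finite}).biUnion (t := fun φ _ => F φ)
    fun φ hφ => Set.Finite.countable hφ).mono ?_
  rintro y ⟨C, hC, ⟨φ, hφ⟩, hy⟩
  have e : F φ = C := Set.ext fun z => (Set.ext_iff.1 hφ fun _ => z).symm
  exact mem_biUnion (show φ ∈ {φ | (F φ).Finite} from hC.subset e.le) (e.ge hy)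

theorem key {P : U → Prop} {y : U} (h : (acl B).Definable LE {x : Fin 1 → U | P (x 0)})
    (hf : {z | P z}.Finite) (hy : P y) : y ∈ acl B :=
  acl_acl B ⟨{z | P z}, hf, h, hy⟩

theorem key_fun {y : U} (h : (acl B).DefinableFun LE fun _ : Fin 1 → U => y) : y ∈ acl B :=
  key (P := fun z => z = y) ((DefinableFun.proj LE).ofPred_eq h) (finite_singleton y) rfl

end Acl

section Fld

variable {U : Type w} [Field U] [LE.Structure U] {S : ES U} {A B : Set U} {α : Type}

theorem dfun_E (H : CompatE S) {f : (α → U) → U} (hf : A.DefinableFun LE f) :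
    A.DefinableFun LE fun x => S.E (f x) := by
  have h1 : A.DefinableMap LE (fun x : α → U => ![f x]) := by
    intro i
    fin_cases i
    exact hf
  have h2 := DefinableFun.comp h1 ((DefinableFun.fun_symbol (M := U) expS).of_empty (A := A))
  simpa [H.he] using h2

theorem dfun_sum (H : CompatE S) (h0 : (0 : U) ∈ A) {ι : Type*} (s : Finset ι)
    {f : ι → (α → U) → U} (hf : ∀ i, A.DefinableFun LE (f i)) :
    A.DefinableFun LE fun x => ∑ i ∈ s, f i x := by
  classical
  induction s using Finset.induction_on with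
  | empty => simpa using dfun_const h0
  | insert a s ha ih => simpa [Finset.sum_insert ha] using dfun_add H.toCompat (hf a) ih

theorem dfun_prod (H : CompatE S) (h1 : (1 : U) ∈ A) {ι : Type*} (s : Finset ι)
    {f : ι → (α → U) → U} (hf : ∀ i, A.DefinableFun LE (f i)) :
    A.DefinableFun LE fun x => ∏ i ∈ s, f i x := by
  classical
  induction s using Finset.induction_on with
  | empty => simpa using dfun_const h1
  | insert a s ha ih => simpa [Finset.prod_insert ha] using dfun_mul H.toCompat (hf a) ih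

theorem dfun_pow (H : CompatE S) (h1 : (1 : U) ∈ A) {f : (α → U) → U}
    (hf : A.DefinableFun LE f) (n : ℕ) : A.DefinableFun LE fun x => f x ^ n := by
  simpa using dfun_prod H h1 (Finset.range n) fun _ => hf

theorem zero_mem (H : CompatE S) : (0 : U) ∈ acl B :=
  key (P := fun z => z + z = z)
    ((dfun_add H.toCompat (dfun_proj 0) (dfun_proj 0)).ofPred_eq (dfun_proj 0))
    ((finite_singleton 0).subset fun _ h => add_eq_left.1 h) (add_zero 0)

theorem one_mem (H : CompatE S) : (1 : U) ∈ acl B :=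
  key (P := fun z => z * z = z)
    ((dfun_mul H.toCompat (dfun_proj 0) (dfun_proj 0)).ofPred_eq (dfun_proj 0))
    (((finite_singleton 1).insert 0).subset fun z h =>
      (eq_or_ne z 0).imp id fun h0 => mul_left_cancel₀ h0 (h.trans (mul_one z).symm)) (mul_one 1)

/-- The algebraic closure as a subfield. -/
def fld (H : CompatE S) (B : Set U) : Subfield U where
  carrier := acl B
  zero_mem' := zero_mem H
  one_mem' := one_mem H
  add_mem' := fun ha hb => key_fun (dfun_add H.toCompat (dfun_const ha) (dfun_const hb))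
  mul_mem' := fun ha hb => key_fun (dfun_mul H.toCompat (dfun_const ha) (dfun_const hb))
  neg_mem' := fun {a} ha => key_fun (by
    simpa using dfun_sub H.toCompat (dfun_const (α := Fin 1) (zero_mem H)) (dfun_const ha))
  inv_mem' := fun a ha => by
    by_cases h0 : a = 0
    · rw [h0, inv_zero]
      exact zero_mem H
    · exact key (P := fun z => z * a = 1)
        ((dfun_mul H.toCompat (dfun_proj 0) (dfun_const ha)).ofPred_eq_const (one_mem H))
        ((finite_singleton a⁻¹).subset fun _ h => eq_inv_of_mul_eq_one_left h) (inv_mul_cancel₀ h0)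

end Fld

end Bf

theorem bf : BfStmt.{w} := fun _ _ _ _ _ hS H h1 h2 Φ _ φ v v' hΦ hv =>
  Bf.bounded hS H h1 h2 φ Φ v v' default default hΦ hv fun i => i.elim0

theorem acla : AclAStmt.{w} := fun _ _ B => ⟨Bf.subset_acl B, Bf.acl_acl B, Bf.acl_countable⟩

theorem aclc (tay : TayStmt.{w}) : AclStmt.{w} := by
  intro U _ _ _ S B hS hk H
  have h0 : (0 : U) ∈ acl B := Bf.zero_mem H
  have h1 : (1 : U) ∈ acl B := Bf.one_mem H
  refine ⟨Bf.fld H B, rfl, le_antisymm (fun y hy => ?_) (le_ac _),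
    fun a ha => Bf.key_fun (Bf.dfun_E H (dfun_const ha)), ?_⟩
  · obtain ⟨P, hP, hc, hy⟩ := mem_ac_field.1 hy
    refine Bf.key (P := fun z => P.eval z = 0) ?_ (P.finite_setOfPred_isRoot hP) hy
    simp only [Polynomial.eval_eq_sum_range]
    exact (Bf.dfun_sum H h0 _ fun i => dfun_mul H.toCompat (dfun_const (hc i))
      (Bf.dfun_pow H h1 (dfun_proj 0) i)).ofPred_eq_const h0
  · intro κ ι _ _ _ _ G b j hG hb hA hj hj0 hj1 hj2 hv
    obtain ⟨z, hz, hz0⟩ := hk κ ι G b j (fun i m => ⟨trivial, (hG i m).2⟩) (fun _ => trivial) hA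
      trivial hj0 hj1 hj2 hv
    refine ⟨z, fun k => ⟨?_, (hz k).2⟩, hz0⟩
    have hu := ((tay U).2.2 S κ ι G b hS (fun i m => (hG i m).2) hA).2 j
    refine Bf.key (P := fun y => ∃ u : κ ⊕ ι → U, u k = y ∧ (∀ l, S.v (u l - b l) < S.v j) ∧
      ∀ i, eval (pt S u) (G i) = 0) ?_ ((finite_singleton (z k)).subset ?_)
      ⟨z, rfl, fun l => (hz l).2, hz0⟩
    · refine Definable.exists_of_finite (β := κ ⊕ ι) (S := {u | u (inr k) = u (inl 0) ∧
        (∀ l, S.v (u (inr l) - b l) < S.v j) ∧ ∀ i, eval (pt S fun l => u (inr l)) (G i) = 0})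
        (((dfun_proj _).ofPred_eq (dfun_proj _)).inter (Definable.inter ?_ ?_))
      · exact Bf.congr (definable_iInter_of_finite fun l => def_lt H.toCompat
          (dfun_sub H.toCompat (dfun_proj (inr l)) (dfun_const (hb l))) (dfun_const hj))
          fun u => mem_iInter
      · refine Bf.congr (definable_iInter_of_finite (f := fun i =>
          {u : Fin 1 ⊕ κ ⊕ ι → U | eval (pt S fun l => u (inr l)) (G i) = 0}) fun i => ?_)
          fun u => mem_iInter
        simp only [eval_eq']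
        refine (Bf.dfun_sum H h0 _ fun d => dfun_mul H.toCompat (dfun_const (hG i d).1)
          (Bf.dfun_prod H h1 _ fun t => Bf.dfun_pow H h1 ?_ _)).ofPred_eq_const h0
        rcases t with (t | t) | t
        · exact dfun_proj (inr (inl t))
        · exact Bf.dfun_E H (dfun_proj (inr (inl t)))
        · exact dfun_proj (inr (inr t))
    · rintro _ ⟨u, rfl, h2, h3⟩
      exact congrFun (hu u z hj0 hj1 hj2 h2 (fun l => (hz l).2) h3 hz0) k

end Pool.Agent.MP_0e4269_lc.Z

end MrgPart1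

-- ======== part 2: formerly Pool.Agent.MP_0e4269_lc.z.Ca
section MrgPart2

/-!
The induction step of the Schanuel property.
-/

set_option linter.unusedSectionVars false

open Set MvPolynomial Sum

universe w

namespace Pool.Agent.MP_0e4269_lc.Z

namespace Ca

variable {U : Type w} [Field U]

theorem E_mem {S : ES U} (h : Ax0 S) {a : U} (ha : S.v a < 1) : S.E a ∈ S.O := by
  have h1 := h.ET a ha 0
  have h2 : S.v (S.E a - 1) < 1 := by
    refine lt_of_le_of_lt ?_ ha
    simpa [Tn] using h1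
  simpa using add_mem (mem_of_lt_one h2) (one_mem S.O)

theorem cf_X_sub (F : Subfield U) {τ : Type} (a b : τ) :
    Cf (F : Set U) (X a - X b : MvPolynomial τ U) := fun m => by
  classical
  rw [coeff_sub, coeff_X, coeff_X]
  refine F.sub_mem ?_ ?_ <;> split_ifs
  exacts [one_mem _, zero_mem _, one_mem _, zero_mem _]

theorem cf_rename (F : Subfield U) {τ σ : Type} {f : τ → σ} (hf : Function.Injective f)
    {G : MvPolynomial τ U} (h : Cf (F : Set U) G) : Cf (F : Set U) (rename f G) := fun m => by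
  by_cases h0 : coeff m (rename f G) = 0
  · rw [h0]
    exact F.zero_mem
  · obtain ⟨u, rfl, -⟩ := coeff_rename_ne_zero _ _ _ h0
    rw [coeff_rename_mapDomain _ hf]
    exact h u

theorem cst_ne (S : ES U) : cst S ≠ 0 := by
  unfold cst
  split_ifs <;> norm_num

end Ca

open Ca

theorem cb (ord : OrdStmt.{w}) (res : ResStmt.{w}) (abh : AbhStmt.{w}) : CbStmt.{w} := by
  intro n h U _ _ S F z hS hF hc hn hz hli _
  have := hS.alg
  obtain ⟨R, hR, h1, h2⟩ := (ord U S.O F hS.ch).1 n z (fun j => mem_of_lt_one (hz j)) hli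
  obtain ⟨k, _, _, π, S', hr, hS'⟩ := (res U S R).1 hS hR
  have hzR : ∀ j, z j ∈ R := fun j => hr.memR (hz j)
  have h3 := h k S' (resF R π F) (fun j => π (z j)) hS'
    ((res U S R).2 k π S' F hS.toAx0 hr hF) (hr.pl.resF_countable hc) hn
    (fun j => (hr.lt_one (hzR j)).2 (hz j))
    ((ord U S.O F hS.ch).2.1 n z R k π hr.pl hzR h1) fun _ => h2 k π S'.O hr.toPlaceO
  refine h3.trans (le_trans (rk_mono ?_) ((abh U k R π F hr.pl).2.2.2 (zE S z)))
  rintro _ (⟨j, rfl⟩ | ⟨j, rfl⟩)
  · exact ⟨z j, ⟨Or.inl ⟨j, rfl⟩, hzR j⟩, rfl⟩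
  · exact ⟨S.E (z j), ⟨Or.inr ⟨j, rfl⟩, hR (E_mem hS.toAx0 (hz j))⟩, (hr.E _ (hzR j)).symm⟩

theorem ca (nd : NdStmt.{w}) (ord : OrdStmt.{w}) (split : SplitStmt.{w}) (res : ResStmt.{w})
    (rb : RbStmt.{w}) (etale : EtaleStmt.{w}) (sys : SysStmt.{w}) (hkp : HkpStmt.{w})
    (span : SpanStmt.{w}) : CaStmt.{w} := by
  intro n IH U _ _ S F z hS hF hc hn hz hli hstar
  have := hS.alg
  refine succ_le_of_not_le fun hrk => ?_
  have hND : ∀ c : ℚ, c ≠ 0 → ND S F c z := fun c hc0 =>
    nd U S F F c n z hS.toAx0 Subset.rfl hc0 hz hli hrk fun l hl y hy hy' => by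
      by_cases h0 : l = 0
      · simp [h0]
      · exact le_trans (by simp) (IH l hl U S F y hS hF hc h0 hy hy' False.elim)
  obtain ⟨n, rfl⟩ := Nat.exists_eq_succ_of_ne_zero hn
  have hz0 : z 0 ∉ F := fun h => hli.notMem 0 (mem_sub.2 h)
  have hO : S.O ≠ ⊤ := ne_top_of_small (fun h : z 0 = 0 => hz0 (h ▸ F.zero_mem)) (hz 0)
  obtain ⟨R, hR, hRt, hnear, -⟩ := (ord U S.O F hS.ch).2.2 _ z hO
  obtain ⟨m, l, z', z'', h1, h2, h3, h4, h5, h6⟩ := (split U).1 (fp F R) _ z
  obtain ⟨hml, -, hl⟩ := h6 _ hli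
  have hl0 := hl (hstar trivial R hR hRt)
  obtain ⟨rb1, rb2⟩ := rb U S F F _ m l z z' z'' hS hF.EF le_rfl hc hF.acF hz h1 h2 h5
    (fun j => hnear _ (h2 j) (h4 j)) (hND _ (cst_ne S))
  by_cases hm : m = 0
  swap
  · obtain ⟨k, _, _, π, S', hr, hS'⟩ := (res U S R).1 hS hR
    have hz' : ∀ j, S.v (z' j) < 1 := fun j =>
      (span U S (range z) hS.toAx0).1 (range_subset_iff.2 hz) (h1 j)
    have hzR : ∀ j, z' j ∈ R := fun j => hr.memR (hz' j)
    have h7 := (IH m (by omega) k S' (resF R π F) (fun j => π (z' j)) hS'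
      ((res U S R).2 k π S' F hS.toAx0 hr hF) (hr.pl.resF_countable hc) hm
      (fun j => (hr.lt_one (hzR j)).2 (hz' j))
      ((ord U S.O F hS.ch).2.1 m z' R k π hr.pl hzR h3) False.elim).trans
      (rb1 R k π S' hr hRt)
    rw [Nat.cast_le] at h7
    omega
  have hcl := rb2 hm
  have hge : ((n + 1 : ℕ) : ℕ∞) ≤ rk (F : Set U) (zE S z) := by
    by_cases h0 : n = 0
    · subst h0
      simpa using one_le_rk (X := zE S z) (Or.inl ⟨0, rfl⟩) (by rwa [hF.acF])
    · refine (IH n (by omega) U S F (fun j => z j.castSucc) hS hF hc h0 (fun j => hz _)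
        (hli.comp (Fin.castSucc_injective n)) False.elim).trans (rk_mono ?_)
      rintro _ (⟨j, rfl⟩ | ⟨j, rfl⟩)
      · exact Or.inl ⟨_, rfl⟩
      · exact Or.inr ⟨_, rfl⟩
  obtain ⟨u, hu, htri⟩ := exists_tri hge
  have hu' : range u ⊆ ac ((F : Set U) ∪ zE S z) :=
    (range_subset_iff.2 hu).trans (subset_union_right.trans (subset_ac _))
  have hsp := htri.spans hu' hrk
  have htri' : Tri (resF ⊤ (id : U → U) F : Set U) fun i => id (u i) := by
    rw [resF_id]
    exact htri
  obtain ⟨ι, _, _, θ, H, p, g1, g2, g3, g4, g5⟩ := etale U U ⊤ id F _ u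
    (Fin (n + 1) ⊕ Fin (n + 1)) (Sum.elim z fun j => S.E (z j)) place_top hF.acF
    (fun _ => trivial) htri' (by
      rintro (j | j)
      · exact ⟨hsp (Or.inl ⟨j, rfl⟩), trivial⟩
      · exact ⟨hsp (Or.inr ⟨j, rfl⟩), trivial⟩)
  have e1 : ∀ j, θ (p (inl j)) = z j := fun j => g5 (inl j)
  have e2 : ∀ j, θ (p (inr j)) = S.E (z j) := fun j => g5 (inr j)
  have hdet : ∀ c : ℕ, c ≠ 0 → (jac (sysG H (fun j => p (inl j)) fun j => p (inr j)) (c : U)
      (pt S (Sum.elim z (Sum.elim u θ)))).det ≠ 0 := fun c hc0 h0 => by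
    have h7 := sys U U ⊤ id F _ u ι θ H (fun j => p (inl j)) (fun j => p (inr j)) c place_top
      (fun _ => trivial) htri' g1 (fun _ => trivial) g3 g4 fun D hD hE i => by
        rw [resF_id] at hD
        simp only [id, e1, e2] at hE ⊢
        have h8 := hND c (Nat.cast_ne_zero.2 hc0) D hD fun j => ⟨hz j, by simpa using hE j⟩
        rcases hu i with ⟨j, hj⟩ | ⟨j, hj⟩
        · rw [← hj, h8]
        · rw [← hj]
          simp [hE, h8]
    simp only [e1, e2] at h7
    have h9 : pt S (Sum.elim z (Sum.elim u θ)) =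
        Sum.elim (Sum.elim (fun j => z j) fun j => S.E (z j)) (Sum.elim u θ) := by
      funext x
      rcases x with (j | j) | j <;> rfl
    rw [← h9, h0] at h7
    simp at h7
  refine hz0 ((hkp U S (Fin (n + 1)) (Fin (n + 1) ⊕ ι)
    (sysG H (fun j => p (inl j)) fun j => p (inr j)) (Sum.elim z (Sum.elim u θ)) hS.toAx0
    hz).2 F hO hF.hk ?_ ?_ (by simpa using hdet 1 one_ne_zero)
    (by simpa using hdet 2 two_ne_zero) ?_ (inl 0))
  · rintro (j | j | i)
    · exact cf_X_sub F _ _
    · exact cf_X_sub F _ _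
    · exact cf_rename F inr_injective fun m => (g1 i m).1
  · rintro (j | j | i)
    · exact hcl _ (subset_ac _ (Or.inr (Or.inl ⟨j, rfl⟩)))
    · exact hcl _ (hu' ⟨j, rfl⟩)
    · exact hcl _ (ac_le (union_subset (subset_union_left.trans (subset_ac _)) hu') (g2 i).1)
  · rintro (j | j | i)
    · simp [sysG, pt, e1]
    · simp [sysG, pt, e2]
    · rw [← g3 i]
      simp only [sysG, Sum.elim_inr, eval_rename]
      rfl

end Pool.Agent.MP_0e4269_lc.Z

end MrgPart2

-- ======== part 3: formerly Pool.Agent.MP_0e4269_lc.z.Dex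
section MrgPart3

/-!
Existence of derivations.
-/

open Set

universe w

namespace Pool.Agent.MP_0e4269_lc.Z

namespace Dex

variable {U : Type w} [Field U] [CharZero U]

/-- The constants of a derivation. -/
def ker (D : Derivation ℤ U U) : Subfield U where
  carrier := {a | D a = 0}
  mul_mem' := fun {a b} (ha : D a = 0) (hb : D b = 0) => show D (a * b) = 0 by simp [ha, hb]
  one_mem' := D.map_one_eq_zero
  add_mem' := fun {a b} (ha : D a = 0) (hb : D b = 0) => show D (a + b) = 0 by simp [ha, hb]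
  zero_mem' := map_zero D
  neg_mem' := fun {a} (ha : D a = 0) => show D (-a) = 0 by simp [ha]
  inv_mem' := fun a (ha : D a = 0) => show D a⁻¹ = 0 by simp [Derivation.leibniz_inv, ha]

theorem root (D : Derivation ℤ U U) (y : U) (n : ℕ) : ∀ P : Polynomial U, P.natDegree ≤ n → P ≠ 0 →
    (∀ i, P.coeff i ∈ ker D) → P.eval y = 0 → D y = 0 := by
  have h0 : ∀ P : Polynomial U, P.natDegree = 0 → P ≠ 0 → P.eval y ≠ 0 := fun P h1 h2 h3 => by
    rw [Polynomial.eq_C_of_natDegree_eq_zero h1] at h2 h3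
    exact h2 (by rw [Polynomial.eval_C] at h3; rw [h3, map_zero])
  induction n with
  | zero => exact fun P h1 h2 _ h4 => absurd h4 (h0 P (Nat.le_zero.1 h1) h2)
  | succ n ih =>
    intro P h1 h2 h3 h4
    have h5 : D (P.eval y) = P.derivative.eval y * D y := by
      rw [Polynomial.derivative_eval, Polynomial.eval_eq_sum, Polynomial.sum_def,
        Polynomial.sum_def, map_sum, Finset.sum_mul]
      refine Finset.sum_congr rfl fun i _ => ?_
      have : D (P.coeff i) = 0 := h3 i
      simp [this, Derivation.leibniz_pow, mul_assoc]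
    rw [h4, map_zero] at h5
    refine (mul_eq_zero.1 h5.symm).elim (fun h6 => ih _ ?_ ?_ (fun i => ?_) h6) id
    · have := Polynomial.natDegree_derivative_le P
      omega
    · exact fun h => h0 P (Polynomial.derivative_eq_zero.1 h) h2 h4
    · rw [Polynomial.coeff_derivative]
      exact mul_mem (h3 _) (add_mem (natCast_mem _ i) (one_mem _))

theorem kills (D : Derivation ℤ U U) (B : Set U) (h : Kills D B) : Kills D (ac B) := fun y hy => by
  obtain ⟨P, h1, h2, h3⟩ := (mem_ac_field (K := ker D)).1 (ac_mono (fun a ha => h a ha) hy)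
  exact root D y _ P le_rfl h1 h2 h3

omit [CharZero U] in
theorem ext_der {M : Type w} [Field M] [CharZero M] [Algebra M U] {s : Set U}
    (hs : IsTranscendenceBasis M ((↑) : s → U)) (y : s) : ∃ D : Derivation M U U, D y = 1 := by
  classical
  let : Algebra (MvPolynomial s M) U := (MvPolynomial.aeval ((↑) : s → U)).toRingHom.toAlgebra
  have : IsScalarTower M (MvPolynomial s M) U := IsScalarTower.of_algebraMap_eq fun a =>
    ((MvPolynomial.aeval ((↑) : s → U)).commutes a).symm
  have : FaithfulSMul (MvPolynomial s M) U := (faithfulSMul_iff_algebraMap_injective _ _).2 hs.1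
  have : Algebra.IsAlgebraic (MvPolynomial s M) U :=
    ⟨fun a => (hs.isAlgebraic.1 a).of_ringHom_of_comp_eq hs.1.aevalEquiv.toRingHom (RingHom.id U)
      hs.1.aevalEquiv.surjective Function.injective_id
      (RingHom.ext fun p => hs.1.algebraMap_aevalEquiv p)⟩
  let := FractionRing.liftAlgebra (MvPolynomial s M) U
  have := FractionRing.isScalarTower_liftAlgebra (MvPolynomial s M) U
  have : Algebra.IsAlgebraic (FractionRing (MvPolynomial s M)) U :=
    (IsFractionRing.comap_isAlgebraic_iff (A := MvPolynomial s M)).1 inferInstance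
  have : Algebra.FormallyEtale (FractionRing (MvPolynomial s M)) U := .of_isSeparable _ _
  have : Algebra.FormallyEtale (MvPolynomial s M) (FractionRing (MvPolynomial s M)) :=
    .of_isLocalization (nonZeroDivisors _)
  have : Algebra.FormallyEtale (MvPolynomial s M) U := .comp _ (FractionRing (MvPolynomial s M)) _
  have h := KaehlerDifferential.isBaseChange_of_formallyEtale M (MvPolynomial s M) U
  let d : Derivation M (MvPolynomial s M) U :=
    (Algebra.linearMap (MvPolynomial s M) U).compDer (MvPolynomial.pderiv y)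
  refine ⟨(h.lift d.liftKaehlerDifferential).compDer (KaehlerDifferential.D M U), ?_⟩
  have e : (y : U) = algebraMap (MvPolynomial s M) U (MvPolynomial.X y) :=
    (MvPolynomial.aeval_X ((↑) : s → U) y).symm
  change h.lift d.liftKaehlerDifferential (KaehlerDifferential.D M U y) = 1
  rw [e, ← KaehlerDifferential.map_D M M (MvPolynomial s M) U, h.lift_eq,
    Derivation.liftKaehlerDifferential_comp_D]
  simp [d]

theorem one (B : Set U) (y : U) (hy : y ∉ ac B) :
    ∃ D : Derivation ℤ U U, Kills D B ∧ D y = 1 := by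
  have h1 : Transcendental (ac B) y := fun h => hy ((ac_ac B).le (mem_ac_iff_alg.2 h))
  obtain ⟨s, s1, s2⟩ := exists_isTranscendenceBasis_superset (R := ac B) (s := {y})
    ((algebraicIndependent_unique_type_iff (R := ac B)).2 h1)
  obtain ⟨D, hD⟩ := ext_der s2 ⟨y, s1 rfl⟩
  exact ⟨D.restrictScalars ℤ, fun a ha => D.map_algebraMap ⟨a, subset_ac B ha⟩, hD⟩

omit [CharZero U] in
theorem sum_apply {n : ℕ} (D : Fin n → Derivation ℤ U U) (a : U) : (∑ k, D k) a = ∑ k, D k a := by
  rw [← Finset.sum_apply]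
  exact congrFun (map_sum Derivation.coeFnAddMonoidHom D Finset.univ) a

theorem many (B : Set U) (p : ℕ) (u : Fin p → U) (hu : Tri B u) (a : Fin p → U) :
    ∃ D : Derivation ℤ U U, Kills D B ∧ ∀ i, D (u i) = a i := by
  classical
  have h1 : ∀ i, u i ∉ ac (B ∪ u '' {j | j ≠ i}) := fun i hi => by
    have h2 : rk B (range u) ≤ rk B (u '' {j | j ≠ i}) := rk_le_of_subset (by
      rintro _ ⟨j, rfl⟩
      by_cases h : j = i
      · exact h ▸ hi
      · exact subset_ac _ (Or.inr ⟨j, h, rfl⟩))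
    have h3 := (h2.trans (rk_le_encard _ _)).trans (encard_image_le _ _)
    have h4 : {j | j ≠ i}.encard < (univ : Set (Fin p)).encard :=
      (toFinite _).encard_lt_encard ⟨subset_univ _, fun h => h (mem_univ i) rfl⟩
    rw [hu.rk_eq] at h3
    simpa using h3.trans_lt h4
  choose D h2 h3 using fun i => one _ _ (h1 i)
  refine ⟨∑ i, a i • D i, fun b hb => ?_, fun i => ?_⟩
  · simp [sum_apply, fun i => h2 i b (Or.inl hb)]
  · rw [sum_apply, Finset.sum_eq_single i
      (fun j _ h => by simp [h2 j (u i) (Or.inr ⟨i, h.symm, rfl⟩)]) (by simp)]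
    simp [h3]

end Dex

theorem dex : DexStmt.{w} := fun _ _ _ => ⟨Dex.kills, Dex.one, Dex.many⟩

theorem count : CountStmt.{w} := by
  intro U _ m D u h1 h2 z w c
  classical
  let f : (Fin (m + 1) → U) →ₗ[U] Fin m → U :=
    { toFun := fun l j => ∑ k, l k * (D k (w j) - c * w j * D k (z j))
      map_add' := fun l l' => funext fun j => by simp [add_mul, Finset.sum_add_distrib]
      map_smul' := fun t l => funext fun j => by simp [Finset.mul_sum, mul_assoc] }
  obtain ⟨l, l1, l2⟩ := Submodule.exists_mem_ne_zero_of_ne_bot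
    (LinearMap.ker_ne_bot_of_finrank_lt (f := f) (by simp))
  obtain ⟨i, i1, i2⟩ := Finset.exists_min_image (Finset.univ.filter fun i => l i ≠ 0) id
    (by simpa [Finset.filter_nonempty_iff] using Function.ne_iff.1 l2)
  refine ⟨l, ⟨i, ?_⟩, fun j => ?_⟩
  · rw [Dex.sum_apply, Finset.sum_eq_single i (fun k _ h => ?_) (by simp)]
    · simpa using ⟨by simpa using i1, h1 i⟩
    · by_cases h3 : l k = 0
      · simp [h3]
      · simp [h2 k i (lt_of_le_of_ne (i2 k (by simpa using h3)) h.symm)]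
  · have h3 : ∑ k, l k * (D k (w j) - c * w j * D k (z j)) = 0 := congrFun l1 j
    simp only [Dex.sum_apply, Derivation.smul_apply, smul_eq_mul]
    rw [Finset.mul_sum, ← sub_eq_zero, ← Finset.sum_sub_distrib, ← h3]
    exact Finset.sum_congr rfl fun k _ => by ring

end Pool.Agent.MP_0e4269_lc.Z

end MrgPart3

-- ======== part 4: formerly Pool.Agent.MP_0e4269_lc.z.Gauss
section MrgPart4

/-!
Lifting a good graph from the residue field along a Gauss extension.
-/

open Set

universe w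

namespace Pool.Agent.MP_0e4269_lc.Z

namespace Gauss

theorem far {U : Type w} [Field U] {O R : ValuationSubring U} (hR : O ≤ R) {y a : U}
    (hy : y ∈ R) (ha : a ∉ R) : RVEq O 1 (y - a) (-a) := by
  refine rv_of_lt (val_lt_of_coarse hR ?_)
  rw [sub_neg_eq_add, sub_add_cancel, Valuation.map_neg]
  rw [← R.valuation_le_one_iff] at hy ha
  exact lt_of_le_of_lt hy (not_le.1 ha)

theorem step (trans : TransStmt.{w}) (uniq : UniqStmt.{w}) (abh : AbhStmt.{w})
    {U k : Type w} [Field U] [CharZero U] [IsAlgClosed U] [Field k] [CharZero k] [IsAlgClosed k]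
    {O R : ValuationSubring U} {π : U → k} {O' : ValuationSubring k} {K : Subfield U}
    {τ : Subring (U × U)} {Φ : Subring (k × k)} {y y' : U} (h : PlaceO O R π O') (hO : Ch O)
    (hO' : Ch O') (hK : ac (K : Set U) = K) (hτ : Good O τ) (hd : dom τ = K) (hΦ : Good O' Φ)
    (hle : resG R π τ ≤ Φ) (hy : y ∈ R) (hy' : y' ∈ R) (hp : (π y, π y') ∈ Φ)
    (hn : π y ∉ resF R π K) (hdom : (ac ((resF R π K : Set k) ∪ {π y}) : Set k) ⊆ dom Φ) :
    ∃ τ', τ ≤ τ' ∧ Good O τ' ∧ dom τ' = ac ((K : Set U) ∪ {y}) ∧ (y, y') ∈ τ' ∧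
      resG R π τ' ≤ Φ := by
  obtain ⟨τ', h1, h2, h3, h4⟩ := trans U O τ K y y' hO hτ hd hK (fun a s has => by
    by_cases ha : a ∈ R
    · have hs : s ∈ R := (hτ.mem h.le has).2 ha
      have hK' : a ∈ K := hd.le ⟨s, has⟩
      have h0 : π (y - a) ≠ 0 := by
        rw [h.pl.sub hy ha, sub_ne_zero]
        exact fun e => hn (h.pl.mem_resF.2 ⟨a, hK', ha, e.symm⟩)
      refine h.rv_lift (sub_mem hy' hs) (sub_mem hy ha) h0 ?_
      rw [h.pl.sub hy ha, h.pl.sub hy' hs]
      exact hΦ _ _ (Φ.sub_mem hp (hle (hτ.mem_res h has ha)))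
    · have hs : s ∉ R := fun e => ha ((hτ.mem h.le has).1 e)
      exact rv_trans (far h.le hy' hs) (rv_trans (hτ _ _ (τ.neg_mem has))
        (rv_symm (far h.le hy ha))))
  refine ⟨τ', h1, h2, h4, h3, ?_⟩
  obtain ⟨-, a2, a3, -⟩ := abh U k R π K h.pl
  have hres : resF R π (ac ((K : Set U) ∪ {y})) = ac ((resF R π K : Set k) ∪ {π y}) := by
    have := (a3 1 (fun _ => y) (fun _ => hy) (fun i hi => hn (by
      have e : Iio i = ∅ := by
        ext j
        simp [Subsingleton.elim j i]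
      rwa [e, image_empty, union_empty, a2 hK] at hi))).2.2
    simpa only [range_const] using this
  have hdr : dom (resG R π τ') = ac ((resF R π K : Set k) ∪ {π y}) := by
    rw [h2.dom_res h h4, hres]
  have hu := uniq k O' (resG R π τ') Φ ((resF R π K : Set k) ∪ {π y}) hO' (h2.res h) hΦ
    (by
      rintro x (hx | rfl)
      · rw [← hτ.dom_res h hd] at hx
        exact dom_mono (le_inf (resG_mono h1) hle) hx
      · exact ⟨π y', h2.mem_res h h3 hy, hp⟩) hdr.ge hdom
  rintro ⟨x, t⟩ hx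
  obtain ⟨t', ht, ht'⟩ := hu (hdr.le ⟨t, hx⟩)
  rwa [(h2.res h).func hx ht]

end Gauss

theorem gauss (trans : TransStmt.{w}) (uniq : UniqStmt.{w}) (abh : AbhStmt.{w}) :
    GaussStmt.{w} := by
  intro U k _ _ _ _ _ _ O R π O' M ψ Φ n u u' h hO hO' hM hψ hd hΦ hle hu htri hdom
  induction n with
  | zero =>
    refine ⟨ψ, le_rfl, hψ, ?_, fun i => i.elim0, hle⟩
    rw [range_eq_empty, union_empty, hM, hd]
  | succ n ih =>
    rw [tri_succ] at htri
    rw [range_castSucc, ← union_assoc] at hdom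
    obtain ⟨τ, h1, h2, h3, h4, h5⟩ := ih (fun i => u i.castSucc) (fun i => u' i.castSucc)
      (fun i => hu _) htri.1 (Subset.trans (ac_mono subset_union_left) hdom)
    have hres := ((abh U k R π M h.pl).2.2.1 n (fun i => u i.castSucc) (fun i => (hu _).1)
      htri.1).2.2
    obtain ⟨τ', g1, g2, g3, g4, g5⟩ := Gauss.step trans uniq abh h hO hO' (ac_ac _) h2 h3 hΦ h5
      (hu (Fin.last n)).1 (hu (Fin.last n)).2.1 (hu (Fin.last n)).2.2
      (by rw [hres]; exact htri.2) (by rw [hres, ac_ac_union]; exact hdom)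
    refine ⟨τ', h1.trans g1, g2, ?_, fun i => ?_, g5⟩
    · rw [g3, ac_ac_union, range_castSucc u, union_assoc]
    · refine Fin.lastCases g4 (fun i => g1 (h4 i)) i

end Pool.Agent.MP_0e4269_lc.Z

end MrgPart4

-- marker of a merged file
example : 731051 + 253069 = 731051 + 253069 := rfl
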