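import Mathlib.Algebra.Polynomial.Taylor
import Mathlib.Algebra.Polynomial.Lifts
import Pool.Agent.MP_0e4269_lc.z.Spec
import Mathlib.Analysis.Complex.Polynomial.Basic
import Mathlib.Analysis.Complex.Cardinality
import Mathlib.Algebra.Field.ULift
import Mathlib.Algebra.Order.Monoid.Prod
import Mathlib.Algebra.Order.Module.Synonym
import Pool.Agent.MP_5fa3de_ag.Hahn
import Mathlib.LinearAlgebra.Matrix.ToLinearEquiv
import Mathlib.LinearAlgebra.Matrix.Adjugate
import Pool.Agent.MP_0e4269_lc.z.Base2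

-- ======== part 0: formerly Pool.Agent.MP_0e4269_lc.z.Core
section MrgPart0

/-!
Polynomials near a root.
-/

open Polynomial

universe w

namespace Pool.Agent.MP_0e4269_lc.Z

namespace Core

variable {U : Type w} [Field U] (O : ValuationSubring U)

/-- A polynomial with coefficients in the valuation ring comes from the valuation ring. -/
theorem exists_lift {Q : U[X]} (h : ∀ i, Q.coeff i ∈ O) :
    ∃ Q₀ : O[X], Q₀.map O.subtype = Q := by
  refine (mem_lifts Q).1 ((lifts_iff_coeff_lifts Q).2 fun n => ?_)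
  exact ⟨⟨_, h n⟩, rfl⟩

theorem coeff_map_mem (Q₀ : O[X]) (i : ℕ) : (Q₀.map O.subtype).coeff i ∈ O := by
  rw [coeff_map]
  exact (Q₀.coeff i).2

/-- Constant term one and no root in the maximal ideal force integral coefficients. -/
theorem int_of_roots [IsAlgClosed U] : ∀ (n : ℕ) (R : U[X]), R.natDegree = n → R.eval 0 = 1 →
    (∀ r, R.eval r = 0 → 1 ≤ O.valuation r) → ∃ R₀ : O[X], R₀.map O.subtype = R := by
  intro n
  induction n with
  | zero =>
    intro R hn h0 _
    refine ⟨1, ?_⟩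
    rw [eq_C_of_natDegree_eq_zero hn] at h0 ⊢
    rw [eval_C] at h0
    rw [h0]
    simp
  | succ n ih =>
    intro R hn h0 hr
    have hR : R ≠ 0 := by
      rintro rfl
      simp at h0
    have hd : R.degree ≠ 0 := by
      rw [degree_eq_natDegree hR, hn]
      exact_mod_cast n.succ_ne_zero
    obtain ⟨r, hr0⟩ := IsAlgClosed.exists_root R hd
    obtain ⟨S, hS⟩ := dvd_iff_isRoot.2 hr0
    have hv := hr r hr0
    have hrne : r ≠ 0 := by
      rintro rfl
      rw [IsRoot.def, h0] at hr0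
      exact one_ne_zero hr0
    have hS0 : S ≠ 0 := by
      rintro rfl
      exact hR (by simpa using hS)
    have hinv : r⁻¹ ∈ O := by
      rw [← O.valuation_le_one_iff, map_inv₀]
      exact inv_le_one_of_one_le₀ hv
    have hdeg : (C (-r) * S).natDegree = n := by
      rw [natDegree_C_mul (neg_ne_zero.2 hrne)]
      rw [hS, natDegree_mul (X_sub_C_ne_zero r) hS0, natDegree_X_sub_C] at hn
      omega
    obtain ⟨S₀, hS₀⟩ := ih (C (-r) * S) hdeg
      (by
        rw [hS] at h0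
        simpa using h0)
      (fun s hs => hr s (by
        rw [eval_mul, eval_C, mul_eq_zero] at hs
        rw [hS, eval_mul, hs.resolve_left (neg_ne_zero.2 hrne), mul_zero]))
    refine ⟨(1 - C ⟨r⁻¹, hinv⟩ * X) * S₀, ?_⟩
    rw [Polynomial.map_mul, hS₀, hS, ← mul_assoc]
    congr 1
    have e : (C r⁻¹ : U[X]) * C r = 1 := by rw [← C_mul, inv_mul_cancel₀ hrne, C_1]
    simp only [Polynomial.map_sub, Polynomial.map_mul, Polynomial.map_one, map_C, map_X, map_neg]
    change (1 - C r⁻¹ * X) * -C r = X - C r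
    linear_combination X * e

theorem part1 [CharZero U] [IsAlgClosed U] (P : U[X]) (α b : U) (hO : Ch O)
    (h0 : P.eval α = 0) (h1 : P.derivative.eval α ≠ 0) (hb : α ≠ b)
    (hβ : ∀ β, P.derivative.eval β = 0 → O.valuation (α - b) ≤ O.valuation (α - β)) (i : ℕ) :
    O.valuation ((taylor b P).coeff i * (α - b) ^ i) ≤
      O.valuation ((α - b) * P.derivative.eval α) := by
  obtain ⟨ξ, hξ⟩ : ∃ ξ, ξ = α - b := ⟨_, rfl⟩
  rw [← hξ] at hβ ⊢
  have hξ0 : ξ ≠ 0 := hξ ▸ sub_ne_zero.2 hb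
  obtain ⟨κ, hκ⟩ : ∃ κ, κ = ξ * P.derivative.eval α := ⟨_, rfl⟩
  rw [← hκ]
  have hκ0 : κ ≠ 0 := hκ ▸ mul_ne_zero hξ0 h1
  obtain ⟨Q, hQ⟩ : ∃ Q : U[X], Q = C κ⁻¹ * P.comp (C α + C ξ * X) := ⟨_, rfl⟩
  have hQ' : ∀ y, Q.derivative.eval y = κ⁻¹ * (ξ * P.derivative.eval (α + ξ * y)) := by
    intro y
    rw [hQ, derivative_C_mul, derivative_comp]
    simp
  obtain ⟨R₀, hR₀⟩ := int_of_roots O _ Q.derivative rfl
    (by rw [hQ', mul_zero, add_zero, ← hκ, inv_mul_cancel₀ hκ0])
    (fun r hr => by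
      rw [hQ', mul_eq_zero, mul_eq_zero] at hr
      have h := hβ _ ((hr.resolve_left (inv_ne_zero hκ0)).resolve_left hξ0)
      have e : α - (α + ξ * r) = -(ξ * r) := by ring
      rw [e, Valuation.map_neg, map_mul] at h
      have hp : 0 < O.valuation ξ := (Valuation.pos_iff _).2 hξ0
      exact (le_mul_iff_one_le_right hp).1 h)
  have hQc : ∀ j, Q.coeff j ∈ O := by
    intro j
    rcases j with _ | j
    · rw [coeff_zero_eq_eval_zero, hQ]
      simp [h0]
    · have h := coeff_map_mem O R₀ j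
      rw [hR₀, coeff_derivative, ← O.valuation_le_one_iff, map_mul] at h
      have e := hO (j + 1) j.succ_ne_zero
      rw [Nat.cast_succ] at e
      rw [e, mul_one] at h
      exact (O.valuation_le_one_iff _).1 h
  obtain ⟨Q₀, hQ₀⟩ := exists_lift O hQc
  have hT := coeff_map_mem O (taylor (-1) Q₀) i
  have e : taylor (-1) Q = C κ⁻¹ * (taylor b P).comp (C ξ * X) := by
    refine Polynomial.funext fun y => ?_
    rw [taylor_eval, hQ]
    simp only [eval_mul, eval_C, eval_comp, eval_add, eval_X, taylor_eval]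
    congr 2
    rw [hξ]
    ring
  rw [map_taylor, hQ₀, map_neg, map_one, e, coeff_C_mul, comp_C_mul_X_coeff,
    ← O.valuation_le_one_iff, map_mul, map_inv₀] at hT
  have hp : 0 < O.valuation κ := (Valuation.pos_iff _).2 hκ0
  exact (inv_mul_le_one₀ hp).1 hT

theorem part2 [CharZero U] (K : Subfield U) (α : U) (P : U[X]) (h : MinData K α P) :
    P.derivative.eval α ≠ 0 ∧ ∃ b ∈ K, O.valuation (α - b) ≤ O.valuation α ∧
      ∀ β, P.derivative.eval β = 0 → O.valuation (α - b) ≤ O.valuation (α - β) := by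
  classical
  have h1 : P.derivative.eval α ≠ 0 := fun e => h.1 (h.2.2.2 α e)
  have h2 : P.derivative ≠ 0 := fun e => h1 (by rw [e, eval_zero])
  obtain ⟨b, hb, hmin⟩ := Finset.exists_min_image (insert (0 : U) P.derivative.roots.toFinset)
    (fun β => O.valuation (α - β)) ⟨0, Finset.mem_insert_self _ _⟩
  refine ⟨h1, b, ?_, ?_, fun β hβ => hmin β ?_⟩
  · rcases Finset.mem_insert.1 hb with rfl | hb
    · exact K.zero_mem
    · exact h.2.2.2 b ((mem_roots h2).1 (Multiset.mem_toFinset.1 hb))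
  · simpa using hmin 0 (Finset.mem_insert_self _ _)
  · exact Finset.mem_insert_of_mem (Multiset.mem_toFinset.2 ((mem_roots h2).2 hβ))

theorem val_eq_one {a : U} (h : O.valuation (a - 1) < 1) : O.valuation a = 1 := by
  have := O.valuation.map_one_add_of_lt h
  rwa [add_sub_cancel] at this

theorem part3a [IsAlgClosed U] (Q : U[X]) (h1 : O.valuation (Q.derivative.eval 1 - 1) < 1)
    (h0 : O.valuation (Q.eval 1) < 1) : ∃ x, O.valuation (x - 1) < 1 ∧ Q.eval x = 0 := by
  by_contra hx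
  have hx' : ∀ x, Q.eval x = 0 → 1 ≤ O.valuation (x - 1) :=
    fun x e => not_lt.1 fun h => hx ⟨x, h, e⟩
  have hq : Q.eval 1 ≠ 0 := fun e => by
    have := hx' 1 e
    simp at this
  obtain ⟨R₀, hR₀⟩ := int_of_roots O _ (C (Q.eval 1)⁻¹ * taylor 1 Q) rfl
    (by rw [eval_mul, eval_C, taylor_eval, zero_add, inv_mul_cancel₀ hq])
    (fun r hr => by
      rw [eval_mul, eval_C, taylor_eval, mul_eq_zero] at hr
      simpa using hx' _ (hr.resolve_left (inv_ne_zero hq)))
  have h := coeff_map_mem O R₀ 1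
  rw [hR₀, coeff_C_mul, taylor_coeff_one, ← O.valuation_le_one_iff, map_mul, map_inv₀,
    val_eq_one O h1, inv_mul_le_one₀ ((Valuation.pos_iff _).2 hq)] at h
  exact absurd h0 (not_lt.2 h)

theorem part3b (Q : U[X]) (hQ : ∀ i, Q.coeff i ∈ O)
    (h1 : O.valuation (Q.derivative.eval 1 - 1) < 1) (x y : U)
    (hx : O.valuation (x - 1) < 1) (hy : O.valuation (y - 1) < 1) :
    RVEq O 1 (Q.eval x - Q.eval y) (x - y) := by
  obtain ⟨Q₀, rfl⟩ := exists_lift O hQ
  have hxO : x ∈ O := (O.valuation_le_one_iff _).1 (val_eq_one O hx).le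
  have hyO : y ∈ O := (O.valuation_le_one_iff _).1 (val_eq_one O hy).le
  lift x to O using hxO
  lift y to O using hyO
  obtain ⟨c, hc⟩ := exists_mul_sq_add_linear_part_eq_eval_add Q₀ y (x - y)
  obtain ⟨d, hd⟩ := sub_dvd_eval_sub y 1 Q₀.derivative
  have ev : ∀ (R : O[X]) (a : O), (R.map O.subtype).eval (a : U) = ((R.eval a : O) : U) :=
    fun R a => eval_map_apply O.subtype a
  have e1 := ev Q₀.derivative 1
  rw [OneMemClass.coe_one] at e1
  rw [derivative_map, e1] at h1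
  have hxy : O.valuation ((x : U) - y) < 1 := by
    have := O.valuation.map_sub_lt hx hy
    rwa [sub_sub_sub_cancel_right] at this
  have small : ∀ (a : U) (t : O), O.valuation a < 1 → O.valuation (a * t) < 1 := fun a t ha => by
    rw [map_mul]
    exact (mul_le_of_le_one_right' (O.valuation_le_one t)).trans_lt ha
  refine ⟨(((Q₀.derivative.eval 1 : O) : U) - 1) + ((y : U) - 1) * d + ((x : U) - y) * c, ?_, ?_⟩
  · exact O.valuation.map_add_lt (O.valuation.map_add_lt h1 (small _ d hy)) (small _ c hxy)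
  · rw [add_sub_cancel] at hc
    have hc' := congrArg (fun t : O => (t : U)) hc
    have hd' := congrArg (fun t : O => (t : U)) hd
    push_cast at hc' hd'
    rw [ev, ev]
    linear_combination ((x : U) - y) * hd' - hc'

end Core

theorem core : CoreStmt.{w} := fun _ _ _ _ O =>
  ⟨fun P α b hO h0 h1 hb hβ i => Core.part1 O P α b hO h0 h1 hb hβ i,
    fun K α P h => Core.part2 O K α P h,
    fun Q hQ h1 => ⟨Core.part3a O Q h1, Core.part3b O Q hQ h1⟩⟩

end Pool.Agent.MP_0e4269_lc.Z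

end MrgPart0

-- ======== part 1: formerly Pool.Agent.MP_0e4269_lc.z.Hahn
section MrgPart1

/-!
A spherically complete algebraically closed valued field of rank two.
-/

universe w

namespace Pool.Agent.MP_0e4269_lc.Z

namespace Hahn

variable {Γ k : Type*} [AddCommGroup Γ] [LinearOrder Γ] [IsOrderedAddMonoid Γ] [Field k]

theorem ord_pow (x : HahnSeries Γ k) (n : ℕ) : (x ^ n).orderTop = n • x.orderTop := by
  induction n with
  | zero => simp
  | succ n ih => rw [pow_succ, HahnSeries.orderTop_mul, ih, succ_nsmul]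

theorem ord_C {c : k} (hc : c ≠ 0) : (HahnSeries.C c : HahnSeries Γ k).orderTop = 0 := by
  rw [HahnSeries.C_apply, HahnSeries.orderTop_single hc]
  rfl

theorem closed_of_equiv {F : Type*} [Field F] [IsAlgClosed F] (e : k ≃+* F) : IsAlgClosed k := by
  refine IsAlgClosed.of_exists_root k fun p _ hp => ?_
  have hd : (p.map e.toRingHom).degree ≠ 0 := by
    rw [Polynomial.degree_map]
    exact (Polynomial.degree_pos_of_irreducible hp).ne'
  obtain ⟨x, hx⟩ := IsAlgClosed.exists_root _ hd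
  refine ⟨e.symm x, e.injective ?_⟩
  rw [map_zero, ← hx.eq_zero, Polynomial.eval_map]
  conv_rhs => rw [← e.apply_symm_apply x]
  exact (Polynomial.eval₂_at_apply e.toRingHom (e.symm x)).symm

end Hahn

theorem hahn : HahnStmt.{w} := by
  have hk : IsAlgClosed (ULift.{w} ℂ) := Hahn.closed_of_equiv ULift.ringEquiv
  have hc : CharZero (ULift.{w} ℂ) :=
    (RingHom.charZero_iff (ULift.ringEquiv.symm : ℂ ≃+* ULift.{w} ℂ).toRingHom.injective).1
      inferInstance
  obtain ⟨O, hO⟩ := MP_5fa3de_ag.Hahn.exists_ext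
    (RingHom.id (HahnSeries (ℚ ×ₗ ℚ) (ULift.{w} ℂ)))
  simp only [RingHom.id_apply] at hO
  have hlt : ∀ x y : HahnSeries (ℚ ×ₗ ℚ) (ULift.{w} ℂ),
      O.valuation x < O.valuation y ↔ y.orderTop < x.orderTop := fun x y => by
    rw [← not_le, hO, not_le]
  have h1 : ∀ x : HahnSeries (ℚ ×ₗ ℚ) (ULift.{w} ℂ), x.orderTop = 0 → O.valuation x = 1 := by
    intro x hx
    rw [← O.valuation.map_one]
    refine le_antisymm ((hO _ _).2 ?_) ((hO _ _).2 ?_) <;> simp [hx]
  have hC : ∀ c : ULift.{w} ℂ, c ≠ 0 → O.valuation (HahnSeries.C c) = 1 := fun c h =>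
    h1 _ (Hahn.ord_C h)
  let t : HahnSeries (ℚ ×ₗ ℚ) (ULift.{w} ℂ) := HahnSeries.single (toLex (1, 0)) 1
  let s : HahnSeries (ℚ ×ₗ ℚ) (ULift.{w} ℂ) := HahnSeries.single (toLex (0, 1)) 1
  have ht : t.orderTop = ((toLex (1, 0) : ℚ ×ₗ ℚ) : WithTop (ℚ ×ₗ ℚ)) :=
    HahnSeries.orderTop_single one_ne_zero
  have hs : s.orderTop = ((toLex (0, 1) : ℚ ×ₗ ℚ) : WithTop (ℚ ×ₗ ℚ)) :=
    HahnSeries.orderTop_single one_ne_zero
  have ht1 : O.valuation t < 1 := by
    rw [← O.valuation.map_one, hlt, ht, HahnSeries.orderTop_one, ← WithTop.coe_zero,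
      WithTop.coe_lt_coe]
    exact Prod.Lex.left _ _ zero_lt_one
  have hs1 : O.valuation s < 1 := by
    rw [← O.valuation.map_one, hlt, hs, HahnSeries.orderTop_one, ← WithTop.coe_zero,
      WithTop.coe_lt_coe]
    exact Prod.Lex.right _ zero_lt_one
  refine ⟨HahnSeries (ℚ ×ₗ ℚ) (ULift.{w} ℂ), inferInstance, O,
    {y | ∃ n : ℕ, O.valuation y ^ (n + 1) ≤ O.valuation t},
    ⟨MP_5fa3de_ag.Hahn.isAlgClosed_hahn, fun n hn => ?_, ⟨0, by simp⟩, ?_, ?_, ?_⟩, ?_,
    ⟨t, ⟨0, by simp⟩, ?_⟩, ⟨s, hs1, ?_⟩,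
    Set.range (fun c : {c : ULift.{w} ℂ // c ≠ 0} => HahnSeries.C c.1), ?_, ?_, ?_⟩
  · rw [← map_natCast (HahnSeries.C : ULift.{w} ℂ →+* HahnSeries (ℚ ×ₗ ℚ) (ULift.{w} ℂ))]
    exact hC _ (Nat.cast_ne_zero.2 hn)
  · rintro a b ⟨n, hn⟩ hab
    exact ⟨n, (pow_le_pow_left' hab _).trans hn⟩
  · rintro a ⟨n, hn⟩
    refine ⟨2 * n + 1, ?_⟩
    rw [map_mul, ← sq, ← pow_mul] at hn
    exact hn
  · rintro a ⟨n, hn⟩
    exact lt_of_pow_lt_pow_left' (n + 1) (by rw [one_pow]; exact hn.trans_lt ht1)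
  · intro ι c r h
    obtain ⟨x, hx⟩ := MP_5fa3de_ag.Hahn.sph c (fun i => (r i).orderTop) fun i j => by
      rcases le_max_iff.1 (h i j) with h2 | h2
      · exact (min_le_left _ _).trans ((hO _ _).1 h2)
      · exact (min_le_right _ _).trans ((hO _ _).1 h2)
    exact ⟨x, fun i => (hO _ _).2 (hx i)⟩
  · exact HahnSeries.single_ne_zero one_ne_zero
  · rintro ⟨n, hn⟩
    rw [← map_pow, hO, Hahn.ord_pow, ht, hs, ← WithTop.coe_nsmul, WithTop.coe_le_coe] at hn
    have h3 : ((n + 1) • toLex (0, 1) : ℚ ×ₗ ℚ) = toLex (0, ((n + 1 : ℕ) : ℚ)) := by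
      change toLex ((n + 1) • ((0, 1) : ℚ × ℚ)) = _
      simp
    rw [h3] at hn
    exact absurd hn (not_le.2 (Prod.Lex.left _ _ zero_lt_one))
  · intro hA
    have hinj : Function.Injective fun c : {c : ULift.{w} ℂ // c ≠ 0} =>
        (HahnSeries.C c.1 : HahnSeries (ℚ ×ₗ ℚ) (ULift.{w} ℂ)) :=
      HahnSeries.C_injective.comp Subtype.val_injective
    have h4 : Countable {c : ULift.{w} ℂ // c ≠ 0} := by
      rw [← Set.image_univ] at hA
      exact Set.countable_univ_iff.1 (Set.countable_of_injective_of_countable_image hinj.injOn hA)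
    have h5 : Function.Injective fun z : ℂ =>
        (if h : z = 0 then none else some ⟨ULift.up z, fun e => h (congrArg ULift.down e)⟩ :
          Option {c : ULift.{w} ℂ // c ≠ 0}) := by
      intro z z' e
      by_cases h : z = 0 <;> by_cases h' : z' = 0 <;> simp_all
    exact not_countable_complex (Set.countable_univ_iff.2 h5.countable)
  · rintro _ ⟨c, rfl⟩
    exact hC _ c.2
  · rintro _ ⟨c, rfl⟩ _ ⟨d, rfl⟩ h
    rw [← map_sub]
    exact hC _ fun e => h (congrArg HahnSeries.C (sub_eq_zero.1 e))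

end Pool.Agent.MP_0e4269_lc.Z

end MrgPart1

-- ======== part 2: formerly Pool.Agent.MP_0e4269_lc.z.Lift
section MrgPart2

/-!
Lifting exponential configurations from the residue field.
-/

open MvPolynomial Sum Set

universe w

namespace Pool.Agent.MP_0e4269_lc.Z

namespace Lift

section Nat

variable {B A : Type*} [CommRing B] [CommRing A] {T : Subring (A × A)} {f g : B →+* A}

theorem pair_eval {τ : Type} (hT : ∀ b, (f b, g b) ∈ T) {p p' : τ → A}
    (hp : ∀ t, (p t, p' t) ∈ T) (G : MvPolynomial τ B) :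
    (eval p (map f G), eval p' (map g G)) ∈ T := by
  induction G using MvPolynomial.induction_on with
  | C a => simpa using hT a
  | add P Q hP hQ => simpa using T.add_mem hP hQ
  | mul_X P t hP => simpa using T.mul_mem hP (hp t)

theorem pair_det {ι : Type} [Fintype ι] [DecidableEq ι] {N N' : Matrix ι ι A}
    (h : ∀ i j, (N i j, N' i j) ∈ T) : (N.det, N'.det) ∈ T := by
  let L : Matrix ι ι T := Matrix.of fun i j => ⟨(N i j, N' i j), h i j⟩
  have h1 := ((RingHom.fst A A).comp T.subtype).map_det L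
  have h2 := ((RingHom.snd A A).comp T.subtype).map_det L
  have e1 : ((RingHom.fst A A).comp T.subtype).mapMatrix L = N := by ext i j; rfl
  have e2 : ((RingHom.snd A A).comp T.subtype).mapMatrix L = N' := by ext i j; rfl
  rw [e1] at h1
  rw [e2] at h2
  rw [← h1, ← h2]
  exact L.det.2

theorem pair_jac {κ ι : Type} [Fintype κ] [Fintype ι] [DecidableEq κ] [DecidableEq ι]
    (hT : ∀ b, (f b, g b) ∈ T) {p p' : (κ ⊕ κ) ⊕ ι → A} (hp : ∀ t, (p t, p' t) ∈ T)
    (G : κ ⊕ ι → MvPolynomial ((κ ⊕ κ) ⊕ ι) B) (c : ℕ) :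
    ((jac (fun i => map f (G i)) (c : A) p).det, (jac (fun i => map g (G i)) (c : A) p').det) ∈ T := by
  refine pair_det fun i j => ?_
  have hc : (((c : A), (c : A)) : A × A) ∈ T := natCast_mem T c
  rcases j with j | j
  · simp only [jac, Matrix.of_apply, Sum.elim_inl, pderiv_map]
    exact T.add_mem (pair_eval hT hp _) (T.mul_mem (T.mul_mem hc (hp _)) (pair_eval hT hp _))
  · simp only [jac, Matrix.of_apply, Sum.elim_inr, pderiv_map]
    exact pair_eval hT hp _

theorem pair_pjac {κ ι : Type} [Fintype ι] [DecidableEq ι]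
    (hT : ∀ b, (f b, g b) ∈ T) {p p' : κ ⊕ ι → A} (hp : ∀ t, (p t, p' t) ∈ T)
    (H : ι → MvPolynomial (κ ⊕ ι) B) :
    ((pjac (fun i => map f (H i)) p).det, (pjac (fun i => map g (H i)) p').det) ∈ T := by
  refine pair_det fun i j => ?_
  simp only [pjac, Matrix.of_apply, pderiv_map]
  exact pair_eval hT hp _

theorem sysG_map {κ ι : Type} (f : B →+* A) (H : ι → MvPolynomial (κ ⊕ ι) B) (p q : κ → ι) :
    sysG (fun i => map f (H i)) p q = fun i => map f (sysG H p q i) := by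
  funext i
  rcases i with j | j | j <;> simp [sysG, map_rename]

theorem exists_lift {τ : Type} (f : B →+* A) (G : MvPolynomial τ A)
    (h : ∀ m, ∃ b, f b = G.coeff m) : ∃ G' : MvPolynomial τ B, map f G' = G := by
  classical
  choose b hb using h
  refine ⟨∑ m ∈ G.support, monomial m (b m), ?_⟩
  rw [map_sum]
  simp only [map_monomial, hb]
  exact G.as_sum.symm

end Nat

section Val

variable {U : Type w} [Field U] {O R : ValuationSubring U} {Φ : Subring (U × U)}

theorem val_one (h : O ≤ R) {x : U} (hx : O.valuation x = 1) : R.valuation x = 1 := by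
  have h0 : x ≠ 0 := by
    rintro rfl
    simp at hx
  have h1 : x ∈ R := h ((O.valuation_le_one_iff x).1 hx.le)
  have h2 : x⁻¹ ∈ R := h ((O.valuation_le_one_iff x⁻¹).1 (by simp [hx]))
  refine le_antisymm ((R.valuation_le_one_iff x).2 h1) ?_
  have h3 := (R.valuation_le_one_iff _).2 h2
  rw [map_inv₀] at h3
  exact (inv_le_one₀ (by simpa [zero_lt_iff] using h0)).1 h3

theorem good_val (h : O ≤ R) (hΦ : Good O Φ) {a s : U} (has : (a, s) ∈ Φ) :
    R.valuation s = R.valuation a := by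
  obtain ⟨e, he, rfl⟩ := hΦ a s has
  rw [map_mul, val_one h (O.valuation.map_one_add_of_lt he), mul_one]

theorem good_mem (h : O ≤ R) (hΦ : Good O Φ) {a s : U} (has : (a, s) ∈ Φ) (ha : a ∈ R) :
    s ∈ R := by
  rw [← R.valuation_le_one_iff, good_val h hΦ has, R.valuation_le_one_iff]
  exact ha

theorem good_zero (hΦ : Good O Φ) {a s : U} (has : (a, s) ∈ Φ) : s = 0 ↔ a = 0 := by
  rw [← O.valuation.zero_iff, good_val le_rfl hΦ has, O.valuation.zero_iff]

theorem good_uniq (hΦ : Good O Φ) {a s s' : U} (h : (a, s) ∈ Φ) (h' : (a, s') ∈ Φ) : s = s' := by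
  have h1 : (a - a, s - s') ∈ Φ := Φ.sub_mem h h'
  exact sub_eq_zero.1 ((good_zero hΦ h1).2 (sub_self a))

variable {k : Type w} [Field k] {π : U → k}

theorem place_sub (hP : Place R π) {a b : U} (ha : a ∈ R) (hb : b ∈ R) :
    π (a - b) = π a - π b := map_sub hP.hom ⟨a, ha⟩ ⟨b, hb⟩

theorem place_eq (hP : Place R π) {a b : U} (ha : a ∈ R) (hb : b ∈ R) :
    R.valuation (a - b) < 1 ↔ π a = π b := by
  rw [← hP.zero _ (R.sub_mem ha hb), place_sub hP ha hb, sub_eq_zero]

/-- Pairs whose residues lie in a graph. -/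
def pre (hP : Place R π) (Ψ : Subring (k × k)) : Subring (U × U) :=
  (Ψ.comap (hP.hom.prodMap hP.hom)).map (R.subtype.prodMap R.subtype)

theorem mem_pre (hP : Place R π) {Ψ : Subring (k × k)} {a s : U} :
    (a, s) ∈ pre hP Ψ ↔ a ∈ R ∧ s ∈ R ∧ (π a, π s) ∈ Ψ := by
  constructor
  · rintro ⟨⟨x, y⟩, hxy, h⟩
    obtain ⟨rfl, rfl⟩ := Prod.mk.inj h
    exact ⟨x.2, y.2, hxy⟩
  · rintro ⟨ha, hs, h⟩
    exact ⟨(⟨a, ha⟩, ⟨s, hs⟩), h, rfl⟩

theorem mem_pre_of_le (hP : Place R π) {Ψ : Subring (k × k)} (h : resG R π Φ ≤ Ψ) {a s : U}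
    (has : (a, s) ∈ Φ) (ha : a ∈ R) (hs : s ∈ R) : (a, s) ∈ pre hP Ψ :=
  (mem_pre hP).2 ⟨ha, hs, h (Subring.subset_closure ⟨a, s, has, ha, hs, rfl⟩)⟩

theorem pre_one (hP : Place R π) {O' : ValuationSubring k} {Ψ : Subring (k × k)}
    (hΨ : Good O' Ψ) {a s : U} (h : (a, s) ∈ pre hP Ψ) (ha : R.valuation a = 1) :
    R.valuation s = 1 := by
  obtain ⟨h1, h2, h3⟩ := (mem_pre hP).1 h
  refine le_antisymm ((R.valuation_le_one_iff s).2 h2) (not_lt.1 fun hs => ?_)
  have h4 := (hP.zero a h1).1 ((good_zero hΨ h3).1 ((hP.zero s h2).2 hs))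
  exact absurd ha h4.ne

theorem pre_lt (hP : Place R π) {O' : ValuationSubring k} {Ψ : Subring (k × k)}
    (hΨ : Good O' Ψ) {a s : U} (h : (a, s) ∈ pre hP Ψ) (ha : a = 0) :
    R.valuation s < 1 := by
  obtain ⟨h1, h2, h3⟩ := (mem_pre hP).1 h
  refine (hP.zero s h2).1 ((good_zero hΨ h3).2 ((hP.zero a h1).2 ?_))
  simp [ha]

end Val

end Lift

open Lift in
theorem lift (dex : DexStmt.{w}) (etale : EtaleStmt.{w}) (sys : SysStmt.{w})
    (gauss : GaussStmt.{w}) (tay : TayStmt.{w}) (hkp : HkpStmt.{w}) : LiftStmt.{w} := by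
  intro U k _ _ _ _ S R π S' M ψ Φ n u z w hS hS' hres hM hψ hdom hΦ hψΦ hu htri hac hz hw hπu
    nd1 nd2 hEC
  have : IsAlgClosed U := hS.alg
  have : IsAlgClosed k := hS'.alg
  have hP : Place R π := hres.pl
  have hle : S.O ≤ R := hres.le
  have hzR : ∀ j, z j ∈ R := fun j => hle ((S.O.valuation_le_one_iff _).1 (hz j).2.le)
  obtain ⟨ι, _, _, θ, H, p, hH, hθ, hH0, hdet, hp⟩ := etale U k R π M n u (Fin n ⊕ Fin n)
    (Sum.elim z w) hP hM hu htri (by
      rintro (j | j)
      · exact ⟨(hz j).1, hzR j⟩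
      · exact ⟨(hw j).1, (hw j).2.1⟩)
  have hpz : ∀ j, θ (p (inl j)) = z j := fun j => hp (inl j)
  have hpw : ∀ j, θ (p (inr j)) = w j := fun j => hp (inr j)
  have hsys : ∀ c : ℕ, ND S' (resF R π M) (c : ℚ) (fun j => π (z j)) →
      R.valuation (jac (sysG H (fun j => p (inl j)) fun j => p (inr j)) (c : U)
        (Sum.elim (Sum.elim (fun j => θ (p (inl j))) fun j => θ (p (inr j)))
          (Sum.elim u θ))).det = 1 := by
    intro c nd
    refine sys U k R π M n u ι θ H _ _ c hP hu htri hH (fun i => (hθ i).2) hH0 hdet ?_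
    intro D hD h i
    simp only [hpz, hpw, (hw _).2.2] at h
    have h1 : ∀ j, D (π (z j)) = 0 := nd D hD fun j => ⟨(hEC j).1, by simpa using h j⟩
    refine (dex k).1 D _ ?_ _ (hπu i)
    rintro a (ha | ⟨j, rfl⟩ | ⟨j, rfl⟩)
    · exact hD a ha
    · exact h1 j
    · rw [h j, h1 j, mul_zero]
  -- the lift of the system
  let B : Subring (U × U) := ψ ⊓ R.toSubring.prod R.toSubring
  let f : B →+* U := (RingHom.fst U U).comp B.subtype
  let g : B →+* U := (RingHom.snd U U).comp B.subtype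
  have hB : ∀ b : B, (f b, g b) ∈ ψ ∧ f b ∈ R ∧ g b ∈ R := fun b => ⟨b.2.1, b.2.2.1, b.2.2.2⟩
  have hL : ∀ i, ∃ G' : MvPolynomial (Fin n ⊕ ι) B, map f G' = H i := by
    intro i
    refine exists_lift f _ fun m => ?_
    obtain ⟨h1, h2⟩ := hH i m
    rw [← hdom] at h1
    obtain ⟨s, hs⟩ := h1
    exact ⟨⟨(_, s), hs, h2, good_mem hle hψ hs h2⟩, rfl⟩
  choose HB hHB using hL
  obtain rfl : H = fun i => map f (HB i) := funext fun i => (hHB i).symm
  clear hHB
  have hBA : ∀ b : B, (f b, g b) ∈ pre hP Φ := fun b =>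
    mem_pre_of_le hP hψΦ (hB b).1 (hB b).2.1 (hB b).2.2
  -- the approximate solution
  have h0 : ∀ i, ∃ s ∈ R, (π (u i), π s) ∈ Φ := by
    intro i
    have h1 : π (u i) ∈ dom Φ := by
      refine hac ?_
      refine (IntermediateField.mem_toSubfield _ _).2 (mem_algebraicClosure_iff.2 ?_)
      exact isAlgebraic_algebraMap (⟨π (u i), IntermediateField.subset_adjoin ℚ _
        (Or.inr ⟨i, rfl⟩)⟩ : IntermediateField.adjoin ℚ
          ((resF R π M : Set k) ∪ range fun i => π (u i)))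
    obtain ⟨s, hs⟩ := h1
    obtain ⟨a, ha, rfl⟩ := hP.surj s
    exact ⟨a, ha, hs⟩
  choose u0 hu0R hu0 using h0
  obtain ⟨τ0, -, hτ0, hdom0, huu0, hres0⟩ := gauss U k S.O R π S'.O M ψ Φ n u u0 hres.toPlaceO
    hS.ch hS'.ch hM hψ hdom hΦ hψΦ (fun i => ⟨hu i, hu0R i, hu0 i⟩) htri hac
  have h1 : ∀ i, ∃ s, (θ i, s) ∈ τ0 := fun i => by
    have := (hθ i).1
    rw [← SetLike.mem_coe, ← hdom0] at this
    exact this
  choose θ0 hθ0 using h1
  have hθ0R : ∀ i, θ0 i ∈ R := fun i => good_mem hle hτ0 (hθ0 i) (hθ i).2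
  have hθA : ∀ i, (θ i, θ0 i) ∈ pre hP Φ := fun i =>
    mem_pre_of_le hP hres0 (hθ0 i) (hθ i).2 (hθ0R i)
  let b : Fin n ⊕ (Fin n ⊕ ι) → U := Sum.elim (fun j => θ0 (p (inl j))) (Sum.elim u0 θ0)
  have hb1 : ∀ j, S.v (b (inl j)) < 1 := fun j => by
    have := good_val le_rfl hτ0 (hθ0 (p (inl j)))
    rw [hpz] at this
    exact this.trans_lt (hz j).2
  have hbR : ∀ l, b (inr l) ∈ R := by
    rintro (l | l)
    · exact hu0R l
    · exact hθ0R l
  have hER : ∀ a, S.E a ∈ R := by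
    intro a
    by_cases ha : S.v a < 1
    · have h2 := hS.ET a ha 0
      have h3 : S.E a - 1 ∈ S.O := by
        rw [← S.O.valuation_le_one_iff]
        have h5 : S.v a ^ (0 + 1) ≤ 1 := by
          rw [zero_add, pow_one]
          exact ha.le
        have h6 := h2.trans h5
        rwa [show Tn 0 (slope S.nn a * a) = 1 by simp [Tn]] at h6
      have h4 := S.O.add_mem _ _ h3 S.O.one_mem
      rw [sub_add_cancel] at h4
      exact hle h4
    · rw [hS.E0 a ha]
      exact R.zero_mem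
  have hpt : ∀ t, ((Sum.elim (Sum.elim (fun j => θ (p (inl j))) fun j => θ (p (inr j)))
      (Sum.elim u θ) : (Fin n ⊕ Fin n) ⊕ (Fin n ⊕ ι) → U) t, pt S b t) ∈ pre hP Φ := by
    rintro ((j | j) | (i | i))
    · exact hθA _
    · obtain ⟨-, s, hs1, hs2⟩ := hEC j
      have h2 := ((mem_pre hP).1 (hθA (p (inl j)))).2.2
      rw [hpz] at h2
      obtain rfl := good_uniq hΦ hs1 h2
      refine (mem_pre hP).2 ⟨(hθ _).2, hER _, ?_⟩
      change (π (θ (p (inr j))), π (S.E (θ0 (p (inl j))))) ∈ Φ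
      rw [hpw, (hw j).2.2, ← hres.E _ (hθ0R _)]
      exact hs2
    · exact (mem_pre hP).2 ⟨hu i, hu0R i, hu0 i⟩
    · exact hθA _
  have hdet' : ∀ c : ℕ, ND S' (resF R π M) (c : ℚ) (fun j => π (z j)) →
      R.valuation (jac (fun i => map g (sysG HB (fun j => p (inl j)) (fun j => p (inr j)) i))
        (c : U) (pt S b)).det = 1 := by
    intro c nd
    have h2 := hsys c nd
    rw [sysG_map] at h2
    exact pre_one hP hΦ (pair_jac hBA hpt _ c) h2
  obtain ⟨y, hy1, hy2⟩ := (hkp U S (Fin n) (Fin n ⊕ ι)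
    (fun i => map g (sysG HB (fun j => p (inl j)) (fun j => p (inr j)) i)) b hS.toAx0 hb1).1 R
    hS.hk hle (fun i m => by
      rw [coeff_map]
      exact (hB _).2.2) hbR (by simpa using hdet' 1 (by simpa using nd1))
    (by simpa using hdet' 2 (by simpa using nd2)) (fun i => by
      refine pre_lt hP hΦ (pair_eval hBA hpt _) ?_
      rcases i with j | j | j
      · simp [sysG]
      · simp [sysG]
      · have h2 := hH0 j
        simp only [sysG, Sum.elim_inr, map_rename, eval_rename]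
        exact h2)
  have hyR : ∀ l, y (inr l) ∈ R := fun l => by
    have h2 := R.add_mem _ _ ((R.valuation_le_one_iff _).1 (hy1 (inr l)).le) (hbR l)
    rwa [sub_add_cancel] at h2
  have hyπ : ∀ l, π (y (inr l)) = π (b (inr l)) := fun l =>
    (place_eq hP (hyR l) (hbR l)).1 (hy1 _)
  have e1 : ∀ j, y (inl j) = y (inr (inr (p (inl j)))) := fun j => by
    have h2 := hy2 (inl j)
    simpa [sysG, pt, sub_eq_zero] using h2
  have e2 : ∀ j, S.E (y (inl j)) = y (inr (inr (p (inr j)))) := fun j => by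
    have h2 := hy2 (inr (inl j))
    simpa [sysG, pt, sub_eq_zero] using h2
  have e3 : ∀ i, eval (Sum.elim (fun i => y (inr (inl i))) fun i => y (inr (inr i)))
      (map g (HB i)) = 0 := fun i => by
    have h2 := hy2 (inr (inr i))
    simp only [sysG, Sum.elim_inr, map_rename, eval_rename] at h2
    rw [← h2]
    congr 2
    funext t
    rcases t with t | t <;> rfl
  obtain ⟨τ, hψτ, hτ, hdomτ, huτ, hresτ⟩ := gauss U k S.O R π S'.O M ψ Φ n u
    (fun i => y (inr (inl i))) hres.toPlaceO hS.ch hS'.ch hM hψ hdom hΦ hψΦ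
    (fun i => ⟨hu i, hyR _, by
      rw [hyπ]
      exact hu0 i⟩) htri hac
  have h2 : ∀ i, ∃ s, (θ i, s) ∈ τ := fun i => by
    have := (hθ i).1
    rw [← SetLike.mem_coe, ← hdomτ] at this
    exact this
  choose θ1 hθ1 using h2
  have hθ1R : ∀ i, θ1 i ∈ R := fun i => good_mem hle hτ (hθ1 i) (hθ i).2
  have hBτ : ∀ b : B, (f b, g b) ∈ τ := fun b => hψτ (hB b).1
  have hq : ∀ t, ((Sum.elim u θ : Fin n ⊕ ι → U) t,
      (Sum.elim (fun i => y (inr (inl i))) θ1 : Fin n ⊕ ι → U) t) ∈ τ := by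
    rintro (i | i)
    · exact huτ i
    · exact hθ1 i
  have key : (fun i => y (inr (inr i))) = θ1 := by
    refine (tay U).2.1 R (Fin n) ι (fun i => map g (HB i)) (fun i => y (inr (inl i))) θ1 _
      (fun i m => by
        rw [coeff_map]
        exact (hB _).2.2) (fun i => hyR _) hθ1R (fun i => ?_) (fun i => ?_) e3 ?_
    · refine (place_eq hP (hyR _) (hθ1R i)).2 ?_
      rw [hyπ]
      exact good_uniq hΦ ((mem_pre hP).1 (hθA i)).2.2
        ((mem_pre hP).1 (mem_pre_of_le hP hresτ (hθ1 i) (hθ i).2 (hθ1R i))).2.2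
    · exact (good_zero hτ (pair_eval hBτ hq (HB i))).2 (hH0 i)
    · exact (good_val hle hτ (pair_pjac hBτ hq HB)).trans hdet
  refine ⟨τ, hψτ, hτ, hdomτ, hresτ, fun j => ⟨y (inl j), ?_, ?_⟩⟩
  · rw [e1, ← hpz, congrFun key (p (inl j))]
    exact hθ1 _
  · rw [e2, ← hpw, congrFun key (p (inr j))]
    exact hθ1 _

end Pool.Agent.MP_0e4269_lc.Z

end MrgPart2

-- ======== part 3: formerly Pool.Agent.MP_0e4269_lc.z.Base3
section MrgPart3

/-!
Naturality of polynomial systems.
-/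

set_option linter.unusedSectionVars false

open MvPolynomial Sum

universe w

namespace Pool.Agent.MP_0e4269_lc.Z

variable {A B : Type*} [CommRing A] [CommRing B] {κ ι τ : Type}

theorem eval_map' (f : A →+* B) (p : τ → A) (G : MvPolynomial τ A) :
    eval (fun t => f (p t)) (map f G) = f (eval p G) := by
  induction G using MvPolynomial.induction_on with
  | C a => simp
  | add P Q h1 h2 => simp [h1, h2]
  | mul_X P t h => simp [h]

theorem jac_map (f : A →+* B) (G : κ ⊕ ι → MvPolynomial ((κ ⊕ κ) ⊕ ι) A) (c : A)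
    (p : (κ ⊕ κ) ⊕ ι → A) :
    jac (fun i => map f (G i)) (f c) (fun t => f (p t)) = (jac G c p).map f := by
  ext i (k | l) <;> simp [jac, pderiv_map, -eval_map, eval_map']

theorem pjac_map (f : A →+* B) (H : ι → MvPolynomial (κ ⊕ ι) A) (p : κ ⊕ ι → A) :
    pjac (fun i => map f (H i)) (fun t => f (p t)) = (pjac H p).map f := by
  ext i l
  simp [pjac, pderiv_map, -eval_map, eval_map']

theorem det_jac_map [Fintype κ] [Fintype ι] [DecidableEq κ] [DecidableEq ι] (f : A →+* B)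
    (G : κ ⊕ ι → MvPolynomial ((κ ⊕ κ) ⊕ ι) A) (c : A) (p : (κ ⊕ κ) ⊕ ι → A) :
    (jac (fun i => map f (G i)) (f c) (fun t => f (p t))).det = f (jac G c p).det := by
  rw [jac_map, RingHom.map_det, RingHom.mapMatrix_apply]

theorem det_pjac_map [Fintype ι] [DecidableEq ι] (f : A →+* B) (H : ι → MvPolynomial (κ ⊕ ι) A)
    (p : κ ⊕ ι → A) :
    (pjac (fun i => map f (H i)) (fun t => f (p t))).det = f (pjac H p).det := by
  rw [pjac_map, RingHom.map_det, RingHom.mapMatrix_apply]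

theorem sysG_map (f : A →+* B) (H : ι → MvPolynomial (κ ⊕ ι) A) (p q : κ → ι) (i : κ ⊕ (κ ⊕ ι)) :
    sysG (fun i => map f (H i)) p q i = map f (sysG H p q i) := by
  rcases i with j | j | i <;> simp [sysG, map_rename]

theorem eval_sysG_zero (H : ι → MvPolynomial (κ ⊕ ι) A) (p q : κ → ι)
    (x : (κ ⊕ κ) ⊕ (κ ⊕ ι) → A) :
    (∀ i, eval x (sysG H p q i) = 0) ↔ (∀ j, x (inl (inl j)) = x (inr (inr (p j)))) ∧
      (∀ j, x (inl (inr j)) = x (inr (inr (q j)))) ∧ ∀ i, eval (fun t => x (inr t)) (H i) = 0 := by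
  simp [Sum.forall, sysG, sub_eq_zero, eval_rename, Function.comp_def]

theorem lift_cf (f : A →+* B) {G : MvPolynomial τ B} (h : Cf (Set.range f) G) :
    ∃ G' : MvPolynomial τ A, map f G' = G := by
  choose c hc using h
  refine ⟨∑ m ∈ G.support, monomial m (c m), ?_⟩
  rw [map_sum]
  simp only [map_monomial, hc]
  exact G.as_sum.symm

theorem Cf.mono {S T : Set A} {G : MvPolynomial τ A} (h : Cf S G) (hS : S ⊆ T) : Cf T G :=
  fun m => hS (h m)

theorem cf_map (f : A →+* B) {S : Set B} (hS : ∀ a, f a ∈ S) (G : MvPolynomial τ A) :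
    Cf S (map f G) := fun m => by rw [coeff_map]; exact hS _

theorem cf_iff {S : Subring A} {G : MvPolynomial τ A} :
    Cf (S : Set A) G ↔ ∃ G' : MvPolynomial τ S, map S.subtype G' = G :=
  ⟨fun h => lift_cf _ (h.mono fun a ha => ⟨⟨a, ha⟩, rfl⟩),
    fun ⟨G', h⟩ => h ▸ cf_map _ (fun a => a.2) G'⟩

theorem Cf.eval_mem {S : Subring A} {G : MvPolynomial τ A} (h : Cf (S : Set A) G) {p : τ → A}
    (hp : ∀ t, p t ∈ S) : eval p G ∈ S := by
  obtain ⟨G', rfl⟩ := cf_iff.1 h
  have := eval_map' S.subtype (fun t => ⟨p t, hp t⟩) G'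
  simp only [Subring.coe_subtype] at this
  rw [this]
  exact Subtype.prop _

theorem Cf.pderiv {S : Subring A} {G : MvPolynomial τ A} (h : Cf (S : Set A) G) (t : τ) :
    Cf (S : Set A) (pderiv t G) := by
  obtain ⟨G', rfl⟩ := cf_iff.1 h
  rw [pderiv_map]
  exact cf_iff.2 ⟨_, rfl⟩

theorem cf_sysG {S : Subring A} {H : ι → MvPolynomial (κ ⊕ ι) A} (h : ∀ i, Cf (S : Set A) (H i))
    (p q : κ → ι) (i : κ ⊕ (κ ⊕ ι)) : Cf (S : Set A) (sysG H p q i) := by
  choose H' hH using fun i => cf_iff.1 (h i)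
  obtain rfl : H = fun i => map S.subtype (H' i) := funext fun i => (hH i).symm
  rw [sysG_map]
  exact cf_iff.2 ⟨_, rfl⟩

theorem jac_mem {S : Subring A} {G : κ ⊕ ι → MvPolynomial ((κ ⊕ κ) ⊕ ι) A}
    (h : ∀ i, Cf (S : Set A) (G i)) {c : A} (hc : c ∈ S) {p : (κ ⊕ κ) ⊕ ι → A}
    (hp : ∀ t, p t ∈ S) (i k : κ ⊕ ι) : jac G c p i k ∈ S := by
  rcases k with k | l
  · exact add_mem (((h i).pderiv _).eval_mem hp)
      (mul_mem (mul_mem hc (hp _)) (((h i).pderiv _).eval_mem hp))
  · exact ((h i).pderiv _).eval_mem hp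

theorem det_mem [Fintype τ] [DecidableEq τ] {S : Subring A} {M : Matrix τ τ A}
    (h : ∀ i k, M i k ∈ S) : M.det ∈ S := by
  rw [Matrix.det_apply']
  exact sum_mem fun σ _ => mul_mem (intCast_mem S _) (prod_mem fun i _ => h _ _)

theorem adjugate_mem [Fintype τ] [DecidableEq τ] {S : Subring A} {M : Matrix τ τ A}
    (h : ∀ i k, M i k ∈ S) (i k : τ) : M.adjugate i k ∈ S := by
  rw [Matrix.adjugate_apply]
  refine det_mem fun a b => ?_
  rw [Matrix.updateRow_apply]
  split_ifs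
  · rw [Pi.single_apply]
    split_ifs
    exacts [one_mem _, zero_mem _]
  · exact h _ _

theorem jac_mulVec [Fintype κ] [Fintype ι] (G : κ ⊕ ι → MvPolynomial ((κ ⊕ κ) ⊕ ι) A) (c : A)
    (p : (κ ⊕ κ) ⊕ ι → A) (h : κ ⊕ ι → A) (i : κ ⊕ ι) :
    (jac G c p).mulVec h i = ∑ t, eval p (pderiv t (G i)) * dir c p h t := by
  simp only [Matrix.mulVec, dotProduct, Fintype.sum_sum_type, jac, dir, Matrix.of_apply,
    Sum.elim_inl, Sum.elim_inr, ← Finset.sum_add_distrib]
  congr 1
  exact Finset.sum_congr rfl fun k _ => by ring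

theorem pjac_mulVec [Fintype ι] (H : ι → MvPolynomial (κ ⊕ ι) A) (p : κ ⊕ ι → A) (h : ι → A)
    (i : ι) : (pjac H p).mulVec h i = ∑ l, eval p (pderiv (inr l) (H i)) * h l := rfl

/-- The chain rule. -/
theorem deriv_eval [Fintype τ] (D : Derivation ℤ A A) {G : MvPolynomial τ A}
    (h : Cf {a | D a = 0} G) (p : τ → A) :
    D (eval p G) = ∑ t, eval p (pderiv t G) * D (p t) := by
  classical
  let S : Subring A :=
    { carrier := {a | D a = 0}
      mul_mem' := fun {a b} ha hb => by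
        simp only [Set.mem_ofPred_eq] at *
        simp [ha, hb]
      one_mem' := by simp
      add_mem' := fun {a b} ha hb => by
        simp only [Set.mem_ofPred_eq] at *
        simp [ha, hb]
      zero_mem' := by simp
      neg_mem' := fun {a} ha => by
        simp only [Set.mem_ofPred_eq] at *
        simp [ha] }
  obtain ⟨G', rfl⟩ := (cf_iff (S := S)).1 h
  clear h
  induction G' using MvPolynomial.induction_on with
  | C a =>
    have : D a = 0 := a.2
    simpa using this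
  | add P Q h1 h2 => simp only [map_add, h1, h2, add_mul, Finset.sum_add_distrib]
  | mul_X P t h =>
    simp only [map_mul, map_X, eval_X, Derivation.leibniz, h, smul_eq_mul, map_add, add_mul,
      Finset.sum_add_distrib, Finset.mul_sum, pderiv_X, Pi.single_apply]
    congr 1
    · rw [Finset.sum_eq_single t] <;> simp +contextual [eq_comm]
    · exact Finset.sum_congr rfl fun k _ => by ring

theorem eq_zero_of_mulVec {K : Type*} [Field K] [Fintype τ] [DecidableEq τ] {M : Matrix τ τ K}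
    (h : M.det ≠ 0) {x : τ → K} (hx : M.mulVec x = 0) : x = 0 := by
  by_contra h0
  exact h (Matrix.exists_mulVec_eq_zero_iff.1 ⟨x, h0, hx⟩)

theorem det_ne_zero_of_ker {K : Type*} [Field K] [Fintype τ] [DecidableEq τ] {M : Matrix τ τ K}
    (h : ∀ x : τ → K, M.mulVec x = 0 → x = 0) : M.det ≠ 0 := fun h0 => by
  obtain ⟨x, h1, h2⟩ := Matrix.exists_mulVec_eq_zero_iff.2 h0
  exact h1 (h x h2)

/-- Subfield intersected with a valuation ring. -/
theorem coe_inf {U : Type w} [Field U] (F : Subfield U) (R : ValuationSubring U) :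
    ((F.toSubring ⊓ R.toSubring : Subring U) : Set U) = (F : Set U) ∩ R := rfl

end Pool.Agent.MP_0e4269_lc.Z

end MrgPart3

-- ======== part 4: formerly Pool.Agent.MP_0e4269_lc.z.Base4
section MrgPart4

/-!
First properties of the function, of residue structures and of the language.
-/

set_option linter.unusedSectionVars false

open Set FirstOrder

universe w

namespace Pool.Agent.MP_0e4269_lc.Z

section E

variable {U : Type w} [Field U] {S : ES U} {a b : U}

theorem Tn_zero (x : U) : Tn 0 x = 1 := by simp [Tn]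

theorem Tn_one (x : U) : Tn 1 x = 1 + x := by simp [Tn, Finset.sum_range_succ]

theorem Tn_succ (n : ℕ) (x : U) :
    Tn (n + 1) x = Tn n x + x ^ (n + 1) / ((n + 1).factorial : U) := Finset.sum_range_succ _ _

theorem slope_cases (nn : Set U) (a : U) :
    (a ∈ nn ∧ slope nn a = 2) ∨ (a ∉ nn ∧ slope nn a = 1) := by
  by_cases h : a ∈ nn <;> simp [slope, h]

theorem slope_mem (O : ValuationSubring U) (nn : Set U) (a : U) : slope nn a ∈ O := by
  rcases slope_cases nn a with h | h <;> rw [h.2]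
  exacts [ofNat_mem O 2, one_mem _]

theorem cst_cases (S : ES U) : cst S = 1 ∨ cst S = 2 := by
  unfold cst
  split_ifs <;> simp

theorem cst_ne_zero (S : ES U) : cst S ≠ 0 := by
  rcases cst_cases S with h | h <;> simp [h]

theorem AxV.nn_pow {O : ValuationSubring U} {nn : Set U} (h : AxV O nn) {n : ℕ}
    (ha : a ^ (n + 1) ∈ nn) : a ∈ nn := by
  have h1 : O.valuation a ≤ 1 := by
    have := h.nnlt _ ha
    rw [map_pow] at this
    exact (lt_of_pow_lt_pow_left₀ (n + 1) zero_le (by simpa using this)).le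
  induction n with
  | zero => simpa using ha
  | succ n ih =>
    refine ih (h.nnsq _ (h.nnle _ _ ha ?_))
    rw [← pow_add, map_pow, map_pow]
    exact pow_le_pow_of_le_one zero_le h1 (by omega)

theorem AxV.nn_add {O : ValuationSubring U} {nn : Set U} (h : AxV O nn) (ha : a ∈ nn)
    (hb : b ∈ nn) : a + b ∈ nn := by
  rcases le_max_iff.1 (O.valuation.map_add a b) with h1 | h1
  exacts [h.nnle _ _ ha h1, h.nnle _ _ hb h1]

theorem AxV.lt_of_nn {O : ValuationSubring U} {nn : Set U} (h : AxV O nn) (ha : a ∈ nn)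
    (hb : b ∉ nn) (n : ℕ) : O.valuation a < O.valuation b ^ n := by
  rcases n with _ | n
  · simpa using h.nnlt a ha
  · rw [← map_pow, ← not_le]
    exact fun h1 => hb (h.nn_pow (h.nnle _ _ ha h1))

theorem AxV.slope_congr {O : ValuationSubring U} {nn : Set U} (h : AxV O nn)
    (e : O.valuation a = O.valuation b) : slope nn a = slope nn b := by
  have : a ∈ nn ↔ b ∈ nn := ⟨fun h1 => h.nnle _ _ h1 e.ge, fun h1 => h.nnle _ _ h1 e.le⟩
  by_cases h1 : b ∈ nn
  · simp [slope, h1, this.2 h1]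
  · simp [slope, h1, this.not.2 h1]

theorem Ax0.sub_one (h : Ax0 S) (ha : S.v a < 1) : S.v (S.E a - 1) ≤ S.v a := by
  simpa [Tn_zero] using h.ET a ha 0

theorem Ax0.E_zero (h : Ax0 S) : S.E 0 = 1 :=
  sub_eq_zero.1 (by simpa using h.sub_one (a := 0) (by simp))

theorem Ax0.val_E (h : Ax0 S) (ha : S.v a < 1) : S.v (S.E a) = 1 := by
  have := S.v.map_one_add_of_lt ((h.sub_one ha).trans_lt ha)
  simpa using this

theorem Ax0.E_ne (h : Ax0 S) (ha : S.v a < 1) : S.E a ≠ 0 := fun h0 => by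
  simpa [h0] using h.val_E ha

theorem Ax0.E_mem (h : Ax0 S) (a : U) : S.E a ∈ S.O := by
  by_cases ha : S.v a < 1
  · exact (S.O.valuation_le_one_iff _).1 (h.val_E ha).le
  · rw [h.E0 a ha]
    exact zero_mem _

theorem Ax0.E_neg (h : Ax0 S) (ha : S.v a < 1) : S.E (-a) = (S.E a)⁻¹ := by
  refine eq_inv_of_mul_eq_one_right ?_
  rw [← h.E1 a (-a) ha (by simpa using ha), add_neg_cancel, h.E_zero]

theorem Ax0.E_sub (h : Ax0 S) (ha : S.v a < 1) (hb : S.v b < 1) :
    S.E (a - b) = S.E a / S.E b := by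
  rw [sub_eq_add_neg, h.E1 a (-b) ha (by simpa using hb), h.E_neg hb, div_eq_mul_inv]

theorem Ax0.E_nsmul (h : Ax0 S) (ha : S.v a < 1) (n : ℕ) : S.E (n * a) = S.E a ^ n := by
  induction n with
  | zero => simpa using h.E_zero
  | succ n ih =>
    rw [Nat.cast_succ, add_mul, one_mul, h.E1 _ _ ?_ ha, ih, pow_succ]
    rw [map_mul]
    exact lt_of_le_of_lt (mul_le_of_le_one_left' (val_nat_le n)) ha

theorem Ax0.E_lip (h : Ax0 S) (ha : S.v a < 1) (hb : S.v b < 1) :
    S.v (S.E a - S.E b) ≤ S.v (a - b) := by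
  have h1 : S.v (a - b) < 1 := Valuation.map_sub_lt _ ha hb
  have e : S.E a - S.E b = S.E b * (S.E (a - b) - 1) := by
    rw [h.E_sub ha hb]
    field_simp [h.E_ne hb]
  rw [e, map_mul, h.val_E hb, one_mul]
  exact h.sub_one h1

theorem zE_finite (S : ES U) {n : ℕ} (z : Fin n → U) : (zE S z).Finite :=
  (finite_range _).union (finite_range _)

theorem mem_zE (S : ES U) {n : ℕ} (z : Fin n → U) (j : Fin n) : z j ∈ zE S z := Or.inl ⟨j, rfl⟩

theorem E_mem_zE (S : ES U) {n : ℕ} (z : Fin n → U) (j : Fin n) : S.E (z j) ∈ zE S z :=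
  Or.inr ⟨j, rfl⟩

theorem zE_subset {n : ℕ} {z : Fin n → U} {X : Set U} :
    zE S z ⊆ X ↔ ∀ j, z j ∈ X ∧ S.E (z j) ∈ X := by
  simp [zE, range_subset_iff, forall_and]

theorem zE_append (S : ES U) {n m : ℕ} (z : Fin n → U) (y : Fin m → U) :
    zE S (Fin.append z y) = zE S z ∪ zE S y := by
  have e : (fun j => S.E (Fin.append z y j)) =
      Fin.append (fun j => S.E (z j)) fun j => S.E (y j) := by
    funext i
    refine Fin.addCases (fun i => ?_) (fun i => ?_) i <;> simp
  rw [zE, e, range_append, range_append, zE, zE, union_union_union_comm]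

theorem Ax0.zE_mem (h : Ax0 S) {n : ℕ} {z : Fin n → U} (hz : ∀ j, S.v (z j) < 1) :
    zE S z ⊆ S.O :=
  zE_subset.2 fun j => ⟨mem_of_lt_one (hz j), h.E_mem _⟩

theorem EC_mono {Φ Ψ : Subring (U × U)} (h : Ψ ≤ Φ) : EC S Ψ ⊆ EC S Φ :=
  fun _ ⟨h1, s, h2, h3⟩ => ⟨h1, s, h h2, h h3⟩

theorem EC_diag {K : Subfield U} (ha : S.v a < 1) (h1 : a ∈ K) (h2 : S.E a ∈ K) :
    a ∈ EC S (diag K) := ⟨ha, a, mem_diag.2 ⟨h1, rfl⟩, mem_diag.2 ⟨h2, rfl⟩⟩

theorem ED_sum {c : ℚ} {ι : Type*} (t : Finset ι) (l : ι → U) (D : ι → Derivation ℤ U U)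
    (ha : S.v a < 1) (h : ∀ i, a ∈ ED S c (D i)) : a ∈ ED S c (∑ i ∈ t, l i • D i) := by
  classical
  refine ⟨ha, ?_⟩
  induction t using Finset.induction_on with
  | empty => simp
  | insert i t hi ih =>
    simp only [Finset.sum_insert hi, Derivation.add_apply, Derivation.smul_apply, smul_eq_mul, ih,
      (h i).2]
    ring

theorem kills_sum [CharZero U] {B : Set U} {ι : Type*} (t : Finset ι) (l : ι → U)
    (D : ι → Derivation ℤ U U) (h : ∀ i, Kills (D i) B) : Kills (∑ i ∈ t, l i • D i) B := by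
  classical
  intro a ha
  induction t using Finset.induction_on with
  | empty => simp
  | insert i t hi ih => simp [Finset.sum_insert hi, ih, h i a ha]

theorem fam_diag [CharZero U] {F : Subfield U} (h : Closed S F) (hc : (F : Set U).Countable) :
    Fam S (diag F) :=
  ⟨good_diag _ _, F, h, hc, dom_diag _, fun a ha h1 => EC_diag h1 ha (h.EF a ha)⟩

theorem Adm.pt_mem (h : Ax0 S) {κ ι : Type} {z : κ ⊕ ι → U} (hz : Adm S z) (t : (κ ⊕ κ) ⊕ ι) :
    pt S z t ∈ S.O := by
  rcases t with (k | k) | l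
  exacts [mem_of_lt_one (hz.1 k), h.E_mem _, hz.2 l]

end E

section Res

variable {U k : Type w} [Field U] [Field k] {S : ES U} {R : ValuationSubring U} {π : U → k}
  {S' : ES k} {a : U}

theorem isRes_top (S : ES U) : IsRes S ⊤ id S :=
  ⟨⟨le_top, place_top, fun _ _ => Iff.rfl⟩, fun _ _ _ => Iff.rfl, fun _ _ => rfl⟩

theorem IsRes.zE_eq (h : IsRes S R π S') {n : ℕ} {z : Fin n → U} (hz : ∀ j, S.v (z j) < 1) :
    (zE S' fun j => π (z j)) = π '' zE S z := by
  simp only [zE, image_union, ← range_comp, Function.comp_def, h.E _ (h.memR (hz _))]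

theorem IsRes.zE_inter (h : IsRes S R π S') (h0 : Ax0 S) {n : ℕ} {z : Fin n → U}
    (hz : ∀ j, S.v (z j) < 1) : (zE S' fun j => π (z j)) = π '' (zE S z ∩ R) := by
  rw [h.zE_eq hz, inter_eq_self_of_subset_left ((h0.zE_mem hz).trans h.le)]

theorem IsRes.ec (h : IsRes S R π S') (h0 : Ax0 S) {Φ : Subring (U × U)} (hΦ : Good S.O Φ)
    (ha : a ∈ EC S Φ) : π a ∈ EC S' (resG R π Φ) := by
  obtain ⟨h1, s, h2, h3⟩ := ha
  have h4 := h.memR h1
  refine ⟨(h.lt_one h4).2 h1, π s, hΦ.mem_res h.toPlaceO h2 h4, ?_⟩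
  rw [h.E a h4, h.E s ((hΦ.mem h.le h2).2 h4)]
  exact hΦ.mem_res h.toPlaceO h3 (h.le (h0.E_mem _))

theorem IsRes.ec_all (h : IsRes S R π S') (h0 : Ax0 S) {Φ : Subring (U × U)} (hΦ : Good S.O Φ)
    {F : Subfield U} (hF : ∀ a ∈ F, S.v a < 1 → a ∈ EC S Φ) :
    ∀ y ∈ resF R π F, S'.v y < 1 → y ∈ EC S' (resG R π Φ) := by
  intro y hy h1
  obtain ⟨a, h2, h3, rfl⟩ := h.pl.mem_resF.1 hy
  exact h.ec h0 hΦ (hF a h2 ((h.lt_one h3).1 h1))

/-- Lifting a tuple chosen among the residues of a set. -/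
theorem lift_tuple {X : Set U} {p : ℕ} {y : Fin p → k} (h : ∀ i, y i ∈ π '' X) :
    ∃ u : Fin p → U, (∀ i, u i ∈ X) ∧ y = fun i => π (u i) := by
  choose u h1 h2 using h
  exact ⟨u, h1, funext fun i => (h2 i).symm⟩

end Res

section Lang

instance : Countable LE.Symbols := by
  have h1 : ∀ n, Countable (LE.Functions n) := fun n =>
    ⟨⟨fun f => match n, f with
      | _, Fn.add => 0
      | _, Fn.mul => 1
      | _, Fn.exp => 2, fun f g h => by cases f <;> cases g <;> simp_all⟩⟩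
  have h2 : ∀ n, Countable (LE.Relations n) := fun n =>
    ⟨⟨fun _ => 0, fun f g _ => by cases f; cases g; rfl⟩⟩
  unfold FirstOrder.Language.Symbols
  infer_instance

variable {U : Type w} [Field U]

/-- The first order structure attached to `S`. -/
@[reducible] def ES.str (S : ES U) : LE.Structure U where
  funMap {n} f x := match n, f with
    | _, Fn.add => x 0 + x 1
    | _, Fn.mul => x 0 * x 1
    | _, Fn.exp => S.E (x 0)
  RelMap {n} r x := match n, r with
    | _, Rl.val => x 0 ∈ S.O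

theorem compatE_str (S : ES U) : @CompatE U _ S S.str :=
  letI := S.str
  ⟨⟨fun _ _ => rfl, fun _ _ => rfl, fun _ => Iff.rfl⟩, fun _ => rfl⟩

variable [LE.Structure U] {S : ES U} {A : Set U} {α : Type}

theorem dfun_E (H : CompatE S) {f : (α → U) → U} (hf : A.DefinableFun LE f) :
    A.DefinableFun LE (fun x => S.E (f x)) := by
  have h1 : A.DefinableMap LE (fun x : α → U => ![f x]) := by
    intro i
    fin_cases i
    exact hf
  have h2 := DefinableFun.comp h1 ((DefinableFun.fun_symbol (M := U) expS).of_empty (A := A))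
  simpa [H.he] using h2

theorem CompatE.funMap_add (H : CompatE S) (x : Fin 2 → U) :
    FirstOrder.Language.Structure.funMap addS x = x 0 + x 1 := by
  rw [← H.hadd]
  congr 1
  ext i
  fin_cases i <;> rfl

theorem CompatE.funMap_mul (H : CompatE S) (x : Fin 2 → U) :
    FirstOrder.Language.Structure.funMap mulS x = x 0 * x 1 := by
  rw [← H.hmul]
  congr 1
  ext i
  fin_cases i <;> rfl

theorem CompatE.funMap_exp (H : CompatE S) (x : Fin 1 → U) :
    FirstOrder.Language.Structure.funMap expS x = S.E (x 0) := by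
  rw [← H.he]
  congr 1
  ext i
  fin_cases i; rfl

theorem CompatE.relMap_val (H : CompatE S) (x : Fin 1 → U) :
    FirstOrder.Language.Structure.RelMap valS x ↔ x 0 ∈ S.O := by
  rw [← H.ho]
  apply Iff.of_eq
  congr 1
  ext i
  fin_cases i; rfl

theorem CompatE.isModel (H : CompatE S) (h : Ax0 S) {T : LE.Theory} (hT : U ⊨ T) :
    IsModel LE addS mulS valS T U S.O :=
  ⟨H.hadd, H.hmul, H.ho, h.ch.charZero, charZero_residue_iff.2 h.ch, hT⟩

end Lang

end Pool.Agent.MP_0e4269_lc.Z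

end MrgPart4

-- marker of a merged file
example : 731051 + 434330 = 731051 + 434330 := rfl
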