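import Mathlib.LinearAlgebra.Matrix.ToLinearEquiv
import Pool.Agent.MP_0e4269_lc.z.Spec
import Pool.Agent.MP_0e4269_lc.z.Base2
import Mathlib.LinearAlgebra.FiniteDimensional.Lemmas
import Mathlib.Algebra.Ring.GeomSum
import Pool.Agent.MP_0e4269_lc.z.Base4
import Mathlib.Algebra.Polynomial.Lifts
import Mathlib.Algebra.Polynomial.Taylor

-- ======== part 0: formerly Pool.Agent.MP_0e4269_lc.z.Dir
section MrgPart0

/-!
The union of the configurations over a point is a closed field.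
-/

set_option linter.unusedSectionVars false

open MvPolynomial Sum Set

universe w

namespace Pool.Agent.MP_0e4269_lc.Z

namespace Dir

variable {U : Type w} [Field U] [CharZero U]

/-- The kernel of a derivation. -/
def kerD (D : Derivation ℤ U U) : Subring U where
  carrier := {a | D a = 0}
  mul_mem' {a b} ha hb := by
    have ha : D a = 0 := ha
    have hb : D b = 0 := hb
    simp [ha, hb]
  one_mem' := by simp
  add_mem' {a b} ha hb := by
    have ha : D a = 0 := ha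
    have hb : D b = 0 := hb
    simp [ha, hb]
  zero_mem' := by simp
  neg_mem' {a} ha := by
    have ha : D a = 0 := ha
    simp [ha]

theorem chain {τ : Type} [Fintype τ] [DecidableEq τ] (D : Derivation ℤ U U)
    (G : MvPolynomial τ U) (p : τ → U) (hG : ∀ m, D (G.coeff m) = 0) :
    D (eval p G) = ∑ t, eval p (pderiv t G) * D (p t) := by
  obtain ⟨H, rfl⟩ : G ∈ Set.range (MvPolynomial.map (kerD D).subtype) := by
    rw [MvPolynomial.mem_range_map_iff_coeffs_subset]
    intro a ha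
    obtain ⟨m, -, rfl⟩ := MvPolynomial.mem_coeffs_iff.1 ha
    exact ⟨⟨_, hG m⟩, rfl⟩
  clear hG
  induction H using MvPolynomial.induction_on with
  | C a =>
    have : D (a : U) = 0 := a.2
    simp [this]
  | add f g hf hg => simp only [map_add, hf, hg, add_mul, Finset.sum_add_distrib]
  | mul_X f n hf =>
    simp only [map_mul, map_X, eval_X, Derivation.leibniz, hf, smul_eq_mul, map_add, add_mul,
      Finset.sum_add_distrib, Finset.mul_sum, pderiv_X, Pi.single_apply]
    congr 1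
    · rw [Finset.sum_eq_single n] <;> simp +contextual [eq_comm]
    · exact Finset.sum_congr rfl fun t _ => by ring

theorem kill {κ ι : Type} [Fintype κ] [Fintype ι] [DecidableEq κ] [DecidableEq ι] (S : ES U)
    (D : Derivation ℤ U U) (G : κ ⊕ ι → MvPolynomial ((κ ⊕ κ) ⊕ ι) U) (z : κ ⊕ ι → U)
    (hG : ∀ i m, D ((G i).coeff m) = 0) (h0 : ∀ i, eval (pt S z) (G i) = 0)
    (hE : ∀ k, z (inl k) ∈ ED S 2 D) (hd : (jac G 2 (pt S z)).det ≠ 0) : ∀ k, D (z k) = 0 := by
  have h : (jac G 2 (pt S z)).mulVec (fun k => D (z k)) = 0 := by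
    funext i
    have h1 := chain D (G i) (pt S z) (hG i)
    rw [h0, map_zero] at h1
    rw [Pi.zero_apply, h1]
    simp only [Matrix.mulVec, dotProduct, jac, Matrix.of_apply, Fintype.sum_sum_type,
      Sum.elim_inl, Sum.elim_inr, pt, add_mul, Finset.sum_add_distrib]
    congr 2
    refine Finset.sum_congr rfl fun k _ => ?_
    rw [(hE k).2]
    push_cast
    ring
  exact congrFun (Matrix.eq_zero_of_mulVec_eq_zero hd h)

/-- Configurations. -/
structure Conf (S : ES U) (F : Subfield U) (x : U) where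
  n : ℕ
  z : Fin n → U
  lt : ∀ j, S.v (z j) < 1
  li : LI (sub F) z
  rk : rk ((F : Set U) ∪ {x}) (zE S z) ≤ n

variable {S : ES U} {F : Subfield U} {x : U}

/-- The field of a configuration. -/
noncomputable def Conf.K (c : Conf S F x) : Subfield U := ac ((F : Set U) ∪ {x} ∪ zE S c.z)

/-- The space of a configuration. -/
def Conf.V (c : Conf S F x) : Submodule ℚ U := sub F ⊔ Submodule.span ℚ (range c.z)

theorem Conf.ac_K (c : Conf S F x) : ac (c.K : Set U) = c.K := ac_ac _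

theorem Conf.base (c : Conf S F x) : (F : Set U) ∪ {x} ⊆ c.K :=
  subset_union_left.trans (subset_ac _)

theorem Conf.zE_sub (c : Conf S F x) : zE S c.z ⊆ c.K := subset_union_right.trans (subset_ac _)

theorem zE_of_EL {K : Subfield U} {m : ℕ} {y : Fin m → U} (h : ∀ j, y j ∈ EL S K) :
    zE S y ⊆ K := by
  rintro a (⟨j, rfl⟩ | ⟨j, rfl⟩)
  exacts [(h j).2.1, (h j).2.2]

theorem zE_append {n m : ℕ} (z : Fin n → U) (y : Fin m → U) :
    zE S (Fin.append z y) = zE S z ∪ zE S y := by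
  have h : (range fun j => S.E (Fin.append z y j)) =
      (range fun j => S.E (z j)) ∪ range fun j => S.E (y j) := by
    rw [show (fun j => S.E (Fin.append z y j)) = S.E ∘ Fin.append z y from rfl, range_comp,
      range_append, image_union, ← range_comp, ← range_comp]
    rfl
  rw [zE, range_append, h, zE, zE]
  ac_rfl

theorem Conf.EL (span : SpanStmt.{w}) (hS : Ax0 S) (hF : ∀ a ∈ F, S.E a ∈ F) (c : Conf S F x)
    {a : U} (ha : a ∈ c.V) (h1 : S.v a < 1) : a ∈ EL S c.K := by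
  obtain ⟨f, hf, s, hs, rfl⟩ := Submodule.mem_sup.1 ha
  rw [mem_sub] at hf
  have h2 : s ∈ Z.EL S c.K := (span U S (range c.z) hS).2.1 c.K c.ac_K (by
    rintro _ ⟨j, rfl⟩
    exact ⟨c.lt j, c.zE_sub (Or.inl ⟨j, rfl⟩), c.zE_sub (Or.inr ⟨j, rfl⟩)⟩) hs
  have h3 : S.v f < 1 := by
    have := Valuation.map_sub_lt S.v h1 h2.1
    simpa using this
  refine ⟨h1, add_mem (c.base (Or.inl hf)) h2.2.1, ?_⟩
  rw [hS.E1 _ _ h3 h2.1]
  exact mul_mem (c.base (Or.inl (hF f hf))) h2.2.2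

theorem Conf.K_le (span : SpanStmt.{w}) (hS : Ax0 S) (hF : ∀ a ∈ F, S.E a ∈ F)
    {c d : Conf S F x} (h : c.V ≤ d.V) : c.K ≤ d.K :=
  ac_le_of_closed d.ac_K (union_subset d.base (zE_of_EL fun j => d.EL span hS hF
    (h (Submodule.mem_sup_right (Submodule.subset_span ⟨j, rfl⟩))) (c.lt j)))

theorem Conf.add (split : SplitStmt.{w}) (c : Conf S F x) {m : ℕ} (y : Fin m → U)
    (h1 : ∀ j, S.v (y j) < 1) (h2 : LI c.V y) (h3 : Z.rk (c.K : Set U) (zE S y) ≤ m) :
    ∃ d : Conf S F x, c.V ≤ d.V ∧ ∀ j, y j ∈ d.V := by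
  refine ⟨⟨c.n + m, Fin.append c.z y, fun j => ?_, (split U).2 _ _ _ _ _ c.li h2, ?_⟩, ?_,
    fun j => ?_⟩
  · refine Fin.addCases (fun i => ?_) (fun i => ?_) j
    · simpa using c.lt i
    · simpa using h1 i
  · rw [zE_append, rk_union]
    push_cast
    refine add_le_add c.rk ?_
    rwa [Conf.K, rk_ac_left] at h3
  · refine sup_le_sup_left (Submodule.span_mono ?_) _
    simp only [range_append]
    exact subset_union_left
  · refine Submodule.mem_sup_right (Submodule.subset_span ?_)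
    simp only [range_append]
    exact Or.inr ⟨j, rfl⟩

/-- Adding a tuple after splitting it. -/
theorem Conf.grow (split : SplitStmt.{w}) (span : SpanStmt.{w}) (hS : Ax0 S) (c : Conf S F x)
    {n : ℕ} (y : Fin n → U) (h1 : ∀ j, S.v (y j) < 1)
    (h : ∀ (m l : ℕ) (y' : Fin m → U) (y'' : Fin l → U),
      (∀ j, y' j ∈ Submodule.span ℚ (range y)) → (∀ j, y'' j ∈ Submodule.span ℚ (range y)) →
      (∀ j, S.v (y' j) < 1) → (∀ j, S.v (y'' j) < 1) → (∀ j, y'' j ∈ c.V) →
      (∀ j, y j ∈ Submodule.span ℚ (range y' ∪ range y'')) →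
      (LI (sub F) y → m + l = n ∧ LI (sub F) y'') → Z.rk (c.K : Set U) (zE S y') ≤ m) :
    ∃ d : Conf S F x, c.V ≤ d.V ∧ ∀ j, y j ∈ d.V := by
  obtain ⟨m, l, y', y'', a1, a2, a3, a4, a5, a6⟩ := (split U).1 c.V n y
  have hs := (span U S (range y) hS).1 (by rintro _ ⟨j, rfl⟩; exact h1 j)
  obtain ⟨d, hd, hy⟩ := c.add split y' (fun j => hs (a1 j)) a3
    (h m l y' y'' a1 a2 (fun j => hs (a1 j)) (fun j => hs (a2 j)) a4 a5
      fun hl => ⟨(a6 _ hl).1, (a6 _ hl).2.1⟩)
  refine ⟨d, hd, fun j => Submodule.span_le.2 ?_ (a5 j)⟩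
  rintro _ (⟨i, rfl⟩ | ⟨i, rfl⟩)
  exacts [hy i, hd (a4 i)]

theorem directed (split : SplitStmt.{w}) (span : SpanStmt.{w}) (str : StrStmt.{w}) (hS : Cls S)
    (hF : Closed S F) (hc : (F : Set U).Countable) (c d : Conf S F x) :
    ∃ e : Conf S F x, c.V ≤ e.V ∧ d.V ≤ e.V := by
  obtain ⟨e, h1, h2⟩ := c.grow split span hS.toAx0 d.z d.lt
    fun m l y' y'' a1 a2 a3 a4 a5 _ a7 => by
      obtain ⟨b1, b2⟩ := a7 d.li
      have b3 : (l : ℕ∞) ≤ rk ((F : Set U) ∪ {x}) (zE S y'') :=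
        str U S F _ l y'' hS hF hc subset_union_left
          ((rk_le_of_subset (subset_ac _)).trans (rk_singleton_le _ _)) a4 b2
      have b4 : rk ((F : Set U) ∪ {x}) (zE S y'' ∪ zE S y') ≤ d.n :=
        le_trans (rk_le_of_subset (union_subset
          (zE_of_EL fun j => d.EL span hS.toAx0 hF.EF (Submodule.mem_sup_right (a2 j)) (a4 j))
          (zE_of_EL fun j => d.EL span hS.toAx0 hF.EF (Submodule.mem_sup_right (a1 j)) (a3 j))))
          d.rk
      rw [rk_union, ← b1, add_comm m l] at b4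
      have b5 := (add_le_add_left b3 _).trans b4
      push_cast at b5
      refine le_trans (rk_anti (union_subset c.base (zE_of_EL fun j =>
        c.EL span hS.toAx0 hF.EF (a5 j) (a4 j)))) ((ENat.add_le_add_iff_left (by simp)).1 b5)
  refine ⟨e, h1, sup_le le_sup_left (Submodule.span_le.2 ?_)⟩
  rintro _ ⟨j, rfl⟩
  exact h2 j

theorem Conf.one (split : SplitStmt.{w}) (c : Conf S F x) {a : U} (ha : a ∈ c.K)
    (h1 : S.v a < 1) : ∃ d : Conf S F x, c.V ≤ d.V ∧ a ∈ d.V := by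
  by_cases h : a ∈ c.V
  · exact ⟨c, le_rfl, h⟩
  obtain ⟨d, h2, h3⟩ := c.add split (fun _ : Fin 1 => a) (fun _ => h1) (fun q hq => by
    funext i
    by_contra h0
    rw [Fin.sum_univ_one, Subsingleton.elim 0 i] at hq
    exact h ((c.V.smul_mem_iff h0).1 hq)) (by
    refine le_trans (rk_le_of_subset (Y := {S.E a}) ?_) (by simpa using rk_singleton_le _ _)
    rintro _ (⟨j, rfl⟩ | ⟨j, rfl⟩)
    exacts [subset_ac _ (Or.inl ha), subset_ac _ (Or.inr rfl)])
  exact ⟨d, h2, h3 0⟩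

theorem det_ne (tay : TayStmt.{w}) (hS : Ax0 S) {κ ι : Type} [Fintype κ] [Fintype ι]
    [DecidableEq κ] [DecidableEq ι] (G : κ ⊕ ι → MvPolynomial ((κ ⊕ κ) ⊕ ι) U)
    (b z : κ ⊕ ι → U) (j : U) (hG : ∀ i, Cf S.O (G i)) (hb : Adm S b) (hj : j ≠ 0)
    (h2 : S.v j ≤ S.v (jac G 2 (pt S b)).det) (hz : ∀ k, S.v (z k - b k) < S.v j) :
    (∀ k, S.v (z (inl k)) < 1) ∧ (jac G 2 (pt S z)).det ≠ 0 := by
  have hj0 : 0 < S.v j := by simpa [zero_lt_iff] using hj
  have two : (2 : U) ∈ S.O := by exact_mod_cast natCast_mem S.O 2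
  have hE : ∀ k, S.E (b (inl k)) ∈ S.O := fun k => by
    have h := hS.ET _ (hb.1 k) 0
    simp only [Tn, zero_add, Finset.range_one, Finset.sum_singleton, pow_zero, Nat.factorial_zero,
      Nat.cast_one, div_one, pow_one] at h
    have := add_mem (mem_of_lt_one (h.trans_lt (hb.1 k))) (one_mem S.O)
    simpa using this
  have hp : ∀ t, pt S b t ∈ S.O := by
    rintro ((k | k) | l)
    exacts [mem_of_lt_one (hb.1 k), hE k, hb.2 l]
  have hev : ∀ H : MvPolynomial ((κ ⊕ κ) ⊕ ι) U, Cf S.O H → eval (pt S b) H ∈ S.O :=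
    fun H hH => by
      rw [eval_eq']
      exact sum_mem fun m _ => mul_mem (hH m) (prod_mem fun t _ => pow_mem (hp t) _)
  have hpd : ∀ i t, eval (pt S b) (pderiv t (G i)) ∈ S.O := fun i t => hev _ fun m => by
    rw [coeff_pderiv]
    exact mul_mem (hG i _) (add_mem (natCast_mem _ _) (one_mem _))
  have hdet : (jac G 2 (pt S b)).det ∈ S.O := by
    rw [Matrix.det_apply']
    refine sum_mem fun σ _ => mul_mem (intCast_mem _ _) (prod_mem fun t _ => ?_)
    rcases t with k | l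
    · exact add_mem (hpd _ _) (mul_mem (mul_mem two (hp _)) (hpd _ _))
    · exact hpd _ _
  have hj1 : S.v j ≤ 1 := h2.trans ((S.O.valuation_le_one_iff _).2 hdet)
  refine ⟨fun k => ?_, fun h0 => ?_⟩
  · have := Valuation.map_add_lt S.v ((hz (inl k)).trans_le hj1) (hb.1 k)
    simpa using this
  · have hm : (Finset.univ.sup fun k => S.v (z k - b k)) < S.v j :=
      (Finset.sup_lt_iff hj0).2 fun k _ => hz k
    have h3 := ((((tay U).2.2 S κ ι G b hS hG hb).1 (z - b) _ 2 (hm.trans_le hj1)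
      fun k => Finset.le_sup (f := fun k => S.v (z k - b k)) (Finset.mem_univ k)).2.1 two).2
    rw [add_sub_cancel, h0, zero_sub, Valuation.map_neg] at h3
    exact absurd (h2.trans h3) (not_le.2 hm)

theorem ED_of_kills {D : Derivation ℤ U U} {K : Subfield U} (h : Kills D K) {a : U}
    (ha : a ∈ EL S K) : a ∈ ED S 2 D :=
  ⟨ha.1, by rw [h _ ha.2.1, h _ ha.2.2, mul_zero]⟩

theorem solve (dex : DexStmt.{w}) (count : CountStmt.{w}) (split : SplitStmt.{w})
    (span : SpanStmt.{w}) (hS : Ax0 S) (hF : ∀ a ∈ F, S.E a ∈ F) (c : Conf S F x)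
    {κ ι : Type} [Fintype κ] [Fintype ι] [DecidableEq κ] [DecidableEq ι]
    (G : κ ⊕ ι → MvPolynomial ((κ ⊕ κ) ⊕ ι) U) (z : κ ⊕ ι → U) (hG : ∀ i, Cf c.K (G i))
    (h0 : ∀ i, eval (pt S z) (G i) = 0) (h1 : ∀ k, S.v (z (inl k)) < 1)
    (hd : (jac G 2 (pt S z)).det ≠ 0) : ∃ d : Conf S F x, ∀ k, z k ∈ d.K := by
  let e := (Fintype.equivFin κ).symm
  obtain ⟨d, h2, h3⟩ := c.grow split span hS (fun j => z (inl (e j))) (fun j => h1 _)
    fun m l y' y'' a1 _ a3 a4 a5 a6 _ => by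
      by_contra hn
      obtain ⟨u, u1, u2⟩ := exists_tri (succ_le_of_not_le hn)
      choose D D1 D2 using fun i : Fin (m + 1) => (dex U).2.2 _ _ u u2 (Pi.single i 1)
      obtain ⟨r, ⟨i, hi⟩, hr⟩ := count U m D u (fun i => by simp [D2])
        (fun i j hij => by simp [D2, hij.ne]) y' (fun j => S.E (y' j)) 2
      set D' := ∑ k, r k • D k with hD'
      have k1 : Kills D' c.K := fun a ha => by
        rw [hD']
        refine Finset.sum_induction _ (fun D : Derivation ℤ U U => D a = 0)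
          (fun a b ha hb => by simp [ha, hb]) (by simp) fun k _ => by simp [D1 _ a ha]
      have k2 : range y' ∪ range y'' ⊆ ED S 2 D' := by
        rintro _ (⟨j, rfl⟩ | ⟨j, rfl⟩)
        · exact ⟨a3 j, by simpa using hr j⟩
        · exact ED_of_kills k1 (c.EL span hS hF (a5 j) (a4 j))
      have k3 := kill S D' G z (fun i m => k1 _ (hG i m)) h0 (fun k => by
        have := (span U S _ hS).2.2.1 2 D' k2 (a6 (e.symm k))
        simpa using this) hd
      have k4 : ∀ j, D' (y' j) = 0 := fun j => by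
        refine Submodule.span_induction (p := fun a _ => D' a = 0) ?_ (by simp)
          (fun a b _ _ ha hb => by simp [ha, hb]) (fun q a _ ha => ?_) (a1 j)
        · rintro _ ⟨j, rfl⟩
          exact k3 _
        · rw [Rat.smul_def, Derivation.leibniz, ha, k1 _ (by simp)]
          simp
      refine hi ?_
      rcases u1 i with ⟨j, hj⟩ | ⟨j, hj⟩
      · rw [← hj, k4]
      · rw [← hj, hr, k4, mul_zero]
  have h4 : ∀ k, z (inl k) ∈ EL S d.K := fun k => d.EL span hS hF (by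
    simpa using h3 (e.symm k)) (h1 k)
  refine ⟨d, fun k => ?_⟩
  by_contra hk
  obtain ⟨D, D1, D2⟩ := (dex U).2.1 (d.K : Set U) (z k) (by rwa [d.ac_K])
  have := kill S D G z (fun i m => D1 _ (Conf.K_le span hS hF h2 (hG i m))) h0
    (fun k => ED_of_kills D1 (h4 k)) hd k
  simp [D2] at this

end Dir

open Dir in
theorem dirs (dex : DexStmt.{w}) (count : CountStmt.{w}) (split : SplitStmt.{w})
    (span : SpanStmt.{w}) (str : StrStmt.{w}) (tay : TayStmt.{w}) : DirStmt.{w} := by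
  intro U _ _ S F x hS hF hc
  have hA := hS.toAx0
  let c0 : Conf S F x := ⟨0, Fin.elim0, fun j => j.elim0, fun q _ => funext fun j => j.elim0, by
    simp [zE, rk_empty]⟩
  have : Nonempty (Conf S F x) := ⟨c0⟩
  have hdir : Directed (· ≤ ·) fun c : Conf S F x => c.K := fun c d => by
    obtain ⟨e, h1, h2⟩ := directed split span str hS hF hc c d
    exact ⟨e, Conf.K_le span hA hF.EF h1, Conf.K_le span hA hF.EF h2⟩
  have hN : ∀ {a : U}, a ∈ (⨆ c : Conf S F x, c.K) ↔ ∃ c : Conf S F x, a ∈ c.K :=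
    Subfield.mem_iSup_of_directed hdir
  have hfin : ∀ Y : Set U, Y.Finite → Y ⊆ (⨆ c : Conf S F x, c.K : Subfield U) →
      ∃ c : Conf S F x, Y ⊆ c.K ∧ ∀ a ∈ Y, S.v a < 1 → a ∈ c.V := by
    intro Y hY
    induction Y, hY using Set.Finite.induction_on with
    | empty => exact fun _ => ⟨c0, empty_subset _, fun a ha => ha.elim⟩
    | @insert a Y _ _ ih =>
      intro h
      obtain ⟨c, c1, c2⟩ := ih ((subset_insert _ _).trans h)
      obtain ⟨d, hd⟩ := hN.1 (h (mem_insert _ _))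
      obtain ⟨d', d1, d2⟩ : ∃ d' : Conf S F x, d.V ≤ d'.V ∧ (S.v a < 1 → a ∈ d'.V) := by
        by_cases ha : S.v a < 1
        · obtain ⟨d', d1, d2⟩ := d.one split hd ha
          exact ⟨d', d1, fun _ => d2⟩
        · exact ⟨d, le_rfl, fun h => absurd h ha⟩
      obtain ⟨e, e1, e2⟩ := directed split span str hS hF hc c d'
      refine ⟨e, insert_subset (Conf.K_le span hA hF.EF (d1.trans e2) hd)
        (c1.trans (Conf.K_le span hA hF.EF e1)), ?_⟩
      rintro b (rfl | hb) h1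
      exacts [e2 (d2 h1), e1 (c2 b hb h1)]
  refine ⟨⨆ c : Conf S F x, c.K, ⟨le_antisymm (fun y hy => ?_) (le_ac _), fun a ha => ?_, ?_⟩,
    fun a ha => hN.2 ⟨c0, c0.base (Or.inl ha)⟩, hN.2 ⟨c0, c0.base (Or.inr rfl)⟩,
    fun Y h1 h2 => ?_⟩
  · obtain ⟨T, h1, h2, h3⟩ := ac_finite hy
    obtain ⟨c, h4, -⟩ := hfin T h2 h1
    exact hN.2 ⟨c, ac_le_of_closed c.ac_K h4 h3⟩
  · by_cases h1 : S.v a < 1
    · obtain ⟨c, -, h2⟩ := hfin {a} (finite_singleton a) (singleton_subset_iff.2 ha)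
      exact hN.2 ⟨c, (c.EL span hA hF.EF (h2 a rfl h1) h1).2.2⟩
    · rw [hA.E0 a h1]
      exact zero_mem _
  · intro κ ι _ _ _ _ G b j hG hb hadm hj hj0 j1 j2 j3
    obtain ⟨z, z1, z2⟩ := hS.hk κ ι G b j (fun i m => ⟨trivial, (hG i m).2⟩) (fun _ => trivial)
      hadm trivial hj0 j1 j2 j3
    obtain ⟨z3, z4⟩ := det_ne tay hA G b z j (fun i m => (hG i m).2) hadm hj0 j2
      fun k => (z1 k).2
    obtain ⟨c, h4, -⟩ := hfin (⋃ i, ((G i).coeffs : Set U))
      (finite_iUnion fun i => Finset.finite_toSet _) (iUnion_subset fun i a ha => by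
        obtain ⟨m, -, rfl⟩ := MvPolynomial.mem_coeffs_iff.1 ha
        exact (hG i m).1)
    obtain ⟨d, hd⟩ := solve dex count split span hA hF.EF c G z (fun i m => by
      by_cases h0 : (G i).coeff m = 0
      · rw [h0]
        exact zero_mem c.K
      · exact h4 (mem_iUnion.2 ⟨i, MvPolynomial.coeff_mem_coeffs m h0⟩)) z2 z3 z4
    exact ⟨z, fun k => ⟨hN.2 ⟨d, hd k⟩, (z1 k).2⟩, z2⟩
  · obtain ⟨c, h3, h4⟩ := hfin Y h1 h2
    exact ⟨c.n, c.z, c.lt, c.li, c.rk, h3, h4⟩

end Pool.Agent.MP_0e4269_lc.Z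

end MrgPart0

-- ======== part 1: formerly Pool.Agent.MP_0e4269_lc.z.Rb
section MrgPart1

/-!
Bounds obtained from bounded derivations.
-/

set_option linter.unusedSectionVars false

open Set

universe w

namespace Pool.Agent.MP_0e4269_lc.Z

namespace RbAux

variable {U : Type w} [Field U] [CharZero U]

theorem sum_app {ι : Type} (s : Finset ι) (B : ι → Derivation ℤ U U) (y : U) :
    (∑ j ∈ s, B j) y = ∑ j ∈ s, B j y := by
  classical
  induction s using Finset.induction_on with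
  | empty => simp
  | insert i s hi ih => simp [Finset.sum_insert hi, ih]

theorem E_mem {S : ES U} (h : Ax0 S) {a : U} (ha : S.v a < 1) : S.E a ∈ S.O := by
  have h1 := h.ET a ha 0
  simp only [Tn, zero_add, Finset.range_one, Finset.sum_singleton, pow_zero, Nat.factorial_zero,
    Nat.cast_one, div_one, pow_one] at h1
  rw [← sub_add_cancel (S.E a) 1]
  exact add_mem (mem_of_lt_one (h1.trans_lt ha)) (one_mem _)

theorem zE_finite (S : ES U) {n : ℕ} (z : Fin n → U) : (zE S z).Finite :=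
  (finite_range _).union (finite_range _)

/-- Points of the residue configuration lift. -/
theorem zE_lift {k : Type w} [Field k] {S : ES U} {R : ValuationSubring U} {π : U → k}
    {S' : ES k} (h : Ax0 S) (hr : IsRes S R π S') {n : ℕ} {z : Fin n → U}
    (hz : ∀ j, S.v (z j) < 1) : zE S' (fun j => π (z j)) ⊆ π '' (zE S z ∩ R) := by
  rintro y (⟨j, rfl⟩ | ⟨j, rfl⟩)
  · exact ⟨z j, ⟨Or.inl ⟨j, rfl⟩, hr.memR (hz j)⟩, rfl⟩
  · exact ⟨S.E (z j), ⟨Or.inr ⟨j, rfl⟩, hr.le (E_mem h (hz j))⟩, (hr.E _ (hr.memR (hz j))).symm⟩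

/-- A multiple of a combination of bounded derivations is bounded. -/
theorem bdd_comb (O : ValuationSubring U) (K : Set U) {m : ℕ} (D : Fin (m + 1) → Derivation ℤ U U)
    (hD : ∀ k, Bdd O (D k) K) (l : Fin (m + 1) → U) :
    ∃ t : U, t ≠ 0 ∧ Bdd O (t • ∑ k, l k • D k) K := by
  obtain ⟨k₀, -, hk⟩ := Finset.exists_max_image Finset.univ (fun k => O.valuation (l k))
    Finset.univ_nonempty
  have key : ∀ t : U, (∀ k, O.valuation (t * l k) ≤ 1) → Bdd O (t • ∑ k, l k • D k) K := by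
    intro t ht a ha h0
    rw [Derivation.smul_apply, sum_app, smul_eq_mul, Finset.mul_sum]
    refine Valuation.map_sum_lt _ (by simpa using h0) fun k _ => ?_
    rw [Derivation.smul_apply, smul_eq_mul, ← mul_assoc, map_mul]
    exact lt_of_le_of_lt (mul_le_of_le_one_left' (ht k)) (hD k a ha h0)
  by_cases h0 : l k₀ = 0
  · refine ⟨1, one_ne_zero, key 1 fun k => ?_⟩
    rw [one_mul]
    exact (hk k (Finset.mem_univ k)).trans (by simp [h0])
  · refine ⟨(l k₀)⁻¹, inv_ne_zero h0, key _ fun k => ?_⟩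
    rw [map_mul, map_inv₀, inv_mul_le_one₀ (by simpa [zero_lt_iff] using h0)]
    exact hk k (Finset.mem_univ k)

end RbAux

open RbAux in
theorem rb (dex : DexStmt.{w}) (count : CountStmt.{w}) (bder : BderStmt.{w}) (abh : AbhStmt.{w})
    (span : SpanStmt.{w}) (auto : AutoStmt.{w}) : RbStmt.{w} := by
  intro U _ _ S F M n m l z z' z'' hS hF hFM hMc hM hz hz' hz'' hsp hnear hnd
  have := hS.alg
  have h0 : Ax0 S := hS.toAx0
  have hMK : M ≤ ac ((M : Set U) ∪ zE S z) := fun a ha => subset_ac _ (Or.inl ha)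
  have hEL : (Submodule.span ℚ (range z) : Set U) ⊆ EL S (ac ((M : Set U) ∪ zE S z)) :=
    (span U S _ h0).2.1 _ (ac_ac _) (range_subset_iff.2 fun j =>
      ⟨hz j, subset_ac _ (Or.inr (Or.inl ⟨j, rfl⟩)), subset_ac _ (Or.inr (Or.inr ⟨j, rfl⟩))⟩)
  have fin : ∀ D : Derivation ℤ U U, Kills D M → Bdd S.O D (ac ((M : Set U) ∪ zE S z)) →
      (∀ j, z' j ∈ ED S (cst S) D) → Kills D (ac ((M : Set U) ∪ zE S z)) := by
    intro D h1 h2 h3
    have h4 : ∀ j, z'' j ∈ ED S (cst S) D := fun j =>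
      (auto U S F _ (z'' j) h0 (hFM.trans hMK) (hEL (hz'' j)).1).1 D hF
        (fun a ha => h1 a (hFM ha)) h2 (hEL (hz'' j)).2.1 (hEL (hz'' j)).2.2 (hnear j)
    have h5 : ∀ j, z j ∈ ED S (cst S) D := fun j =>
      (span U S _ h0).2.2.1 _ D
        (union_subset (range_subset_iff.2 h3) (range_subset_iff.2 h4)) (hsp j)
    have h6 := hnd D h1 h5
    refine (dex U).1 D _ ?_
    rintro a (ha | ⟨j, rfl⟩ | ⟨j, rfl⟩)
    · exact h1 a ha
    · exact h6 j
    · rw [(h5 j).2, h6 j, mul_zero]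
  refine ⟨fun R k _ _ π S' hr hR => ?_, fun hm y hy => ?_⟩
  · by_contra hle
    obtain ⟨u', hu', ht⟩ := exists_tri (succ_le_of_not_le hle)
    choose u hu hπ using fun i => zE_lift h0 hr (fun j => (hEL (hz' j)).1) (hu' i)
    obtain rfl : u' = fun i => π (u i) := funext fun i => (hπ i).symm
    have h1 := ((abh U k R π M hr.pl).2.2.1 _ u (fun i => (hu i).2) ht).1
    obtain ⟨r, hr0, hr1⟩ := exists_small hR
    have h2 : ∀ i, ∃ D : Derivation ℤ U U, Kills D (ac ((M : Set U) ∪ u '' Iio i)) ∧ D (u i) = r ∧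
        Bdd S.O D (ac ((M : Set U) ∪ zE S z)) := fun i => by
      obtain ⟨D, d1, d2, d3⟩ := (bder U S.O (ac ((M : Set U) ∪ u '' Iio i)) (zE S z) h0.ch hS.sc
        (ac_countable (hMc.union (toFinite _).countable)) (ac_ac _) (zE_finite S z)).1 (u i) r hr0
        fun a ha => val_lt_of_coarse hr.le (hr1.trans_le (not_lt.1 fun hlt => h1 i (by
          have haR : a ∈ R := by
            rw [← sub_sub_cancel (u i) a]
            exact sub_mem (hu i).2 (mem_of_lt_one hlt)
          exact hr.pl.mem_resF.2 ⟨a, ha, haR, ((hr.pl.eq_iff (hu i).2 haR).2 hlt).symm⟩)))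
      refine ⟨D, d1, d2, fun a ha => d3 a (ac_mono ?_ ha)⟩
      exact union_subset_union_left _ fun b hb => Or.inl (subset_ac _ (Or.inl hb))
    choose D d1 d2 d3 using h2
    obtain ⟨c, ⟨i, hi⟩, hc⟩ := count U m D u (fun i => by rw [d2 i]; exact hr0)
      (fun i j hj => d1 i _ (subset_ac _ (Or.inr ⟨j, hj, rfl⟩))) z' (fun j => S.E (z' j))
      (cst S : U)
    obtain ⟨t, ht0, hb⟩ := bdd_comb S.O _ D d3 c
    have h3 := fin _ (fun a ha => by
        rw [Derivation.smul_apply, sum_app, Finset.sum_eq_zero fun k _ => by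
          rw [Derivation.smul_apply, d1 k a (subset_ac _ (Or.inl ha)), smul_zero], smul_zero])
      hb fun j => ⟨(hEL (hz' j)).1, by
        rw [Derivation.smul_apply, Derivation.smul_apply, hc j, smul_eq_mul, smul_eq_mul]
        ring⟩
    have h4 : u i ∈ ac ((M : Set U) ∪ zE S z) := by
      rcases (hu i).1 with ⟨j, hj⟩ | ⟨j, hj⟩
      · exact hj ▸ (hEL (hz' j)).2.1
      · exact hj ▸ (hEL (hz' j)).2.2
    have h5 := h3 _ h4
    rw [Derivation.smul_apply, smul_eq_mul] at h5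
    exact mul_ne_zero ht0 hi h5
  · subst hm
    intro η hη
    by_contra hne
    obtain ⟨D, d1, d2, d3⟩ := (bder U S.O M (zE S z) h0.ch hS.sc hMc hM (zE_finite S z)).1 y η hη
      fun a ha => not_le.1 fun h => hne ⟨a, ha, h⟩
    have h3 := fin D d1 (fun a ha => d3 a
      (ac_mono (union_subset_union_left _ subset_union_left) ha)) fun j => j.elim0
    exact hη (d2 ▸ h3 y hy)

open RbAux in
theorem nob (c : CStmt.{w}) (ord : OrdStmt.{w}) (bder : BderStmt.{w}) (abh : AbhStmt.{w})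
    (auto : AutoStmt.{w}) (res : ResStmt.{w}) : NoBStmt.{w} := by
  intro U k _ _ _ _ S R π S' F m l z' z'' hS hS' hr hR hF hFc hm hl hz' hz'' hli' hli'' hin
  have := hS.alg
  have h0 : Ax0 S := hS.toAx0
  have h1 := c l U S F z'' hS hF hFc hl hz'' hli'' False.elim
  have h2 := (bder U S.O F (zE S z'') h0.ch hS.sc hFc hF.acF (zE_finite S z'')).2 (by
    rintro a (⟨j, rfl⟩ | ⟨j, rfl⟩)
    · exact hin j
    · exact (auto U S F F (z'' j) h0 le_rfl (hz'' j)).2.2 hF.EF (hin j))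
  have h3 : (resF R π (ac ((F : Set U) ∪ zE S z'')) : Set k) ⊆ resF R π F := fun y hy => by
    obtain ⟨a, ha, haR, rfl⟩ := hr.pl.mem_resF.1 hy
    obtain ⟨r, hr0, hr1⟩ := exists_small hR
    obtain ⟨b, hb, hab⟩ := h2 a ha r hr0
    have hlt := (val_le_coarse hr.le hab).trans_lt hr1
    have hbR : b ∈ R := by
      rw [← sub_sub_cancel a b]
      exact sub_mem haR (mem_of_lt_one hlt)
    exact hr.pl.mem_resF.2 ⟨b, hb, hbR, ((hr.pl.eq_iff haR hbR).2 hlt).symm⟩
  have h4 := c m k S' (resF R π F) (fun j => π (z' j)) hS' ((res U S R).2 k π S' F h0 hr hF)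
    (hr.pl.resF_countable hFc) hm (fun j => (hr.lt_one (hr.memR (hz' j))).2 (hz' j))
    ((ord U S.O F h0.ch).2.1 m z' R k π hr.pl (fun j => hr.memR (hz' j)) hli') False.elim
  have h5 := h4.trans ((rk_anti h3).trans ((rk_mono (zE_lift h0 hr hz')).trans
    ((abh U k R π _ hr.pl).2.2.2 (zE S z'))))
  rw [rk_ac_left] at h5
  rw [union_comm, rk_union]
  refine le_trans (le_of_eq ?_) (add_le_add h1 h5)
  push_cast
  ring

end Pool.Agent.MP_0e4269_lc.Z

end MrgPart1

-- ======== part 2: formerly Pool.Agent.MP_0e4269_lc.z.Split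
section MrgPart2

/-!
Splitting of tuples along a subspace, and rational spans of the compatibility sets.
-/

set_option linter.unusedSectionVars false

open Set

universe w

namespace Pool.Agent.MP_0e4269_lc.Z

namespace Split

variable {U : Type w} [Field U] [CharZero U]

theorem exists_basis (V : Submodule ℚ U) [FiniteDimensional ℚ V] :
    ∃ z : Fin (Module.finrank ℚ V) → U, Submodule.span ℚ (range z) = V ∧ LI ⊥ z := by
  let b := Module.finBasis ℚ V
  refine ⟨fun j => b j, ?_, fun q hq => ?_⟩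
  · have := congrArg (Submodule.map V.subtype) b.span_eq
    rwa [Submodule.map_span, ← range_comp, Submodule.map_top, Submodule.range_subtype] at this
  · have h := Fintype.linearIndependent_iff.1 b.linearIndependent q (Subtype.ext (by simpa using hq))
    exact funext h

theorem sum_mem {n : ℕ} (z : Fin n → U) (q : Fin n → ℚ) :
    ∑ i, q i • z i ∈ Submodule.span ℚ (range z) :=
  Submodule.sum_mem _ fun i _ => Submodule.smul_mem _ _ (Submodule.subset_span ⟨i, rfl⟩)

theorem eq_zero {B : Submodule ℚ U} {n : ℕ} {z : Fin n → U} (h : LI B z) {a : U}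
    (ha : a ∈ Submodule.span ℚ (range z)) (hB : a ∈ B) : a = 0 := by
  obtain ⟨c, rfl⟩ := (Submodule.mem_span_range_iff_exists_fun ℚ).1 ha
  simp [h c hB]

theorem span_sub {T P : Set U} (hT : T ⊆ P) (h0 : (0 : U) ∈ P)
    (ha : ∀ a ∈ P, ∀ b ∈ P, a + b ∈ P) (hn : ∀ a ∈ P, -a ∈ P)
    (hd : ∀ a ∈ P, ∀ N : ℕ, N ≠ 0 → a / N ∈ P) : (Submodule.span ℚ T : Set U) ⊆ P := by
  intro y hy
  induction hy using Submodule.span_induction with
  | mem a h => exact hT h
  | zero => exact h0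
  | add a b _ _ h1 h2 => exact ha a h1 b h2
  | smul q a _ h =>
    let G : AddSubgroup U := ⟨⟨⟨P, fun h1 h2 => ha _ h1 _ h2⟩, h0⟩, fun h1 => hn _ h1⟩
    have h1 : q.num • (a / q.den) ∈ G := G.zsmul_mem (hd a h q.den q.den_nz) _
    have h2 : q • a = q.num • (a / q.den) := by
      rw [Rat.smul_def, Rat.cast_def, zsmul_eq_mul]
      ring
    rw [h2]
    exact h1

variable {S : ES U} {a b : U}

theorem near (h : Ax0 S) (ha : S.v a < 1) : S.v (S.E a - 1) < 1 := by
  have := h.ET a ha 0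
  simp only [Tn, zero_add, Finset.range_one, Finset.sum_singleton, pow_zero, Nat.factorial_zero,
    Nat.cast_one, div_one, pow_one] at this
  exact this.trans_lt ha

theorem E_zero (h : Ax0 S) : S.E 0 = 1 := by
  have := h.ET 0 (by simp) 0
  simp only [Tn, zero_add, Finset.range_one, Finset.sum_singleton, pow_zero, Nat.factorial_zero,
    Nat.cast_one, div_one, pow_one, map_zero, le_zero_iff, map_eq_zero] at this
  exact sub_eq_zero.1 this

theorem E_val (h : Ax0 S) (ha : S.v a < 1) : S.v (S.E a) = 1 := by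
  have := S.v.map_one_add_of_lt (near h ha)
  rwa [add_sub_cancel] at this

theorem E_ne (h : Ax0 S) (ha : S.v a < 1) : S.E a ≠ 0 := fun e => by
  simpa [e] using E_val h ha

theorem E_neg (h : Ax0 S) (ha : S.v a < 1) : S.E (-a) = (S.E a)⁻¹ := by
  refine eq_inv_of_mul_eq_one_right ?_
  rw [← h.E1 a _ ha (by simpa using ha), add_neg_cancel, E_zero h]

theorem div_lt (h : Ax0 S) (ha : S.v a < 1) {N : ℕ} (hN : N ≠ 0) : S.v (a / N) < 1 := by
  rwa [map_div₀, h.ch N hN, div_one]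

theorem E_nat (h : Ax0 S) (ha : S.v a < 1) (n : ℕ) :
    S.v (n * a) < 1 ∧ S.E (n * a) = S.E a ^ n := by
  induction n with
  | zero => simp [E_zero h]
  | succ n ih =>
    rw [Nat.cast_succ, add_mul, one_mul]
    exact ⟨S.v.map_add_lt ih.1 ha, by rw [h.E1 _ _ ih.1 ha, ih.2, pow_succ]⟩

theorem E_div (h : Ax0 S) (ha : S.v a < 1) {N : ℕ} (hN : N ≠ 0) : S.E (a / N) ^ N = S.E a := by
  rw [← (E_nat h (div_lt h ha hN) N).2, mul_div_cancel₀ _ (Nat.cast_ne_zero.2 hN)]

theorem root_one {O : ValuationSubring U} (hc : Ch O) {N : ℕ} (hN : N ≠ 0) (h1 : a ^ N = 1)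
    (h2 : O.valuation (a - 1) < 1) : a = 1 := by
  have hv : O.valuation a = 1 := by
    have := O.valuation.map_one_add_of_lt h2
    rwa [add_sub_cancel] at this
  have hp : ∀ i : ℕ, O.valuation (a ^ i - 1) < 1 := fun i => by
    induction i with
    | zero => simp
    | succ i ih =>
      have : a ^ (i + 1) - 1 = a * (a ^ i - 1) + (a - 1) := by ring
      rw [this]
      exact O.valuation.map_add_lt (by rwa [map_mul, hv, one_mul]) h2
  have h3 := geom_sum_mul a N
  rw [h1, sub_self, mul_eq_zero] at h3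
  refine sub_eq_zero.1 (h3.resolve_left fun h4 => ?_)
  have h5 : O.valuation (∑ i ∈ Finset.range N, (a ^ i - 1)) < 1 :=
    O.valuation.map_sum_lt one_ne_zero fun i _ => hp i
  simp [Finset.sum_sub_distrib, h4, hc N hN] at h5

end Split

open Split

theorem split : SplitStmt.{w} := by
  intro U _ _
  refine ⟨fun A n z => ?_, fun A n m z y hz hy q hq => ?_⟩
  · set V := Submodule.span ℚ (range z) with hV
    have : FiniteDimensional ℚ V := FiniteDimensional.span_of_finite ℚ (finite_range z)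
    obtain ⟨V2, hd, hs⟩ := IsModularLattice.exists_disjoint_and_sup_eq
      (inf_le_left : V ⊓ A ≤ V)
    have h2 : V2 ≤ V := hs ▸ le_sup_right
    have : FiniteDimensional ℚ V2 := Submodule.finiteDimensional_of_le h2
    obtain ⟨z', e', l'⟩ := exists_basis V2
    obtain ⟨z'', e'', l''⟩ := exists_basis (V ⊓ A)
    have m' : ∀ j, z' j ∈ V2 := fun j => e' ▸ Submodule.subset_span ⟨j, rfl⟩
    have m'' : ∀ j, z'' j ∈ V ⊓ A := fun j => e'' ▸ Submodule.subset_span ⟨j, rfl⟩
    refine ⟨_, _, z', z'', fun j => h2 (m' j), fun j => (m'' j).1, fun q hq => l' q ?_,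
      fun j => (m'' j).2, fun j => ?_, fun B hB => ⟨?_, fun q hq => l'' q ?_, fun hA h0 => ?_⟩⟩
    · have h3 := e'.le (sum_mem z' q)
      exact hd.le_bot ⟨⟨h2 h3, hq⟩, h3⟩
    · rw [Submodule.span_union, e', e'', sup_comm, hs]
      exact Submodule.subset_span ⟨j, rfl⟩
    · have h3 := Submodule.finrank_sup_add_finrank_inf_eq (V ⊓ A) V2
      have h4 : Module.finrank ℚ V = n := by
        rw [hV, finrank_span_eq_card (Fintype.linearIndependent_iff.2 fun q hq =>
          congrFun (hB q (hq ▸ B.zero_mem))), Fintype.card_fin]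
      rw [hs, hd.eq_bot, finrank_bot, h4] at h3
      omega
    · exact eq_zero hB (e''.le (sum_mem z'' q)).1 hq
    · refine hA fun q hq => hB q ?_
      have h3 : ∑ i, q i • z i ∈ V ⊓ A := ⟨sum_mem z q, hq⟩
      rw [Submodule.finrank_eq_zero.1 h0, Submodule.mem_bot] at h3
      exact h3 ▸ B.zero_mem
  · rw [Fin.sum_univ_add] at hq
    simp only [Fin.append_left, Fin.append_right] at hq
    have h1 := hy (fun i => q (Fin.natAdd n i)) (by
      have := sub_mem (Submodule.mem_sup_left hq) (Submodule.mem_sup_right (S := A)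
        (sum_mem z fun i => q (Fin.castAdd m i)))
      rwa [add_sub_cancel_left] at this)
    have h3 : ∀ i, q (Fin.natAdd n i) = 0 := congrFun h1
    have h2 := hz (fun i => q (Fin.castAdd m i)) (by simpa [h3] using hq)
    funext i
    exact Fin.addCases (congrFun h2) h3 i

theorem span : SpanStmt.{w} := by
  intro U _ _ S T h
  refine ⟨fun hT => span_sub hT (by simp) (fun a ha b hb => S.v.map_add_lt ha hb)
    (fun a ha => by simpa using ha) fun a ha N hN => div_lt h ha hN, fun K hK hT => ?_,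
    fun c D hT => ?_, fun Φ K hΦ hd hK hT => ?_⟩
  · refine span_sub hT ⟨by simp, zero_mem _, E_zero h ▸ one_mem _⟩ ?_ ?_ ?_
    · rintro a ⟨h1, h2, h3⟩ b ⟨h4, h5, h6⟩
      exact ⟨S.v.map_add_lt h1 h4, add_mem h2 h5, h.E1 a b h1 h4 ▸ mul_mem h3 h6⟩
    · rintro a ⟨h1, h2, h3⟩
      exact ⟨by simpa using h1, neg_mem h2, E_neg h h1 ▸ inv_mem h3⟩
    · rintro a ⟨h1, h2, h3⟩ N hN
      exact ⟨div_lt h h1 hN, div_mem h2 (natCast_mem _ _),
        mem_of_pow hK hN (E_div h h1 hN ▸ h3)⟩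
  · refine span_sub hT ⟨by simp, by simp [E_zero h]⟩ ?_ ?_ ?_
    · rintro a ⟨h1, h2⟩ b ⟨h4, h5⟩
      refine ⟨S.v.map_add_lt h1 h4, ?_⟩
      rw [h.E1 a b h1 h4, D.leibniz, h2, h5, map_add, smul_eq_mul, smul_eq_mul]
      ring
    · rintro a ⟨h1, h2⟩
      refine ⟨by simpa using h1, ?_⟩
      have := E_ne h h1
      rw [E_neg h h1, D.leibniz_inv, h2, map_neg, smul_eq_mul]
      field_simp
    · rintro a ⟨h1, h2⟩ N hN
      refine ⟨div_lt h h1 hN, ?_⟩
      have h3 : (N : U) ≠ 0 := Nat.cast_ne_zero.2 hN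
      have h4 : D a = N * D (a / N) := by
        rw [← nsmul_eq_mul, ← map_nsmul, nsmul_eq_mul, mul_div_cancel₀ _ h3]
      have h5 := E_ne h (div_lt h h1 hN)
      obtain ⟨M, rfl⟩ := Nat.exists_eq_succ_of_ne_zero hN
      rw [← E_div h h1 hN, D.leibniz_pow, h4, smul_eq_mul, nsmul_eq_mul, Nat.succ_sub_one,
        pow_succ] at h2
      refine mul_left_cancel₀ (mul_ne_zero h3 (pow_ne_zero M h5)) ?_
      linear_combination h2
  · refine span_sub hT ⟨by simp, 0, Φ.zero_mem, E_zero h ▸ Φ.one_mem⟩ ?_ ?_ ?_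
    · rintro a ⟨h1, s, h2, h3⟩ b ⟨h4, t, h5, h6⟩
      refine ⟨S.v.map_add_lt h1 h4, s + t, Φ.add_mem h2 h5, ?_⟩
      rw [h.E1 a b h1 h4, h.E1 s t ((hΦ.val h2).trans_lt h1) ((hΦ.val h5).trans_lt h4)]
      exact Φ.mul_mem h3 h6
    · rintro a ⟨h1, s, h2, h3⟩
      refine ⟨by simpa using h1, -s, Φ.neg_mem h2, ?_⟩
      rw [E_neg h h1, E_neg h ((hΦ.val h2).trans_lt h1)]
      exact hΦ.inv' hd h3
    · rintro a ⟨h1, s, h2, h3⟩ N hN
      have hs : S.v s < 1 := (hΦ.val h2).trans_lt h1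
      refine ⟨div_lt h h1 hN, s / N, hΦ.div hd h2 (pair_nat Φ N), ?_⟩
      have h4 : S.E a ∈ K := by
        rw [← SetLike.mem_coe, ← hd]
        exact ⟨_, h3⟩
      have h5 : S.E (a / N) ∈ dom Φ := by
        rw [hd]
        exact mem_of_pow hK hN (E_div h h1 hN ▸ h4)
      obtain ⟨t, ht⟩ := h5
      have h6 := pair_pow ht N
      rw [E_div h h1 hN] at h6
      have h7 := E_ne h (div_lt h hs hN)
      have h8 : S.v (t - 1) < 1 :=
        (hΦ.val (a := S.E (a / N) - 1) (Φ.sub_mem ht Φ.one_mem)).trans_lt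
          (near h (div_lt h h1 hN))
      have h9 : t / S.E (s / N) = 1 := by
        refine root_one h.ch hN ?_ ?_
        · rw [div_pow, E_div h hs hN, hΦ.func h6 h3, div_self (E_ne h hs)]
        · rw [div_sub_one h7, map_div₀, E_val h (div_lt h hs hN), div_one,
            ← sub_sub_sub_cancel_right _ _ (1 : U)]
          exact S.v.map_sub_lt h8 (near h (div_lt h hs hN))
      rwa [← (div_eq_one_iff_eq h7).1 h9]

end Pool.Agent.MP_0e4269_lc.Z

end MrgPart2

-- ======== part 3: formerly Pool.Agent.MP_0e4269_lc.z.Ult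
section MrgPart3

/-!
Saturated ultrapowers and the consequences of saturation.
-/

set_option linter.unusedSectionVars false
set_option linter.style.haveILetI false

open MvPolynomial Sum Set FirstOrder Filter

universe w

namespace Pool.Agent.MP_0e4269_lc.Z

namespace Ult

section Germ

variable {K : Type w} [Field K] {I : Type w} (U : Ultrafilter I) (S : ES K)

/-- The ultrapower of a structure. -/
def gS : ES (Germ (U : Filter I) K) :=
  ⟨germO S.O U, {x | Germ.LiftPred (· ∈ S.nn) x}, Germ.map S.E⟩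

variable {U S}

theorem mem_nn {f : I → K} :
    (f : Germ (U : Filter I) K) ∈ (gS U S).nn ↔ ∀ᶠ i in (U : Filter I), f i ∈ S.nn :=
  Germ.liftPred_coe

theorem gE (f : I → K) :
    (gS U S).E (f : Germ (U : Filter I) K) = ((fun i => S.E (f i) : I → K) : Germ _ K) := rfl

theorem g_le {f g : I → K} : (gS U S).v (f : Germ (U : Filter I) K) ≤ (gS U S).v g ↔
    ∀ᶠ i in (U : Filter I), S.v (f i) ≤ S.v (g i) := germ_le

theorem g_lt {f g : I → K} : (gS U S).v (f : Germ (U : Filter I) K) < (gS U S).v g ↔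
    ∀ᶠ i in (U : Filter I), S.v (f i) < S.v (g i) := germ_lt

theorem g_lt1 {f : I → K} : (gS U S).v (f : Germ (U : Filter I) K) < 1 ↔
    ∀ᶠ i in (U : Filter I), S.v (f i) < 1 := by
  have := g_lt (U := U) (S := S) (f := f) (g := 1)
  simpa using this

theorem g_slope (f : I → K) : slope (gS U S).nn (f : Germ (U : Filter I) K) =
    ((fun i => slope S.nn (f i) : I → K) : Germ _ K) := by
  unfold slope
  split_ifs with h
  · rw [← Germ.coe_ofNat, Germ.coe_eq]
    filter_upwards [mem_nn.1 h] with i hi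
    simp [hi]
  · rw [mem_nn, ← Ultrafilter.eventually_not] at h
    rw [← Germ.coe_one, Germ.coe_eq]
    filter_upwards [h] with i hi
    simp [hi]

theorem g_Tn (n : ℕ) (f : I → K) : Tn n (f : Germ (U : Filter I) K) =
    ((fun i => Tn n (f i) : I → K) : Germ _ K) := by
  have e : (fun i => Tn n (f i) : I → K) =
      ∑ m ∈ Finset.range (n + 1), f ^ m / fun _ => (m.factorial : K) := by
    ext i
    simp [Tn]
  rw [e, ← Germ.coe_coeRingHom, map_sum]
  refine Finset.sum_congr rfl fun m _ => ?_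
  rw [Germ.coe_coeRingHom, Germ.coe_div, Germ.coe_pow, Germ.natCast_def]

theorem surj : Function.Surjective (Germ.coeRingHom (U : Filter I) : (I → K) →+* _) := fun x =>
  Germ.inductionOn x fun f => ⟨f, rfl⟩

theorem g_alg [IsAlgClosed K] : IsAlgClosed (Germ (U : Filter I) K) := by
  refine IsAlgClosed.of_exists_root _ fun p hp hi => ?_
  obtain ⟨q, rfl, hd, hq⟩ := Polynomial.lifts_and_natDegree_eq_and_monic
    ((Polynomial.mem_lifts _).2 (Polynomial.map_surjective _ surj p)) hp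
  have h0 : q.natDegree ≠ 0 := by
    rw [hd]
    exact hi.natDegree_pos.ne'
  have h1 : ∀ i, ∃ x, (q.map (Pi.evalRingHom (fun _ => K) i)).IsRoot x := fun i =>
    IsAlgClosed.exists_root _ (by
      rw [Polynomial.degree_eq_natDegree (hq.map _).ne_zero, hq.natDegree_map]
      exact_mod_cast h0)
  choose x hx using h1
  refine ⟨Germ.coeRingHom _ x, ?_⟩
  rw [Polynomial.eval_map, Polynomial.eval₂_hom]
  have : q.eval x = 0 := by
    ext i
    have := hx i
    rw [Polynomial.IsRoot, Polynomial.eval_map] at this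
    exact (Polynomial.eval₂_hom (Pi.evalRingHom (fun _ => K) i) x).symm.trans this
  rw [this, map_zero]

theorem g_ax0 (h : Ax0 S) : Ax0 (gS U S) where
  alg := by
    have := h.alg
    exact g_alg
  ch := germ_char h.ch
  nn0 := Germ.liftPred_const h.nn0
  nnle a b := Germ.inductionOn₂ a b fun f g hb hle => by
    rw [mem_nn] at hb ⊢
    filter_upwards [hb, g_le.1 hle] with i h1 h2 using h.nnle _ _ h1 h2
  nnsq a := Germ.inductionOn a fun f ha => by
    rw [← Germ.coe_mul, mem_nn] at ha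
    rw [mem_nn]
    filter_upwards [ha] with i h1 using h.nnsq _ h1
  nnlt a := Germ.inductionOn a fun f ha => by
    refine g_lt1.2 ?_
    filter_upwards [mem_nn.1 ha] with i h1 using h.nnlt _ h1
  E0 a := Germ.inductionOn a fun f ha => by
    rw [g_lt1, ← Ultrafilter.eventually_not] at ha
    rw [gE, ← Germ.coe_zero, Germ.coe_eq]
    filter_upwards [ha] with i h1 using h.E0 _ h1
  E1 a b := Germ.inductionOn₂ a b fun f g ha hb => by
    rw [← Germ.coe_add, gE, gE, gE, ← Germ.coe_mul, Germ.coe_eq]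
    filter_upwards [g_lt1.1 ha, g_lt1.1 hb] with i h1 h2 using h.E1 _ _ h1 h2
  ET a := Germ.inductionOn a fun f ha n => by
    rw [g_slope, ← Germ.coe_mul, g_Tn, gE, ← Germ.coe_sub, ← map_pow, ← Germ.coe_pow, g_le]
    filter_upwards [g_lt1.1 ha] with i h1
    have := h.ET _ h1 n
    simpa using this

section HK

variable {κ ι : Type}

/-- The point over the ring of functions. -/
def gp (S : ES K) (b : κ ⊕ ι → I → K) : (κ ⊕ κ) ⊕ ι → I → K :=
  Sum.elim (Sum.elim (fun k => b (inl k)) (fun k i => S.E (b (inl k) i))) (fun l => b (inr l))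

theorem pt_germ (b : κ ⊕ ι → I → K) : pt (gS U S) (fun k => (b k : Germ (U : Filter I) K)) =
    fun t => Germ.coeRingHom (U : Filter I) (gp S b t) := by
  ext ((k | k) | l) <;> rfl

theorem pt_ev (b : κ ⊕ ι → I → K) (i : I) : pt S (fun k => b k i) =
    fun t => Pi.evalRingHom (fun _ => K) i (gp S b t) := by
  ext ((k | k) | l) <;> rfl

theorem g_eval (b : κ ⊕ ι → I → K) (G : MvPolynomial ((κ ⊕ κ) ⊕ ι) (I → K)) :
    eval (pt (gS U S) fun k => (b k : Germ (U : Filter I) K))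
      (map (Germ.coeRingHom (U : Filter I)) G) =
    ((fun i => eval (pt S fun k => b k i) (map (Pi.evalRingHom (fun _ => K) i) G) : I → K) :
      Germ _ K) := by
  rw [pt_germ, eval_map']
  refine congrArg Germ.ofFun (funext fun i => ?_)
  rw [pt_ev, eval_map']
  rfl

theorem g_det [Fintype κ] [Fintype ι] [DecidableEq κ] [DecidableEq ι] (b : κ ⊕ ι → I → K)
    (G : κ ⊕ ι → MvPolynomial ((κ ⊕ κ) ⊕ ι) (I → K)) (c : I → K) :
    (jac (fun k => map (Germ.coeRingHom (U : Filter I)) (G k)) (Germ.coeRingHom (U : Filter I) c)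
      (pt (gS U S) fun k => (b k : Germ (U : Filter I) K))).det =
    ((fun i => (jac (fun k => map (Pi.evalRingHom (fun _ => K) i) (G k)) (c i)
      (pt S fun k => b k i)).det : I → K) : Germ _ K) := by
  rw [pt_germ, det_jac_map]
  refine congrArg Germ.ofFun (funext fun i => ?_)
  rw [pt_ev]
  exact (det_jac_map (Pi.evalRingHom (fun _ => K) i) G c (gp S b)).symm

theorem g_cf {τ : Type} (G : MvPolynomial τ (I → K))
    (h : Cf (((⊤ : Subfield (Germ (U : Filter I) K)) : Set _) ∩ (gS U S).O)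
      (map (Germ.coeRingHom (U : Filter I)) G)) :
    ∀ᶠ i in (U : Filter I), Cf (((⊤ : Subfield K) : Set K) ∩ S.O)
      (map (Pi.evalRingHom (fun _ => K) i) G) := by
  have h1 : ∀ m ∈ G.support, ∀ᶠ i in (U : Filter I), G.coeff m i ∈ S.O := fun m _ => by
    have := (h m).2
    rw [coeff_map] at this
    exact mem_germO.1 this
  filter_upwards [(eventually_all_finset _).2 h1] with i hi m
  refine ⟨Subfield.mem_top _, ?_⟩
  rw [coeff_map]
  by_cases hm : m ∈ G.support
  · exact hi m hm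
  · rw [notMem_support_iff.1 hm, map_zero]
    exact S.O.zero_mem

theorem g_hk (h : HK S ⊤) : HK (gS U S) ⊤ := by
  intro κ ι _ _ _ _ G b j hG _ hb _ hj h1 h2 h3
  choose G' hG' using fun k => map_surjective _ (surj (U := U)) (G k)
  obtain rfl : G = fun k => map (Germ.coeRingHom (U : Filter I)) (G' k) :=
    funext fun k => (hG' k).symm
  obtain ⟨b, rfl⟩ := exists_germ_rep b
  induction j using Germ.inductionOn with | _ j => ?_
  rw [← map_one (Germ.coeRingHom (U : Filter I)), g_det, g_le] at h1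
  rw [← map_ofNat (Germ.coeRingHom (U : Filter I)), g_det, g_le] at h2
  have h3' : ∀ k, ∀ᶠ i in (U : Filter I), S.v (eval (pt S fun k => b k i)
      (map (Pi.evalRingHom (fun _ => K) i) (G' k))) < S.v (j i) ^ 3 := fun k => by
    have := h3 k
    rw [g_eval, ← map_pow, ← Germ.coe_pow, g_lt] at this
    simpa using this
  have hj' : ∀ᶠ i in (U : Filter I), j i ≠ 0 := by
    rw [Ne, ← Germ.coe_zero, Germ.coe_eq] at hj
    exact Ultrafilter.eventually_not.2 hj
  have key : ∀ᶠ i in (U : Filter I), ∃ z : κ ⊕ ι → K,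
      (∀ k, S.v (z k - b k i) < S.v (j i)) ∧
      ∀ k, eval (pt S z) (map (Pi.evalRingHom (fun _ => K) i) (G' k)) = 0 := by
    filter_upwards [h1, h2, eventually_all.2 h3', hj', eventually_all.2 fun k => g_cf _ (hG k),
      eventually_all.2 fun k => g_lt1.1 (hb.1 k), eventually_all.2 fun l => mem_germO.1 (hb.2 l)]
      with i a1 a2 a3 a4 a5 a6 a7
    obtain ⟨z, hz, hz'⟩ := h κ ι _ (fun k => b k i) (j i) a5 (fun _ => Subfield.mem_top _)
      ⟨a6, a7⟩ (Subfield.mem_top _) a4 a1 a2 a3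
    exact ⟨z, fun k => (hz k).2, hz'⟩
  obtain ⟨z, hz⟩ := Filter.skolem.1 key
  refine ⟨fun k => ((fun i => z i k : I → K) : Germ _ K), fun k => ⟨Subfield.mem_top _, ?_⟩,
    fun k => ?_⟩
  · rw [← Germ.coe_sub, g_lt]
    filter_upwards [hz] with i hi using hi.1 k
  · rw [g_eval, ← Germ.coe_zero, Germ.coe_eq]
    filter_upwards [hz] with i hi using hi.2 k

end HK

variable [LE.Structure K]

theorem g_compat (h : CompatE S) :
    letI := germStructure LE K U
    CompatE (gS U S) := by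
  letI := germStructure LE K U
  refine ⟨germ_compat h.toCompat, fun x => Germ.inductionOn x fun f => ?_⟩
  have := FirstOrder.Language.Ultraproduct.funMap_cast (u := U) (M := fun _ => K) expS ![f]
  have e : (![(f : Germ (U : Filter I) K)] : Fin 1 → Germ (U : Filter I) K) =
      fun i => ((![f] i : I → K) : Germ (U : Filter I) K) := by
    ext i; fin_cases i; rfl
  rw [e, gE]
  refine this.trans ?_
  refine Germ.coe_eq.2 (Eventually.of_forall fun i => ?_)
  refine Eq.trans ?_ (h.he (f i))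
  simp only
  congr 1
  ext j; fin_cases j; rfl

theorem g_def {α : Type} {D : Set (α → Germ (U : Filter I) K)} :
    letI := germStructure LE K U
    (Set.univ : Set (Germ (U : Filter I) K)).Definable LE D →
    ∃ T : I → Set (α → K), ∀ x : α → I → K, (fun a => (x a : Germ (U : Filter I) K)) ∈ D ↔
      ∀ᶠ i in (U : Filter I), (fun a => x a i) ∈ T i := by
  letI := germStructure LE K U
  intro hD
  obtain ⟨φ, rfl⟩ := definable_iff_exists_formula_sum.1 hD
  obtain ⟨g, hg⟩ := exists_germ_rep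
    (fun a : (Set.univ : Set (Germ (U : Filter I) K)) => (a : Germ (U : Filter I) K))
  refine ⟨fun i => {x | φ.Realize (Sum.elim (fun a => g a i) x)}, fun x => ?_⟩
  have := germ_realize (U := U) φ (Sum.elim g x)
  refine Iff.trans (Iff.of_eq ?_) (this.trans (eventually_congr
    (Eventually.of_forall fun i => Iff.of_eq ?_)))
  · simp only [mem_ofPred_eq]
    congr 1
    ext (a | a)
    · exact congrFun hg a
    · rfl
  · simp only [mem_ofPred_eq]
    congr 1
    ext (a | a) <;> rfl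

theorem g_sat (d : I → ℕ) (hd : ∀ k, ∀ᶠ i in (U : Filter I), k ≤ d i) :
    letI := germStructure LE K U
    Sat (Germ (U : Filter I) K) := by
  letI := germStructure LE K U
  classical
  intro α ι _ D hD hfin
  choose T hT using fun m => g_def (hD m)
  obtain ⟨e, he⟩ := exists_injective_nat ι
  have hs : ∀ k, {m | e m ≤ k}.Finite := fun k => (finite_Iic k).preimage he.injOn
  have h1 : ∀ k, ∃ y : α → I → K, ∀ᶠ i in (U : Filter I), ∀ m, e m ≤ k →
      (fun a => y a i) ∈ T m i := fun k => by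
    obtain ⟨y, hy⟩ := hfin (hs k).toFinset
    obtain ⟨y, rfl⟩ := exists_germ_rep y
    exact ⟨y, (eventually_all_finite (hs k)).2 fun m hm =>
      (hT m y).1 (hy m ((hs k).mem_toFinset.2 hm))⟩
  choose y hy using h1
  let P : I → ℕ → Prop := fun i k => ∀ m, e m ≤ k → (fun a => y k a i) ∈ T m i
  refine ⟨fun a => ((fun i => y (Nat.findGreatest (P i) (d i)) a i : I → K) : Germ _ K),
    fun m => (hT m _).2 ?_⟩
  filter_upwards [hy (e m), hd (e m)] with i h2 h3
  exact Nat.findGreatest_spec (P := P i) h3 h2 m (Nat.le_findGreatest (P := P i) h3 h2)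

end Germ

section Glue

variable {U : Type w} [Field U] [LE.Structure U] {S : ES U}

theorem def_imp {α : Type} {A : Set U} {p : Prop} {P : (α → U) → Prop}
    (h : A.Definable LE {x | P x}) : A.Definable LE {x | p → P x} := by
  by_cases hp : p
  · simpa [hp] using h
  · simp [hp]

theorem sc (hc : CompatE S) (hs : Sat U) : SC S.O := by
  intro ι _ c r _ hcr
  obtain ⟨y, hy⟩ := hs Unit ι (fun i => {y | S.O.valuation (y () - c i) < S.O.valuation (r i)})
    (fun i => def_lt hc.toCompat (dfun_sub hc.toCompat (dfun_proj ()) (dfun_const (mem_univ _)))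
      (dfun_const (mem_univ _))) fun s => by
      rcases s.eq_empty_or_nonempty with rfl | hne
      · exact ⟨fun _ => 0, by simp⟩
      · obtain ⟨i, -, hi⟩ := s.exists_min_image (fun i => S.O.valuation (r i)) hne
        exact ⟨fun _ => c i, fun k hk => (hcr i k).trans_le (max_le (hi k hk) le_rfl)⟩
  exact ⟨y (), hy⟩

theorem gl (hc : CompatE S) (hs : Sat U) : Glue S := by
  classical
  intro N ψ hN hE hψ hfin
  have H := hc.toCompat
  have := hN.to_subtype
  obtain ⟨e, he⟩ := exists_injective_nat N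
  have hg : ∀ a, ∃ s, a ∈ dom ψ → (a, s) ∈ ψ := fun a => by
    by_cases ha : a ∈ dom ψ
    · exact ha.imp fun _ h _ => h
    · exact ⟨0, fun h => absurd h ha⟩
  choose g hg using hg
  let En : N → N := fun a => ⟨S.E a, hE a a.2⟩
  obtain ⟨y, hy⟩ := hs ℕ (N × N) (fun p => {y | y (e (p.1 + p.2)) = y (e p.1) + y (e p.2) ∧
      y (e (p.1 * p.2)) = y (e p.1) * y (e p.2) ∧ R S.O 1 (y (e p.1)) p.1 ∧
      ((p.1 : U) ∈ dom ψ → y (e p.1) = g p.1) ∧
      (S.v p.1 < 1 → y (e (En p.1)) = S.E (y (e p.1)))})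
    (fun p => ((dfun_proj _).ofPred_eq (dfun_add H (dfun_proj _) (dfun_proj _))).inter
      (((dfun_proj _).ofPred_eq (dfun_mul H (dfun_proj _) (dfun_proj _))).inter
      ((def_R1 H (dfun_proj _) (dfun_const (mem_univ _))).inter
      ((def_imp ((dfun_proj _).ofPred_eq (dfun_const (mem_univ _)))).inter
      (def_imp ((dfun_proj _).ofPred_eq (dfun_E hc (dfun_proj _)))))))) fun s => by
      obtain ⟨Φ, h1, h2, h3, h4⟩ := hfin
        (⋃ p ∈ s, {(p.1 : U), (p.2 : U)}) (s.finite_toSet.biUnion fun _ _ => toFinite _)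
        (iUnion₂_subset fun p _ => pair_subset p.1.2 p.2.2)
      have hf : ∀ a, ∃ t, a ∈ dom Φ → (a, t) ∈ Φ := fun a => by
        by_cases ha : a ∈ dom Φ
        · exact ha.imp fun _ h _ => h
        · exact ⟨0, fun h => absurd h ha⟩
      choose f hf using hf
      have hf' : ∀ a t, (a, t) ∈ Φ → f a = t := fun a t h => h2.func (hf a ⟨t, h⟩) h
      refine ⟨Function.extend e (fun a => f a) 0, fun p hp => ?_⟩
      have m1 : (p.1 : U) ∈ ⋃ p ∈ s, ({(p.1 : U), (p.2 : U)} : Set U) :=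
        mem_biUnion hp (mem_insert _ _)
      have a1 := hf _ (h3 m1)
      have a2 := hf _ (h3 (mem_biUnion hp (mem_insert_of_mem _ rfl)))
      simp only [mem_ofPred_eq, he.extend_apply]
      refine ⟨hf' _ _ (Φ.add_mem a1 a2), hf' _ _ (Φ.mul_mem a1 a2),
        (rveq_iff one_ne_zero).1 (h2 _ _ a1), fun h => hf' _ _ (h1 (hg _ h)), fun h => ?_⟩
      obtain ⟨-, t, b1, b2⟩ := h4 _ m1 h
      rw [hf' _ _ b1]
      exact hf' _ _ b2
  obtain ⟨Φ₀, h1, h2, -⟩ := hfin ∅ finite_empty (empty_subset _)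
  have hψ' : ∀ (a : N) s, ((a : U), s) ∈ ψ → y (e a) = s := fun a s h =>
    ((hy (a, a)).2.2.2.1 ⟨s, h⟩).trans (h2.func (h1 (hg _ ⟨s, h⟩)) (h1 h))
  let f : N →+* U := RingHom.mk'
    ⟨⟨fun a => y (e a), hψ' 1 1 ψ.one_mem⟩, fun a b => (hy (a, b)).2.1⟩ fun a b => (hy (a, b)).1
  have hm : ∀ a s, (a, s) ∈ (N.subtype.prod f).range ↔ ∃ h : a ∈ N, y (e ⟨a, h⟩) = s := by
    intro a s
    constructor
    · rintro ⟨b, hb⟩
      obtain ⟨rfl, rfl⟩ := Prod.mk.inj hb
      exact ⟨b.2, rfl⟩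
    · rintro ⟨h, rfl⟩
      exact ⟨⟨a, h⟩, rfl⟩
  refine ⟨(N.subtype.prod f).range, ?_, fun a s h => ?_, ?_, fun a ha h => ?_⟩
  · rintro ⟨a, s⟩ h
    exact (hm a s).2 ⟨hψ ⟨s, h⟩, hψ' ⟨a, _⟩ s h⟩
  · obtain ⟨ha, rfl⟩ := (hm a s).1 h
    exact (rveq_iff one_ne_zero).2 (hy (⟨a, ha⟩, ⟨a, ha⟩)).2.2.1
  · ext a
    exact ⟨fun ⟨s, h⟩ => ((hm a s).1 h).1, fun h => ⟨_, (hm a _).2 ⟨h, rfl⟩⟩⟩
  · exact ⟨h, _, (hm a _).2 ⟨ha, rfl⟩,
      (hm _ _).2 ⟨hE a ha, (hy (⟨a, ha⟩, ⟨a, ha⟩)).2.2.2.2 h⟩⟩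

end Glue

end Ult

theorem ult : UltStmt.{w} := by
  intro K _ _ S h hk hc
  let U : Ultrafilter (ULift.{w} ℕ) := hyperfilter _
  letI := germStructure LE K U
  refine ⟨Germ (U : Filter (ULift.{w} ℕ)) K, inferInstance, inferInstance, Ult.gS U S,
    Ult.g_ax0 h, Ult.g_hk hk, Ult.g_compat hc, Ult.g_sat ULift.down fun k => ?_,
    germ_models FirstOrder.Language.model_completeTheory⟩
  refine hyperfilter_le_cofinite ?_
  refine ((finite_Iio k).preimage ULift.down_injective.injOn).subset fun i hi => ?_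
  simpa using hi

theorem glue : GlueStmt.{w} := fun _ _ _ _ _ hc hs => ⟨Ult.sc hc hs, Ult.gl hc hs⟩

end Pool.Agent.MP_0e4269_lc.Z

end MrgPart3

-- ======== part 4: formerly Pool.Agent.MP_0e4269_lc.z.Uniq
section MrgPart4

/-!
Uniqueness of the algebraic extension of a good graph, and extension by finitely many points.
-/

set_option linter.unusedSectionVars false

open Set Polynomial

universe w

namespace Pool.Agent.MP_0e4269_lc.Z

namespace Uniq

variable {U : Type w} [Field U] {O : ValuationSubring U} {Φ Ψ : Subring (U × U)}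

theorem eval_one_lt {D : U[X]} (h : ∀ i, O.valuation (D.coeff i) < 1) :
    O.valuation (D.eval 1) < 1 := by
  rw [eval_eq_sum_range]
  exact O.valuation.map_sum_lt one_ne_zero fun i _ => by simpa using h i

theorem deriv_lt {D : U[X]} (h : ∀ i, O.valuation (D.coeff i) < 1) (i : ℕ) :
    O.valuation (D.derivative.coeff i) < 1 := by
  rw [coeff_derivative, map_mul]
  refine lt_of_le_of_lt (mul_le_of_le_one_right' ?_) (h _)
  rw [O.valuation_le_one_iff]
  exact add_mem (natCast_mem _ _) (one_mem _)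

/-- The rescaled polynomial. -/
noncomputable def sc (P : U[X]) (b ξ κ : U) : U[X] := C κ⁻¹ * (taylor b P).comp (C ξ * X)

theorem sc_coeff (P : U[X]) (b ξ κ : U) (i : ℕ) :
    (sc P b ξ κ).coeff i = (taylor b P).coeff i * ξ ^ i / κ := by
  rw [sc, coeff_C_mul, comp_C_mul_X_coeff, div_eq_inv_mul]

theorem sc_eval (P : U[X]) (b ξ κ x : U) : (sc P b ξ κ).eval x = κ⁻¹ * P.eval (ξ * x + b) := by
  simp [sc, eval_comp, taylor_eval]

theorem sc_deriv (P : U[X]) (b ξ κ x : U) :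
    (sc P b ξ κ).derivative.eval x = κ⁻¹ * (ξ * P.derivative.eval (ξ * x + b)) := by
  simp [sc, eval_comp, taylor_apply, derivative_comp]

theorem eval_mem (h : Ψ ≤ Φ) (F : Ψ[X]) {α s : U} (hs : (α, s) ∈ Φ) :
    (F.eval₂ (p1 Ψ) α, F.eval₂ (p2 Ψ) s) ∈ Φ := by
  induction F using Polynomial.induction_on' with
  | add p q hp hq =>
    rw [eval₂_add, eval₂_add]
    exact Φ.add_mem hp hq
  | monomial n a =>
    rw [eval₂_monomial, eval₂_monomial]
    exact Φ.mul_mem (h (p12_mem a)) (pair_pow hs n)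

/-- An element of minimal degree has at most one image. -/
theorem image_eq [CharZero U] [IsAlgClosed U] (core : CoreStmt.{w}) (hc : Ch O)
    (h : Good O Ψ) {K : Subfield U} (hK : (K : Set U) ⊆ dom Ψ) {α : U} {F : Ψ[X]}
    (hm : MinData K α (F.map (p1 Ψ))) {s t : U} (hs : F.eval₂ (p2 Ψ) s = 0)
    (ht : F.eval₂ (p2 Ψ) t = 0) (hs' : ∀ a : Ψ, RVEq O 1 (s - p2 Ψ a) (α - p1 Ψ a))
    (ht' : ∀ a : Ψ, RVEq O 1 (t - p2 Ψ a) (α - p1 Ψ a)) : s = t := by
  obtain ⟨c1, c2, c3⟩ := core U O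
  obtain ⟨hd, b, hbK, -, hb⟩ := c2 K α _ hm
  have hne : α ≠ b := fun e => hm.1 (e ▸ hbK)
  obtain ⟨b, rfl⟩ := mem_range_p1.2 (hK hbK)
  have hb1 := c1 _ α _ hc hm.2.2.1 hd hne hb
  obtain ⟨e, he, h1⟩ := hs' b
  obtain ⟨e', he', h1'⟩ := ht' b
  obtain ⟨ξ, hξ⟩ : ∃ ξ, ξ = α - p1 Ψ b := ⟨_, rfl⟩
  have hξ0 : ξ ≠ 0 := hξ ▸ sub_ne_zero.2 hne
  rw [← hξ] at hb1 h1 h1'
  obtain ⟨κ, hκ⟩ : ∃ κ, κ = ξ * (F.map (p1 Ψ)).derivative.eval α := ⟨_, rfl⟩
  have hκ0 : κ ≠ 0 := hκ ▸ mul_ne_zero hξ0 hd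
  rw [← hκ] at hb1
  have hα : ξ * 1 + p1 Ψ b = α := by rw [hξ]; ring
  obtain ⟨Q, hQ⟩ : ∃ Q, Q = sc (F.map (p1 Ψ)) (p1 Ψ b) ξ κ := ⟨_, rfl⟩
  obtain ⟨Q', hQ'⟩ : ∃ Q, Q = sc (F.map (p2 Ψ)) (p2 Ψ b) ξ κ := ⟨_, rfl⟩
  have hQv : ∀ i, O.valuation (Q.coeff i) ≤ 1 := fun i => by
    rw [hQ, sc_coeff, map_div₀]
    exact div_le_one_of_le₀ (hb1 i) zero_le
  have hD : ∀ i, O.valuation ((Q' - Q).coeff i) < 1 := fun i => by
    obtain ⟨e, he, h1⟩ := h _ _ (p12_mem ((taylor b F).coeff i))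
    have h2 : Q'.coeff i - Q.coeff i = Q.coeff i * e := by
      rw [hQ, hQ', sc_coeff, sc_coeff, ← map_taylor, ← map_taylor, coeff_map, coeff_map, h1]
      ring
    rw [coeff_sub, h2, map_mul]
    exact lt_of_le_of_lt (mul_le_of_le_one_left' (hQv i)) he
  have hQd : Q.derivative.eval 1 = 1 := by
    rw [hQ, sc_deriv, hα, ← hκ, inv_mul_cancel₀ hκ0]
  obtain ⟨-, u2⟩ := c3 Q' (fun i => by
      rw [← O.valuation_le_one_iff, ← sub_add_cancel (Q'.coeff i) (Q.coeff i), ← coeff_sub]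
      exact O.valuation.map_add_le (hD i).le (hQv i)) (by
      have := eval_one_lt (deriv_lt hD)
      rwa [derivative_sub, eval_sub, hQd] at this)
  have e1 : ξ * (1 + e) + p2 Ψ b = s := by linear_combination -h1
  have e2 : ξ * (1 + e') + p2 Ψ b = t := by linear_combination -h1'
  have r := u2 (1 + e) (1 + e') (by simpa using he) (by simpa using he')
  rw [hQ', sc_eval, sc_eval, e1, e2, eval_map, eval_map, hs, ht, sub_self] at r
  have r0 := rv_zero (rv_symm r)
  linear_combination e2 - e1 + ξ * r0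

/-- The locus where two graphs agree. -/
def agree {Φ₁ Φ₂ : Subring (U × U)} (h₁ : Good O Φ₁) (h₂ : Good O Φ₂) (L : Subfield U)
    (hL₁ : (L : Set U) ⊆ dom Φ₁) (hL₂ : (L : Set U) ⊆ dom Φ₂) : Subfield U :=
  { L.toSubring ⊓ (p1 (Φ₁ ⊓ Φ₂)).range with
    inv_mem' := by
      rintro a ⟨ha, hs⟩
      obtain ⟨s, hs₁, hs₂⟩ := mem_range_p1.1 hs
      have hi : a⁻¹ ∈ L := inv_mem (show a ∈ L from ha)
      exact ⟨hi, mem_range_p1.2 ⟨s⁻¹, h₁.inv hs₁ (hL₁ hi), h₂.inv hs₂ (hL₂ hi)⟩⟩ }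

theorem mem_agree {Φ₁ Φ₂ : Subring (U × U)} {h₁ : Good O Φ₁} {h₂ : Good O Φ₂} {L : Subfield U}
    {hL₁ : (L : Set U) ⊆ dom Φ₁} {hL₂ : (L : Set U) ⊆ dom Φ₂} {a : U} :
    a ∈ agree h₁ h₂ L hL₁ hL₂ ↔ a ∈ L ∧ a ∈ dom (Φ₁ ⊓ Φ₂) :=
  and_congr Iff.rfl mem_range_p1

/-- A suitable image of a new point. -/
theorem exists_image (hsc : SC O) (h : Good O Φ) (hc : (dom Φ).Countable) {y : U}
    (hy : y ∉ dom Φ) : ∃ y', ∀ a s, (a, s) ∈ Φ → RVEq O 1 (y' - s) (y - a) := by
  have hne : ∀ a : Φ, y - p1 Φ a ≠ 0 := fun a e =>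
    hy (mem_range_p1.1 ⟨a, (sub_eq_zero.1 e).symm⟩)
  have : Countable Φ := by
    have := hc.to_subtype
    refine Function.Injective.countable
      (f := fun a : Φ => (⟨p1 Φ a, mem_range_p1.1 ⟨a, rfl⟩⟩ : dom Φ)) fun a b e => ?_
    have e1 : p1 Φ a = p1 Φ b := congrArg Subtype.val e
    exact Subtype.ext (Prod.ext e1 (h.func (p12_mem a) (e1 ▸ p12_mem b)))
  obtain ⟨x, hx⟩ := hsc Φ (fun a => p2 Φ a + (y - p1 Φ a)) (fun a => y - p1 Φ a) hne
    (fun a b => by
      have e1 : p2 Φ a + (y - p1 Φ a) - (p2 Φ b + (y - p1 Φ b)) =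
          p2 Φ (a - b) - p1 Φ (a - b) := by
        rw [map_sub, map_sub]
        ring
      rw [e1]
      rcases rv_iff.1 (h _ _ (p12_mem (a - b))) with e | e
      · rw [e, sub_self, map_zero]
        exact lt_max_of_lt_left (by simpa [zero_lt_iff] using hne a)
      · refine e.trans_le ?_
        have e2 : p1 Φ (a - b) = y - p1 Φ b - (y - p1 Φ a) := by
          rw [map_sub]
          ring
        rw [e2, max_comm]
        exact O.valuation.map_sub _ _)
  refine ⟨x, fun a s hs => rv_of_lt ?_⟩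
  rw [sub_sub]
  exact hx ⟨_, hs⟩

end Uniq

open Uniq

theorem uniq (wind : WindStmt.{w}) (core : CoreStmt.{w}) : UniqStmt.{w} := by
  intro U _ _ _ O Φ₁ Φ₂ B hc h₁ h₂ hB hL₁ hL₂
  have hg : Good O (Φ₁ ⊓ Φ₂) := h₁.anti inf_le_left
  have key := (wind U (agree h₁ h₂ (ac B) hL₁ hL₂ : Set U)
    ⟨zero_mem _, fun a ha b hb => mul_mem ha hb, fun a ha => inv_mem ha⟩).1 (Subfield.closure B)
    (Subfield.closure_le.2 fun a ha => mem_agree.2 ⟨subset_ac _ ha, hB ha⟩)
    (fun K _ _ hK α hα P hm => by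
      rw [ac_closure] at hα
      have hK' : (K : Set U) ⊆ dom (Φ₁ ⊓ Φ₂) := fun a ha => (mem_agree.1 (hK ha)).2
      have hl : P ∈ lifts (p1 (Φ₁ ⊓ Φ₂)) := by
        rw [lifts_iff_coeff_lifts]
        exact fun i => mem_range_p1.2 (hK' (hm.2.1 i))
      obtain ⟨F, rfl⟩ := hl
      obtain ⟨s, hs⟩ := hL₁ hα
      obtain ⟨t, ht⟩ := hL₂ hα
      have h0 : F.eval₂ (p1 _) α = 0 := by
        rw [← eval_map]
        exact hm.2.2.1
      have e : s = t := image_eq core hc hg hK' hm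
        (h₁.zero (h0 ▸ eval_mem inf_le_left F hs)) (h₂.zero (h0 ▸ eval_mem inf_le_right F ht))
        (fun a => h₁ _ _ (Φ₁.sub_mem hs (p12_mem a).1))
        (fun a => h₂ _ _ (Φ₂.sub_mem ht (p12_mem a).2))
      exact mem_agree.2 ⟨hα, s, hs, e ▸ ht⟩)
  rw [ac_closure] at key
  exact fun a ha => (mem_agree.1 (key ha)).2

theorem ext (alg : AlgStmt.{w}) (trans : TransStmt.{w}) : ExtStmt.{w} := by
  intro U _ _ _ O Φ Y hc hsc hΦ hcount hY
  induction Y, hY using Set.Finite.induction_on with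
  | empty => simpa using alg U O Φ hc hΦ
  | @insert y Y _ hY ih =>
    obtain ⟨Φ₁, h1, h2, h3⟩ := ih
    have e : ac ((ac (dom Φ ∪ Y) : Set U) ∪ {y}) = ac (dom Φ ∪ insert y Y) := by
      rw [ac_ac_union, union_assoc, union_singleton]
    by_cases hy : y ∈ dom Φ₁
    · refine ⟨Φ₁, h1, h2, ?_⟩
      rw [h3] at hy
      rw [← e, union_eq_self_of_subset_right (singleton_subset_iff.2 hy), ac_ac, h3]
    · obtain ⟨y', hy'⟩ := exists_image hsc h2 (h3 ▸ ac_countable (hcount.union hY.countable)) hy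
      obtain ⟨Φ', k1, k2, -, k3⟩ := trans U O Φ₁ _ y y' hc h2 h3 (ac_ac _) hy'
      exact ⟨Φ', h1.trans k1, k2, by rw [k3, e]⟩

end Pool.Agent.MP_0e4269_lc.Z

end MrgPart4

-- marker of a merged file
example : 731051 + 67610 = 731051 + 67610 := rfl
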