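import Mathlib.Data.Nat.Choose.Cast
import Mathlib.Algebra.BigOperators.Intervals
import Mathlib.Algebra.BigOperators.Field
import Mathlib.Order.Zorn
import Pool.Agent.MP_0e4269_lc.z.Spec
import Pool.Agent.MP_0e4269_lc.z.Base2

-- ======== part 0: formerly Pool.Agent.MP_0e4269_lc.z.Ez
section MrgPart0

/-!
Construction of the twisted exponential function on a spherically complete field.
-/

open Finset

universe w

namespace Pool.Agent.MP_0e4269_lc.Z

namespace Ez

variable {U : Type w} [Field U] {O : ValuationSubring U} {nn : Set U}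

/-- Congruence up to the value `γ`. -/
def Cg (O : ValuationSubring U) (γ : O.ValueGroup) (a b : U) : Prop := O.valuation (a - b) ≤ γ

theorem Cg.rfl' {γ : O.ValueGroup} (a : U) : Cg O γ a a := by simp [Cg]

theorem Cg.symm {γ : O.ValueGroup} {a b : U} (h : Cg O γ a b) : Cg O γ b a := by
  unfold Cg at *; rwa [Valuation.map_sub_swap]

theorem Cg.trans {γ : O.ValueGroup} {a b c : U} (h : Cg O γ a b) (h' : Cg O γ b c) :
    Cg O γ a c := by
  have := O.valuation.map_add_le h h'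
  rwa [sub_add_sub_cancel] at this

theorem Cg.mono {γ δ : O.ValueGroup} {a b : U} (h : Cg O γ a b) (h' : γ ≤ δ) : Cg O δ a b :=
  le_trans h h'

theorem Cg.mul_left {γ : O.ValueGroup} {a b c : U} (hc : O.valuation c ≤ 1) (h : Cg O γ a b) :
    Cg O γ (c * a) (c * b) := by
  unfold Cg at *
  rw [← mul_sub, map_mul]
  exact (mul_le_of_le_one_left' hc).trans h

theorem Cg.mul {γ : O.ValueGroup} {a b c d : U} (ha : O.valuation a ≤ 1) (hd : O.valuation d ≤ 1)
    (h : Cg O γ a b) (h' : Cg O γ c d) : Cg O γ (a * c) (b * d) := by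
  refine (h'.mul_left ha).trans ?_
  rw [mul_comm a, mul_comm b]
  exact h.mul_left hd

theorem Cg.pow {γ : O.ValueGroup} {a b : U} (ha : O.valuation a ≤ 1) (hb : O.valuation b ≤ 1)
    (h : Cg O γ a b) (i : ℕ) : Cg O γ (a ^ i) (b ^ i) := by
  induction i with
  | zero => simp [Cg]
  | succ i ih =>
    rw [pow_succ, pow_succ]
    exact Cg.mul (by rw [map_pow]; exact pow_le_one' ha i) hb ih h

theorem v_fact (h : Ch O) (i : ℕ) (x : U) :
    O.valuation (x / (i.factorial : U)) = O.valuation x := by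
  rw [map_div₀, h _ i.factorial_ne_zero, div_one]

theorem v_Tn (h : Ch O) (n : ℕ) {x : U} (hx : O.valuation x ≤ 1) : O.valuation (Tn n x) ≤ 1 :=
  O.valuation.map_sum_le fun i _ => by rw [v_fact h, map_pow]; exact pow_le_one' hx i

theorem Tn_tail (h : Ch O) {n N : ℕ} (hn : n ≤ N) {x : U} {μ : O.ValueGroup}
    (hx : O.valuation x ≤ μ) (hμ : μ ≤ 1) : Cg O (μ ^ (n + 1)) (Tn N x) (Tn n x) := by
  induction N, hn using Nat.le_induction with
  | base => exact Cg.rfl' _
  | succ N hN ih =>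
    refine Cg.trans ?_ ih
    unfold Cg Tn
    rw [sum_range_succ _ (N + 1), add_sub_cancel_left, v_fact h, map_pow]
    exact (pow_le_pow_left' hx _).trans (pow_le_pow_right_of_le_one' hμ (by omega))

theorem Tn_lip (h : Ch O) (n : ℕ) {x y : U} {γ : O.ValueGroup} (hx : O.valuation x ≤ 1)
    (hy : O.valuation y ≤ 1) (hxy : Cg O γ x y) : Cg O γ (Tn n x) (Tn n y) := by
  unfold Cg Tn
  rw [← sum_sub_distrib]
  refine O.valuation.map_sum_le fun i _ => ?_
  rw [← sub_div, v_fact h]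
  exact hxy.pow hx hy i

theorem charZero (h : Ch O) : CharZero U :=
  charZero_of_inj_zero fun n hn => by
    by_contra h0
    have := h n h0
    rw [hn, map_zero] at this
    exact zero_ne_one this

theorem Tn_add_eq (h : Ch O) (N : ℕ) (x y : U) :
    Tn N (x + y) = ∑ i ∈ range (N + 1), x ^ i / (i.factorial : U) * Tn (N - i) y := by
  have := charZero h
  have e := sum_range_diag_flip (N + 1)
    fun i j => x ^ i / (i.factorial : U) * (y ^ j / (j.factorial : U))
  unfold Tn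
  refine Eq.trans (sum_congr rfl fun m _ => ?_) (e.trans (sum_congr rfl fun i hi => ?_))
  · rw [add_pow, sum_div]
    refine sum_congr rfl fun k hk => ?_
    rw [Nat.cast_choose U (Nat.lt_succ_iff.1 (mem_range.1 hk))]
    have h1 : (m.factorial : U) ≠ 0 := Nat.cast_ne_zero.2 m.factorial_ne_zero
    have h2 : (k.factorial : U) ≠ 0 := Nat.cast_ne_zero.2 k.factorial_ne_zero
    have h3 : ((m - k).factorial : U) ≠ 0 := Nat.cast_ne_zero.2 (m - k).factorial_ne_zero
    field_simp
  · rw [mul_sum, Nat.succ_sub (Nat.lt_succ_iff.1 (mem_range.1 hi))]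

theorem Tn_mul (h : Ch O) (N : ℕ) {x y : U} {μ : O.ValueGroup} (hx : O.valuation x ≤ μ)
    (hy : O.valuation y ≤ μ) (hμ : μ ≤ 1) :
    Cg O (μ ^ (N + 1)) (Tn N x * Tn N y) (Tn N (x + y)) := by
  rw [Tn_add_eq h]
  unfold Cg
  rw [show Tn N x = ∑ i ∈ range (N + 1), x ^ i / (i.factorial : U) from rfl, sum_mul,
    ← sum_sub_distrib]
  refine O.valuation.map_sum_le fun i hi => ?_
  have hi' := Nat.lt_succ_iff.1 (mem_range.1 hi)
  rw [← mul_sub, map_mul, v_fact h, map_pow, show N + 1 = i + (N - i + 1) by omega, pow_add]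
  exact mul_le_mul' (pow_le_pow_left' hx i) (Tn_tail h (Nat.sub_le N i) hy hμ)

theorem Tn_zero (n : ℕ) : Tn n (0 : U) = 1 := by
  unfold Tn
  rw [sum_range_succ']
  simp

theorem v_slope (h : Ch O) (a x : U) : O.valuation (slope nn a * x) = O.valuation x := by
  have h2 : O.valuation (2 : U) = 1 := by simpa using h 2 two_ne_zero
  unfold slope
  split_ifs <;> simp [h2]

theorem slope_congr (h : AxV O nn) {a b : U} (hab : O.valuation a = O.valuation b) :
    slope nn a = slope nn b := by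
  have : a ∈ nn ↔ b ∈ nn := ⟨fun ha => h.nnle _ _ ha hab.ge, fun hb => h.nnle _ _ hb hab.le⟩
  unfold slope
  by_cases hb : b ∈ nn
  · rw [if_pos hb, if_pos (this.2 hb)]
  · rw [if_neg hb, if_neg (mt this.1 hb)]

theorem small (h : AxV O nn) {a x : U} (ha : a ∈ nn) (hx : x ∉ nn) (hx1 : O.valuation x ≤ 1)
    (n : ℕ) : O.valuation a ≤ O.valuation x ^ n := by
  have h1 : ∀ k : ℕ, x ^ (k + 1) ∉ nn := by
    intro k
    induction k using Nat.strong_induction_on with
    | _ k ih =>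
      rcases Nat.eq_zero_or_pos k with rfl | hk
      · simpa using hx
      · intro hm
        refine ih (k / 2) (by omega) (h.nnsq _ (h.nnle _ _ hm ?_))
        rw [← pow_add, map_pow, map_pow]
        exact pow_le_pow_right_of_le_one' hx1 (by omega)
  by_contra hlt
  refine h1 n (h.nnle _ _ ha ?_)
  rw [map_pow]
  exact (pow_le_pow_right_of_le_one' hx1 (Nat.le_succ n)).trans (not_le.1 hlt).le

theorem slope_cg (h : AxV O nn) {d x : U} (hd : O.valuation d ≤ O.valuation x)
    (hx : O.valuation x ≤ 1) (n : ℕ) :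
    Cg O (O.valuation x ^ n) (slope nn d * d) (slope nn x * d) := by
  by_cases h1 : x ∈ nn
  · simp only [slope, h1, h.nnle _ _ h1 hd, if_true]
    exact Cg.rfl' _
  · by_cases h2 : d ∈ nn
    · simp only [slope, h1, h2, if_true, if_false, Cg]
      rw [show 2 * d - 1 * d = d by ring]
      exact small h h2 h1 hx n
    · simp only [slope, h1, h2, if_false]
      exact Cg.rfl' _

/-- The pair has the Taylor expansion of the function. -/
def T (O : ValuationSubring U) (nn : Set U) (a e : U) : Prop :=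
  O.valuation a < 1 ∧ ∀ n, Cg O (O.valuation a ^ (n + 1)) e (Tn n (slope nn a * a))

theorem T.near {a e : U} (h : T O nn a e) : O.valuation (e - 1) < 1 := by
  have := h.2 0
  simp only [Cg, Tn, zero_add, range_one, sum_singleton, pow_zero, Nat.factorial_zero,
    Nat.cast_one, div_one, pow_one] at this
  exact this.trans_lt h.1

theorem v_near {e : U} (h : O.valuation (e - 1) < 1) : O.valuation e = 1 := by
  simpa using O.valuation.map_one_add_of_lt h

theorem key (h : AxV O nn) {d x' f : U} (hd : O.valuation d ≤ O.valuation (d + x'))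
    (hx' : O.valuation x' ≤ O.valuation (d + x')) (hx : O.valuation (d + x') ≤ 1)
    (hf : T O nn d f) (N : ℕ) : Cg O (O.valuation (d + x') ^ (N + 1))
      (f * Tn N (slope nn x' * x')) (Tn N (slope nn (d + x') * (d + x'))) := by
  have h1 := (v_slope (nn := nn) h.ch d d).le.trans hd
  have h2 := (v_slope (nn := nn) h.ch x' x').le.trans hx'
  refine (Cg.mul (v_near hf.near).le (v_Tn h.ch N (h2.trans hx))
    ((hf.2 N).mono (pow_le_pow_left' hd _)) (Cg.rfl' _)).trans ?_
  refine (Tn_mul h.ch N h1 h2 hx).trans (Tn_lip h.ch N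
    ((O.valuation.map_add_le h1 h2).trans hx) ((v_slope h.ch _ _).le.trans hx) ?_)
  have := O.valuation.map_add_le (slope_cg h hd hx (N + 1)) (slope_cg h hx' hx (N + 1))
  unfold Cg
  convert this using 2
  ring

theorem T.add (h : AxV O nn) {d x' f e : U} (hd : O.valuation d ≤ O.valuation (d + x'))
    (hx' : O.valuation x' ≤ O.valuation (d + x')) (hf : T O nn d f) (he : T O nn x' e) :
    T O nn (d + x') (f * e) := by
  have h1 := O.valuation.map_add_lt hf.1 he.1
  exact ⟨h1, fun n => (((he.2 n).mono (pow_le_pow_left' hx' _)).mul_left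
    (v_near hf.near).le).trans (key h hd hx' h1.le hf n)⟩

theorem T.zero : T O nn 0 1 := ⟨by simp, fun n => by rw [mul_zero, Tn_zero]; exact Cg.rfl' _⟩

theorem T.eq_one {e : U} (h : T O nn 0 e) : e = 1 := by
  have := h.2 0
  rw [mul_zero, Tn_zero] at this
  simpa [Cg, sub_eq_zero] using this

theorem v_nat (h : Ch O) {k : ℕ} (hk : k ≠ 0) (a : U) :
    O.valuation (k • a) = O.valuation a := by
  rw [nsmul_eq_mul, map_mul, h k hk, one_mul]

theorem T.pow (h : AxV O nn) {a e : U} (he : T O nn a e) (k : ℕ) : T O nn (k • a) (e ^ k) := by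
  induction k with
  | zero => simpa using T.zero
  | succ k ih =>
    have h1 := v_nat h.ch k.succ_ne_zero a
    rw [succ_nsmul] at h1
    rw [succ_nsmul, pow_succ]
    refine T.add h ?_ h1.ge ih he
    rw [h1]
    rcases eq_or_ne k 0 with rfl | hk
    · simp
    · exact (v_nat h.ch hk a).le

theorem T.neg (h : AxV O nn) {a e : U} (he : T O nn a e) : T O nn (-a) e⁻¹ := by
  have hv := v_near he.near
  have h0 : e ≠ 0 := by rintro rfl; simp at hv
  have h1 := (v_slope (nn := nn) h.ch a a).le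
  have h2 := (v_slope (nn := nn) h.ch a (-a)).le.trans (O.valuation.map_neg a).le
  refine ⟨by simpa using he.1, fun n => ?_⟩
  rw [slope_congr h (O.valuation.map_neg a), Valuation.map_neg]
  have h3 := (Cg.mul hv.le (v_Tn h.ch n (h2.trans he.1.le)) (he.2 n) (Cg.rfl' _)).trans
    (Tn_mul h.ch n h1 h2 he.1.le)
  rw [← mul_add, add_neg_cancel, mul_zero, Tn_zero] at h3
  have h4 := h3.mul_left (c := e⁻¹) (by simp [hv])
  rw [inv_mul_cancel_left₀ h0, mul_one] at h4
  exact h4.symm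

theorem Tn_pow (h : Ch O) (n : ℕ) {x : U} (hx : O.valuation x ≤ 1) (k : ℕ) :
    Cg O (O.valuation x ^ (n + 1)) (Tn n x ^ k) (Tn n (k • x)) := by
  induction k with
  | zero => rw [pow_zero, zero_smul, Tn_zero]; exact Cg.rfl' _
  | succ k ih =>
    have h1 : O.valuation (k • x) ≤ O.valuation x := by
      rcases eq_or_ne k 0 with rfl | hk
      · simp
      · exact (v_nat h hk x).le
    rw [pow_succ (Tn n x), succ_nsmul]
    exact (Cg.mul (by rw [map_pow]; exact pow_le_one' (v_Tn h n hx) k) (v_Tn h n hx) ih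
      (Cg.rfl' _)).trans (Tn_mul h n h1 le_rfl hx)

theorem near_mul {a b : U} (ha : O.valuation (a - 1) < 1) (hb : O.valuation (b - 1) < 1) :
    O.valuation (a * b - 1) < 1 := by
  rw [show a * b - 1 = a * (b - 1) + (a - 1) by ring]
  exact O.valuation.map_add_lt (by rwa [map_mul, v_near ha, one_mul]) ha

theorem near_pow {a : U} (ha : O.valuation (a - 1) < 1) (i : ℕ) :
    O.valuation (a ^ i - 1) < 1 := by
  induction i with
  | zero => simp
  | succ i ih => rw [pow_succ]; exact near_mul ih ha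

theorem v_pow_sub (h : Ch O) {a b : U} (ha : O.valuation (a - 1) < 1)
    (hb : O.valuation (b - 1) < 1) {k : ℕ} (hk : k ≠ 0) :
    O.valuation (a ^ k - b ^ k) = O.valuation (a - b) := by
  rw [← (Commute.all a b).geom_sum₂_mul k, map_mul]
  have h1 : O.valuation (∑ i ∈ range k, a ^ i * b ^ (k - 1 - i) - k) < O.valuation (k : U) := by
    rw [h k hk, show (k : U) = ∑ _i ∈ range k, (1 : U) by simp, ← sum_sub_distrib]
    exact O.valuation.map_sum_lt one_ne_zero fun i _ => near_mul (near_pow ha _) (near_pow hb _)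
  rw [O.valuation.map_eq_of_sub_lt h1, h k hk, one_mul]

theorem T.root (h : AxV O nn) {a e : U} {k : ℕ} (hk : k ≠ 0) (he : O.valuation (e - 1) < 1)
    (hT : T O nn (k • a) (e ^ k)) : T O nn a e := by
  have hv := v_nat h.ch hk a
  have ha : O.valuation a < 1 := hv ▸ hT.1
  refine ⟨ha, fun n => ?_⟩
  have h1 := v_slope (nn := nn) h.ch a a
  have h2 := hT.2 n
  rw [slope_congr h hv, hv, mul_smul_comm] at h2
  have h3 := Tn_pow h.ch n (h1.le.trans ha.le) k
  rw [h1] at h3
  have h4 : O.valuation (Tn n (slope nn a * a) - 1) < 1 := by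
    have := Tn_tail h.ch (Nat.zero_le n) h1.le ha.le
    simp only [Cg, Tn, zero_add, range_one, sum_singleton, pow_zero, Nat.factorial_zero,
      Nat.cast_one, div_one, pow_one] at this
    exact this.trans_lt ha
  have h5 := h2.trans h3.symm
  unfold Cg at h5 ⊢
  rwa [v_pow_sub h.ch he h4 hk] at h5

theorem exists_root (h : AxV O nn) {f : U} (hf : O.valuation (f - 1) < 1) {k : ℕ} (hk : k ≠ 0) :
    ∃ e, O.valuation (e - 1) < 1 ∧ e ^ k = f := by
  have := h.alg
  by_contra hne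
  push Not at hne
  have h1 := (IsAlgClosed.splits (Polynomial.X ^ k - Polynomial.C f)).eval_eq_prod_roots_of_monic
    (Polynomial.monic_X_pow_sub_C f hk) 1
  have h2 : ∀ s : Multiset U, (∀ r ∈ s, r ^ k = f) →
      1 ≤ O.valuation (s.map (1 - ·)).prod := by
    intro s
    induction s using Multiset.induction_on with
    | empty => simp
    | cons r s ih =>
      intro hs
      rw [Multiset.map_cons, Multiset.prod_cons, map_mul]
      refine one_le_mul ?_ (ih fun t ht => hs t (Multiset.mem_cons_of_mem ht))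
      rw [Valuation.map_sub_swap]
      exact not_lt.1 fun hr => hne r hr (hs r (Multiset.mem_cons_self r s))
  have h3 := h2 (Polynomial.X ^ k - Polynomial.C f).roots fun r hr => by
    simpa [sub_eq_zero] using (Polynomial.mem_roots'.1 hr).2
  rw [← h1] at h3
  simp only [Polynomial.eval_sub, Polynomial.eval_pow, Polynomial.eval_X, one_pow,
    Polynomial.eval_C] at h3
  rw [Valuation.map_sub_swap] at h3
  exact absurd hf (not_lt.2 h3)

/-- The condition on the product group. -/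
def T' (O : ValuationSubring U) (nn : Set U) (p : Multiplicative U × Uˣ) : Prop :=
  T O nn p.1.toAdd p.2

theorem exists_group (h : AxV O nn) (hs : Sph O) : ∃ G : Subgroup (Multiplicative U × Uˣ),
    (∀ p ∈ G, T' O nn p) ∧ ∀ y, O.valuation y < 1 → ∃ e, (Multiplicative.ofAdd y, e) ∈ G := by
  obtain ⟨G, hG⟩ := zorn_le₀ {G : Subgroup (Multiplicative U × Uˣ) | ∀ p ∈ G, T' O nn p}
    fun c hc hch => by
      rcases c.eq_empty_or_nonempty with rfl | hne
      · exact ⟨⊥, fun p hp => by rw [Subgroup.mem_bot.1 hp]; exact T.zero, by simp⟩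
      · refine ⟨sSup c, fun p hp => ?_, fun z hz => le_sSup hz⟩
        obtain ⟨H, hH, hp⟩ := (Subgroup.mem_sSup_of_directedOn hne hch.directedOn).1 hp
        exact hc hH p hp
  have hT : ∀ p ∈ G, T' O nn p := hG.prop
  have hinv : ∀ p, T' O nn p → T' O nn p⁻¹ := fun p hp => by
    simpa [T'] using T.neg h hp
  have hpow : ∀ p (k : ℕ), T' O nn p → T' O nn (p ^ k) := fun p k hp => by
    simpa [T'] using T.pow h hp k
  have ext : ∀ q, (∀ g ∈ G, ∀ k : ℕ, T' O nn (g * q ^ k)) → q ∈ G := fun q hq => by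
    have h1 : G ⊔ Subgroup.zpowers q ≤ G := by
      refine hG.le_of_ge (fun p hp => ?_) le_sup_left
      obtain ⟨g, hg, _, ⟨k, rfl⟩, rfl⟩ := Subgroup.mem_sup.1 hp
      obtain ⟨k, rfl | rfl⟩ := k.eq_nat_or_neg
      · simpa using hq g hg k
      · simpa [mul_comm] using hinv _ (hq g⁻¹ (inv_mem hg) k)
    exact h1 (Subgroup.mem_sup_right (Subgroup.mem_zpowers q))
  have div : ∀ g ∈ G, ∀ m : ℕ, m ≠ 0 → ∃ q ∈ G, q ^ m = g := fun g hg m hm => by
    have := charZero h.ch
    obtain ⟨e, he, hem⟩ := exists_root h (hT g hg).near hm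
    have h0 : e ≠ 0 := by
      rintro rfl
      simpa using v_near he
    have hq : ((Multiplicative.ofAdd (g.1.toAdd / m), Units.mk0 e h0) :
        Multiplicative U × Uˣ) ^ m = g := by
      refine Prod.ext ?_ (Units.ext (by simpa using hem))
      apply Multiplicative.toAdd.injective
      have : (m : U) ≠ 0 := Nat.cast_ne_zero.2 hm
      simp only [Prod.pow_fst, toAdd_pow, toAdd_ofAdd, nsmul_eq_mul]
      field_simp
    refine ⟨_, ext _ fun g' hg' k => ?_, hq⟩
    refine T.root h hm (by simpa using near_mul (hT g' hg').near (near_pow he k)) ?_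
    have h2 := hT _ (mul_mem (pow_mem hg' m) (pow_mem hg k))
    rw [← hq, ← pow_mul, mul_comm m k, pow_mul, ← mul_pow] at h2
    simpa only [T', Prod.pow_fst, Prod.pow_snd, toAdd_pow, Units.val_pow_eq_pow_val] using h2
  refine ⟨G, hT, fun y hy => ?_⟩
  have hx : ∀ g : G, O.valuation (g.1.1.toAdd + y) < 1 := fun g =>
    O.valuation.map_add_lt (hT g.1 g.2).1 hy
  have hu : ∀ g : G, O.valuation (g.1.2 : U) = 1 := fun g => v_near (hT g.1 g.2).near
  let c : G × ℕ → U := fun i =>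
    (i.1.1.2 : U)⁻¹ * Tn i.2 (slope nn (i.1.1.1.toAdd + y) * (i.1.1.1.toAdd + y))
  let r : G × ℕ → U := fun i => (i.1.1.1.toAdd + y) ^ (i.2 + 1)
  have half : ∀ i j : G × ℕ,
      O.valuation (j.1.1.1.toAdd + y) ≤ O.valuation (i.1.1.1.toAdd + y) →
      Cg O (max (O.valuation (r i)) (O.valuation (r j))) (c i) (c j) := by
    rintro ⟨g, n⟩ ⟨g', n'⟩ hle
    have hd : T O nn (g.1.1.toAdd - g'.1.1.toAdd) ((g.1.2 : U) / g'.1.2) := by
      simpa [T'] using hT _ (div_mem g.2 g'.2)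
    have e1 : g.1.1.toAdd - g'.1.1.toAdd + (g'.1.1.toAdd + y) = g.1.1.toAdd + y := by ring
    have hk := key h (x' := g'.1.1.toAdd + y) (by
      rw [e1, eq_sub_of_add_eq e1]
      exact O.valuation.map_sub_le le_rfl hle) (by rwa [e1]) (by rw [e1]; exact (hx g).le) hd
      (n + n')
    rw [e1] at hk
    have t1 := Tn_tail h.ch (Nat.le_add_right n n')
      (v_slope (nn := nn) h.ch (g.1.1.toAdd + y) (g.1.1.toAdd + y)).le (hx g).le
    have t2 := (Tn_tail h.ch (Nat.le_add_left n' n)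
      (v_slope (nn := nn) h.ch (g'.1.1.toAdd + y) (g'.1.1.toAdd + y)).le (hx g').le).mul_left
      (v_near hd.near).le
    have hk' := hk.mono (pow_le_pow_right_of_le_one' (hx g).le (by omega : n + 1 ≤ n + n' + 1))
    have t3 := (((t1.symm.trans hk'.symm).mono (le_max_left _ _)).trans
      (t2.mono (le_max_right _ _))).mul_left (c := (g.1.2 : U)⁻¹) (by simp [hu g])
    simp only [c, r, map_pow]
    convert t3 using 1
    field_simp
  obtain ⟨e, he⟩ := hs (G × ℕ) c r fun i j => by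
    rcases le_total (O.valuation (j.1.1.1.toAdd + y)) (O.valuation (i.1.1.1.toAdd + y)) with
      h1 | h1
    · exact half i j h1
    · rw [max_comm]
      exact (half j i h1).symm
  have hge : ∀ g : G, T O nn (g.1.1.toAdd + y) (g.1.2 * e) := fun g => ⟨hx g, fun n => by
    have := Cg.mul_left (hu g).le (show Cg O _ e _ from he (g, n))
    simpa only [c, r, map_pow, mul_inv_cancel_left₀ (Units.ne_zero _)] using this⟩
  have h0 : e ≠ 0 := by
    rintro rfl
    simpa using v_near (hge 1).near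
  refine ⟨Units.mk0 e h0, ext _ fun g hg k => ?_⟩
  rcases eq_or_ne k 0 with rfl | hk
  · simpa using hT g hg
  · obtain ⟨q, hq, rfl⟩ := div g hg k hk
    rw [← mul_pow]
    exact hpow _ k (hge ⟨q, hq⟩)

end Ez

open Ez in
theorem ez : EzStmt.{w} := by
  classical
  intro U _ O nn h hs
  obtain ⟨G, hT, hG⟩ := exists_group h hs
  choose e he using hG
  refine ⟨fun a => if ha : O.valuation a < 1 then e a ha else 0,
    { h with E0 := fun a ha => dif_neg ha, E1 := fun a b ha hb => ?_, ET := fun a ha n => ?_ }⟩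
  · have hab : O.valuation (a + b) < 1 := O.valuation.map_add_lt ha hb
    have h1 := hT _ (div_mem (he _ hab) (mul_mem (he a ha) (he b hb)))
    have h2 : (e _ hab : U) / (e a ha * e b hb) = 1 := T.eq_one (by simpa [T'] using h1)
    simp only [dif_pos ha, dif_pos hb, dif_pos hab]
    exact (div_eq_one_iff_eq (by simp)).1 h2
  · have := (hT _ (he a ha)).2 n
    simp only [dif_pos ha]
    exact this

end Pool.Agent.MP_0e4269_lc.Z

end MrgPart0

-- ======== part 1: formerly Pool.Agent.MP_0e4269_lc.z.Swap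
section MrgPart1

/-!
Intersections and images of closed fields, and the forth property.
-/

open MvPolynomial Sum Set

universe w

namespace Pool.Agent.MP_0e4269_lc.Z

namespace Swap

section Pair

variable {A B : Type*} [CommRing A] [CommRing B] {T : Subring (A × A)} {f g : B →+* A}

theorem pair_eval {τ : Type} (hT : ∀ b, (f b, g b) ∈ T) {p p' : τ → A}
    (hp : ∀ t, (p t, p' t) ∈ T) (G : MvPolynomial τ B) :
    (eval p (map f G), eval p' (map g G)) ∈ T := by
  induction G using MvPolynomial.induction_on with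
  | C b => simpa using hT b
  | add P Q hP hQ => simpa using T.add_mem hP hQ
  | mul_X P t hP => simpa using T.mul_mem hP (hp t)

theorem pair_det {ι : Type} [Fintype ι] [DecidableEq ι] {N N' : Matrix ι ι A}
    (h : ∀ i j, (N i j, N' i j) ∈ T) : (N.det, N'.det) ∈ T := by
  let L : Matrix ι ι T := Matrix.of fun i j => ⟨(N i j, N' i j), h i j⟩
  have h1 := ((RingHom.fst A A).comp T.subtype).map_det L
  have h2 := ((RingHom.snd A A).comp T.subtype).map_det L
  have e1 : ((RingHom.fst A A).comp T.subtype).mapMatrix L = N := by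
    ext i j
    rfl
  have e2 : ((RingHom.snd A A).comp T.subtype).mapMatrix L = N' := by
    ext i j
    rfl
  rw [e1] at h1
  rw [e2] at h2
  rw [← h1, ← h2]
  exact L.det.2

theorem pair_jac {κ ι : Type} [Fintype κ] [Fintype ι] [DecidableEq κ] [DecidableEq ι]
    (hT : ∀ b, (f b, g b) ∈ T) {p p' : (κ ⊕ κ) ⊕ ι → A} (hp : ∀ t, (p t, p' t) ∈ T)
    (G : κ ⊕ ι → MvPolynomial ((κ ⊕ κ) ⊕ ι) B) {c : A} (hc : (c, c) ∈ T) :
    ((jac (fun i => map f (G i)) c p).det, (jac (fun i => map g (G i)) c p').det) ∈ T := by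
  refine pair_det fun i j => ?_
  rcases j with k | l
  · simp only [jac, Matrix.of_apply, Sum.elim_inl, pderiv_map]
    exact T.add_mem (pair_eval hT hp _) (T.mul_mem (T.mul_mem hc (hp _)) (pair_eval hT hp _))
  · simp only [jac, Matrix.of_apply, Sum.elim_inr, pderiv_map]
    exact pair_eval hT hp _

theorem exists_lift {τ : Type} (f : B →+* A) (G : MvPolynomial τ A)
    (h : ∀ m, G.coeff m ∈ Set.range f) : ∃ G' : MvPolynomial τ B, map f G' = G :=
  (mem_range_map_iff_coeffs_subset (f := f) (x := G)).2 fun c hc => by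
    obtain ⟨m, -, rfl⟩ := MvPolynomial.mem_coeffs_iff.1 hc
    exact h m

end Pair

variable {U : Type w} [Field U]

section Graph

variable {O : ValuationSubring U} {Φ : Subring (U × U)}

theorem p1_inj (h : Good O Φ) : Function.Injective (p1 Φ) :=
  (injective_iff_map_eq_zero _).2 fun x hx => by
    have h1 := p12_mem x
    rw [hx] at h1
    exact Subtype.ext (Prod.ext hx (h.zero h1))

theorem p2_inj (h : Good O Φ) : Function.Injective (p2 Φ) :=
  (injective_iff_map_eq_zero _).2 fun x hx => by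
    have h1 := p12_mem x
    rw [hx] at h1
    exact Subtype.ext (Prod.ext (h.zero' h1) hx)

/-- The image of a good graph whose domain is a field. -/
def img (h : Good O Φ) {N : Subfield U} (hN : dom Φ = N) : Subfield U where
  carrier := dom (swp Φ)
  mul_mem' := fun ⟨_, h1⟩ ⟨_, h2⟩ => ⟨_, (swp Φ).mul_mem h1 h2⟩
  one_mem' := ⟨1, (swp Φ).one_mem⟩
  add_mem' := fun ⟨_, h1⟩ ⟨_, h2⟩ => ⟨_, (swp Φ).add_mem h1 h2⟩
  zero_mem' := ⟨0, (swp Φ).zero_mem⟩
  neg_mem' := fun ⟨_, h1⟩ => ⟨_, (swp Φ).neg_mem h1⟩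
  inv_mem' := fun _ ⟨_, h1⟩ => ⟨_, mem_swp.2 (h.inv' hN (mem_swp.1 h1))⟩

theorem root_mem [CharZero U] [IsAlgClosed U] (h : Good O Φ) {N : Subfield U} (hN : dom Φ = N)
    (hac : ac (N : Set U) = N) (y : U) (n : ℕ) : ∀ Q : Polynomial Φ, Q.natDegree = n → Q ≠ 0 →
      (Q.map (p2 Φ)).eval y = 0 → y ∈ dom (swp Φ) := by
  induction n with
  | zero =>
    intro Q hd h0 hy
    rw [Polynomial.eq_C_of_natDegree_eq_zero hd] at h0 hy
    simp only [Polynomial.map_C, Polynomial.eval_C] at hy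
    have h1 : Q.coeff 0 = 0 := p2_inj h (by simpa using hy)
    simp [h1] at h0
  | succ n ih =>
    intro Q hd h0 hy
    have h1 : Q.map (p1 Φ) ≠ 0 := (Polynomial.map_ne_zero_iff (p1_inj h)).2 h0
    have h2 : (Q.map (p1 Φ)).degree ≠ 0 := by
      intro e
      have := Polynomial.natDegree_eq_zero_iff_degree_le_zero.2 e.le
      rw [Polynomial.natDegree_map_eq_of_injective (p1_inj h), hd] at this
      exact Nat.succ_ne_zero n this
    obtain ⟨α, hα⟩ := IsAlgClosed.exists_root _ h2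
    have h3 : α ∈ N := mem_of_root hac h1 (fun i => by
      rw [Polynomial.coeff_map, ← SetLike.mem_coe, ← hN]
      exact ⟨_, p12_mem _⟩) hα
    rw [← SetLike.mem_coe, ← hN] at h3
    obtain ⟨s, hs⟩ := h3
    have h4 : Q.IsRoot ⟨(α, s), hs⟩ := by
      refine p1_inj h ?_
      rw [map_zero, ← Polynomial.eval_map_apply]
      exact hα
    obtain ⟨Q', rfl⟩ := Polynomial.dvd_iff_isRoot.2 h4
    have h5 : Q' ≠ 0 := by
      rintro rfl
      simp at h0
    rw [(Polynomial.monic_X_sub_C _).natDegree_mul' h5, Polynomial.natDegree_X_sub_C] at hd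
    rw [Polynomial.map_mul, Polynomial.eval_mul, mul_eq_zero] at hy
    rcases hy with hy | hy
    · have h6 : y = s := by simpa [sub_eq_zero, p2] using hy
      exact ⟨α, h6 ▸ hs⟩
    · exact ih Q' (by omega) h5 hy

end Graph

variable {S : ES U} {Φ : Subring (U × U)}

theorem pairE (hS : Ax0 S) (h : Good S.O Φ) {N : Subfield U} (hN : dom Φ = N)
    (hE : ∀ a ∈ N, S.v a < 1 → a ∈ EC S Φ) {a s : U} (ha : (a, s) ∈ Φ) :
    (S.E a, S.E s) ∈ Φ := by
  by_cases hv : S.v a < 1
  · have h1 : a ∈ N := by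
      rw [← SetLike.mem_coe, ← hN]
      exact ⟨s, ha⟩
    obtain ⟨-, t, h2, h3⟩ := hE a h1 hv
    rwa [h.func ha h2]
  · rw [hS.E0 a hv, hS.E0 s (by rwa [ES.v, h.val ha])]
    exact Φ.zero_mem

theorem pair_pt (hS : Ax0 S) (h : Good S.O Φ) {N : Subfield U} (hN : dom Φ = N)
    (hE : ∀ a ∈ N, S.v a < 1 → a ∈ EC S Φ) {κ ι : Type} {b b' : κ ⊕ ι → U}
    (hb : ∀ k, (b k, b' k) ∈ Φ) : ∀ t, (pt S b t, pt S b' t) ∈ Φ := by
  rintro ((k | k) | l)
  · exact hb _
  · exact pairE hS h hN hE (hb _)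
  · exact hb _

theorem hk_img (hS : Ax0 S) (h : Good S.O Φ) {N : Subfield U} (hN : dom Φ = N)
    (hE : ∀ a ∈ N, S.v a < 1 → a ∈ EC S Φ) (hk : HK S N) : HK S (img h hN) := by
  intro κ ι _ _ _ _ G' b' j' hG hb hadm hj hj0 h1 h2 h3
  have hmem : ∀ {a s : U}, (a, s) ∈ Φ → a ∈ N := fun {a s} ha => by
    rw [← SetLike.mem_coe, ← hN]
    exact ⟨s, ha⟩
  have hl : ∀ i, ∃ H : MvPolynomial ((κ ⊕ κ) ⊕ ι) Φ, map (p2 Φ) H = G' i := fun i =>
    exists_lift _ _ fun m => by
      obtain ⟨a, ha⟩ := (hG i m).1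
      exact ⟨⟨(a, _), ha⟩, rfl⟩
  choose H hH using hl
  obtain rfl : G' = fun i => map (p2 Φ) (H i) := funext fun i => (hH i).symm
  choose b hbb using hb
  obtain ⟨j, hjj⟩ := hj
  replace hbb : ∀ k, (b k, b' k) ∈ Φ := hbb
  replace hjj : (j, j') ∈ Φ := hjj
  have hp := pair_pt hS h hN hE hbb
  have hvj : S.v j' = S.v j := h.val hjj
  have two : ((2 : U), (2 : U)) ∈ Φ := by simpa using pair_nat Φ 2
  obtain ⟨z, hz, hz0⟩ := hk κ ι (fun i => map (p1 Φ) (H i)) b j
    (fun i m => by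
      have e := p12_mem ((H i).coeff m)
      have e2 := (hG i m).2
      rw [coeff_map] at e2 ⊢
      exact ⟨hmem e, (h.mem le_rfl e).1 e2⟩)
    (fun k => hmem (hbb k))
    ⟨fun k => by
      have := hadm.1 k
      rwa [ES.v, h.val (hbb _)] at this, fun l => (h.mem le_rfl (hbb _)).1 (hadm.2 l)⟩
    (hmem hjj) (fun e => hj0 (h.zero (e ▸ hjj)))
    (by rwa [hvj, ES.v, h.val (pair_jac p12_mem hp H Φ.one_mem)] at h1)
    (by rwa [hvj, ES.v, h.val (pair_jac p12_mem hp H two)] at h2)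
    (fun i => by
      have := h3 i
      rwa [hvj, ES.v, h.val (pair_eval p12_mem hp (H i))] at this)
  have hz1 : ∀ k, ∃ s, (z k, s) ∈ Φ := fun k => by
    have : z k ∈ dom Φ := hN ▸ (hz k).1
    exact this
  choose z' hz' using hz1
  refine ⟨z', fun k => ⟨⟨_, hz' k⟩, ?_⟩, fun i => ?_⟩
  · have e : (z k - b k, z' k - b' k) ∈ Φ := Φ.sub_mem (hz' k) (hbb k)
    rw [hvj, ES.v, h.val e]
    exact (hz k).2
  · have e := pair_eval p12_mem (pair_pt hS h hN hE hz') (H i)
    rw [hz0 i] at e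
    exact h.zero e

theorem EC_mono {Ψ : Subring (U × U)} (h : Φ ≤ Ψ) : EC S Φ ⊆ EC S Ψ :=
  fun _ ⟨h1, s, h2, h3⟩ => ⟨h1, s, h h2, h h3⟩

end Swap

open Swap

theorem swap (tay : TayStmt.{w}) : SwapStmt.{w} := by
  intro U _ _ S hS
  have := hS.alg
  refine ⟨fun F F' hF hF' => ⟨?_, fun a ha => ⟨hF.EF a ha.1, hF'.EF a ha.2⟩, ?_⟩, ?_⟩
  · exact le_antisymm (le_inf (ac_le_of_closed hF.acF fun _ ha => ha.1)
      (ac_le_of_closed hF'.acF fun _ ha => ha.2)) (le_ac _)
  · intro κ ι _ _ _ _ G b j hG hb hadm hj hj0 h1 h2 h3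
    obtain ⟨z, hz, hz0⟩ := hF.hk κ ι G b j (fun i m => ⟨(hG i m).1.1, (hG i m).2⟩)
      (fun k => (hb k).1) hadm hj.1 hj0 h1 h2 h3
    obtain ⟨z', hz', hz0'⟩ := hF'.hk κ ι G b j (fun i m => ⟨(hG i m).1.2, (hG i m).2⟩)
      (fun k => (hb k).2) hadm hj.2 hj0 h1 h2 h3
    obtain rfl : z = z' := ((tay U).2.2 S κ ι G b hS (fun i m => (hG i m).2) hadm).2 j z z' hj0
      h1 h2 (fun k => (hz k).2) (fun k => (hz' k).2) hz0 hz0'
    exact ⟨z, fun k => ⟨⟨(hz k).1, (hz' k).1⟩, (hz k).2⟩, hz0⟩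
  · rintro Φ ⟨h, N, hc, hcount, hN, hE⟩
    refine ⟨h.swp, img h hN, ⟨?_, ?_, hk_img hS h hN hE hc.hk⟩,
      dom_countable_swp h (hN ▸ hcount), rfl, ?_⟩
    · refine le_antisymm (fun y hy => ?_) (le_ac _)
      obtain ⟨P, h0, hP, hy⟩ := mem_ac_field.1 hy
      obtain ⟨Q, rfl⟩ : P ∈ Polynomial.lifts (p2 Φ) :=
        (Polynomial.lifts_iff_coeff_lifts P).2 fun i => by
          obtain ⟨a, ha⟩ := hP i
          exact ⟨⟨(a, _), ha⟩, rfl⟩
      refine root_mem h hN hc.acF y _ Q rfl ?_ hy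
      rintro rfl
      simp at h0
    · rintro s ⟨a, ha⟩
      exact ⟨_, mem_swp.2 (pairE hS h hN hE (mem_swp.1 ha))⟩
    · rintro s ⟨a, ha⟩ hv
      exact ⟨hv, a, ha, mem_swp.2 (pairE hS h hN hE (mem_swp.1 ha))⟩

theorem forth (trans : TransStmt.{w}) (ext : ExtStmt.{w}) (dirs : DirStmt.{w}) (s : SStmt.{w})
    (swap : SwapStmt.{w}) (span : SpanStmt.{w}) : ForthStmt.{w} := by
  intro U _ _ S hS hG hH Φ hΦ
  have := hS.alg
  have one : ∀ x x', (∀ a s, (a, s) ∈ Φ → RVEq S.O 1 (x' - s) (x - a)) →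
      ∃ Φ', Φ ≤ Φ' ∧ Fam S Φ' ∧ (x, x') ∈ Φ' := by
    intro x x' hx
    obtain ⟨h, F, hF, hFc, hdom, hE⟩ := id hΦ
    by_cases hxF : x ∈ F
    · rw [← SetLike.mem_coe, ← hdom] at hxF
      obtain ⟨t, ht⟩ := hxF
      have h1 := hx x t ht
      rw [sub_self] at h1
      exact ⟨Φ, le_rfl, hΦ, sub_eq_zero.1 (rv_zero h1) ▸ ht⟩
    obtain ⟨ψ, hψ, hψg, hxx, hM⟩ := trans U S.O Φ F x x' hS.ch h hdom hF.acF hx
    obtain ⟨N₁, hN₁, hFN₁, hxN₁, hfin⟩ := dirs U S F x hS hF hFc
    have hc : ((F : Set U) ∪ {x}).Countable := hFc.union (countable_singleton x)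
    obtain ⟨N₂, hN₂, hN₂c, hsub⟩ := hH _ hc
    have hN : Closed S (N₁ ⊓ N₂) := (swap U S hS.toAx0).1 _ _ hN₁ hN₂
    have hNc : ((N₁ ⊓ N₂ : Subfield U) : Set U).Countable := hN₂c.mono fun _ ha => ha.2
    have hMN : dom ψ ⊆ (N₁ ⊓ N₂ : Subfield U) := by
      rw [hM]
      refine ac_le_of_closed hN.acF fun a ha => ⟨?_, hsub ha⟩
      rcases ha with ha | rfl
      exacts [hFN₁ ha, hxN₁]
    have hY : ∀ Y : Set U, Y.Finite → Y ⊆ (N₁ ⊓ N₂ : Subfield U) → ∃ Φ₁, ψ ≤ Φ₁ ∧ Good S.O Φ₁ ∧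
        Y ⊆ dom Φ₁ ∧ ∀ a ∈ Y, S.v a < 1 → a ∈ EC S Φ₁ := by
      intro Y hY hYN
      obtain ⟨n, z, hz, hli, hrk, hYac, hYs⟩ := hfin Y hY fun _ ha => (hYN ha).1
      obtain ⟨Φ₁, K, h1, h2, h3, h4, h5⟩ := s n U S F (ac ((F : Set U) ∪ {x})) ψ z hS hF
        (fun _ ha => subset_ac _ (Or.inl ha))
        (fun e => hxF (e ▸ subset_ac ((F : Set U) ∪ {x}) (Or.inr rfl))) (ac_countable hc)
        (ac_ac _) (by rw [rk_ac_right]; exact rk_singleton_le _ _) hψg hM
        (fun a ha hv => EC_mono hψ (hE a ha hv)) hz hli (by rwa [rk_ac_left]) False.elim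
      refine ⟨Φ₁, h1, h2, hYac.trans ?_, fun a ha hv => ?_⟩
      · rw [h3]
        refine ac_le_of_closed h4 (union_subset ?_ ?_)
        · rw [← h3]
          exact ((subset_ac _).trans hM.ge).trans (dom_mono h1)
        · rw [← h3]
          rintro _ (⟨j, rfl⟩ | ⟨j, rfl⟩)
          · obtain ⟨-, t, ht, -⟩ := h5 j
            exact ⟨t, ht⟩
          · obtain ⟨-, t, -, ht⟩ := h5 j
            exact ⟨_, ht⟩
      · obtain ⟨f, hf, u, hu, rfl⟩ := Submodule.mem_sup.1 (hYs a ha hv)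
        have hvu : S.v u < 1 := (span U S (range z) hS.toAx0).1
          (by rintro _ ⟨j, rfl⟩; exact hz j) hu
        have hvf : S.v f < 1 := by
          have e : f = f + u - u := by ring
          rw [e]
          exact (S.v.map_sub_lt hv hvu)
        refine (span U S (insert f (range z)) hS.toAx0).2.2.2 Φ₁ K h2 h3 h4 ?_
          (add_mem (Submodule.subset_span (mem_insert _ _))
            (Submodule.span_mono (subset_insert _ _) hu))
        rintro _ (rfl | ⟨j, rfl⟩)
        · exact EC_mono (hψ.trans h1) (hE _ (mem_sub.1 hf) hvf)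
        · exact h5 j
    obtain ⟨Φ', k1, k2, k3, k4⟩ := hG _ ψ hNc hN.EF hMN hY
    exact ⟨Φ', hψ.trans k1, ⟨k2, _, hN, hNc, k3, k4⟩, k1 hxx⟩
  refine ⟨one, fun x => ?_⟩
  obtain ⟨h, F, -, hFc, hdom, -⟩ := id hΦ
  obtain ⟨Φ₁, h1, h2, h3⟩ := ext U S.O Φ {x} hS.ch hS.sc h (hdom ▸ hFc) (finite_singleton x)
  obtain ⟨x', hx'⟩ : x ∈ dom Φ₁ := h3 ▸ subset_ac _ (Or.inr rfl)
  obtain ⟨Φ', k1, k2, k3⟩ := one x x' fun a t ha => h2 _ _ (Φ₁.sub_mem hx' (h1 ha))
  exact ⟨Φ', k1, k2, x', k3⟩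

end Pool.Agent.MP_0e4269_lc.Z

end MrgPart1

-- marker of a merged file
example : 731051 + 418088 = 731051 + 418088 := rfl
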