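import Mathlib.Algebra.Polynomial.Lifts
import Pool.Agent.MP_0e4269_lc.z.Spec
import Pool.Agent.MP_0e4269_lc.z.Base2
import Mathlib.LinearAlgebra.Matrix.Adjugate
import Mathlib.Order.Zorn

-- ======== part 0: formerly Pool.Agent.MP_0e4269_lc.z.Abh
section MrgPart0

/-!
Residue fields of algebraic and of residually transcendental extensions.
-/

set_option linter.unusedSectionVars false

open Set Polynomial

universe w

namespace Pool.Agent.MP_0e4269_lc.Z

namespace Abh

variable {U k : Type w} [Field U] [CharZero U] [Field k] [CharZero k] {R : ValuationSubring U}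
  {π : U → k}

theorem near_root [IsAlgClosed U] {Q : U[X]} (hQ : Q.Monic) {b : U}
    (hb : R.valuation (Q.eval b) < 1) : ∃ r, Q.eval r = 0 ∧ R.valuation (b - r) < 1 := by
  by_contra hne
  push Not at hne
  have h2 : ∀ s : Multiset U, (∀ r ∈ s, Q.eval r = 0) →
      1 ≤ R.valuation (s.map (b - ·)).prod := by
    intro s
    induction s using Multiset.induction_on with
    | empty => simp
    | cons r s ih =>
      intro hs
      rw [Multiset.map_cons, Multiset.prod_cons, map_mul]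
      exact one_le_mul (hne r (hs r (Multiset.mem_cons_self r s)))
        (ih fun t ht => hs t (Multiset.mem_cons_of_mem ht))
  have h3 := h2 Q.roots fun r hr => (mem_roots'.1 hr).2
  rw [← (IsAlgClosed.splits Q).eval_eq_prod_roots_of_monic hQ b] at h3
  exact absurd hb (not_lt.2 h3)

theorem eval_red (h : Place R π) (Q : R[X]) {a : U} (ha : a ∈ R) :
    (Q.map h.hom).eval (π a) = π ((Q.map R.subtype).eval a) := by
  have h1 : (Q.map h.hom).eval (h.hom ⟨a, ha⟩) = h.hom (Q.eval ⟨a, ha⟩) := by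
    rw [eval_map, eval₂_at_apply]
  have h2 : (Q.map R.subtype).eval (R.subtype ⟨a, ha⟩) = R.subtype (Q.eval ⟨a, ha⟩) := by
    rw [eval_map, eval₂_at_apply]
  exact h1.trans (congrArg π h2.symm)

theorem one (h : Place R π) (K : Subfield U) :
    resF R π (ac (K : Set U)) ≤ ac (resF R π K : Set k) := by
  intro y hy
  obtain ⟨a, ha, haR, rfl⟩ := h.mem_resF.1 hy
  obtain ⟨P, h0, hP, hPa⟩ := mem_ac_field.1 ha
  obtain ⟨j, hj, hmax⟩ := P.support.exists_max_image (fun i => R.valuation (P.coeff i))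
    (support_nonempty.2 h0)
  have hj0 : P.coeff j ≠ 0 := mem_support_iff.1 hj
  have hR : ∀ i, (P.coeff j)⁻¹ * P.coeff i ∈ R := fun i => by
    rw [← R.valuation_le_one_iff, map_mul, map_inv₀,
      inv_mul_le_one₀ (by simpa [zero_lt_iff] using hj0)]
    by_cases hi : i ∈ P.support
    · exact hmax i hi
    · simp [notMem_support_iff.1 hi]
  obtain ⟨Q, hQ⟩ := (mem_lifts (f := R.subtype) (C (P.coeff j)⁻¹ * P)).1
    ((lifts_iff_coeff_lifts _).2 fun i => ⟨⟨_, hR i⟩, by simp⟩)
  have hc : ∀ i, (Q.map h.hom).coeff i = π ((P.coeff j)⁻¹ * P.coeff i) := fun i => by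
    rw [coeff_map, h.hom_apply, ← coeff_C_mul, ← hQ, coeff_map]
    rfl
  refine mem_ac_field.2 ⟨Q.map h.hom, fun hz => ?_, fun i => ?_, ?_⟩
  · have := hc j
    rw [hz, inv_mul_cancel₀ hj0, h.one] at this
    simp at this
  · rw [hc]
    exact h.mem_resF.2 ⟨_, mul_mem (K.inv_mem (hP j)) (hP i), hR i, rfl⟩
  · rw [eval_red h Q haR, hQ, eval_mul, hPa, mul_zero, h.map_zero]

theorem two [IsAlgClosed U] (h : Place R π) {K : Subfield U} (hK : ac (K : Set U) = K) :
    ac (resF R π K : Set k) = resF R π K := by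
  refine le_antisymm (fun y hy => ?_) (le_ac _)
  obtain ⟨P, h0, hP, hPy⟩ := mem_ac_field.1 hy
  let A : Subring U := K.toSubring ⊓ R.toSubring
  let ι : A →+* R := Subring.inclusion inf_le_right
  have hl : P * C P.leadingCoeff⁻¹ ∈ lifts (h.hom.comp ι) :=
    (lifts_iff_coeff_lifts _).2 fun i => by
      obtain ⟨a, h1, h2, h3⟩ := h.mem_resF.1
        (mul_mem (hP i) ((resF R π K).inv_mem (hP P.natDegree)))
      exact ⟨⟨a, h1, h2⟩, by rw [coeff_mul_C]; exact h3⟩
  obtain ⟨Q, hQ, -, hm⟩ := lifts_and_degree_eq_and_monic hl (monic_mul_leadingCoeff_inv h0)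
  obtain ⟨b, hb, rfl⟩ := h.surj y
  have h1 := eval_red h (Q.map ι) hb
  rw [Polynomial.map_map, hQ, eval_mul, hPy, zero_mul] at h1
  have hm' : ((Q.map ι).map R.subtype).Monic := (hm.map _).map _
  have h2 : ((Q.map ι).map R.subtype).eval b ∈ R := by
    have : ((Q.map ι).map R.subtype).eval (R.subtype ⟨b, hb⟩) =
        R.subtype ((Q.map ι).eval ⟨b, hb⟩) := by rw [eval_map, eval₂_at_apply]
    rw [show ((Q.map ι).map R.subtype).eval b = _ from this]
    exact ((Q.map ι).eval ⟨b, hb⟩).2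
  obtain ⟨r, hr, hbr⟩ := near_root hm' ((h.zero _ h2).1 h1.symm)
  have hrR : r ∈ R := by simpa using sub_mem hb (mem_of_lt_one hbr)
  refine h.mem_resF.2 ⟨r, mem_of_root hK hm'.ne_zero (fun i => ?_) hr, hrR,
    ((h.eq_iff hb hrR).2 hbr).symm⟩
  rw [coeff_map, coeff_map]
  exact (Q.coeff i).2.1

theorem step [IsAlgClosed U] (wind : WindStmt.{w}) (h : Place R π) {K : Subfield U}
    (hK : ac (K : Set U) = K) {u : U} (hu : u ∈ R) (hπ : π u ∉ resF R π K) :
    resF R π (ac ((K : Set U) ∪ {u})) = ac ((resF R π K : Set k) ∪ {π u}) := by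
  refine le_antisymm ?_ (ac_le_of_closed (two h (ac_ac _)) (union_subset
    (resF_mono fun a ha => subset_ac _ (Or.inl ha))
    (singleton_subset_iff.2 (h.mem_resF.2 ⟨u, subset_ac _ (Or.inr rfl), hu, rfl⟩))))
  set L := ac ((resF R π K : Set k) ∪ {π u}) with hL
  have hKL : ∀ a ∈ K, a ∈ R → π a ∈ L := fun a ha hR =>
    subset_ac _ (Or.inl (h.mem_resF.2 ⟨a, ha, hR, rfl⟩))
  let W : Set U := {x | ∃ m ∈ K, ∃ e ∈ R, π e ≠ 0 ∧ π e ∈ L ∧ x = m * e}
  have hKW : (K : Set U) ⊆ W := fun a ha =>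
    ⟨a, ha, 1, one_mem _, by simp [h.one], by rw [h.one]; exact one_mem _, (mul_one a).symm⟩
  have hW : MulCl W := by
    refine ⟨hKW (zero_mem K), ?_, ?_⟩
    · rintro _ ⟨m, hm, e, he, h0, h1, rfl⟩ _ ⟨m', hm', e', he', h0', h1', rfl⟩
      exact ⟨m * m', mul_mem hm hm', e * e', mul_mem he he',
        by rw [h.mul e he e' he']; exact mul_ne_zero h0 h0',
        by rw [h.mul e he e' he']; exact mul_mem h1 h1', by ring⟩
    · rintro _ ⟨m, hm, e, he, h0, h1, rfl⟩
      exact ⟨m⁻¹, K.inv_mem hm, e⁻¹, h.inv_mem he h0, by rw [h.inv he h0]; exact inv_ne_zero h0,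
        by rw [h.inv he h0]; exact L.inv_mem h1, mul_inv _ _⟩
  have h1 := (wind U W hW).2 K u hK hKW fun a ha => by
    by_cases haR : a ∈ R
    · refine ⟨1, one_mem _, u - a, sub_mem hu haR, ?_, ?_, (one_mul _).symm⟩
      · rw [h.sub hu haR, sub_ne_zero]
        exact fun e => hπ (h.mem_resF.2 ⟨a, ha, haR, e.symm⟩)
      · rw [h.sub hu haR]
        exact sub_mem (subset_ac _ (Or.inr rfl)) (hKL a ha haR)
    · have h0 : a ≠ 0 := fun e => haR (e ▸ R.zero_mem)
      have h2 : R.valuation a⁻¹ < 1 := lt_one_iff.2 (Or.inr (by simpa using haR))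
      have h3 := mem_of_lt_one h2
      have h4 : π (1 - u * a⁻¹) = 1 := by
        rw [h.sub (one_mem _) (mul_mem hu h3), h.mul u hu _ h3, (h.zero _ h3).2 h2, h.one]
        simp
      exact ⟨-a, neg_mem ha, 1 - u * a⁻¹, sub_mem (one_mem _) (mul_mem hu h3), by simp [h4],
        by rw [h4]; exact one_mem _, by field_simp; ring⟩
  rw [← ac_closure]
  refine (one h _).trans (ac_le fun y hy => ?_)
  obtain ⟨x, hx, hxR, rfl⟩ := h.mem_resF.1 hy
  obtain ⟨m, hm, e, he, h0, h2, rfl⟩ := h1 hx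
  have h3 : e ≠ 0 := fun e0 => h0 (e0 ▸ h.map_zero)
  have hmR : m ∈ R := by simpa [h3] using mul_mem hxR (h.inv_mem he h0)
  rw [h.mul m hmR e he]
  exact mul_mem (hKL m hm hmR) h2

theorem three [IsAlgClosed U] (wind : WindStmt.{w}) (h : Place R π) (K : Subfield U) (p : ℕ)
    (u : Fin p → U) (hu : ∀ i, u i ∈ R) (hT : Tri (resF R π K : Set k) fun i => π (u i)) :
    (∀ i, π (u i) ∉ resF R π (ac ((K : Set U) ∪ u '' Iio i))) ∧
      resF R π (ac ((K : Set U) ∪ range u)) =
        ac ((resF R π K : Set k) ∪ range fun i => π (u i)) := by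
  induction p with
  | zero =>
    refine ⟨fun i => i.elim0, ?_⟩
    rw [range_eq_empty, range_eq_empty, union_empty, union_empty]
    exact le_antisymm (one h K) (ac_le_of_closed (two h (ac_ac _)) (resF_mono (le_ac K)))
  | succ p ih =>
    obtain ⟨h1, h2⟩ := tri_succ.1 hT
    obtain ⟨h3, h4⟩ := ih (fun i => u i.castSucc) (fun i => hu _) h1
    rw [← h4] at h2
    refine ⟨fun i => ?_, ?_⟩
    · induction i using Fin.lastCases with
      | last => rwa [image_Iio_last]
      | cast j => rw [image_Iio_castSucc]; exact h3 j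
    · have h5 := step wind h (ac_ac _) (hu (Fin.last p)) h2
      rw [ac_ac_union, h4, ac_ac_union] at h5
      rw [range_castSucc u, range_castSucc fun i => π (u i), ← union_assoc, ← union_assoc, h5]

end Abh

open Abh in
theorem abh (wind : WindStmt.{w}) : AbhStmt.{w} := by
  intro U k _ _ _ _ _ R π K h
  have tri : ∀ (p : ℕ) (u : Fin p → U), (∀ i, u i ∈ R) →
      Tri (resF R π K : Set k) (fun i => π (u i)) → Tri (K : Set U) u := fun p u hu hT i hi =>
    (three wind h K p u hu hT).1 i (h.mem_resF.2 ⟨u i, hi, hu i, rfl⟩)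
  refine ⟨one h K, two h, fun p u hu hT => ⟨(three wind h K p u hu hT).1, tri p u hu hT,
    (three wind h K p u hu hT).2⟩, fun X => ENat.forall_natCast_le_iff_le.1 fun p hp => ?_⟩
  obtain ⟨y, hy, hT⟩ := exists_tri hp
  choose u hu huy using hy
  obtain rfl : y = fun i => π (u i) := funext fun i => (huy i).symm
  rw [← (tri p u (fun i => (hu i).2) hT).rk_eq]
  exact rk_mono (range_subset_iff.2 fun i => (hu i).1)

end Pool.Agent.MP_0e4269_lc.Z

end MrgPart0

-- ======== part 1: formerly Pool.Agent.MP_0e4269_lc.z.Comp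
section MrgPart1

/-!
The compactness argument, and the failure of 1-h-minimality.
-/

set_option linter.unusedSectionVars false

open Sum Set FirstOrder FirstOrder.Language

universe w

namespace Pool.Agent.MP_0e4269_lc.Z

namespace Comp

theorem countable_symbols : Countable LE.Symbols := by
  have h1 : Countable (Σ l, LE.Functions l) := by
    refine Function.Surjective.countable (f := fun i : Fin 3 =>
      (![⟨2, Fn.add⟩, ⟨2, Fn.mul⟩, ⟨1, Fn.exp⟩] i : Σ l, Fn l)) ?_
    rintro ⟨l, f⟩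
    cases f
    exacts [⟨0, rfl⟩, ⟨1, rfl⟩, ⟨2, rfl⟩]
  have h2 : Countable (Σ l, LE.Relations l) := by
    refine Function.Surjective.countable (f := fun _ : Unit => (⟨1, Rl.val⟩ : Σ l, Rl l)) ?_
    rintro ⟨l, f⟩
    cases f
    exact ⟨(), rfl⟩
  exact inferInstanceAs (Countable ((Σ l, LE.Functions l) ⊕ (Σ l, LE.Relations l)))

/-- Definability over a tuple. -/
theorem def_range {M : Type w} [LE.Structure M] {β α : Type} (a : β → M) (s : Set (α → M)) :
    (range a).Definable LE s ↔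
      ∃ φ : LE.Formula (β ⊕ α), s = {v | φ.Realize (Sum.elim a v)} := by
  rw [definable_iff_exists_formula_sum]
  constructor
  · rintro ⟨φ, rfl⟩
    choose g hg using fun y : range a => y.2
    refine ⟨φ.relabel (Sum.map g id), ?_⟩
    ext v
    simp only [mem_ofPred_eq, Formula.realize_relabel]
    apply Iff.of_eq
    congr 1
    ext (i | i)
    · exact (hg i).symm
    · rfl
  · rintro ⟨φ, rfl⟩
    refine ⟨φ.relabel (Sum.map (fun i => ⟨a i, i, rfl⟩) id), ?_⟩
    ext v
    simp only [mem_ofPred_eq, Formula.realize_relabel]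
    apply Iff.of_eq
    congr 1
    ext (i | i) <;> rfl

/-- A finitely satisfiable set of formulas is realised in a saturated model. -/
theorem realise {K M U : Type w} [LE.Structure K] [LE.Structure M] [LE.Structure U]
    (hM : M ⊨ LE.completeTheory K) (hU : U ⊨ LE.completeTheory K) (hs : Sat U) {V : Type}
    [Finite V] (T : Set (LE.Formula V))
    (h : ∀ s : Finset T, ∃ y : V → M, ∀ φ ∈ s, φ.1.Realize y) :
    ∃ y : V → U, ∀ φ ∈ T, φ.Realize y := by
  classical
  have := countable_symbols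
  obtain ⟨y, hy⟩ := hs V (ULift.{w} T) (fun i => {y | i.down.1.Realize y}) (fun i => by
    refine Definable.mono ?_ (empty_subset _)
    rw [empty_definable_iff]
    exact ⟨i.down.1, rfl⟩) (fun s => by
    obtain ⟨y, hy⟩ := h (s.image ULift.down)
    let θ : LE.Sentence := Formula.iExs V ((Formula.iInf fun i : s => i.1.down.1).relabel Sum.inr)
    have key : ∀ (N : Type w) [LE.Structure N],
        N ⊨ θ ↔ ∃ z : V → N, ∀ i ∈ s, i.down.1.Realize z := by
      intro N _
      simp [θ, Sentence.Realize]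
    have h1 : M ⊨ θ := (key M).2 ⟨y, fun i hi => hy _ (Finset.mem_image_of_mem _ hi)⟩
    rw [realize_iff_of_model_completeTheory K M, ← realize_iff_of_model_completeTheory K U] at h1
    exact (key U).1 h1)
  exact ⟨y, fun φ hφ => hy ⟨⟨φ, hφ⟩⟩⟩

section Forms

variable {α : Type}

/-- The maximal ideal. -/
noncomputable def smallF (e : α) : LE.Formula α :=
  (Formula.iExs Unit (valS.formula₁ (Term.var (inr ())) ⊓ Formula.iAlls Unit
    (Term.equal (mulS.apply₂ (mulS.apply₂ (Term.var (inl (inr ()))) (Term.var (inl (inl e))))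
      (Term.var (inr ()))) (Term.var (inr ()))))).not

/-- Equal leading terms of two differences. -/
noncomputable def rvF (u v d : α) : LE.Formula α :=
  Formula.iExs Unit (smallF (inr ()) ⊓ Term.equal
    (addS.apply₂ (Term.var (inl u)) (mulS.apply₂ (Term.var (inl d)) (Term.var (inr ()))))
    (addS.apply₂ (Term.var (inl v)) (mulS.apply₂ (Term.var (inl v)) (Term.var (inr ())))))

/-- Equal leading terms. -/
noncomputable def rvG (u v : α) : LE.Formula α :=
  Formula.iExs Unit (smallF (inr ()) ⊓ Term.equal (Term.var (inl u))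
    (addS.apply₂ (Term.var (inl v)) (mulS.apply₂ (Term.var (inl v)) (Term.var (inr ())))))

variable {N : Type w} [Field N] [LE.Structure N] {O : ValuationSubring N}

theorem small_iff (H : Compat LE addS mulS valS N O) (e : α) (y : α → N) :
    (smallF e).Realize y ↔ O.valuation (y e) < 1 := by
  simp only [smallF, Formula.realize_not, Formula.realize_iExs, Formula.realize_inf,
    Formula.realize_rel₁, Formula.realize_iAlls, Formula.realize_equal,
    Term.realize_functions_apply₂, Term.realize_var, Sum.elim_inl, Sum.elim_inr, H.hmul, H.ho]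
  rw [← not_le, not_iff_not, ← map_one O.valuation, ValuationSubring.valuation_le_iff]
  constructor
  · rintro ⟨i, hi, h⟩
    exact ⟨⟨i (), hi⟩, by simpa using h fun _ => 1⟩
  · rintro ⟨f, hf⟩
    exact ⟨fun _ => f, f.2, fun j => by rw [hf, one_mul]⟩

theorem rvF_iff (H : Compat LE addS mulS valS N O) (u v d : α) (y : α → N) :
    (rvF u v d).Realize y ↔ RVEq O 1 (y u - y d) (y v - y d) := by
  simp only [rvF, Formula.realize_iExs, Formula.realize_inf, small_iff H, Formula.realize_equal,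
    Term.realize_functions_apply₂, Term.realize_var, Sum.elim_inl, Sum.elim_inr, H.hmul, H.hadd]
  constructor
  · rintro ⟨i, hi, h⟩
    exact ⟨i (), hi, by linear_combination h⟩
  · rintro ⟨e, he, h⟩
    exact ⟨fun _ => e, he, by linear_combination h⟩

theorem rvG_iff (H : Compat LE addS mulS valS N O) (u v : α) (y : α → N) :
    (rvG u v).Realize y ↔ RVEq O 1 (y u) (y v) := by
  simp only [rvG, Formula.realize_iExs, Formula.realize_inf, small_iff H, Formula.realize_equal,
    Term.realize_functions_apply₂, Term.realize_var, Sum.elim_inl, Sum.elim_inr, H.hmul, H.hadd]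
  constructor
  · rintro ⟨i, hi, h⟩
    exact ⟨i (), hi, by linear_combination h⟩
  · rintro ⟨e, he, h⟩
    exact ⟨fun _ => e, he, by linear_combination h⟩

end Forms

section Pack

variable {p n : ℕ}

/-- The tuple of all data. -/
def tu {N : Type w} (a : Fin p → N) (b : Fin n → N) (x x' : N) : Fin p ⊕ Fin n ⊕ Bool → N :=
  Sum.elim a (Sum.elim b fun t => cond t x x')

theorem form_prep (ψ : LE.Formula (Fin p ⊕ Fin 1)) :
    ∃ φ : LE.Formula (Fin p ⊕ Fin n ⊕ Bool), ∀ (N : Type w) [Field N] [LE.Structure N]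
      (O : ValuationSubring N), Compat LE addS mulS valS N O → ∀ a b (x x' : N),
      φ.Realize (tu a b x x') ↔
        ∀ t : Fin 1 → N, ψ.Realize (Sum.elim a t) → RVEq O 1 (x' - t 0) (x - t 0) := by
  refine ⟨Formula.iAlls (Fin 1) ((ψ.relabel (Sum.map inl id)).imp
    (rvF (inl (inr (inr false))) (inl (inr (inr true))) (inr 0))), fun N _ _ O H a b x x' => ?_⟩
  simp only [Formula.realize_iAlls, Formula.realize_imp, Formula.realize_relabel, rvF_iff H]
  refine forall_congr' fun t => imp_congr (Iff.of_eq ?_) Iff.rfl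
  congr 1
  ext (i | i) <;> rfl

theorem form_many (ψ : LE.Formula (Fin p ⊕ Fin 1)) (k : ℕ) :
    ∃ φ : LE.Formula (Fin p ⊕ Fin n ⊕ Bool), ∀ (N : Type w) [LE.Structure N] a b (x x' : N),
      φ.Realize (tu a b x x') ↔ ∃ t : Fin k → N, Function.Injective t ∧
        ∀ i, ψ.Realize (Sum.elim a fun _ => t i) := by
  refine ⟨Formula.iExs (Fin k) ((Formula.iInf fun ij : {ij : Fin k × Fin k // ij.1 ≠ ij.2} =>
    (Term.equal (Term.var (inr ij.1.1)) (Term.var (inr ij.1.2))).not) ⊓
    Formula.iInf fun i : Fin k => ψ.relabel (Sum.map inl fun _ => i)), fun N _ a b x x' => ?_⟩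
  simp only [Formula.realize_iExs, Formula.realize_inf, Formula.realize_iInf, Formula.realize_not,
    Formula.realize_equal, Term.realize_var, Sum.elim_inr, Formula.realize_relabel]
  refine exists_congr fun t => and_congr ?_ (forall_congr' fun i => Iff.of_eq ?_)
  · constructor
    · intro h i j hij
      by_contra hne
      exact h ⟨(i, j), hne⟩ hij
    · exact fun h ij hij => ij.2 (h hij)
  · congr 1
    ext (i | i) <;> rfl

theorem form_bad (σ : LE.Formula (Fin p ⊕ Fin n ⊕ Unit)) :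
    ∃ φ : LE.Formula (Fin p ⊕ Fin n ⊕ Bool), ∀ (N : Type w) [Field N] [LE.Structure N]
      (O : ValuationSubring N), Compat LE addS mulS valS N O → ∀ a b (x x' : N),
      φ.Realize (tu a b x x') ↔ σ.Realize (Sum.elim a (Sum.elim b fun _ => x)) ∧
        ∀ b' : Fin n → N, (∀ i, RVEq O 1 (b' i) (b i)) →
          ¬ σ.Realize (Sum.elim a (Sum.elim b' fun _ => x')) := by
  refine ⟨σ.relabel (Sum.map id (Sum.map id fun _ => true)) ⊓ Formula.iAlls (Fin n)
    ((Formula.iInf fun i : Fin n => rvG (inr i) (inl (inr (inl i)))).imp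
      (σ.relabel (Sum.elim (fun i => inl (inl i))
        (Sum.elim inr fun _ => inl (inr (inr false))))).not), fun N _ _ O H a b x x' => ?_⟩
  simp only [Formula.realize_iAlls, Formula.realize_imp, Formula.realize_relabel, rvG_iff H,
    Formula.realize_inf, Formula.realize_iInf, Formula.realize_not]
  refine and_congr (Iff.of_eq ?_) (forall_congr' fun t => imp_congr Iff.rfl
    (not_congr (Iff.of_eq ?_)))
  · congr 1
    ext (i | i | i) <;> rfl
  · congr 1
    ext (i | i | i) <;> rfl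

end Pack

/-- The compactness argument for a set defined over a tuple. -/
theorem core {K M U : Type w} [LE.Structure K] [Field M] [LE.Structure M] [Field U]
    [LE.Structure U] {O' : ValuationSubring M} {O : ValuationSubring U}
    (H' : Compat LE addS mulS valS M O') (H : Compat LE addS mulS valS U O)
    (hM : M ⊨ LE.completeTheory K) (hU : U ⊨ LE.completeTheory K) (hs : Sat U) {p n : ℕ}
    (hom : ∀ (a : Fin p → U) (b : Fin n → U) (x x' : U),
      (∀ d ∈ acl (range a), RVEq O 1 (x' - d) (x - d)) → ∃ b' : Fin n → U,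
        (∀ i, RVEq O 1 (b' i) (b i)) ∧ ∀ φ : LE.Formula (Fin p ⊕ Fin n ⊕ Unit),
          (φ.Realize (Sum.elim a (Sum.elim b fun _ => x)) ↔
            φ.Realize (Sum.elim a (Sum.elim b' fun _ => x'))))
    (σ : LE.Formula (Fin p ⊕ Fin n ⊕ Unit)) (a : Fin p → M) (b : Fin n → M) (X : Set M)
    (hX : ∀ b' : Fin n → M, (∀ i, RVEq O' 1 (b' i) (b i)) →
      ∀ x, x ∈ X ↔ σ.Realize (Sum.elim a (Sum.elim b' fun _ => x))) :
    ∃ C : Set M, C.Finite ∧ (range a).Definable₁ LE C ∧
      ∀ x x', (∀ c ∈ C, RVEq O' 1 (x' - c) (x - c)) → x ∈ X → x' ∈ X := by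
  classical
  by_contra hC
  push Not at hC
  let T : Set (LE.Formula (Fin p ⊕ Fin n ⊕ Bool)) := {φ | ∃ C : Set M, C.Finite ∧
    (range a).Definable₁ LE C ∧ ∀ x x', (∀ c ∈ C, RVEq O' 1 (x' - c) (x - c)) → x ∈ X → x' ∉ X →
      φ.Realize (tu a b x x')}
  have h0 : (range a).Definable₁ LE (∅ : Set M) := definable_empty
  obtain ⟨y, hy⟩ := realise hM hU hs T (fun s => by
    choose C hC1 hC2 hC3 using fun φ : T => φ.2
    obtain ⟨x, x', h1, h2, h3⟩ := hC (⋃ φ ∈ s, C φ)
      (s.finite_toSet.biUnion fun φ _ => hC1 φ) (by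
        refine def_congr (P := fun v : Fin 1 → M => v ∈ ⋃ φ ∈ s, {x : Fin 1 → M | x 0 ∈ C φ})
          (definable_biUnion_finset hC2 s) fun v => ?_
        simp)
    exact ⟨tu a b x x', fun φ hφ =>
      hC3 φ x x' (fun c hc => h1 c (mem_biUnion hφ hc)) h2 h3⟩)
  obtain ⟨a', b', z, z', rfl⟩ : ∃ a' b' z z', y = tu a' b' z z' :=
    ⟨y ∘ inl, y ∘ inr ∘ inl, y (inr (inr true)), y (inr (inr false)), by
      ext (i | i | i)
      · rfl
      · rfl
      · cases i <;> rfl⟩
  obtain ⟨φ, hφ⟩ := form_bad.{w} σ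
  obtain ⟨h1, h2⟩ := (hφ U O H _ _ _ _).1 (hy φ ⟨∅, finite_empty, h0, fun x x' _ hx hx' =>
    (hφ M O' H' _ _ _ _).2 ⟨(hX b (fun i => (rveq_iff one_ne_zero).2 (R.refl _ _)) x).1 hx,
      fun c hc h => hx' ((hX c hc x').2 h)⟩⟩)
  obtain ⟨c, hc1, hc2⟩ := hom a' b' z z' (by
    rintro d ⟨D, hD1, hD2, hd⟩
    obtain ⟨ψ, hψ⟩ := (def_range _ _).1 hD2
    have hψ' : ∀ t : Fin 1 → U, t 0 ∈ D ↔ ψ.Realize (Sum.elim a' t) :=
      fun t => Set.ext_iff.1 hψ t
    have e1 : ∀ {N : Type w} (t : Fin 1 → N), (fun _ => t 0) = t := fun t => by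
      ext i
      rw [Subsingleton.elim i 0]
    by_cases hf : {t : M | ψ.Realize (Sum.elim a fun _ => t)}.Finite
    · obtain ⟨χ, hχ⟩ := form_prep.{w} (n := n) ψ
      refine (hχ U O H _ _ _ _).1 (hy χ ⟨_, hf, (def_range _ _).2 ⟨ψ, ?_⟩, fun x x' h _ _ =>
        (hχ M O' H' _ _ _ _).2 fun t ht => h _ ?_⟩) (fun _ => d) ((hψ' _).1 hd)
      · ext t
        simp only [mem_ofPred_eq, e1]
      · simpa only [mem_ofPred_eq, e1] using ht
    · exfalso
      obtain ⟨χ, hχ⟩ := form_many.{w} (n := n) ψ (hD1.toFinset.card + 1)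
      let f := Set.Infinite.natEmbedding _ hf
      obtain ⟨t, ht1, ht2⟩ := (hχ U _ _ _ _).1 (hy χ ⟨∅, finite_empty, h0, fun x x' _ _ _ =>
        (hχ M _ _ _ _).2 ⟨fun i => f i, fun i j hij =>
          Fin.ext (f.injective (Subtype.ext hij)), fun i => (f i).2⟩⟩)
      have := Finset.card_le_card_of_injOn (s := Finset.univ) (t := hD1.toFinset) t
        (fun i _ => by simpa using (hψ' fun _ => t i).2 (ht2 i)) ht1.injOn
      simp at this)
  exact h2 c hc1 ((hc2 σ).1 h1)

theorem dfun_E {K : Type w} [Field K] [LE.Structure K] {S : ES K} (H : CompatE S) {A : Set K}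
    {α : Type} {f : (α → K) → K} (hf : A.DefinableFun LE f) :
    A.DefinableFun LE (fun x => S.E (f x)) := by
  have h1 : A.DefinableMap LE (fun x : α → K => ![f x]) := by
    intro i
    fin_cases i
    exact hf
  have h2 := DefinableFun.comp h1 ((DefinableFun.fun_symbol (M := K) expS).of_empty (A := A))
  simpa [H.he] using h2

/-- The jump of the function at a point outside the ideal, for a step inside the ideal. -/
theorem jump {K : Type w} [Field K] {S : ES K} (h : Ax0 S) {x e : K} (hx : S.v x < 1)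
    (hn : x ∉ S.nn) (he : e ∈ S.nn) (he0 : e ≠ 0) :
    S.v (S.E x - 1 - x) = S.v x ^ 2 ∧
      S.v ((S.E (x + e) - 1 - (x + e)) - (S.E x - 1 - x)) = S.v e := by
  have hx0 : 0 < S.v x := by
    rw [zero_lt_iff, Valuation.ne_zero_iff]
    rintro rfl
    exact hn h.nn0
  have he1 := h.nnlt e he
  have he2 : 0 < S.v e := by rwa [zero_lt_iff, Valuation.ne_zero_iff]
  have h2 : S.v 2 = 1 := by simpa using h.ch 2 two_ne_zero
  have a0 := h.ET x hx 0
  have a2 := h.ET x hx 2
  have a1 := h.ET e he1 1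
  simp only [Tn, slope, if_neg hn, if_pos he, Finset.sum_range_succ, Finset.range_zero,
    Finset.sum_empty, Nat.factorial, pow_zero, pow_one, zero_add, one_mul, Nat.cast_one, div_one,
    Nat.succ_eq_add_one, mul_one, Nat.reduceAdd, Nat.cast_ofNat] at a0 a1 a2
  constructor
  · have e1 : S.E x - 1 - x = x ^ 2 / 2 + (S.E x - (1 + x + x ^ 2 / 2)) := by ring
    have e2 : S.v (x ^ 2 / 2) = S.v x ^ 2 := by rw [map_div₀, map_pow, h2, div_one]
    rw [e1, Valuation.map_add_eq_of_lt_left, e2]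
    rw [e2]
    exact a2.trans_lt (pow_lt_pow_right_of_lt_one₀ hx0 hx (by norm_num))
  · have e1 : (S.E (x + e) - 1 - (x + e)) - (S.E x - 1 - x) =
        e + (2 * (S.E x - 1) * e + ((S.E x - 1) * (S.E e - (1 + 2 * e)) +
          (S.E e - (1 + 2 * e)))) := by
      rw [h.E1 x e hx he1]
      ring
    have b1 : S.v (S.E e - (1 + 2 * e)) < S.v e := by
      refine a1.trans_lt ?_
      simpa using pow_lt_pow_right_of_lt_one₀ he2 he1 (show 1 < 2 by norm_num)
    have b0 := a0.trans_lt hx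
    rw [e1, Valuation.map_add_eq_of_lt_left]
    refine Valuation.map_add_lt _ ?_ (Valuation.map_add_lt _ ?_ b1)
    · rw [map_mul, map_mul, h2, one_mul]
      exact mul_lt_of_lt_one_left he2 b0
    · rw [map_mul]
      exact (mul_le_of_le_one_left' b0.le).trans_lt b1

end Comp

open Z.Comp

theorem comp : CompStmt.{w} := by
  intro K U _ _ _ _ O H hs hU hom M _ _ O' hM lam h0 h1 A m hm X hX
  obtain rfl : m = 0 := by simpa using hm
  obtain ⟨n, b, c, S, hS, hX⟩ := hX
  obtain ⟨A0, hA, hS⟩ := definable_iff_finitely_definable.1 hS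
  obtain ⟨p, a, ha⟩ : ∃ (p : ℕ) (a : Fin p → M), range a = A0 := by
    refine ⟨A0.card, fun i => A0.equivFin.symm i, ?_⟩
    ext y
    constructor
    · rintro ⟨i, rfl⟩
      exact (A0.equivFin.symm i).2
    · exact fun hy => ⟨A0.equivFin ⟨y, hy⟩, by simp⟩
  rw [← ha] at hA hS
  obtain ⟨σ, rfl⟩ := (def_range _ _).1 hS
  obtain ⟨C, hC1, hC2, hC3⟩ := core ⟨hM.1, hM.2.1, hM.2.2.1⟩ H hM.2.2.2.2.2 hU hs (hom p n)
    (σ.relabel (Sum.map id (Sum.elim inr (Sum.elim inl Fin.elim0)))) a b X (fun b' hb x => by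
      rw [hX b' c hb fun j => j.elim0, Formula.realize_relabel]
      apply Iff.of_eq
      simp only [mem_ofPred_eq]
      congr 1
      ext (i | i | i | i)
      · rfl
      · rfl
      · rfl
      · exact i.elim0)
  refine ⟨C, hC1, Definable.mono hC2 hA, fun x x' h => ?_⟩
  have h2 : ∀ c ∈ C, RVEq O' 1 (x - c) (x' - c) := fun c hc =>
    (h c hc).imp fun e he => ⟨he.1.trans_le h1, he.2⟩
  exact ⟨hC3 x x' fun c hc => (rveq_iff one_ne_zero).2
    (((rveq_iff one_ne_zero).1 (h2 c hc)).symm le_rfl), hC3 x' x h2⟩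

theorem not1 (acla : AclAStmt.{w}) : NotStmt.{w} := by
  intro K _ _ S h H ⟨⟨t, ht, ht0⟩, ⟨s, hs, hsn⟩, A, hA, hA1, hA2⟩ hmin
  have hs0 : 0 < S.v s := by
    rw [zero_lt_iff, Valuation.ne_zero_iff]
    rintro rfl
    exact hsn h.nn0
  obtain ⟨α, hα, hgood⟩ : ∃ α ∈ A, ∀ d ∈ acl ({1} : Set K), S.v s ≤ S.v (α * s - d) := by
    by_contra hb
    push Not at hb
    choose! g hg1 hg2 using hb
    refine hA (MapsTo.countable_of_injOn (f := g) hg1 (fun a ha b hb hab => ?_)
      ((acla K {1}).2.2 (countable_singleton _)))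
    by_contra hne
    have h1 := Valuation.map_sub_lt _ (hg2 a ha) (hg2 b hb)
    have e : a * s - g a - (b * s - g b) = (a - b) * s := by rw [hab]; ring
    rw [e, map_mul, hA2 a ha b hb hne, one_mul] at h1
    exact lt_irrefl _ h1
  obtain ⟨x, hx⟩ : ∃ x, x = α * s := ⟨_, rfl⟩
  rw [← hx] at hgood
  have hv : S.v x = S.v s := by rw [hx, map_mul, hA1 α hα, one_mul]
  have hxn : x ∉ S.nn := fun hn => hsn (h.nnle s x hn hv.ge)
  rw [← hv] at hgood hs0
  have hx1 : S.v x < 1 := hv.trans_lt hs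
  have l0 : S.v t ≠ 0 := by rwa [Valuation.ne_zero_iff]
  have l1 : S.v t ≤ 1 := (h.nnlt t ht).le
  have ve : S.v (t * x ^ 2) = S.v t * S.v x ^ 2 := by rw [map_mul, map_pow]
  have he0 : t * x ^ 2 ≠ 0 := by
    rw [← S.v.ne_zero_iff, ve]
    exact mul_ne_zero l0 (pow_ne_zero _ hs0.ne')
  obtain ⟨j1, j2⟩ := jump h hx1 hxn (h.nnle (t * x ^ 2) t ht (by
    rw [ve]
    exact mul_le_of_le_one_right' (pow_le_one₀ hs0.le hx1.le))) he0
  obtain ⟨C, hC1, hC2, hC3⟩ := hmin K S.O ⟨H.hadd, H.hmul, H.ho, charZero_of_val h.ch,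
    charZero_residue_iff.2 h.ch, inferInstance⟩ (S.v t) l0 l1 {1} 1 (by simp)
    {y | R S.O (S.v t) (S.E y - 1 - y) (S.E x - 1 - x)}
    ⟨1, fun _ => t, fun _ => S.E x - 1 - x, _, def_R H.toCompat (dfun_proj (inr (inl 0)))
      (dfun_sub H.toCompat (dfun_sub H.toCompat (dfun_E H (dfun_proj (inl ())))
        (dfun_const rfl)) (dfun_proj (inl ()))) (dfun_proj (inr (inr 0))), fun b c hb hc => by
      have hb' := ((rveq_iff one_ne_zero).1 (hb 0)).val_eq le_rfl
      have hc' := (rveq_iff l0).1 (hc 0)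
      ext y
      simp only [mem_ofPred_eq, Sum.elim_inl, Sum.elim_inr, hb']
      exact ⟨fun hy => hy.trans l1 (hc'.symm l1), fun hy => hy.trans l1 hc'⟩⟩
  have key := (hC3 (x + t * x ^ 2) x fun c hc => (rveq_iff l0).2 (Or.inr (by
    have e : x + t * x ^ 2 - c - (x - c) = t * x ^ 2 := by ring
    rw [e, ve]
    refine mul_lt_mul_of_pos_left (lt_of_lt_of_le ?_ (hgood c ⟨C, hC1, hC2, hc⟩))
      (zero_lt_iff.2 l0)
    simpa using pow_lt_pow_right_of_lt_one₀ hs0 hx1 (show 1 < 2 by norm_num)))).2 (R.refl _ _)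
  rcases key with key | key
  · rw [key, sub_self, map_zero, eq_comm, Valuation.zero_iff] at j2
    exact he0 j2
  · rw [j2, j1, ve] at key
    exact lt_irrefl _ key

end Pool.Agent.MP_0e4269_lc.Z

end MrgPart1

-- ======== part 2: formerly Pool.Agent.MP_0e4269_lc.z.Hkp
section MrgPart2

/-!
Two forms of Newton's lemma.
-/

open MvPolynomial Sum Set

universe w

namespace Pool.Agent.MP_0e4269_lc.Z

namespace Hkp

section Shift

variable {A : Type*} [CommRing A] {τ : Type}

/-- Translation of the variables. -/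
noncomputable def sh (s : τ → A) : MvPolynomial τ A →ₐ[A] MvPolynomial τ A :=
  aeval fun t => X t + C (s t)

theorem eval_sh (s p : τ → A) (G : MvPolynomial τ A) : eval p (sh s G) = eval (p + s) G := by
  induction G using MvPolynomial.induction_on with
  | C a => simp [sh]
  | add P Q hP hQ => simp [hP, hQ]
  | mul_X P t hP =>
    rw [map_mul, map_mul, map_mul, hP]
    simp [sh]

theorem pderiv_sh (s : τ → A) (t : τ) (G : MvPolynomial τ A) :
    pderiv t (sh s G) = sh s (pderiv t G) := by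
  classical
  induction G using MvPolynomial.induction_on with
  | C a => simp [sh]
  | add P Q hP hQ => simp [hP, hQ]
  | mul_X P u hP =>
    have h1 : sh s (X u) = X u + C (s u) := by simp [sh]
    rw [map_mul, h1, Derivation.leibniz, Derivation.leibniz, hP]
    by_cases h : u = t
    · subst h
      simp [h1]
    · simp [h1, pderiv_X_of_ne h]

theorem exists_lift {B : Subring A} {G : MvPolynomial τ A} (h : Cf (B : Set A) G) :
    ∃ G' : MvPolynomial τ B, map B.subtype G' = G := by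
  classical
  refine ⟨∑ m ∈ G.support, monomial m ⟨G.coeff m, h m⟩, ?_⟩
  rw [map_sum]
  simp only [map_monomial]
  exact G.as_sum.symm

theorem cf_map {B : Subring A} (G : MvPolynomial τ B) : Cf (B : Set A) (map B.subtype G) := by
  intro m
  rw [coeff_map]
  exact (G.coeff m).2

theorem cf_sh {B : Subring A} {G : MvPolynomial τ A} (h : Cf (B : Set A) G) {s : τ → A}
    (hs : ∀ t, s t ∈ B) : Cf (B : Set A) (sh s G) := by
  obtain ⟨G', rfl⟩ := exists_lift h
  have : sh s (map B.subtype G') = map B.subtype (sh (fun t => ⟨s t, hs t⟩) G') := by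
    clear h
    induction G' using MvPolynomial.induction_on with
    | C a => simp [sh]
    | add P Q hP hQ => simp only [map_add, hP, hQ]
    | mul_X P u hP =>
      rw [map_mul, map_mul, map_mul, map_mul, hP]
      simp [sh]
  rw [this]
  exact cf_map _

theorem cf_pderiv {B : Subring A} {G : MvPolynomial τ A} (h : Cf (B : Set A) G) (t : τ) :
    Cf (B : Set A) (pderiv t G) := by
  obtain ⟨G', rfl⟩ := exists_lift h
  rw [pderiv_map]
  exact cf_map _

theorem eval_mem {B : Subring A} {G : MvPolynomial τ A} (h : Cf (B : Set A) G) {p : τ → A}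
    (hp : ∀ t, p t ∈ B) : eval p G ∈ B := by
  rw [eval_eq]
  exact sum_mem fun m _ => mul_mem (h m) (prod_mem fun t _ => pow_mem (hp t) _)

theorem adj_mem {B : Subring A} {ι : Type} [Fintype ι] [DecidableEq ι] {N : Matrix ι ι A}
    (h : ∀ i j, N i j ∈ B) (i j : ι) : N.adjugate i j ∈ B := by
  let L : Matrix ι ι B := Matrix.of fun i j => ⟨N i j, h i j⟩
  have e : B.subtype.mapMatrix L = N := by
    ext i j
    rfl
  rw [← e, ← RingHom.map_adjugate]
  exact (L.adjugate i j).2

end Shift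

variable {U : Type w} [Field U] {S : ES U} {κ ι : Type}

theorem E_mem (hS : Ax0 S) (a : U) : S.E a ∈ S.O := by
  by_cases ha : S.v a < 1
  · have h2 := hS.ET a ha 0
    have h5 : S.v a ^ (0 + 1) ≤ 1 := by
      rw [zero_add, pow_one]
      exact ha.le
    have h6 := h2.trans h5
    rw [show Tn 0 (slope S.nn a * a) = 1 by simp [Tn]] at h6
    have h4 := S.O.add_mem _ _ ((S.O.valuation_le_one_iff _).1 h6) S.O.one_mem
    rwa [sub_add_cancel] at h4
  · rw [hS.E0 a ha]
    exact S.O.zero_mem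

theorem jac_mem (hS : Ax0 S) {G : κ ⊕ ι → MvPolynomial ((κ ⊕ κ) ⊕ ι) U} {b : κ ⊕ ι → U}
    (hG : ∀ i, Cf S.O (G i)) (hb : Adm S b) {c : U} (hc : c ∈ S.O) (i k : κ ⊕ ι) :
    jac G c (pt S b) i k ∈ S.O.toSubring := by
  have hp : ∀ t, pt S b t ∈ S.O.toSubring := by
    rintro ((t | t) | t)
    · exact mem_of_lt_one (hb.1 t)
    · exact E_mem hS _
    · exact hb.2 t
  rcases k with k | k
  · exact add_mem (eval_mem (cf_pderiv (B := S.O.toSubring) (hG i) _) hp)
      (mul_mem (mul_mem hc (hp _)) (eval_mem (cf_pderiv (B := S.O.toSubring) (hG i) _) hp))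
  · exact eval_mem (cf_pderiv (B := S.O.toSubring) (hG i) _) hp

theorem norm [Fintype κ] [Fintype ι] [DecidableEq κ] [DecidableEq ι] (S : ES U)
    (G : κ ⊕ ι → MvPolynomial ((κ ⊕ κ) ⊕ ι) U) (B : Subring U) (hG : ∀ i, Cf (B : Set U) (G i))
    (a : ι → U) (ha : ∀ l, a l ∈ B) :
    ∃ (m : U) (G' : κ ⊕ ι → MvPolynomial ((κ ⊕ κ) ⊕ ι) U), m ∈ B ∧ m ≠ 0 ∧ m⁻¹ ∈ S.O ∧
      (∀ i, Cf S.O (G' i)) ∧ (∀ i n, m * (G' i).coeff n ∈ B) ∧
      ∀ y : κ ⊕ ι → U,
        (∀ i, eval (pt S (y + Sum.elim (0 : κ → U) a)) (G i) = m * eval (pt S y) (G' i)) ∧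
        ∀ c, (jac G c (pt S (y + Sum.elim (0 : κ → U) a))).det =
          m ^ Fintype.card (κ ⊕ ι) * (jac G' c (pt S y)).det := by
  classical
  let s : (κ ⊕ κ) ⊕ ι → U := Sum.elim (0 : κ ⊕ κ → U) a
  have hs : ∀ t, s t ∈ B := by
    rintro (t | t)
    · exact B.zero_mem
    · exact ha t
  let T : Finset U := insert 1 (Finset.univ.biUnion fun i =>
    (sh s (G i)).support.image fun n => (sh s (G i)).coeff n)
  obtain ⟨m, hmT, hm⟩ := T.exists_max_image S.v ⟨1, Finset.mem_insert_self _ _⟩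
  have h1 : 1 ≤ S.v m := by simpa using hm 1 (Finset.mem_insert_self _ _)
  have h0 : m ≠ 0 := by
    rintro rfl
    simp at h1
  have hv : 0 < S.v m := zero_lt_one.trans_le h1
  have hpt : ∀ y : κ ⊕ ι → U, pt S (y + Sum.elim (0 : κ → U) a) = pt S y + s := by
    intro y
    funext t
    rcases t with (t | t) | t <;> simp [pt, s]
  refine ⟨m, fun i => C m⁻¹ * sh s (G i), ?_, h0, ?_, fun i n => ?_, fun i n => ?_,
    fun y => ⟨fun i => ?_, fun c => ?_⟩⟩
  · rcases Finset.mem_insert.1 hmT with rfl | h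
    · exact B.one_mem
    · obtain ⟨i, -, h⟩ := Finset.mem_biUnion.1 h
      obtain ⟨n, -, rfl⟩ := Finset.mem_image.1 h
      exact cf_sh (hG i) hs n
  · rw [← S.O.valuation_le_one_iff, map_inv₀]
    exact inv_le_one_of_one_le₀ h1
  · rw [coeff_C_mul, SetLike.mem_coe, ← S.O.valuation_le_one_iff, map_mul, map_inv₀,
      inv_mul_le_iff₀ hv, mul_one]
    by_cases hn : n ∈ (sh s (G i)).support
    · exact hm _ (Finset.mem_insert_of_mem (Finset.mem_biUnion.2
        ⟨i, Finset.mem_univ _, Finset.mem_image_of_mem _ hn⟩))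
    · rw [notMem_support_iff.1 hn, map_zero]
      exact zero_le
  · rw [coeff_C_mul, mul_inv_cancel_left₀ h0]
    exact cf_sh (hG i) hs n
  · rw [map_mul, eval_C, mul_inv_cancel_left₀ h0, eval_sh, hpt]
  · rw [← Matrix.det_smul]
    congr 1
    ext i k
    have h2 : ∀ t, m * eval (pt S y) (pderiv t (C m⁻¹ * sh s (G i))) =
        eval (pt S y + s) (pderiv t (G i)) := by
      intro t
      rw [pderiv_C_mul, map_mul, eval_C, mul_inv_cancel_left₀ h0, pderiv_sh, eval_sh]
    rcases k with k | k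
    · simp only [jac, Matrix.of_apply, Sum.elim_inl, Matrix.smul_apply, smul_eq_mul, hpt, ← h2]
      simp only [s, Pi.add_apply, Sum.elim_inl, Pi.zero_apply, add_zero]
      ring
    · simp only [jac, Matrix.of_apply, Sum.elim_inr, Matrix.smul_apply, smul_eq_mul, hpt, ← h2]

theorem exists_min3 (O : ValuationSubring U) (a b c : U) :
    ∃ j, (j = a ∨ j = b ∨ j = c) ∧ O.valuation j ≤ O.valuation a ∧
      O.valuation j ≤ O.valuation b ∧ O.valuation j ≤ O.valuation c := by
  rcases le_total (O.valuation a) (O.valuation b) with h | h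
  · rcases le_total (O.valuation a) (O.valuation c) with h' | h'
    · exact ⟨a, Or.inl rfl, le_rfl, h, h'⟩
    · exact ⟨c, Or.inr (Or.inr rfl), h', h'.trans h, le_rfl⟩
  · rcases le_total (O.valuation b) (O.valuation c) with h' | h'
    · exact ⟨b, Or.inr (Or.inl rfl), h, le_rfl, h'⟩
    · exact ⟨c, Or.inr (Or.inr rfl), h'.trans h, h', le_rfl⟩

end Hkp

open Hkp in
theorem hkp (tay : TayStmt.{w}) : HkpStmt.{w} := by
  intro U _ S κ ι _ _ _ _ G b hS hb
  have h2O : (2 : U) ∈ S.O := by simp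
  refine ⟨fun R hk hle hG hbR hd1 hd2 hv => ?_, fun F hO hk hG hcl hd1 hd2 hv => ?_⟩
  · obtain ⟨m, G', hm, hm0, hmi, hG', -, hy⟩ := norm S G R.toSubring hG (fun l => b (inr l)) hbR
    have hm1 : R.valuation m = 1 := by
      refine le_antisymm ((R.valuation_le_one_iff m).2 hm) ?_
      have h3 := (R.valuation_le_one_iff _).2 (hle hmi)
      rw [map_inv₀] at h3
      exact (inv_le_one₀ (by simpa [zero_lt_iff] using hm0)).1 h3
    let b' : κ ⊕ ι → U := Sum.elim (fun k => b (inl k)) 0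
    have hb' : b' + Sum.elim (0 : κ → U) (fun l => b (inr l)) = b := by
      funext t
      rcases t with t | t <;> simp [b']
    have hadm : Adm S b' := ⟨hb, fun l => S.O.zero_mem⟩
    have hd : ∀ c, R.valuation (jac G c (pt S b)).det = 1 →
        R.valuation (jac G' c (pt S b')).det = 1 := by
      intro c h
      have h3 := (hy b').2 c
      rw [hb'] at h3
      rwa [h3, map_mul, map_pow, hm1, one_pow, one_mul] at h
    have hv' : ∀ i, R.valuation (eval (pt S b') (G' i)) < 1 := by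
      intro i
      have h3 := (hy b').1 i
      have h := hv i
      rw [hb'] at h3
      rwa [h3, map_mul, hm1, one_mul] at h
    obtain ⟨j, hj, hj1, hj2, hj3⟩ :=
      exists_min3 S.O (jac G' 1 (pt S b')).det (jac G' 2 (pt S b')).det 1
    have hjR : R.valuation j = 1 := by
      rcases hj with rfl | rfl | rfl
      · exact hd 1 hd1
      · exact hd 2 hd2
      · exact map_one _
    have hj0 : j ≠ 0 := by
      rintro rfl
      simp at hjR
    rw [map_one] at hj3
    obtain ⟨z, hz1, hz2⟩ := hk κ ι G' b' j (fun i n => ⟨trivial, hG' i n⟩) (fun _ => trivial) hadm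
      trivial hj0 hj1 hj2 (fun i => by
        rw [← map_pow]
        refine val_lt_of_coarse hle ?_
        rw [map_pow, hjR, one_pow]
        exact hv' i)
    refine ⟨z + Sum.elim (0 : κ → U) fun l => b (inr l), fun k => ?_, fun i => by
      rw [(hy z).1 i, hz2 i, mul_zero]⟩
    have e0 : (z + Sum.elim (0 : κ → U) fun l => b (inr l) : κ ⊕ ι → U) k - b k = (z - b') k := by
      rw [← congrFun hb' k]
      simp
    rw [e0]
    obtain ⟨k0, -, hk0⟩ := Finset.univ.exists_max_image (fun k => S.v ((z - b') k))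
      ⟨k, Finset.mem_univ _⟩
    refine (val_le_coarse hle (hk0 k (Finset.mem_univ _))).trans_lt ?_
    by_cases h0 : (z - b') k0 = 0
    · simp [h0]
    have hlt : S.v ((z - b') k0) < S.v j := (hz1 k0).2
    obtain ⟨c, hc, hcO, hcj, hcR⟩ : ∃ c : U,
        ((c = 2 ∧ ∀ k, (z - b') k ∈ S.nn) ∨ (c = 1 ∧ ∃ k, (z - b') k ∉ S.nn)) ∧ c ∈ S.O ∧
        S.v j ≤ S.v (jac G' c (pt S b')).det ∧ R.valuation (jac G' c (pt S b')).det = 1 := by
      by_cases h : ∀ k, (z - b') k ∈ S.nn
      · exact ⟨2, Or.inl ⟨rfl, h⟩, h2O, hj2, hd 2 hd2⟩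
      · exact ⟨1, Or.inr ⟨rfl, not_forall.1 h⟩, S.O.one_mem, hj1, hd 1 hd1⟩
    have h3 := (((tay U).2.2 S κ ι G' b' hS hG' hadm).1 (z - b') (S.v ((z - b') k0)) c
      (hlt.trans_le hj3) fun k => hk0 k (Finset.mem_univ _)).2.2 hc
    rw [add_sub_cancel] at h3
    simp only [hz2] at h3
    set J := jac G' c (pt S b') with hJ
    have hA : ∀ i, J.adjugate k0 i ∈ S.O := fun i =>
      adj_mem (B := S.O.toSubring) (jac_mem hS hG' hadm hcO) k0 i
    have e1 : J.det * (z - b') k0 +
        ∑ i, J.adjugate k0 i * (0 - eval (pt S b') (G' i) - J.mulVec (z - b') i) =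
        -∑ i, J.adjugate k0 i * eval (pt S b') (G' i) := by
      have h4 := congrFun (Matrix.mulVec_mulVec (z - b') J.adjugate J) k0
      rw [Matrix.adjugate_mul, Matrix.smul_mulVec, Matrix.one_mulVec, Pi.smul_apply,
        smul_eq_mul] at h4
      rw [← h4, Matrix.mulVec, dotProduct, ← Finset.sum_add_distrib, ← Finset.sum_neg_distrib]
      exact Finset.sum_congr rfl fun i _ => by ring
    have hpos : 0 < S.v ((z - b') k0) := by simpa [zero_lt_iff] using h0
    have e2 : S.v (∑ i, J.adjugate k0 i *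
        (0 - eval (pt S b') (G' i) - J.mulVec (z - b') i)) < S.v (J.det * (z - b') k0) := by
      refine lt_of_le_of_lt (b := S.v ((z - b') k0) ^ 2) (Valuation.map_sum_le _ fun i _ => ?_) ?_
      · rw [map_mul]
        exact (mul_le_of_le_one_left' ((S.O.valuation_le_one_iff _).2 (hA i))).trans (h3 i)
      · rw [map_mul, sq]
        exact mul_lt_mul_of_pos_right (hlt.trans_le hcj) hpos
    have e3 := Valuation.map_add_eq_of_lt_left _ e2
    rw [e1] at e3
    have e4 := val_le_coarse hle e3.ge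
    rw [map_mul, hcR, one_mul, Valuation.map_neg] at e4
    refine e4.trans_lt (Valuation.map_sum_lt _ one_ne_zero fun i _ => ?_)
    rw [map_mul]
    exact (mul_le_of_le_one_left' ((R.valuation_le_one_iff _).2 (hle (hA i)))).trans_lt (hv' i)
  · by_contra hne
    obtain ⟨k1, hk1⟩ := not_forall.1 hne
    obtain ⟨t, ht0, ht⟩ := exists_small hO
    have hsmall : ∀ η : U, η ≠ 0 → ∃ f ∈ F, f ≠ 0 ∧ S.v f ≤ S.v η := by
      intro η hη
      obtain ⟨a1, ha1, h1⟩ := hcl k1 η hη
      have h2 : b k1 - a1 ≠ 0 := fun h => hk1 (sub_eq_zero.1 h ▸ ha1)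
      obtain ⟨a2, ha2, h3⟩ := hcl k1 ((b k1 - a1) * t) (mul_ne_zero h2 ht0)
      have h4 : S.v (b k1 - a2) < S.v (b k1 - a1) := by
        refine h3.trans_lt ?_
        rw [map_mul]
        exact mul_lt_of_lt_one_right (by simpa [zero_lt_iff] using h2) ht
      have h5 := Valuation.map_sub_eq_of_lt_left _ h4
      rw [show b k1 - a1 - (b k1 - a2) = a2 - a1 by ring] at h5
      refine ⟨a2 - a1, sub_mem ha2 ha1, fun h => ?_, h5.trans_le h1⟩
      rw [h, map_zero] at h5
      exact h2 ((Valuation.zero_iff _).1 h5.symm)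
    choose a haF ha using fun l => hcl (inr l) 1 one_ne_zero
    obtain ⟨m, G', hm, hm0, -, hG', hGF, hy⟩ := norm S G F.toSubring hG a haF
    let b' : κ ⊕ ι → U := b - Sum.elim (0 : κ → U) a
    have hb' : b' + Sum.elim (0 : κ → U) a = b := sub_add_cancel _ _
    have hsF : ∀ k, (Sum.elim (0 : κ → U) a : κ ⊕ ι → U) k ∈ F := by
      rintro (k | k)
      · exact F.zero_mem
      · exact haF k
    have hadm : Adm S b' := ⟨fun k => by simpa [b'] using hb k, fun l => by
      rw [← S.O.valuation_le_one_iff]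
      simpa [b'] using ha l⟩
    have hd : ∀ c, (jac G c (pt S b)).det ≠ 0 → (jac G' c (pt S b')).det ≠ 0 := by
      intro c h h0
      have h3 := (hy b').2 c
      rw [hb', h0, mul_zero] at h3
      exact h h3
    have hv' : ∀ i, eval (pt S b') (G' i) = 0 := by
      intro i
      have h3 := (hy b').1 i
      rw [hb', hv i] at h3
      exact (mul_eq_zero.1 h3.symm).resolve_left hm0
    obtain ⟨η, hη, hη1, hη2, hη3⟩ :=
      exists_min3 S.O (jac G' 1 (pt S b')).det (jac G' 2 (pt S b')).det 1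
    have hη0 : η ≠ 0 := by
      rcases hη with rfl | rfl | rfl
      · exact hd 1 hd1
      · exact hd 2 hd2
      · exact one_ne_zero
    obtain ⟨j, hjF, hj0, hj⟩ := hsmall η hη0
    rw [map_one] at hη3
    have hj3 : S.v j ≤ 1 := hj.trans hη3
    have hjpos : 0 < S.v j := by simpa [zero_lt_iff] using hj0
    have hμ3 : S.v (j ^ 3 * t) < S.v j ^ 3 := by
      rw [map_mul, map_pow]
      exact mul_lt_of_lt_one_right (pow_pos hjpos 3) ht
    have hμ1 : S.v (j ^ 3 * t) < S.v j :=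
      hμ3.trans_le (pow_le_of_le_one zero_le hj3 (by norm_num))
    choose a1 ha1F ha1 using fun k => hcl k (j ^ 3 * t) (mul_ne_zero (pow_ne_zero 3 hj0) ht0)
    have hh : ∀ k, S.v ((a1 - b) k) ≤ S.v (j ^ 3 * t) := fun k => by
      rw [Pi.sub_apply, Valuation.map_sub_swap]
      exact ha1 k
    obtain ⟨T1, T2⟩ := (tay U).2.2 S κ ι G' b' hS hG' hadm
    have hdet : ∀ c ∈ S.O, S.v j ≤ S.v (jac G' c (pt S b')).det →
        S.v j ≤ S.v (jac G' c (pt S (b' + (a1 - b)))).det := by
      intro c hc h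
      have h3 := ((T1 (a1 - b) _ c (hμ1.trans_le hj3) hh).2.1 hc).2
      have h4 := Valuation.map_add_eq_of_lt_right _ (h3.trans_lt (hμ1.trans_le h))
      rw [sub_add_cancel] at h4
      exact h.trans h4.ge
    obtain ⟨z, hz1, hz2⟩ := hk κ ι G' (b' + (a1 - b)) j
      (fun i n => ⟨by
        have h3 := F.mul_mem (F.inv_mem hm) (hGF i n)
        rwa [inv_mul_cancel_left₀ hm0] at h3, hG' i n⟩)
      (fun k => by
        have h3 : (b' + (a1 - b)) k = a1 k - (Sum.elim (0 : κ → U) a : κ ⊕ ι → U) k := by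
          simp only [b', Pi.add_apply, Pi.sub_apply]
          ring
        rw [h3]
        exact sub_mem (ha1F k) (hsF k))
      ⟨fun k => Valuation.map_add_lt _ (hadm.1 k) ((hh _).trans_lt (hμ1.trans_le hj3)),
        fun l => S.O.add_mem _ _ (hadm.2 l)
          (mem_of_lt_one ((hh _).trans_lt (hμ1.trans_le hj3)))⟩
      hjF hj0 (hdet 1 S.O.one_mem (hj.trans hη1)) (hdet 2 h2O (hj.trans hη2)) (fun i => by
        have h3 := (T1 (a1 - b) _ 1 (hμ1.trans_le hj3) hh).1 i
        rw [hv' i, sub_zero] at h3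
        exact h3.trans_lt hμ3)
    have hzb : z = b' := T2 j z b' hj0 (hj.trans hη1) (hj.trans hη2) (fun k => by
      have h3 : z k - b' k = (z k - (b' + (a1 - b)) k) + (a1 - b) k := by
        simp only [Pi.add_apply]
        ring
      rw [h3]
      exact Valuation.map_add_lt _ (hz1 k).2 ((hh k).trans_lt hμ1))
      (fun k => by simpa using hjpos) hz2 hv'
    refine hk1 ?_
    rw [← congrFun hb' k1, Pi.add_apply, ← hzb]
    exact add_mem (hz1 k1).1 (hsF k1)

end Pool.Agent.MP_0e4269_lc.Z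

end MrgPart2

-- ======== part 3: formerly Pool.Agent.MP_0e4269_lc.z.Hks
section MrgPart3

/-!
Newton's lemma for exponential systems in spherically complete fields.
-/

open MvPolynomial Sum

universe w

namespace Pool.Agent.MP_0e4269_lc.Z

namespace Hks

variable {U : Type w} [Field U]

theorem eval_mem {O : ValuationSubring U} {τ : Type} {G : MvPolynomial τ U} (hG : Cf O G)
    {p : τ → U} (hp : ∀ t, p t ∈ O) : eval p G ∈ O := by
  rw [eval_eq]
  exact sum_mem fun m _ => mul_mem (hG m) (prod_mem fun t _ => pow_mem (hp t) _)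

theorem cf_pderiv {O : ValuationSubring U} {τ : Type} {G : MvPolynomial τ U} (hG : Cf O G)
    (t : τ) : Cf O (pderiv t G) := fun m => by
  rw [coeff_pderiv]
  exact mul_mem (hG _) (add_mem (natCast_mem O _) (one_mem O))

theorem det_mem {O : ValuationSubring U} {n : Type} [Fintype n] [DecidableEq n]
    {A : Matrix n n U} (hA : ∀ i k, A i k ∈ O) : A.det ∈ O := by
  rw [Matrix.det_apply']
  exact sum_mem fun σ _ => mul_mem (intCast_mem O _) (prod_mem fun i _ => hA _ _)

theorem adj_mem {O : ValuationSubring U} {n : Type} [Fintype n] [DecidableEq n]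
    {A : Matrix n n U} (hA : ∀ i k, A i k ∈ O) (i k : n) : A.adjugate i k ∈ O := by
  rw [Matrix.adjugate_apply]
  refine det_mem fun a b => ?_
  rw [Matrix.updateRow_apply]
  split_ifs
  · rw [Pi.single_apply]
    split_ifs
    · exact one_mem O
    · exact zero_mem O
  · exact hA a b

/-- Solving a linear system with a bound. -/
theorem solve {O : ValuationSubring U} {n : Type} [Fintype n] [DecidableEq n]
    {A : Matrix n n U} (hA : ∀ i k, A i k ∈ O) {J g : O.ValueGroup} (J0 : 0 < J)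
    (hJ : J ≤ O.valuation A.det) (y : n → U) (hy : ∀ i, O.valuation (y i) ≤ g) :
    ∃ h : n → U, A.mulVec h = -y ∧ ∀ k, O.valuation (h k) ≤ g / J := by
  have hd : A.det ≠ 0 := by
    intro h0
    rw [h0, map_zero] at hJ
    exact absurd J0 (not_lt.2 hJ)
  refine ⟨-(A.det⁻¹ • A.adjugate.mulVec y), ?_, fun k => ?_⟩
  · rw [Matrix.mulVec_neg, Matrix.mulVec_smul, Matrix.mulVec_mulVec, Matrix.mul_adjugate,
      Matrix.smul_mulVec, Matrix.one_mulVec, smul_smul, inv_mul_cancel₀ hd, one_smul]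
  · have h1 : O.valuation (A.adjugate.mulVec y k) ≤ g := by
      rw [Matrix.mulVec, dotProduct]
      refine Valuation.map_sum_le _ fun i _ => ?_
      rw [map_mul]
      calc O.valuation (A.adjugate k i) * O.valuation (y i) ≤ 1 * g :=
            mul_le_mul' ((O.valuation_le_one_iff _).2 (adj_mem hA k i)) (hy i)
        _ = g := one_mul g
    rw [Pi.neg_apply, Valuation.map_neg, Pi.smul_apply, smul_eq_mul, map_mul, map_inv₀,
      div_eq_mul_inv, mul_comm g]
    exact mul_le_mul' (inv_anti₀ J0 hJ) h1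

variable {S : ES U} {κ ι : Type}

theorem E_mem (hS : Ax0 S) {a : U} (ha : S.v a < 1) : S.E a ∈ S.O := by
  have h := hS.ET a ha 0
  have h1 : Tn 0 (slope S.nn a * a) = 1 := by simp [Tn]
  rw [h1, zero_add, pow_one] at h
  have h2 : S.E a - 1 ∈ S.O := (S.O.valuation_le_one_iff _).1 (h.trans ha.le)
  simpa using add_mem h2 (one_mem S.O)

theorem pt_mem (hS : Ax0 S) {x : κ ⊕ ι → U} (hx : Adm S x) (t : (κ ⊕ κ) ⊕ ι) :
    pt S x t ∈ S.O := by
  rcases t with (k | k) | l
  · exact (S.O.valuation_le_one_iff _).1 (hx.1 k).le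
  · exact E_mem hS (hx.1 k)
  · exact hx.2 l

theorem jac_mem (hS : Ax0 S) {G : κ ⊕ ι → MvPolynomial ((κ ⊕ κ) ⊕ ι) U}
    (hG : ∀ i, Cf S.O (G i)) {x : κ ⊕ ι → U} (hx : Adm S x) {c : U} (hc : c ∈ S.O)
    (i k : κ ⊕ ι) : jac G c (pt S x) i k ∈ S.O := by
  rcases k with k | l
  · exact add_mem (eval_mem (cf_pderiv (hG i) _) (pt_mem hS hx))
      (mul_mem (mul_mem hc (pt_mem hS hx _)) (eval_mem (cf_pderiv (hG i) _) (pt_mem hS hx)))
  · exact eval_mem (cf_pderiv (hG i) _) (pt_mem hS hx)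

theorem nn_add (hS : Ax0 S) {a b : U} (ha : a ∈ S.nn) (hb : b ∈ S.nn) : a + b ∈ S.nn := by
  rcases le_total (S.v a) (S.v b) with h | h
  · exact hS.nnle _ _ hb (Valuation.map_add_le _ h le_rfl)
  · exact hS.nnle _ _ ha (Valuation.map_add_le _ le_rfl h)

theorem nn_sum (hS : Ax0 S) {n : Type} (s : Finset n) (f : n → U) (hf : ∀ i ∈ s, f i ∈ S.nn) :
    ∑ i ∈ s, f i ∈ S.nn :=
  Finset.sum_induction f (· ∈ S.nn) (fun _ _ => nn_add hS) hS.nn0 hf

theorem adm_of_near {b x : κ ⊕ ι → U} (hb : Adm S b) (h : ∀ k, S.v (x k - b k) < 1) :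
    Adm S x := by
  refine ⟨fun k => ?_, fun l => ?_⟩
  · have := Valuation.map_add_lt S.v (h (inl k)) (hb.1 k)
    rwa [sub_add_cancel] at this
  · have := add_mem ((S.O.valuation_le_one_iff _).1 (h (inr l)).le) (hb.2 l)
    rwa [sub_add_cancel] at this

variable [Fintype κ] [Fintype ι]

/-- The size of the error. -/
noncomputable def gg (S : ES U) (G : κ ⊕ ι → MvPolynomial ((κ ⊕ κ) ⊕ ι) U) (x : κ ⊕ ι → U) :
    S.O.ValueGroup :=
  Finset.univ.sup fun i => S.v (eval (pt S x) (G i))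

theorem le_gg (G : κ ⊕ ι → MvPolynomial ((κ ⊕ κ) ⊕ ι) U) (x : κ ⊕ ι → U) (i : κ ⊕ ι) :
    S.v (eval (pt S x) (G i)) ≤ gg S G x :=
  Finset.le_sup (f := fun i => S.v (eval (pt S x) (G i))) (Finset.mem_univ i)

theorem gg_le {G : κ ⊕ ι → MvPolynomial ((κ ⊕ κ) ⊕ ι) U} {x : κ ⊕ ι → U} {g : S.O.ValueGroup}
    (h : ∀ i, S.v (eval (pt S x) (G i)) ≤ g) : gg S G x ≤ g :=
  Finset.sup_le fun i _ => h i

theorem gg_lt {G : κ ⊕ ι → MvPolynomial ((κ ⊕ κ) ⊕ ι) U} {x : κ ⊕ ι → U} {g : S.O.ValueGroup}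
    (g0 : 0 < g) (h : ∀ i, S.v (eval (pt S x) (G i)) < g) : gg S G x < g :=
  (Finset.sup_lt_iff (lt_of_le_of_lt bot_le g0)).2 fun i _ => h i

theorem gg_nn (hS : Ax0 S) {G : κ ⊕ ι → MvPolynomial ((κ ⊕ κ) ⊕ ι) U} {x : κ ⊕ ι → U}
    (h : ∀ i, eval (pt S x) (G i) ∈ S.nn) : ∃ e ∈ S.nn, gg S G x ≤ S.v e := by
  refine Finset.sup_induction (p := fun γ => ∃ e ∈ S.nn, γ ≤ S.v e) ⟨0, hS.nn0, bot_le⟩ ?_
    fun i _ => ⟨_, h i, le_rfl⟩
  rintro a ⟨e, he, hae⟩ b ⟨f, hf, hbf⟩
  rcases le_total a b with hab | hab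
  · exact ⟨f, hf, sup_le (hab.trans hbf) hbf⟩
  · exact ⟨e, he, sup_le hae (hab.trans hae)⟩

theorem sq_lt {Γ : Type*} [LinearOrderedCommGroupWithZero Γ] {g J : Γ} (J0 : 0 < J)
    (g0 : 0 < g) (hg : g < J ^ 3) : (g / J) ^ 2 < g * J := by
  rw [div_pow, div_lt_iff₀ (pow_pos J0 2), mul_assoc, ← pow_succ', pow_two]
  exact mul_lt_mul_of_pos_left hg g0

theorem sq_le {Γ : Type*} [LinearOrderedCommGroupWithZero Γ] {g J : Γ} (J0 : 0 < J)
    (hg : g < J ^ 3) : (g / J) ^ 2 ≤ g * J := by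
  rcases eq_or_lt_of_le (zero_le : 0 ≤ g) with h | h
  · rw [← h]; simp
  · exact (sq_lt J0 h hg).le

theorem div_lt {Γ : Type*} [LinearOrderedCommGroupWithZero Γ] {g J : Γ} (J0 : 0 < J)
    (J1 : J ≤ 1) (hg : g < J ^ 3) : g / J < J := by
  rw [div_lt_iff₀ J0]
  refine hg.trans_le ?_
  rw [pow_succ, pow_two]
  exact mul_le_of_le_one_right' J1

variable [DecidableEq κ] [DecidableEq ι]

/-- One step of the iteration. -/
theorem step (hS : Ax0 S) {G : κ ⊕ ι → MvPolynomial ((κ ⊕ κ) ⊕ ι) U} (hG : ∀ i, Cf S.O (G i))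
    {x : κ ⊕ ι → U} (hx : Adm S x)
    (T : ∀ (h : κ ⊕ ι → U) (μ : S.O.ValueGroup) (c : U), μ < 1 → (∀ k, S.v (h k) ≤ μ) →
      ((c = 2 ∧ ∀ k, h k ∈ S.nn) ∨ (c = 1 ∧ ∃ k, h k ∉ S.nn)) →
      ∀ i, S.v (eval (pt S (x + h)) (G i) - eval (pt S x) (G i) -
        (jac G c (pt S x)).mulVec h i) ≤ μ ^ 2)
    {J : S.O.ValueGroup} (J0 : 0 < J) (J1 : J ≤ 1) (h1 : J ≤ S.v (jac G 1 (pt S x)).det)
    (h2 : J ≤ S.v (jac G 2 (pt S x)).det) (hg : gg S G x < J ^ 3) :
    ∃ h : κ ⊕ ι → U, (∀ k, S.v (h k) ≤ gg S G x / J) ∧ gg S G (x + h) ≤ (gg S G x / J) ^ 2 := by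
  have hμ : gg S G x / J < 1 := (div_lt J0 J1 hg).trans_le J1
  have key : ∃ (c : U) (h : κ ⊕ ι → U),
      (jac G c (pt S x)).mulVec h = -(fun i => eval (pt S x) (G i)) ∧
      (∀ k, S.v (h k) ≤ gg S G x / J) ∧
      ((c = 2 ∧ ∀ k, h k ∈ S.nn) ∨ (c = 1 ∧ ∃ k, h k ∉ S.nn)) := by
    by_cases hn : ∀ i, eval (pt S x) (G i) ∈ S.nn
    · obtain ⟨h, hh, hb⟩ := solve (jac_mem hS hG hx (c := 2) (by
        rw [← one_add_one_eq_two]; exact add_mem (one_mem _) (one_mem _))) J0 h2
        (fun i => eval (pt S x) (G i)) (le_gg G x)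
      obtain ⟨e, he, hge⟩ := gg_nn hS hn
      refine ⟨2, h, hh, hb, Or.inl ⟨rfl, fun k => hS.nnsq _ (hS.nnle _ _ he ?_)⟩⟩
      rw [map_mul, ← pow_two]
      exact ((pow_le_pow_left₀ zero_le (hb k) 2).trans (sq_le J0 hg)).trans
        ((mul_le_of_le_one_right' J1).trans hge)
    · obtain ⟨h, hh, hb⟩ := solve (jac_mem hS hG hx (c := 1) (one_mem _)) J0 h1
        (fun i => eval (pt S x) (G i)) (le_gg G x)
      refine ⟨1, h, hh, hb, Or.inr ⟨rfl, ?_⟩⟩
      by_contra hall
      push Not at hall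
      refine hn fun i => ?_
      have h3 : (jac G 1 (pt S x)).mulVec h i ∈ S.nn := by
        rw [Matrix.mulVec, dotProduct]
        refine nn_sum hS _ _ fun k _ => hS.nnle _ _ (hall k) ?_
        rw [map_mul]
        exact mul_le_of_le_one_left'
          ((S.O.valuation_le_one_iff _).2 (jac_mem hS hG hx (one_mem _) i k))
      rw [hh] at h3
      exact hS.nnle _ _ h3 (by simp)
  obtain ⟨c, h, hh, hb, hc⟩ := key
  refine ⟨h, hb, gg_le fun i => ?_⟩
  have := T h _ c hμ hb hc i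
  rw [hh] at this
  simpa using this

/-- The order of the transfinite iteration. -/
def rel (S : ES U) (G : κ ⊕ ι → MvPolynomial ((κ ⊕ κ) ⊕ ι) U) (J : S.O.ValueGroup)
    (x y : κ ⊕ ι → U) : Prop :=
  x = y ∨ ((∀ k, S.v (y k - x k) ≤ gg S G x / J) ∧ gg S G y ≤ gg S G x * J)

omit [DecidableEq κ] [DecidableEq ι] in
theorem rel_near {G : κ ⊕ ι → MvPolynomial ((κ ⊕ κ) ⊕ ι) U} {J : S.O.ValueGroup}
    (J1 : J ≤ 1) {x y : κ ⊕ ι → U} (h : rel S G J x y) :
    (∀ k, S.v (y k - x k) ≤ gg S G x / J) ∧ gg S G y ≤ gg S G x := by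
  rcases h with rfl | h
  · exact ⟨fun k => by simp, le_rfl⟩
  · exact ⟨h.1, h.2.trans (mul_le_of_le_one_right' J1)⟩

omit [DecidableEq κ] [DecidableEq ι] in
theorem rel_trans {G : κ ⊕ ι → MvPolynomial ((κ ⊕ κ) ⊕ ι) U} {J : S.O.ValueGroup}
    (J1 : J ≤ 1) {x y z : κ ⊕ ι → U} (h : rel S G J x y) (h' : rel S G J y z) :
    rel S G J x z := by
  rcases h with rfl | h
  · exact h'
  obtain ⟨h1, h2⟩ := rel_near J1 h'
  refine Or.inr ⟨fun k => ?_, h2.trans h.2⟩
  have h3 : gg S G y / J ≤ gg S G x / J :=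
    div_le_div_of_nonneg_right (h.2.trans (mul_le_of_le_one_right' J1)) zero_le
  have := Valuation.map_add_le S.v ((h1 k).trans h3) (h.1 k)
  rwa [sub_add_sub_cancel] at this

end Hks

open Hks in
theorem hks (tay : TayStmt.{w}) : HksStmt.{w} := by
  intro U _ S hS hsph κ ι _ _ _ _ G b j hG' _ hb _ hj0 hj1 hj2 hGb
  have hG : ∀ i, Cf S.O (G i) := fun i m => (hG' i m).2
  have T := (tay U).2.2 S κ ι G
  have two : (2 : U) ∈ S.O := by
    rw [← one_add_one_eq_two]; exact add_mem (one_mem _) (one_mem _)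
  set J := S.v j with hJ
  have J0 : 0 < J := (Valuation.pos_iff _).2 hj0
  have J1 : J ≤ 1 :=
    hj1.trans ((S.O.valuation_le_one_iff _).2 (det_mem (jac_mem hS hG hb (one_mem _))))
  have gb : gg S G b < J ^ 3 := gg_lt (pow_pos J0 3) hGb
  have near : ∀ x, rel S G J b x → ∀ k, S.v (x k - b k) < J := fun x hx k =>
    ((rel_near J1 hx).1 k).trans_lt (div_lt J0 J1 gb)
  have small : ∀ x, rel S G J b x → gg S G x < J ^ 3 := fun x hx =>
    (rel_near J1 hx).2.trans_lt gb
  have adm : ∀ x, rel S G J b x → Adm S x := fun x hx =>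
    adm_of_near hb fun k => (near x hx k).trans_le J1
  have dets : ∀ x, rel S G J b x → ∀ c ∈ S.O, J ≤ S.v (jac G c (pt S b)).det →
      J ≤ S.v (jac G c (pt S x)).det := by
    intro x hx c hc hcb
    have h1 := (((T b hS hG hb).1 (x - b) _ c ((div_lt J0 J1 gb).trans_le J1)
      (rel_near J1 hx).1).2.1 hc).2
    rw [add_sub_cancel] at h1
    have h2 := Valuation.map_add_eq_of_lt_right S.v
      ((h1.trans_lt (div_lt J0 J1 gb)).trans_le hcb)
    rw [sub_add_cancel] at h2
    rw [h2]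
    exact hcb
  obtain ⟨m, hm⟩ := exists_maximal_of_chains_bounded
    (r := fun x y : {x // rel S G J b x} => rel S G J x.1 y.1) (by
      intro c hc
      by_cases hne : c.Nonempty
      swap
      · exact ⟨⟨b, Or.inl rfl⟩, fun a ha => absurd ⟨a, ha⟩ hne⟩
      by_cases hmax : ∃ m ∈ c, ∀ a ∈ c, rel S G J a.1 m.1
      · obtain ⟨m, -, hm⟩ := hmax
        exact ⟨m, hm⟩
      push Not at hmax
      have nxt : ∀ a ∈ c, ∃ a' ∈ c, gg S G a'.1 ≤ gg S G a.1 * J := by
        intro a ha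
        obtain ⟨a', ha', hn⟩ := hmax a ha
        have hne' : a ≠ a' := by
          rintro rfl
          exact hn (Or.inl rfl)
        rcases hc ha ha' hne' with h | h
        · rcases h with h | h
          · exact absurd (Subtype.ext h) hne'
          · exact ⟨a', ha', h.2⟩
        · exact absurd h hn
      choose ρ hρ using fun a : c => S.O.valuation_surjective (gg S G a.1.1 / J)
      have lim : ∀ k, ∃ y, ∀ a : c, S.v (y - a.1.1 k) ≤ S.v (ρ a) := by
        intro k
        refine hsph c (fun a => a.1.1 k) ρ fun a a' => ?_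
        rw [hρ, hρ]
        by_cases he : a.1 = a'.1
        · rw [he]; simp
        rcases hc a.2 a'.2 he with h | h
        · rw [Valuation.map_sub_swap]
          exact le_max_of_le_left ((rel_near J1 h).1 k)
        · exact le_max_of_le_right ((rel_near J1 h).1 k)
      choose y hy using lim
      have hy' : ∀ a ∈ c, ∀ k, S.v (y k - a.1 k) ≤ gg S G a.1 / J := fun a ha k => by
        have := hy k ⟨a, ha⟩
        rwa [hρ] at this
      have gy : ∀ a ∈ c, gg S G y ≤ gg S G a.1 / J := by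
        intro a ha
        refine gg_le fun i => ?_
        have h1 := ((T a.1 hS hG (adm _ a.2)).1 (y - a.1) _ 1
          ((div_lt J0 J1 (small _ a.2)).trans_le J1) (hy' a ha)).1 i
        rw [add_sub_cancel] at h1
        have h2 : S.v (eval (pt S a.1) (G i)) ≤ gg S G a.1 / J := by
          refine (le_gg G a.1 i).trans ?_
          rw [le_div_iff₀ J0]
          exact mul_le_of_le_one_right' J1
        have := Valuation.map_add_le S.v h1 h2
        rwa [sub_add_cancel] at this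
      have ry : ∀ a ∈ c, rel S G J a.1 y := by
        intro a ha
        obtain ⟨a', ha', h1⟩ := nxt a ha
        obtain ⟨a'', ha'', h2⟩ := nxt a' ha'
        refine Or.inr ⟨hy' a ha, (gy a'' ha'').trans ?_⟩
        rw [div_le_iff₀ J0]
        exact h2.trans (mul_le_mul_left h1 J)
      obtain ⟨a, ha⟩ := hne
      exact ⟨⟨y, rel_trans J1 a.2 (ry a ha)⟩, ry⟩)
    (fun h h' => rel_trans J1 h h')
  refine ⟨m.1, fun k => ⟨Subfield.mem_top _, near _ m.2 k⟩, fun i => ?_⟩
  by_contra hne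
  have g0 : 0 < gg S G m.1 := ((Valuation.pos_iff _).2 hne).trans_le (le_gg G m.1 i)
  obtain ⟨h, hh, hg⟩ := step hS hG (adm _ m.2)
    (fun h μ c hμ hb' => ((T m.1 hS hG (adm _ m.2)).1 h μ c hμ hb').2.2) J0 J1
    (dets _ m.2 1 (one_mem _) hj1) (dets _ m.2 2 two hj2) (small _ m.2)
  have hlt : gg S G (m.1 + h) < gg S G m.1 * J := hg.trans_lt (sq_lt J0 g0 (small _ m.2))
  have hr : rel S G J m.1 (m.1 + h) := Or.inr ⟨fun k => by simpa using hh k, hlt.le⟩
  have h1 := (rel_near J1 (hm ⟨m.1 + h, rel_trans J1 m.2 hr⟩ hr)).2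
  exact absurd (hlt.trans_le (mul_le_of_le_one_right' J1)) (not_lt.2 h1)

end Pool.Agent.MP_0e4269_lc.Z

end MrgPart3

-- ======== part 4: formerly Pool.Agent.MP_0e4269_lc.z.Nd
section MrgPart4

/-!
Nondegeneracy of minimal configurations, and strongness of small extensions.
-/

open Set

universe w

namespace Pool.Agent.MP_0e4269_lc.Z

namespace Nd

/-- The constants of a derivation, as a rational subspace. -/
def cs {U : Type w} [Field U] [CharZero U] (D : Derivation ℤ U U) : Submodule ℚ U where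
  carrier := {a | D a = 0}
  add_mem' := fun {a b} ha hb => by
    simp only [mem_ofPred_eq] at ha hb ⊢
    rw [map_add, ha, hb, add_zero]
  zero_mem' := map_zero D
  smul_mem' := fun q a ha => by
    simp only [mem_ofPred_eq] at ha ⊢
    rw [map_rat_smul, ha, smul_zero]

theorem E_ne {U : Type w} [Field U] {S : ES U} (h : Ax0 S) {a : U} (ha : S.v a < 1) :
    S.E a ≠ 0 := fun h0 => by
  have := h.ET a ha 0
  simp [Tn, h0] at this
  exact absurd ha (not_lt.2 this)

end Nd

theorem nd (ax : AxStmt.{w}) (split : SplitStmt.{w}) (span : SpanStmt.{w}) : NdStmt.{w} := by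
  intro U _ _ S F B c n z h hB hc hz hLI hrk hmin D hD hE j
  have := h.alg
  obtain ⟨m, l, z', z'', h1, h2, h3, h4, h5, h6⟩ := (split U).1 (Nd.cs D) n z
  obtain ⟨hn, hLI', -⟩ := h6 _ hLI
  obtain ⟨-, s2, s3, -⟩ := span U S (range z) h
  have s3' := s3 c D (range_subset_iff.2 hE)
  have s2' := s2 (ac (B ∪ zE S z)) (ac_ac _) (range_subset_iff.2 fun i =>
    ⟨hz i, subset_ac _ (Or.inr (Or.inl ⟨i, rfl⟩)), subset_ac _ (Or.inr (Or.inr ⟨i, rfl⟩))⟩)
  by_cases hm : m = 0
  · subst hm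
    have h7 : Submodule.span ℚ (range z' ∪ range z'') ≤ Nd.cs D := by
      rw [Submodule.span_le]
      rintro _ (⟨i, rfl⟩ | ⟨i, rfl⟩)
      · exact i.elim0
      · exact h4 i
    exact h7 (h5 j)
  exfalso
  have a1 := ax U D c m z' (fun i => S.E (z' i)) hc hm
    (fun i => Nd.E_ne h (s3' (h1 i)).1) (fun i => (s3' (h1 i)).2) h3
  have a2 := hmin l (by omega) z'' (fun i => (s3' (h2 i)).1) hLI'
  have a3 : rk {a | D a = 0} (zE S z') ≤ rk (B ∪ zE S z'') (zE S z') := by
    refine rk_anti (union_subset hD ?_)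
    rintro _ (⟨i, rfl⟩ | ⟨i, rfl⟩)
    · exact h4 i
    · have h7 : D (z'' i) = 0 := h4 i
      simp only [mem_ofPred_eq]
      rw [(s3' (h2 i)).2, h7, mul_zero]
  have a4 : rk B (zE S z'' ∪ zE S z') ≤ rk B (zE S z) := by
    refine rk_le_of_subset ?_
    rintro _ ((⟨i, rfl⟩ | ⟨i, rfl⟩) | ⟨i, rfl⟩ | ⟨i, rfl⟩)
    exacts [(s2' (h2 i)).2.1, (s2' (h2 i)).2.2, (s2' (h1 i)).2.1, (s2' (h1 i)).2.2]
  rw [rk_union] at a4
  have a5 := ((add_le_add a2 (a1.trans a3)).trans a4).trans hrk
  rw [← Nat.cast_add, Nat.cast_le] at a5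
  omega

theorem str (c : CStmt.{w}) : StrStmt.{w} := by
  intro U _ _ S F B n z hS hF hc hB hr hz hLI
  by_cases hn : n = 0
  · simp [hn]
  have h1 := (c n U S F z hS hF hc hn hz hLI False.elim).trans
    (rk_mono (subset_union_right (s := B)))
  rw [rk_union, union_eq_self_of_subset_left hB] at h1
  have h2 := h1.trans (add_le_add_left hr _)
  rw [Nat.cast_add, Nat.cast_one, add_comm] at h2
  exact (ENat.add_le_add_iff_left (by simp)).1 h2

end Pool.Agent.MP_0e4269_lc.Z

end MrgPart4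

-- marker of a merged file
example : 731051 + 858763 = 731051 + 858763 := rfl
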