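import Mathlib.RingTheory.Valuation.LocalSubring
import Mathlib.RingTheory.Norm.Transitivity
import Mathlib.RingTheory.Trace.Basic
import Mathlib.FieldTheory.Normal.Basic
import Mathlib.FieldTheory.IsAlgClosed.AlgebraicClosure
import Pool.Agent.MP_0e4269_lc.z.Spec
import Pool.Agent.MP_0e4269_lc.z.Base2

/-!
Logarithmic forms with independent constant coefficients are not exact.
-/

set_option linter.unusedSectionVars false

open Set

universe w

namespace Pool.Agent.MP_0e4269_lc.Z

namespace Ros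

variable {U : Type w} [Field U] [CharZero U]

/-- The conjugate of a derivation by an automorphism. -/
noncomputable def conj (D : Derivation ℤ U U) (τ : U ≃+* U) : Derivation ℤ U U :=
  Derivation.mk' (AddMonoidHom.toIntLinearMap
    { toFun := fun a => τ.symm (D (τ a))
      map_zero' := by simp
      map_add' := fun a b => by simp }) fun a b => by
    simp [Derivation.leibniz]

theorem conj_apply (D : Derivation ℤ U U) (τ : U ≃+* U) (a : U) :
    conj D τ a = τ.symm (D (τ a)) := rfl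

theorem exists_base {C : Subfield U} (hC : ac (C : Set U) = C) {t : U} (ht : t ∉ C) :
    ∃ C' : Subfield U, C ≤ C' ∧ ac (C' : Set U) = C' ∧ t ∉ C' ∧
      ∀ y, y ∈ ac ((C' : Set U) ∪ {t}) := by
  set M := AlgebraicIndependent.matroid ℚ U with hM
  obtain ⟨I, hI⟩ := M.exists_isBasis' (C : Set U)
  have htI : t ∉ M.closure I := by
    rw [hI.closure_eq_closure, hM, ← ac_eq, hC]
    exact ht
  have h1 : M.Indep (insert t I) := by
    rw [hI.indep.insert_indep_iff]
    exact Or.inl ⟨by simp [hM], htI⟩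
  obtain ⟨B, hB, hIB⟩ := h1.exists_isBase_superset
  have htB : t ∈ B := hIB (mem_insert _ _)
  have hI' : I ⊆ B \ {t} := fun a ha => ⟨hIB (mem_insert_of_mem _ ha), fun h => htI (by
    rw [mem_singleton_iff] at h
    exact h ▸ M.subset_closure I hI.indep.subset_ground ha)⟩
  refine ⟨ac (B \ {t}), fun a ha => ?_, ac_ac _, ?_, fun y => ?_⟩
  · have h2 : a ∈ M.closure I := by
      rw [hI.closure_eq_closure, hM, ← ac_eq, hC]
      exact ha
    rw [hM, ← ac_eq] at h2
    exact ac_mono hI' h2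
  · rw [← SetLike.mem_coe, ac_eq]
    exact hB.indep.notMem_closure_sdiff_of_mem htB
  · rw [ac_ac_union, sdiff_union_of_subset (singleton_subset_iff.2 htB), ← SetLike.mem_coe, ac_eq,
      ← hM, hB.closure_eq]
    simp [hM]

theorem logd_prod (D : Derivation ℤ U U) {ι : Type*} (s : Finset ι) (f : ι → U)
    (h : ∀ i, f i ≠ 0) : D (∏ i ∈ s, f i) / ∏ i ∈ s, f i = ∑ i ∈ s, D (f i) / f i := by
  classical
  induction s using Finset.induction_on with
  | empty => simp
  | insert a s ha ih =>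
    rw [Finset.prod_insert ha, Finset.sum_insert ha, ← ih, Derivation.leibniz]
    have h1 : ∏ i ∈ s, f i ≠ 0 := Finset.prod_ne_zero_iff.2 fun i _ => h i
    have h2 := h a
    simp only [smul_eq_mul]
    field_simp
    ring

/-- Descent of the relation to a subfield over which everything is algebraic. -/
theorem descend [IsAlgClosed U] {C K : Subfield U} (hCK : C ≤ K) (hK : ∀ y, y ∈ ac (K : Set U))
    {s : ℕ} {γ v : Fin s → U} {ν : U} (hγ : ∀ k, γ k ∈ C) (hv : ∀ k, v k ≠ 0)
    (h : ∀ D : Derivation ℤ U U, Kills D C → ∑ k, γ k * (D (v k) / v k) = D ν)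
    (D : Derivation ℤ U U) (hD : Kills D C) :
    ∃ (N : Fin s → U) (T : U) (n : ℕ), n ≠ 0 ∧ (∀ k, N k ∈ K) ∧ T ∈ K ∧ (∀ k, N k ≠ 0) ∧
      (∀ k, v k ∈ K → N k = v k ^ n) ∧ ∑ k, γ k * (D (N k) / N k) = D T := by
  classical
  have : Algebra.IsAlgebraic K U := ⟨fun y => mem_ac_iff_alg.1 (hK y)⟩
  have : IsAlgClosure K U := ⟨inferInstance, inferInstance⟩
  let L := IntermediateField.adjoin K (insert ν (range v))
  have : FiniteDimensional K L :=
    IntermediateField.finiteDimensional_adjoin fun x _ => Algebra.IsIntegral.isIntegral x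
  have hvL : ∀ k, v k ∈ L := fun k =>
    IntermediateField.subset_adjoin _ _ (mem_insert_of_mem _ (mem_range_self k))
  have hνL : ν ∈ L := IntermediateField.subset_adjoin _ _ (mem_insert _ _)
  have key : ∀ σ : L →ₐ[K] U,
      ∑ k, γ k * (D (σ ⟨v k, hvL k⟩) / σ ⟨v k, hvL k⟩) = D (σ ⟨ν, hνL⟩) := by
    intro σ
    let τ₀ : U →ₐ[K] U := σ.liftNormal U
    let τ : U ≃ₐ[K] U := AlgEquiv.ofBijective τ₀ (Algebra.IsAlgebraic.algHom_bijective τ₀)
    have hτ : ∀ x : L, τ x = σ x := fun x => σ.liftNormal_commutes U x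
    have hfix : ∀ a ∈ C, τ a = a := fun a ha => τ.commutes ⟨a, hCK ha⟩
    have h1 := h (conj D τ.toRingEquiv) fun a ha => by
      rw [conj_apply]
      change τ.symm (D (τ a)) = 0
      rw [hfix a ha, hD a ha, map_zero]
    have h2 := congrArg τ h1
    rw [map_sum] at h2
    rw [← hτ]
    simp only [← hτ]
    convert h2 using 1
    · refine Finset.sum_congr rfl fun k _ => ?_
      rw [map_mul, map_div₀, hfix _ (hγ k), conj_apply]
      simp
    · rw [conj_apply]
      simp
  have hne : ∀ (σ : L →ₐ[K] U) k, σ ⟨v k, hvL k⟩ ≠ 0 := fun σ k => by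
    rw [map_ne_zero]
    exact fun h0 => hv k (congrArg Subtype.val h0)
  refine ⟨fun k => ∏ σ : L →ₐ[K] U, σ ⟨v k, hvL k⟩, ∑ σ : L →ₐ[K] U, σ ⟨ν, hνL⟩,
    Fintype.card (L →ₐ[K] U), ?_, fun k => ?_, ?_, fun k => ?_, fun k hk => ?_, ?_⟩
  · have : Nonempty (L →ₐ[K] U) := ⟨L.val⟩
    exact Fintype.card_ne_zero
  · beta_reduce
    rw [← Algebra.norm_eq_prod_embeddings]
    exact Subtype.coe_prop _
  · rw [← trace_eq_sum_embeddings]
    exact Subtype.coe_prop _
  · exact Finset.prod_ne_zero_iff.2 fun σ _ => hne σ k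
  · have : ∀ σ : L →ₐ[K] U, σ ⟨v k, hvL k⟩ = v k := fun σ => σ.commutes ⟨v k, hk⟩
    simp [this]
  · simp only [logd_prod D _ _ fun σ => hne σ _, Finset.mul_sum]
    rw [Finset.sum_comm, map_sum]
    exact Finset.sum_congr rfl fun σ _ => key σ

theorem val_one {C : Subfield U} {V : ValuationSubring U} (hV : C.toSubring ≤ V.toSubring)
    {a : U} (ha : a ∈ C) (h0 : a ≠ 0) : V.valuation a = 1 := by
  have h1 : V.valuation a ≤ 1 := (V.valuation_le_one_iff a).2 (hV ha)
  have h2 : V.valuation a⁻¹ ≤ 1 := (V.valuation_le_one_iff _).2 (hV (C.inv_mem ha))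
  rw [map_inv₀, inv_le_one₀ (by simpa [pos_iff_ne_zero] using h0)] at h2
  exact le_antisymm h1 h2

/-- Orders and residues in a rational function field. -/
theorem orders [IsAlgClosed U] (wind : WindStmt.{w}) {C : Subfield U} (hC : ac (C : Set U) = C)
    {V : ValuationSubring U} (hV : C.toSubring ≤ V.toSubring) {t : U} (ht : V.valuation t < 1)
    (ht0 : t ≠ 0) (θ : Derivation ℤ U U) (hθ : Kills θ C) (hθt : θ t = t) :
    ∀ y ∈ Subfield.closure ((C : Set U) ∪ {t}), y ≠ 0 →
      ∃ m : ℤ, V.valuation (θ y / y - m) < 1 ∧ V.valuation y = V.valuation t ^ m := by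
  have hvt : V.valuation t ≠ 0 := by simpa using ht0
  have key := (wind U {y | y ≠ 0 →
      ∃ m : ℤ, V.valuation (θ y / y - m) < 1 ∧ V.valuation y = V.valuation t ^ m}
    ⟨fun h => (h rfl).elim, fun a ha b hb hab => ?_, fun a ha h0 => ?_⟩).2 C t hC
    (fun a ha h0 => ?_) (fun a ha h0 => ?_)
  · exact fun y hy => key hy
  · have ha0 : a ≠ 0 := left_ne_zero_of_mul hab
    have hb0 : b ≠ 0 := right_ne_zero_of_mul hab
    obtain ⟨m, h1, h2⟩ := ha ha0
    obtain ⟨n, h3, h4⟩ := hb hb0
    refine ⟨m + n, ?_, by rw [map_mul, h2, h4, zpow_add₀ hvt]⟩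
    have : θ (a * b) / (a * b) - ((m + n : ℤ) : U) = (θ a / a - m) + (θ b / b - n) := by
      rw [Derivation.leibniz]
      simp only [smul_eq_mul]
      push_cast
      field_simp
      ring
    rw [this]
    exact Valuation.map_add_lt _ h1 h3
  · have ha0 : a ≠ 0 := fun h => h0 (by simp [h])
    obtain ⟨m, h1, h2⟩ := ha ha0
    refine ⟨-m, ?_, by rw [map_inv₀, h2, zpow_neg]⟩
    have : θ a⁻¹ / a⁻¹ - ((-m : ℤ) : U) = -(θ a / a - m) := by
      rw [Derivation.leibniz_inv]
      simp only [smul_eq_mul]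
      push_cast
      field_simp
      ring
    rw [this, Valuation.map_neg]
    exact h1
  · exact ⟨0, by simp [hθ a ha], by simpa using val_one hV ha h0⟩
  · by_cases ha0 : a = 0
    · subst ha0
      exact ⟨1, by simp [hθt, ht0], by simp⟩
    · have h1 : V.valuation (t - a) = 1 := by
        rw [Valuation.map_sub_swap, Valuation.map_sub_eq_of_lt_left _ (by
          rw [val_one hV ha ha0]; exact ht), val_one hV ha ha0]
      refine ⟨0, ?_, by simpa using h1⟩
      simp [hθ a ha, hθt, h1, ht]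

end Ros

open Ros

theorem ros (dex : DexStmt.{w}) (wind : WindStmt.{w}) : RosStmt.{w} := by
  intro U _ _ _ C hC s γ v ν hγ hli hv h k₀
  by_contra ht
  obtain ⟨C', hCC, hC', ht', hall⟩ := exists_base hC ht
  obtain ⟨D, hD, hDt⟩ := (dex U).2.1 C' (v k₀) (by rwa [hC'])
  have hθ : Kills (v k₀ • D) C' := fun a ha => by simp [hD a ha]
  have hθt : (v k₀ • D) (v k₀) = v k₀ := by simp [hDt]
  generalize v k₀ • D = θ at hθ hθt
  have : IsIntegrallyClosedIn C'.toSubring U := by
    rw [isIntegrallyClosedIn_iff]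
    refine ⟨Subtype.val_injective, fun {x} hx => ⟨⟨x, ?_⟩, rfl⟩⟩
    have h1 : IsAlgebraic C' x := IsIntegral.isAlgebraic hx
    exact hC'.le (mem_ac_iff_alg.2 h1)
  obtain ⟨V, hV, hVt⟩ := Subring.exists_le_valuationSubring_of_isIntegrallyClosedIn
    (R := C'.toSubring) (x := (v k₀)⁻¹) fun h1 => ht' (by simpa using C'.inv_mem h1)
  have hvt0 : 0 < V.valuation (v k₀) := by simpa [pos_iff_ne_zero] using hv k₀
  have hvt : V.valuation (v k₀) < 1 := by
    rw [← V.valuation_le_one_iff, map_inv₀, inv_le_one₀ hvt0] at hVt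
    exact not_le.1 hVt
  have hsub : C' ≤ Subfield.closure ((C' : Set U) ∪ {v k₀}) :=
    fun a ha => Subfield.subset_closure (Or.inl ha)
  obtain ⟨N, T, n, hn, hN, hT, hN0, hNv, hrel⟩ := descend (hCC.trans hsub)
    (fun y => by rw [ac_closure]; exact hall y) hγ hv h θ fun a ha => hθ a (hCC ha)
  have ord := orders wind hC' hV hvt (hv k₀) θ hθ hθt
  choose m hm1 hm2 using fun k => ord _ (hN k) (hN0 k)
  have hγ1 : ∀ k, V.valuation (γ k) ≤ 1 := fun k =>
    (V.valuation_le_one_iff _).2 (hV (hCC (hγ k)))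
  have hc : ∑ k, γ k * (m k : U) ∈ C' :=
    sum_mem fun k _ => mul_mem (hCC (hγ k)) (intCast_mem _ _)
  have h1 : V.valuation (θ T - ∑ k, γ k * (m k : U)) < 1 := by
    rw [← hrel, ← Finset.sum_sub_distrib]
    refine Valuation.map_sum_lt _ one_ne_zero fun k _ => ?_
    rw [← mul_sub, map_mul]
    exact mul_lt_one_of_nonneg_of_lt_one_right (hγ1 k) zero_le (hm1 k)
  have h2 : V.valuation (θ T) ≤ 1 := by
    have := Valuation.map_add_le _ h1.le ((V.valuation_le_one_iff _).2 (hV hc))
    simpa using this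
  have h3 : V.valuation (θ T) < 1 := by
    by_cases hT0 : T = 0
    · simp [hT0]
    obtain ⟨e, he1, he2⟩ := ord T hT hT0
    have e1 : θ T = T * (θ T / T) := by field_simp
    by_cases he : e = 0
    · subst he
      rw [e1, map_mul, he2]
      simpa using he1
    · have he3 : V.valuation (e : U) = 1 :=
        val_one hV (intCast_mem _ _) (Int.cast_ne_zero.2 he)
      have he4 : V.valuation (θ T / T) = 1 := by
        have := Valuation.map_add_eq_of_lt_right V.valuation (x := θ T / T - e) (y := (e : U))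
          (by rw [he3]; exact he1)
        simpa [he3] using this
      rw [e1, map_mul, he4, mul_one, he2] at h2 ⊢
      rcases lt_or_gt_of_ne he with h4 | h4
      · exact absurd h2 (not_le.2 (one_lt_zpow_of_neg₀ hvt0 hvt h4))
      · exact zpow_lt_one₀ hvt0 hvt h4
  have h4 : ∑ k, γ k * (m k : U) = 0 := by
    by_contra h0
    have := Valuation.map_sub_lt _ h3 h1
    rw [sub_sub_cancel, val_one hV hc h0] at this
    exact lt_irrefl _ this
  have h5 := congrFun (hli (fun k => (m k : ℚ)) (by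
    rw [← h4]
    refine Finset.sum_congr rfl fun k _ => ?_
    rw [Rat.smul_def, mul_comm]
    simp)) k₀
  have h6 : m k₀ = 0 := by simpa using h5
  have h7 := hm2 k₀
  rw [h6, zpow_zero, hNv k₀ (Subfield.subset_closure (Or.inr rfl)), map_pow] at h7
  exact absurd h7 (pow_lt_one₀ zero_le hvt hn).ne

end Pool.Agent.MP_0e4269_lc.Z
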