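import Mathlib.LinearAlgebra.Matrix.Adjugate
import Pool.Agent.MP_0e4269_lc.z.Spec
import Pool.Agent.MP_0e4269_lc.z.Base4

-- ======== part 0: formerly Pool.Agent.MP_0e4269_lc.z.Tay
section MrgPart0

/-!
Taylor estimates and uniqueness of solutions.
-/

open MvPolynomial Sum

universe w

namespace Pool.Agent.MP_0e4269_lc.Z

namespace Tay

variable {U : Type w} [Field U]

section Val

variable {O : ValuationSubring U} {μ : O.ValueGroup}

theorem le_one {a : U} (h : a ∈ O) : O.valuation a ≤ 1 := (O.valuation_le_one_iff _).2 h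

theorem mem {a : U} (h : O.valuation a ≤ 1) : a ∈ O := (O.valuation_le_one_iff _).1 h

theorem mul_le {a b : U} (ha : a ∈ O) (hb : O.valuation b ≤ μ) : O.valuation (a * b) ≤ μ := by
  rw [map_mul]
  exact (mul_le_of_le_one_left' (le_one ha)).trans hb

theorem mul_sub_le {a a' b b' : U} (ha : a ∈ O) (hb' : b' ∈ O) (h1 : O.valuation (a - a') ≤ μ)
    (h2 : O.valuation (b - b') ≤ μ) : O.valuation (a * b - a' * b') ≤ μ := by
  have : a * b - a' * b' = a * (b - b') + b' * (a - a') := by ring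
  rw [this]
  exact Valuation.map_add_le _ (mul_le ha h2) (mul_le hb' h1)

theorem prod_sub_le {n : Type} (s : Finset n) (f g : n → U) (hf : ∀ i, f i ∈ O)
    (hg : ∀ i, g i ∈ O) (h : ∀ i, O.valuation (f i - g i) ≤ μ) :
    O.valuation (∏ i ∈ s, f i - ∏ i ∈ s, g i) ≤ μ := by
  classical
  induction s using Finset.induction_on with
  | empty => simp
  | insert a s ha ih =>
    rw [Finset.prod_insert ha, Finset.prod_insert ha]
    exact mul_sub_le (hf a) (prod_mem fun i _ => hg i) (h a) ih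

theorem eval_mem {τ : Type} {G : MvPolynomial τ U} (hG : Cf O G)
    {p : τ → U} (hp : ∀ t, p t ∈ O) : eval p G ∈ O := by
  rw [eval_eq]
  exact sum_mem fun m _ => mul_mem (hG m) (prod_mem fun t _ => pow_mem (hp t) _)

theorem cf_pderiv {τ : Type} {G : MvPolynomial τ U} (hG : Cf O G)
    (t : τ) : Cf O (pderiv t G) := fun m => by
  rw [coeff_pderiv]
  exact mul_mem (hG _) (add_mem (natCast_mem O _) (one_mem O))

variable {n : Type} [Fintype n] [DecidableEq n]

theorem det_mem {A : Matrix n n U} (hA : ∀ i k, A i k ∈ O) : A.det ∈ O := by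
  rw [Matrix.det_apply']
  exact sum_mem fun σ _ => mul_mem (intCast_mem O _) (prod_mem fun i _ => hA _ _)

theorem det_sub_le {A B : Matrix n n U} (hA : ∀ i k, A i k ∈ O) (hB : ∀ i k, B i k ∈ O)
    (h : ∀ i k, O.valuation (A i k - B i k) ≤ μ) : O.valuation (A.det - B.det) ≤ μ := by
  rw [Matrix.det_apply', Matrix.det_apply', ← Finset.sum_sub_distrib]
  refine Valuation.map_sum_le _ fun σ _ => ?_
  rw [← mul_sub]
  exact mul_le (intCast_mem O _)
    (prod_sub_le _ _ _ (fun i => hA _ _) (fun i => hB _ _) fun i => h _ _)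

theorem adj_mem {A : Matrix n n U} (hA : ∀ i k, A i k ∈ O) (i k : n) : A.adjugate i k ∈ O := by
  rw [Matrix.adjugate_apply]
  refine det_mem fun a b => ?_
  rw [Matrix.updateRow_apply]
  split_ifs
  · rw [Pi.single_apply]
    split_ifs
    · exact one_mem O
    · exact zero_mem O
  · exact hA a b

theorem lower {A : Matrix n n U} (hA : ∀ i k, A i k ∈ O) (h : n → U)
    (hh : ∀ i, O.valuation (A.mulVec h i) ≤ μ) (k : n) :
    O.valuation A.det * O.valuation (h k) ≤ μ := by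
  have h1 : A.det * h k = A.adjugate.mulVec (A.mulVec h) k := by
    rw [Matrix.mulVec_mulVec, Matrix.adjugate_mul, Matrix.smul_mulVec, Matrix.one_mulVec,
      Pi.smul_apply, smul_eq_mul]
  rw [← map_mul, h1, Matrix.mulVec, dotProduct]
  exact Valuation.map_sum_le _ fun i _ => mul_le (adj_mem hA k i) (hh i)

/-- A vector whose image is quadratically small vanishes. -/
theorem eq_zero {A : Matrix n n U} (hA : ∀ i k, A i k ∈ O) (h : n → U) {J : O.ValueGroup}
    (hJ : J ≤ O.valuation A.det) (hlt : ∀ k, O.valuation (h k) < J)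
    (hh : ∀ ν < J, (∀ k, O.valuation (h k) ≤ ν) → ∀ i, O.valuation (A.mulVec h i) ≤ ν ^ 2) :
    h = 0 := by
  by_contra hne
  obtain ⟨k0, hk0⟩ := Function.ne_iff.1 hne
  obtain ⟨k, -, hk⟩ := Finset.exists_max_image Finset.univ (fun k => O.valuation (h k))
    ⟨k0, Finset.mem_univ _⟩
  have h1 := lower hA h (hh _ (hlt k) fun l => hk l (Finset.mem_univ _)) k
  have h0 : 0 < O.valuation (h k) :=
    ((Valuation.pos_iff _).2 hk0).trans_le (hk k0 (Finset.mem_univ _))
  rw [pow_two] at h1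
  exact absurd ((hlt k).trans_le (hJ.trans (le_of_mul_le_mul_right h1 h0))) (lt_irrefl _)

theorem taylor {τ : Type} [Fintype τ] {G : MvPolynomial τ U} {p h : τ → U} (hG : Cf O G)
    (hp : ∀ t, p t ∈ O) (hμ : μ ≤ 1) (hh : ∀ t, O.valuation (h t) ≤ μ) :
    O.valuation (eval (p + h) G - eval p G) ≤ μ ∧
    O.valuation (eval (p + h) G - eval p G - ∑ t, eval p (pderiv t G) * h t) ≤ μ ^ 2 := by
  classical
  obtain ⟨G, rfl⟩ : G ∈ Set.range (MvPolynomial.map O.subtype) := by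
    rw [mem_range_map_iff_coeffs_subset]
    intro c hc
    obtain ⟨m, -, rfl⟩ := mem_coeffs_iff.1 hc
    exact ⟨⟨_, hG m⟩, rfl⟩
  clear hG
  induction G using MvPolynomial.induction_on with
  | C a => simp
  | add F G hF hG =>
    simp only [map_add, add_mul, Finset.sum_add_distrib]
    constructor
    · have := Valuation.map_add_le _ hF.1 hG.1
      convert this using 2
      ring
    · have := Valuation.map_add_le _ hF.2 hG.2
      convert this using 2
      ring
  | mul_X F s hF =>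
    have hFm : eval p (MvPolynomial.map O.subtype F) ∈ O :=
      eval_mem (fun m => by rw [coeff_map]; exact (F.coeff m).2) hp
    rw [map_mul, map_X]
    generalize MvPolynomial.map O.subtype F = F' at hF hFm
    have hs : ∑ t, eval p (pderiv t (F' * X s)) * h t =
        p s * ∑ t, eval p (pderiv t F') * h t + eval p F' * h s := by
      simp only [pderiv_mul, map_add, map_mul, eval_X, add_mul, Finset.sum_add_distrib,
        Finset.mul_sum]
      congr 1
      · exact Finset.sum_congr rfl fun t _ => by ring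
      · rw [Finset.sum_eq_single s]
        · simp
        · intro t _ hts
          simp [pderiv_X_of_ne hts.symm]
        · simp
    rw [hs]
    simp only [map_mul, eval_X, Pi.add_apply]
    constructor
    · have e : eval (p + h) F' * (p s + h s) - eval p F' * p s =
          (p s + h s) * (eval (p + h) F' - eval p F') + eval p F' * h s := by ring
      rw [e]
      exact Valuation.map_add_le _ (mul_le (add_mem (hp s) (mem ((hh s).trans hμ))) hF.1)
        (mul_le hFm (hh s))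
    · have e : eval (p + h) F' * (p s + h s) - eval p F' * p s -
          (p s * ∑ t, eval p (pderiv t F') * h t + eval p F' * h s) =
          p s * (eval (p + h) F' - eval p F' - ∑ t, eval p (pderiv t F') * h t) +
            (eval (p + h) F' - eval p F') * h s := by ring
      rw [e]
      refine Valuation.map_add_le _ (mul_le (hp s) hF.2) ?_
      rw [map_mul, pow_two]
      exact mul_le_mul' hF.1 (hh s)

theorem unique {κ ι : Type} [Fintype κ] [Fintype ι] [DecidableEq ι]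
    (H : ι → MvPolynomial (κ ⊕ ι) U) (u : κ → U) (θ θ' : ι → U) (hH : ∀ i, Cf O (H i))
    (hu : ∀ i, u i ∈ O) (hθ : ∀ i, θ i ∈ O) (hlt : ∀ i, O.valuation (θ' i - θ i) < 1)
    (h0 : ∀ i, eval (Sum.elim u θ) (H i) = 0) (h0' : ∀ i, eval (Sum.elim u θ') (H i) = 0)
    (hd : O.valuation (pjac H (Sum.elim u θ)).det = 1) : θ' = θ := by
  have hp : ∀ t, Sum.elim u θ t ∈ O := by
    rintro (t | t)
    · exact hu t
    · exact hθ t
  refine sub_eq_zero.1 (eq_zero (A := pjac H (Sum.elim u θ))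
    (fun i k => eval_mem (cf_pderiv (hH i) _) hp) (θ' - θ) hd.ge hlt
    fun ν hν hb i => ?_)
  have e : Sum.elim u θ + Sum.elim (0 : κ → U) (θ' - θ) = Sum.elim u θ' := by
    funext t
    rcases t with t | t <;> simp
  have := (taylor (h := Sum.elim (0 : κ → U) (θ' - θ)) (hH i) hp hν.le (by
    rintro (t | t)
    · simp
    · exact hb t)).2
  rw [e, h0, h0', Fintype.sum_sum_type] at this
  simpa [Matrix.mulVec, dotProduct, pjac] using this

end Val

variable {S : ES U} {κ ι : Type}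

theorem E_sub_one (hS : Ax0 S) {a : U} (ha : S.v a < 1) : S.v (S.E a - 1) ≤ S.v a := by
  have h := hS.ET a ha 0
  have h1 : Tn 0 (slope S.nn a * a) = 1 := by simp [Tn]
  rwa [h1, zero_add, pow_one] at h

theorem E_mem (hS : Ax0 S) {a : U} (ha : S.v a < 1) : S.E a ∈ S.O := by
  simpa using add_mem (mem ((E_sub_one hS ha).trans ha.le)) (one_mem S.O)

theorem E_two (hS : Ax0 S) {a : U} (ha : S.v a < 1) :
    S.v (S.E a - 1 - slope S.nn a * a) ≤ S.v a ^ 2 := by
  have h := hS.ET a ha 1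
  have h1 : Tn 1 (slope S.nn a * a) = 1 + slope S.nn a * a := by
    simp [Tn, Finset.sum_range_succ]
  rwa [h1, ← sub_sub] at h

theorem E_slope (hS : Ax0 S) {n : Type} {h : n → U} {μ : S.O.ValueGroup} {c : U} (hμ : μ < 1)
    (hh : ∀ k, S.v (h k) ≤ μ) (hc : (c = 2 ∧ ∀ k, h k ∈ S.nn) ∨ (c = 1 ∧ ∃ k, h k ∉ S.nn))
    (k : n) : S.v (S.E (h k) - 1 - c * h k) ≤ μ ^ 2 := by
  have h1 := (E_two hS ((hh k).trans_lt hμ)).trans (pow_le_pow_left₀ zero_le (hh k) 2)
  rcases hc with ⟨rfl, hc⟩ | ⟨rfl, k0, hk0⟩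
  · rwa [slope, if_pos (hc k)] at h1
  · by_cases hk : h k ∈ S.nn
    · rw [slope, if_pos hk] at h1
      have h2 : S.v (h k) ≤ μ ^ 2 := by
        have h3 : ¬ S.v (h k0 * h k0) ≤ S.v (h k) := fun h4 =>
          hk0 (hS.nnsq _ (hS.nnle _ _ hk h4))
        rw [map_mul, ← pow_two] at h3
        exact (not_le.1 h3).le.trans (pow_le_pow_left₀ zero_le (hh k0) 2)
      have := Valuation.map_add_le _ h1 h2
      convert this using 2
      ring
    · rwa [slope, if_neg hk] at h1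

theorem pt_mem (hS : Ax0 S) {x : κ ⊕ ι → U} (hx : Adm S x) (t : (κ ⊕ κ) ⊕ ι) :
    pt S x t ∈ S.O := by
  rcases t with (k | k) | l
  · exact mem (hx.1 k).le
  · exact E_mem hS (hx.1 k)
  · exact hx.2 l

theorem jac_mem (hS : Ax0 S) {G : κ ⊕ ι → MvPolynomial ((κ ⊕ κ) ⊕ ι) U}
    (hG : ∀ i, Cf S.O (G i)) {x : κ ⊕ ι → U} (hx : Adm S x) {c : U} (hc : c ∈ S.O)
    (i k : κ ⊕ ι) : jac G c (pt S x) i k ∈ S.O := by
  rcases k with k | l
  · exact add_mem (eval_mem (cf_pderiv (hG i) _) (pt_mem hS hx))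
      (mul_mem (mul_mem hc (pt_mem hS hx _)) (eval_mem (cf_pderiv (hG i) _) (pt_mem hS hx)))
  · exact eval_mem (cf_pderiv (hG i) _) (pt_mem hS hx)

theorem adm_of_near {b x : κ ⊕ ι → U} (hb : Adm S b) (h : ∀ k, S.v (x k - b k) < 1) :
    Adm S x := by
  refine ⟨fun k => ?_, fun l => ?_⟩
  · have := Valuation.map_add_lt S.v (h (inl k)) (hb.1 k)
    rwa [sub_add_cancel] at this
  · have := add_mem (mem (h (inr l)).le) (hb.2 l)
    rwa [sub_add_cancel] at this

theorem E_add (hS : Ax0 S) {a h : U} (ha : S.v a < 1) (hh : S.v h < 1) :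
    S.E (a + h) - S.E a = S.E a * (S.E h - 1) := by
  rw [hS.E1 a h ha hh]
  ring

theorem pt_sub_le (hS : Ax0 S) {b h : κ ⊕ ι → U} (hb : Adm S b) {μ : S.O.ValueGroup}
    (hμ : μ < 1) (hh : ∀ k, S.v (h k) ≤ μ) (t : (κ ⊕ κ) ⊕ ι) :
    S.v ((pt S (b + h) - pt S b) t) ≤ μ := by
  rcases t with (k | k) | l
  · simpa [pt] using hh (inl k)
  · change S.v (S.E (b (inl k) + h (inl k)) - S.E (b (inl k))) ≤ μ
    have h1 := (hh (inl k)).trans_lt hμ
    rw [E_add hS (hb.1 k) h1]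
    exact mul_le (E_mem hS (hb.1 k)) ((E_sub_one hS h1).trans (hh _))
  · simpa [pt] using hh (inr l)

variable [Fintype κ] [Fintype ι]

theorem first (hS : Ax0 S) {F : MvPolynomial ((κ ⊕ κ) ⊕ ι) U} (hF : Cf S.O F)
    {b h : κ ⊕ ι → U} (hb : Adm S b) {μ : S.O.ValueGroup} (hμ : μ < 1)
    (hh : ∀ k, S.v (h k) ≤ μ) : S.v (eval (pt S (b + h)) F - eval (pt S b) F) ≤ μ := by
  have := (taylor hF (pt_mem hS hb) hμ.le (pt_sub_le hS hb hμ hh)).1
  rwa [add_sub_cancel] at this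

theorem jac_sub_le (hS : Ax0 S) {G : κ ⊕ ι → MvPolynomial ((κ ⊕ κ) ⊕ ι) U}
    (hG : ∀ i, Cf S.O (G i)) {b h : κ ⊕ ι → U} (hb : Adm S b) {μ : S.O.ValueGroup}
    (hμ : μ < 1) (hh : ∀ k, S.v (h k) ≤ μ) {c : U} (hc : c ∈ S.O) (i k : κ ⊕ ι) :
    S.v (jac G c (pt S (b + h)) i k - jac G c (pt S b) i k) ≤ μ := by
  have hb' : Adm S (b + h) := adm_of_near hb fun k => by simpa using (hh k).trans_lt hμ
  rcases k with k | l
  · have h1 := first hS (cf_pderiv (hG i) (inl (inl k))) hb hμ hh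
    have h2 := first hS (cf_pderiv (hG i) (inl (inr k))) hb hμ hh
    have h3 := mul_le hc (mul_sub_le (pt_mem hS hb' (inl (inr k)))
      (eval_mem (cf_pderiv (hG i) (inl (inr k))) (pt_mem hS hb))
      (pt_sub_le hS hb hμ hh (inl (inr k))) h2)
    have := Valuation.map_add_le _ h1 h3
    convert this using 2
    simp only [jac, Matrix.of_apply, Sum.elim_inl]
    ring
  · exact first hS (cf_pderiv (hG i) (inr l)) hb hμ hh

theorem second (hS : Ax0 S) {G : κ ⊕ ι → MvPolynomial ((κ ⊕ κ) ⊕ ι) U}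
    (hG : ∀ i, Cf S.O (G i)) {b h : κ ⊕ ι → U} (hb : Adm S b) {μ : S.O.ValueGroup}
    (hμ : μ < 1) (hh : ∀ k, S.v (h k) ≤ μ) {c : U}
    (hc : (c = 2 ∧ ∀ k, h k ∈ S.nn) ∨ (c = 1 ∧ ∃ k, h k ∉ S.nn)) (i : κ ⊕ ι) :
    S.v (eval (pt S (b + h)) (G i) - eval (pt S b) (G i) - (jac G c (pt S b)).mulVec h i) ≤
      μ ^ 2 := by
  have h1 := (taylor (hG i) (pt_mem hS hb) hμ.le (pt_sub_le hS hb hμ hh)).2
  rw [add_sub_cancel] at h1
  have h2 : S.v (∑ k : κ, eval (pt S b) (pderiv (inl (inr k)) (G i)) * (S.E (b (inl k)) *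
      (S.E (h (inl k)) - 1 - c * h (inl k)))) ≤ μ ^ 2 :=
    Valuation.map_sum_le _ fun k _ => mul_le (eval_mem (cf_pderiv (hG i) _) (pt_mem hS hb))
      (mul_le (E_mem hS (hb.1 k)) (E_slope hS hμ hh hc _))
  have e : ∑ t, eval (pt S b) (pderiv t (G i)) * (pt S (b + h) - pt S b) t =
      (jac G c (pt S b)).mulVec h i +
      ∑ k : κ, eval (pt S b) (pderiv (inl (inr k)) (G i)) * (S.E (b (inl k)) *
      (S.E (h (inl k)) - 1 - c * h (inl k))) := by
    rw [Matrix.mulVec, dotProduct, Fintype.sum_sum_type, Fintype.sum_sum_type,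
      Fintype.sum_sum_type, add_right_comm (∑ k : κ, jac G c (pt S b) i (inl k) * h (inl k)),
      ← Finset.sum_add_distrib, ← Finset.sum_add_distrib]
    congr 1
    · refine Finset.sum_congr rfl fun k _ => ?_
      have e1 : (pt S (b + h) - pt S b) (inl (inl k)) = h (inl k) := by simp [pt]
      have e2 : (pt S (b + h) - pt S b) (inl (inr k)) = S.E (b (inl k)) * (S.E (h (inl k)) - 1) :=
        E_add hS (hb.1 k) ((hh _).trans_lt hμ)
      have e3 : pt S b (inl (inr k)) = S.E (b (inl k)) := rfl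
      rw [e1, e2]
      simp only [jac, Matrix.of_apply, Sum.elim_inl, e3]
      ring
    · refine Finset.sum_congr rfl fun l _ => ?_
      simp [pt, jac]
  rw [e] at h1
  have := Valuation.map_add_le _ h1 h2
  convert this using 2
  ring

variable [DecidableEq κ] [DecidableEq ι]

theorem det_le (hS : Ax0 S) {G : κ ⊕ ι → MvPolynomial ((κ ⊕ κ) ⊕ ι) U}
    (hG : ∀ i, Cf S.O (G i)) {b h : κ ⊕ ι → U} (hb : Adm S b) {μ : S.O.ValueGroup}
    (hμ : μ < 1) (hh : ∀ k, S.v (h k) ≤ μ) {c : U} (hc : c ∈ S.O) :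
    S.v ((jac G c (pt S (b + h))).det - (jac G c (pt S b)).det) ≤ μ :=
  det_sub_le (jac_mem hS hG (adm_of_near hb fun k => by simpa using (hh k).trans_lt hμ) hc)
    (jac_mem hS hG hb hc) (jac_sub_le hS hG hb hμ hh hc)

theorem uniqueE (hS : Ax0 S) {G : κ ⊕ ι → MvPolynomial ((κ ⊕ κ) ⊕ ι) U}
    (hG : ∀ i, Cf S.O (G i)) {b : κ ⊕ ι → U} (hb : Adm S b) (j : U) (z z' : κ ⊕ ι → U)
    (hj : j ≠ 0) (h1 : S.v j ≤ S.v (jac G 1 (pt S b)).det)
    (h2 : S.v j ≤ S.v (jac G 2 (pt S b)).det) (hz : ∀ k, S.v (z k - b k) < S.v j)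
    (hz' : ∀ k, S.v (z' k - b k) < S.v j) (h0 : ∀ i, eval (pt S z) (G i) = 0)
    (h0' : ∀ i, eval (pt S z') (G i) = 0) : z = z' := by
  have J0 : 0 < S.v j := (Valuation.pos_iff _).2 hj
  have J1 : S.v j ≤ 1 := h1.trans (le_one (det_mem (jac_mem hS hG hb (one_mem _))))
  have hza : Adm S z := adm_of_near hb fun k => (hz k).trans_le J1
  obtain ⟨c, hc, hcj, hcn⟩ : ∃ c ∈ S.O, S.v j ≤ S.v (jac G c (pt S b)).det ∧
      ((c = 2 ∧ ∀ k, (z' - z) k ∈ S.nn) ∨ (c = 1 ∧ ∃ k, (z' - z) k ∉ S.nn)) := by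
    by_cases hn : ∀ k, (z' - z) k ∈ S.nn
    · refine ⟨2, ?_, h2, Or.inl ⟨rfl, hn⟩⟩
      rw [← one_add_one_eq_two]
      exact add_mem (one_mem _) (one_mem _)
    · exact ⟨1, one_mem _, h1, Or.inr ⟨rfl, not_forall.1 hn⟩⟩
  have hd : S.v j ≤ S.v (jac G c (pt S z)).det := by
    have h3 : (Finset.univ.sup fun k => S.v (z k - b k)) < S.v j :=
      (Finset.sup_lt_iff (lt_of_le_of_lt bot_le J0)).2 fun k _ => hz k
    have h4 := det_le hS hG hb (h := z - b) (h3.trans_le J1)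
      (fun k => Finset.le_sup (f := fun k => S.v (z k - b k)) (Finset.mem_univ k)) hc
    rw [add_sub_cancel] at h4
    have h5 := Valuation.map_add_eq_of_lt_right S.v ((h4.trans_lt h3).trans_le hcj)
    rw [sub_add_cancel] at h5
    rw [h5]
    exact hcj
  refine (sub_eq_zero.1 (eq_zero (jac_mem hS hG hza hc) (z' - z) hd (fun k => ?_)
    fun ν hν hb' i => ?_)).symm
  · have := Valuation.map_sub_lt S.v (hz' k) (hz k)
    rwa [sub_sub_sub_cancel_right] at this
  · have := second hS hG hza (hν.trans_le J1) hb' hcn i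
    rw [add_sub_cancel, h0, h0'] at this
    simpa using this

end Tay

open Tay in
theorem tay : TayStmt.{w} := fun _ _ =>
  ⟨fun _ _ _ _ _ _ _ hG hp hμ hh => taylor hG hp hμ hh,
    fun _ _ _ _ _ _ H u θ θ' => unique H u θ θ',
    fun _ _ _ _ _ _ _ _ _ hS hG hb =>
      ⟨fun _ _ _ hμ hh => ⟨fun i => first hS (hG i) hb hμ hh,
        fun hc => ⟨jac_sub_le hS hG hb hμ hh hc, det_le hS hG hb hμ hh hc⟩,
        second hS hG hb hμ hh⟩, uniqueE hS hG hb⟩⟩

end Pool.Agent.MP_0e4269_lc.Z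

end MrgPart0

-- ======== part 1: formerly Pool.Agent.MP_0e4269_lc.z.Top
section MrgPart1

/-!
The model theoretic assembly.
-/

open Set

universe w

namespace Pool.Agent.MP_0e4269_lc.Z

theorem ind_two {P : Prop → ℕ → Prop} (a : ∀ n, (∀ m < n, P False m) → P True n)
    (b : ∀ n, P True n → P False n) (n : ℕ) : P False n :=
  Nat.strong_induction_on n fun n ih => b n (a n ih)

theorem top (hahn : HahnStmt.{w}) (ez : EzStmt.{w}) (hks : HksStmt.{w}) (ult : UltStmt.{w})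
    (glue : GlueStmt.{w}) (acla : AclAStmt.{w}) (aclc : AclStmt.{w}) (forth : ForthStmt.{w})
    (swap : SwapStmt.{w}) (bf : BfStmt.{w}) (comp : CompStmt.{w}) (not1 : NotStmt.{w}) :
    ∃ T : LE.Theory, HMinimal.{0, 0, w} LE addS mulS valS T 0 ∧
      ¬ HMinimal.{0, 0, w} LE addS mulS valS T 1 := by
  obtain ⟨K, _, O, nn, hV, hsph, hbig⟩ := hahn
  obtain ⟨E, h0⟩ := ez K O nn hV hsph
  let S : ES K := ⟨O, nn, E⟩
  let _ := S.str
  have hC := compatE_str S
  refine ⟨LE.completeTheory K, ?_, not1 K S h0 hC hbig⟩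
  obtain ⟨U, _, _, S', h0', hk', hC', hsat, hT⟩ := ult K S h0 (hks K S h0 hsph) hC
  have := h0'.ch.charZero
  obtain ⟨hsc, hglue⟩ := glue U S' h0' hC' hsat
  have hhull : Hull S' := fun B hB => by
    obtain ⟨F, h1, h2⟩ := aclc U S' B h0' hk' hC'
    exact ⟨F, h2, h1 ▸ (acla U B).2.2 hB, h1 ▸ (acla U B).1⟩
  have hf := forth U S' ⟨h0', hk', hsc⟩ hglue hhull
  refine comp K U S'.O hC'.toCompat hsat hT fun p n a b x x' hx => ?_
  obtain ⟨F, h1, h2⟩ := aclc U S' (range a) h0' hk' hC'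
  have h3 : Fam S' (diag F) := fam_diag h2 (h1 ▸ (acla U _).2.2 (finite_range a).countable)
  obtain ⟨Φ, g1, g2, g3⟩ := (hf _ h3).1 x x' fun d s hd => by
    rw [(mem_diag.1 hd).2]
    exact hx d (h1 ▸ (mem_diag.1 hd).1)
  have key : ∀ t : Finset (Fin n), ∃ Ψ, Φ ≤ Ψ ∧ Fam S' Ψ ∧ ∀ i ∈ t, b i ∈ dom Ψ := by
    intro t
    induction t using Finset.induction_on with
    | empty => exact ⟨Φ, le_rfl, g2, by simp⟩
    | insert i t _ ih =>
      obtain ⟨Ψ, e1, e2, e3⟩ := ih
      obtain ⟨Ψ', e4, e5, e6⟩ := (hf _ e2).2 (b i)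
      refine ⟨Ψ', e1.trans e4, e5, fun j hj => ?_⟩
      rcases Finset.mem_insert.1 hj with rfl | hj
      exacts [e6, dom_mono e4 (e3 j hj)]
  obtain ⟨Ψ, e1, e2, e3⟩ := key Finset.univ
  choose b' hb' using fun i => e3 i (Finset.mem_univ i)
  refine ⟨b', fun i => e2.1 _ _ (hb' i), fun φ => ?_⟩
  refine bf U S' h0' hC' (swap U S' h0').2 (fun Φ h => (hf Φ h).2) Ψ _ φ _ _ e2 ?_
  rintro (i | i | i)
  · refine e1 (g1 (mem_diag.2 ⟨?_, rfl⟩))
    rw [← SetLike.mem_coe, h1]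
    exact (acla U _).1 ⟨i, rfl⟩
  · exact hb' i
  · exact e1 g3

end Pool.Agent.MP_0e4269_lc.Z

end MrgPart1

-- marker of a merged file
example : 731051 + 646522 = 731051 + 646522 := rfl
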