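import Mathlib.Topology.Sheaves.Presheaf
import Mathlib.Tactic.ENatToNat
import Mathlib.Tactic.Bound
import Mathlib.RingTheory.WittVector.IsPoly
import Mathlib.Tactic.Polynomial.Basic
import Mathlib.Tactic.ReduceModChar
import Pool.Agent.MP_0e4269_lc.z.Base2
import Pool.Agent.MP_0e4269_lc.z.Spec
import Mathlib.LinearAlgebra.Matrix.ToLinearEquiv
import Pool.Agent.MP_0e4269_lc.Ultra

-- ======== part 0: formerly Pool.Agent.MP_0e4269_lc.z.Ord
section MrgPart0

/-!
Choice of coarsenings.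
-/

open Set

universe w

namespace Pool.Agent.MP_0e4269_lc.Z

namespace Ord

variable {U : Type w} [Field U] {O R S : ValuationSubring U}

theorem over_total (hR : O ≤ R) (hS : O ≤ S) : R ≤ S ∨ S ≤ R := by
  by_contra h
  obtain ⟨h1, h2⟩ := not_or.1 h
  obtain ⟨a, haR, haS⟩ := SetLike.not_le_iff_exists.1 h1
  obtain ⟨b, hbS, hbR⟩ := SetLike.not_le_iff_exists.1 h2
  have ha : a ≠ 0 := fun e => haS (e ▸ zero_mem S)
  have hb : b ≠ 0 := fun e => hbR (e ▸ zero_mem R)
  rcases O.mem_or_inv_mem (a / b) with h3 | h3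
  · exact haS (by simpa [hb] using mul_mem (hS h3) hbS)
  · rw [inv_div] at h3
    exact hbR (by simpa [ha] using mul_mem (hR h3) haR)

/-- The largest coarsening in which `t` is not a unit. -/
def Rt (O : ValuationSubring U) (t : U) (ht : O.valuation t < 1) : ValuationSubring U :=
  O.ofLE
    { carrier := {a | ∀ k : ℕ, O.valuation t * O.valuation a ^ k < 1}
      mul_mem' := fun {a b} ha hb k => by
        rw [map_mul]
        rcases le_total (O.valuation a) (O.valuation b) with h | h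
        · refine lt_of_le_of_lt ?_ (hb (2 * k))
          rw [pow_mul, sq]
          gcongr
        · refine lt_of_le_of_lt ?_ (ha (2 * k))
          rw [pow_mul, sq]
          gcongr
      one_mem' := fun k => by simpa using ht
      add_mem' := fun {a b} ha hb k => by
        rcases le_max_iff.1 (O.valuation.map_add a b) with h | h
        · exact lt_of_le_of_lt (by gcongr) (ha k)
        · exact lt_of_le_of_lt (by gcongr) (hb k)
      zero_mem' := fun k => by
        refine lt_of_le_of_lt ?_ ht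
        exact mul_le_of_le_one_right' (pow_le_one₀ zero_le (by simp))
      neg_mem' := fun {a} ha k => by simpa using ha k }
    fun a ha k => lt_of_le_of_lt
      (mul_le_of_le_one_right' (pow_le_one₀ zero_le ((O.valuation_le_one_iff a).2 ha))) ht

theorem mem_Rt {t a : U} {ht : O.valuation t < 1} :
    a ∈ Rt O t ht ↔ ∀ k : ℕ, O.valuation t * O.valuation a ^ k < 1 := Iff.rfl

theorem le_Rt {t : U} (ht : O.valuation t < 1) : O ≤ Rt O t ht := fun a ha _ => lt_of_le_of_lt
  (mul_le_of_le_one_right' (pow_le_one₀ zero_le ((O.valuation_le_one_iff a).2 ha))) ht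

theorem Rt_ne_top {t : U} (h0 : t ≠ 0) (ht : O.valuation t < 1) : Rt O t ht ≠ ⊤ := by
  intro h
  have h1 : t⁻¹ ∈ Rt O t ht := h ▸ ValuationSubring.mem_top _
  have h2 := mem_Rt.1 h1 1
  rw [pow_one, ← map_mul, mul_inv_cancel₀ h0, map_one] at h2
  exact lt_irrefl _ h2

theorem pow_le_of_Rt {t e : U} (ht : O.valuation t < 1) (he : (Rt O t ht).valuation e < 1) :
    ∃ k : ℕ, O.valuation e ^ (k + 1) ≤ O.valuation t := by
  by_cases h0 : e = 0
  · exact ⟨0, by simp [h0]⟩
  obtain ⟨k, hk⟩ := not_forall.1 (mem_Rt.not.1 ((lt_one_iff.1 he).resolve_left h0))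
  have hp : 0 < O.valuation e := by simpa [zero_lt_iff] using h0
  rw [not_lt, map_inv₀, inv_pow, ← div_eq_mul_inv, one_le_div₀ (pow_pos hp k)] at hk
  have h1 : O.valuation e ≤ 1 := (lt_one_of_coarse (le_Rt ht) he).le
  exact ⟨k, le_trans (by rw [pow_succ]; exact mul_le_of_le_one_right' h1) hk⟩

theorem exists_below (hO : O ≠ ⊤) {η : U} (h : η ≠ 0) :
    ∃ t : U, t ≠ 0 ∧ O.valuation t < 1 ∧ O.valuation t ≤ O.valuation η := by
  obtain ⟨r, hr, hr1⟩ := exists_small hO
  rcases le_total (O.valuation r) (O.valuation η) with h1 | h1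
  · exact ⟨r, hr, hr1, h1⟩
  · exact ⟨η, h, h1.trans_lt hr1, le_rfl⟩

variable [CharZero U] {F : Subfield U}

theorem fp_anti (h : R ≤ S) : fp F S ≤ fp F R :=
  Submodule.span_mono (union_subset_union_right _ fun _ ha => lt_one_of_coarse h ha)

theorem sum_mem (hc : Ch R) {n : ℕ} {z : Fin n → U} (hz : ∀ j, z j ∈ R) (q : Fin n → ℚ) (j : Fin n) :
    q j • z j ∈ R := by
  rw [Rat.smul_def]
  exact mul_mem (hc.rat_mem _) (hz j)

theorem place_sum {k : Type w} [Field k] [CharZero k] {π : U → k} (h : Place R π) {n : ℕ}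
    {z : Fin n → U} (hz : ∀ j, z j ∈ R) (q : Fin n → ℚ) :
    π (∑ i, q i • z i) = ∑ i, q i • π (z i) := by
  rw [h.sum _ _ (sum_mem h.ch hz q)]
  exact Finset.sum_congr rfl fun i _ => h.smul _ (hz i)

theorem one (hc : Ch O) {n : ℕ} (z : Fin n → U) (hz : ∀ j, z j ∈ O) (hl : LI (sub F) z) :
    ∃ R, O ≤ R ∧ LI (fp F R) z ∧
      ∀ (k : Type w) [Field k] [CharZero k] (π : U → k) (O' : ValuationSubring k),
        PlaceO O R π O' → Star O' (resF R π F) fun j => π (z j) := by
  let A : Subring U := ⨅ S : {S : ValuationSubring U // O ≤ S ∧ LI (fp F S) z}, S.1.toSubring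
  have hA : O.toSubring ≤ A := le_iInf fun S => S.2.1
  have hm : ∀ a, a ∈ O.ofLE A hA ↔ ∀ S : ValuationSubring U, O ≤ S → LI (fp F S) z → a ∈ S :=
    fun a => Subring.mem_iInf.trans ⟨fun h S h1 h2 => h ⟨S, h1, h2⟩, fun h S => h S.1 S.2.1 S.2.2⟩
  have hO : O ≤ O.ofLE A hA := hA
  generalize O.ofLE A hA = R at hm hO
  refine ⟨R, hO, fun q hq => ?_, fun k _ _ π O' hp R' hR' hne hl' => ?_⟩
  · obtain ⟨f, hf, h⟩ := (mem_fp (hc.mono hO)).1 hq
    rcases lt_one_iff.1 h with h0 | h0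
    · exact hl q (mem_sub.2 (sub_eq_zero.1 h0 ▸ hf))
    · rw [hm] at h0
      push Not at h0
      obtain ⟨S, h1, h2, h3⟩ := h0
      exact h2 q ((mem_fp (hc.mono h1)).2 ⟨f, hf, lt_one_iff.2 (Or.inr h3)⟩)
  · let B : Subring U := (R'.toSubring.comap hp.pl.hom).map R.toSubring.subtype
    have hB : ∀ a, a ∈ B ↔ a ∈ R ∧ π a ∈ R' := fun a =>
      ⟨fun ⟨x, h1, h2⟩ => h2 ▸ ⟨x.2, h1⟩, fun h => ⟨⟨a, h.1⟩, h.2, rfl⟩⟩
    have hOB : O.toSubring ≤ B := fun a ha =>
      (hB a).2 ⟨hO ha, hR' ((hp.mem a (hO ha)).2 ha)⟩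
    have hS : ∀ a, a ∈ O.ofLE B hOB ↔ a ∈ R ∧ π a ∈ R' := hB
    have hOS : O ≤ O.ofLE B hOB := hOB
    generalize O.ofLE B hOB = S at hS hOS
    have hzR : ∀ j, z j ∈ R := fun j => hO (hz j)
    have hLI : LI (fp F S) z := by
      intro q hq
      obtain ⟨f, hf, h⟩ := (mem_fp (hc.mono hOS)).1 hq
      have hs : ∑ i, q i • z i ∈ R := _root_.sum_mem fun i _ => sum_mem hp.pl.ch hzR q i
      have hx := ((hS _).1 (mem_of_lt_one h)).1
      have hfR : f ∈ R := by simpa using sub_mem hs hx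
      refine hl' q ((mem_fp ((hp.ch hc).mono hR')).2
        ⟨π f, hp.pl.mem_resF.2 ⟨f, hf, hfR, rfl⟩, ?_⟩)
      rw [← place_sum hp.pl hzR, ← hp.pl.sub hs hfR]
      by_cases h0 : π (∑ i, q i • z i - f) = 0
      · simp [h0]
      refine lt_one_iff.2 (Or.inr fun h1 => ?_)
      rcases lt_one_iff.1 h with h2 | h2
      · exact h0 (h2 ▸ hp.pl.map_zero)
      · exact h2 ((hS _).2 ⟨hp.pl.inv_mem hx h0, by rwa [hp.pl.inv hx h0]⟩)
    refine hne (top_le_iff.1 fun y _ => ?_)
    obtain ⟨a, ha, rfl⟩ := hp.pl.surj y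
    exact ((hS a).1 ((hm a).1 ha S hOS hLI)).2

theorem two {n : ℕ} (z : Fin n → U) (R : ValuationSubring U) (k : Type w) [Field k] [CharZero k]
    (π : U → k) (h : Place R π) (hz : ∀ j, z j ∈ R) (hl : LI (fp F R) z) :
    LI (sub (resF R π F)) fun j => π (z j) := by
  intro q hq
  obtain ⟨f, hf, hfR, e⟩ := h.mem_resF.1 (mem_sub.1 hq)
  have hs : ∑ i, q i • z i ∈ R := _root_.sum_mem fun i _ => sum_mem h.ch hz q i
  refine hl q ((mem_fp h.ch).2 ⟨f, hf, (h.eq_iff hs hfR).1 ?_⟩)
  rw [place_sum h hz, e]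

theorem three (hc : Ch O) {n : ℕ} (z : Fin n → U) (hO : O ≠ ⊤) : ∃ R, O ≤ R ∧ R ≠ ⊤ ∧
    (∀ y ∈ Submodule.span ℚ (range z), y ∈ fp F R → Near O F y) ∧
    ((∀ e, R.valuation e < 1 → Near O F e) ∨ ∀ y, Near O F y → InCl O F y) := by
  by_cases hA : ∃ t : U, t ≠ 0 ∧ O.valuation t < 1 ∧
      ∀ η : U, η ≠ 0 → ∃ k : ℕ, O.valuation t ^ (k + 1) ≤ O.valuation η
  · obtain ⟨t, h0, ht, hcf⟩ := hA
    have key : ∀ y, ∀ f ∈ F, (Rt O t ht).valuation (y - f) < 1 → Near O F y := by
      intro y f hf h η hη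
      obtain ⟨k, hk⟩ := pow_le_of_Rt ht h
      obtain ⟨m, hm⟩ := hcf η hη
      refine ⟨f, hf, k * m + k + m, le_trans ?_ hm⟩
      rw [show k * m + k + m + 1 = (k + 1) * (m + 1) by ring, pow_mul]
      gcongr
    refine ⟨Rt O t ht, le_Rt ht, Rt_ne_top h0 ht, fun y _ hy => ?_,
      Or.inl fun e he => key e 0 (zero_mem _) (by simpa using he)⟩
    obtain ⟨f, hf, h⟩ := (mem_fp (hc.mono (le_Rt ht))).1 hy
    exact key y f hf h
  · push Not at hA
    have : FiniteDimensional ℚ (Submodule.span ℚ (range z)) :=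
      FiniteDimensional.span_of_finite ℚ (finite_range z)
    obtain ⟨R, ⟨h1, h2⟩, hmin⟩ := (measure fun R : ValuationSubring U =>
      Module.finrank ℚ (Submodule.span ℚ (range z) ⊓ fp F R : Submodule ℚ U)).wf.has_min
      {R | O ≤ R ∧ R ≠ ⊤} ⟨O, le_rfl, hO⟩
    refine ⟨R, h1, h2, fun y hy hyR η hη => ?_, Or.inr fun y hy η hη => ?_⟩
    · obtain ⟨t, h0, ht, hle⟩ := exists_below hO hη
      have hy' : y ∈ fp F (Rt O t ht) := by
        rcases over_total h1 (le_Rt ht) with h | h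
        · have h3 : Submodule.span ℚ (range z) ⊓ fp F (Rt O t ht) =
              Submodule.span ℚ (range z) ⊓ fp F R :=
            Submodule.eq_of_le_of_finrank_le (inf_le_inf_left _ (fp_anti h))
              (not_lt.1 (hmin _ ⟨le_Rt ht, Rt_ne_top h0 ht⟩))
          exact (h3.ge ⟨hy, hyR⟩).2
        · exact fp_anti h hyR
      obtain ⟨f, hf, h⟩ := (mem_fp (hc.mono (le_Rt ht))).1 hy'
      obtain ⟨k, hk⟩ := pow_le_of_Rt ht h
      exact ⟨f, hf, k, hk.trans hle⟩
    · obtain ⟨t, h0, ht, hle⟩ := exists_below hO hη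
      obtain ⟨η', hη', h⟩ := hA t h0 ht
      obtain ⟨a, ha, k, hk⟩ := hy η' hη'
      exact ⟨a, ha, (lt_of_pow_lt_pow_left₀ _ zero_le (hk.trans_lt (h k))).le.trans hle⟩

end Ord

theorem ord : OrdStmt.{w} := fun _ _ _ _ _ hc =>
  ⟨fun _ z hz hl => Ord.one hc z hz hl, fun _ z R k _ _ π h hz hl => Ord.two z R k π h hz hl,
    fun _ z hO => Ord.three hc z hO⟩

end Pool.Agent.MP_0e4269_lc.Z

end MrgPart0

-- ======== part 1: formerly Pool.Agent.MP_0e4269_lc.z.Sys
section MrgPart1

/-!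
The exponential system attached to a presentation is nondegenerate.
-/

open MvPolynomial Sum Matrix

universe w

namespace Pool.Agent.MP_0e4269_lc.Z

namespace Sys

variable {A B : Type*} [CommRing A] [CommRing B] {κ ι τ τ' : Type}

theorem ev_map (f : A →+* B) (p : τ → A) (G : MvPolynomial τ A) :
    eval (fun t => f (p t)) (map f G) = f (eval p G) := by
  induction G using MvPolynomial.induction_on <;> simp [*]

theorem jac_nat (f : A →+* B) (G : κ ⊕ ι → MvPolynomial ((κ ⊕ κ) ⊕ ι) A) (c : A)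
    (p : (κ ⊕ κ) ⊕ ι → A) :
    jac (fun i => map f (G i)) (f c) (fun t => f (p t)) = (jac G c p).map f := by
  ext i (k | l) <;> simp [jac, pderiv_map, ev_map, -eval_map]

theorem pjac_nat (f : A →+* B) (H : ι → MvPolynomial (κ ⊕ ι) A) (p : κ ⊕ ι → A) :
    pjac (fun i => map f (H i)) (fun t => f (p t)) = (pjac H p).map f := by
  ext i l
  simp [pjac, pderiv_map, ev_map, -eval_map]

theorem sysG_nat (f : A →+* B) (H : ι → MvPolynomial (κ ⊕ ι) A) (p q : κ → ι) :
    sysG (fun i => map f (H i)) p q = fun i => map f (sysG H p q i) := by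
  funext i
  rcases i with j | j | i <;> simp [sysG, map_rename]

/-- Directional derivative. -/
noncomputable def dd [Fintype τ] (p v : τ → A) (G : MvPolynomial τ A) : A :=
  ∑ t, eval p (pderiv t G) * v t

theorem dd_X [Fintype τ] (p v : τ → A) (t : τ) : dd p v (X t) = v t := by
  classical
  simp [dd, pderiv_X, Pi.single_apply]

theorem dd_sub [Fintype τ] (p v : τ → A) (F G : MvPolynomial τ A) :
    dd p v (F - G) = dd p v F - dd p v G := by
  simp [dd, sub_mul]

theorem dd_mul [Fintype τ] (p v : τ → A) (F G : MvPolynomial τ A) :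
    dd p v (F * G) = eval p F * dd p v G + eval p G * dd p v F := by
  simp [dd, add_mul, Finset.sum_add_distrib, Finset.mul_sum, mul_assoc]

theorem dd_add [Fintype τ] (p v : τ → A) (F G : MvPolynomial τ A) :
    dd p v (F + G) = dd p v F + dd p v G := by
  simp [dd, add_mul, Finset.sum_add_distrib]

theorem dd_C [Fintype τ] (p v : τ → A) (a : A) : dd p v (C a) = 0 := by simp [dd]

theorem dd_rename [Fintype τ] [Fintype τ'] (p v : τ → A) (e : τ' → τ) (G : MvPolynomial τ' A) :
    dd p v (rename e G) = dd (p ∘ e) (v ∘ e) G := by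
  induction G using MvPolynomial.induction_on with
  | C a => rw [rename_C, dd_C, dd_C]
  | add F G h1 h2 => rw [map_add, dd_add, dd_add, h1, h2]
  | mul_X F t h => simp only [map_mul, rename_X, dd_mul, dd_X, h, eval_rename, eval_X,
      Function.comp_apply]

theorem jac_mulVec [Fintype κ] [Fintype ι] (G : κ ⊕ ι → MvPolynomial ((κ ⊕ κ) ⊕ ι) A) (c : A)
    (p : (κ ⊕ κ) ⊕ ι → A) (h : κ ⊕ ι → A) (i : κ ⊕ ι) :
    (jac G c p *ᵥ h) i = dd p (dir c p h) (G i) := by
  simp only [jac, dd, dir, mulVec, dotProduct, of_apply, Fintype.sum_sum_type, elim_inl, elim_inr,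
    ← Finset.sum_add_distrib]
  congr 1
  exact Finset.sum_congr rfl fun k _ => by ring

theorem deriv_ev [Fintype τ] (D : Derivation ℤ B B) (g : A →+* B) (hg : ∀ a, D (g a) = 0)
    (p : τ → B) (G : MvPolynomial τ A) :
    D (eval p (map g G)) = dd p (fun t => D (p t)) (map g G) := by
  induction G using MvPolynomial.induction_on with
  | C a => rw [map_C, eval_C, dd_C, hg]
  | add F G h1 h2 => simp only [map_add, dd_add, h1, h2]
  | mul_X F t h => simp only [map_mul, map_X, dd_mul, dd_X, eval_X, Derivation.leibniz, h,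
      smul_eq_mul]

theorem dd_split [Fintype κ] [Fintype ι] (H : ι → MvPolynomial (κ ⊕ ι) A) (p v : κ ⊕ ι → A)
    (i : ι) : dd p v (H i) = ∑ k, eval p (pderiv (inl k) (H i)) * v (inl k) +
      (pjac H p *ᵥ fun l => v (inr l)) i := by
  simp [dd, pjac, mulVec, dotProduct]

end Sys

open Sys in
theorem sys (dex : DexStmt.{w}) : SysStmt.{w} := by
  intro U k _ _ _ _ R π M n u ι _ _ θ H p q c hπ hu hT hH hθ h0 hJ hD
  let T : Subring U := M.toSubring ⊓ R.toSubring
  let inc : T →+* R := Subring.inclusion (inf_le_right : T ≤ R.toSubring)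
  have hl : ∀ i, ∃ G : MvPolynomial (Fin n ⊕ ι) T, map T.subtype G = H i := fun i =>
    mem_range_map_iff_coeffs_subset.2 fun a ha => by
      obtain ⟨m, -, rfl⟩ := mem_coeffs_iff.1 ha
      exact ⟨⟨_, hH i m⟩, rfl⟩
  choose H0 hH0 using hl
  let z : Fin n ⊕ ι → R := Sum.elim (fun i => ⟨u i, hu i⟩) fun i => ⟨θ i, hθ i⟩
  let y : (Fin n ⊕ Fin n) ⊕ (Fin n ⊕ ι) → R :=
    Sum.elim (Sum.elim (fun j => z (inr (p j))) fun j => z (inr (q j))) z
  have e0 : ∀ i, map R.subtype (map inc (H0 i)) = H i := fun i => by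
    rw [MvPolynomial.map_map]; exact hH0 i
  have ez : Sum.elim u θ = fun t => R.subtype (z t) := by
    funext t; rcases t with t | t <;> rfl
  have ey : Sum.elim (Sum.elim (fun j => θ (p j)) fun j => θ (q j)) (Sum.elim u θ) =
      fun t => R.subtype (y t) := by
    funext t; rcases t with (t | t) | t | t <;> rfl
  have hv : ∀ a : R, R.valuation (R.subtype a) = 1 ↔ hπ.hom a ≠ 0 :=
    fun a => (hπ.ne_zero a.2).symm
  rw [← funext e0, ez, pjac_nat, ← RingHom.mapMatrix_apply, ← RingHom.map_det, hv,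
    RingHom.map_det, RingHom.mapMatrix_apply, ← pjac_nat] at hJ
  rw [ey, ← funext e0, sysG_nat, ← map_natCast R.subtype, jac_nat, ← RingHom.mapMatrix_apply,
    ← RingHom.map_det, hv, RingHom.map_det, RingHom.mapMatrix_apply, ← jac_nat, ← sysG_nat,
    map_natCast]
  intro hdet
  obtain ⟨h, hne, hh⟩ := exists_mulVec_eq_zero_iff.2 hdet
  obtain ⟨D, hK, hDu⟩ := (dex k).2.2 _ _ _ hT fun i => h (inr (inl i))
  have r1 : ∀ j, h (inl j) = h (inr (inr (p j))) := fun j => by
    have := congrFun hh (inl j)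
    rwa [jac_mulVec, sysG, elim_inl, dd_sub, dd_X, dd_X, Pi.zero_apply, sub_eq_zero] at this
  have r2 : ∀ j, (c : k) * π (θ (q j)) * h (inl j) = h (inr (inr (q j))) := fun j => by
    have := congrFun hh (inr (inl j))
    rwa [jac_mulVec, sysG, elim_inr, elim_inl, dd_sub, dd_X, dd_X, Pi.zero_apply,
      sub_eq_zero] at this
  have r3 : (fun l => D (π (θ l))) = fun l => h (inr (inr l)) := by
    by_contra hc
    refine hJ (exists_mulVec_eq_zero_iff.1 ⟨_, sub_ne_zero.2 hc, funext fun i => ?_⟩)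
    have a1 := congrFun hh (inr (inr i))
    rw [jac_mulVec, sysG, elim_inr, elim_inr, dd_rename,
      dd_split fun i => map hπ.hom (map inc (H0 i))] at a1
    have a2 := deriv_ev D (hπ.hom.comp inc)
      (fun a => hK _ (Subfield.subset_closure ⟨a, a.2, rfl⟩)) (fun t => hπ.hom (z t)) (H0 i)
    have a3 : eval z (map inc (H0 i)) = 0 := by
      have := h0 i
      rw [← e0, ez, ev_map] at this
      exact Subtype.ext this
    rw [← MvPolynomial.map_map, ev_map, a3, map_zero, map_zero,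
      dd_split fun i => map hπ.hom (map inc (H0 i))] at a2
    have a4 : (fun j => D (hπ.hom (z (inl j)))) = fun j => h (inr (inl j)) := funext hDu
    simp only [funext_iff.1 a4] at a2
    rw [mulVec_sub, Pi.sub_apply, Pi.zero_apply, sub_eq_zero]
    exact add_left_cancel (a2.symm.trans a1.symm)
  have r4 := funext_iff.1 r3
  have r5 := hD D hK fun j => by rw [r4, r4, ← r1, r2]
  have r6 : ∀ i, h (inr (inl i)) = 0 := fun i => (hDu i).symm.trans (r5 i)
  have r7 : (fun l => h (inr (inr l))) = 0 := by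
    by_contra hc
    refine hJ (exists_mulVec_eq_zero_iff.1 ⟨_, hc, funext fun i => ?_⟩)
    have a1 := congrFun hh (inr (inr i))
    rw [jac_mulVec, sysG, elim_inr, elim_inr, dd_rename,
      dd_split fun i => map hπ.hom (map inc (H0 i)), Finset.sum_eq_zero, zero_add] at a1
    · exact a1
    · exact fun j _ => mul_eq_zero_of_right _ (r6 j)
  refine hne (funext fun t => ?_)
  rcases t with j | j | l
  exacts [(r1 j).trans (congrFun r7 _), r6 j, congrFun r7 l]

end Pool.Agent.MP_0e4269_lc.Z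

end MrgPart1

-- ======== part 2: formerly Pool.Agent.MP_0e4269_lc.z.Univ
section MrgPart2

/-!
Change of language.
-/

open FirstOrder FirstOrder.Language

universe u v u' v' w

namespace Pool.Agent.MP_0e4269_lc.Z

theorem hminimal_of_hom {L : FirstOrder.Language.{u, v}} {L' : FirstOrder.Language.{u', v'}}
    (φ : L →ᴸ L') (ψ : L' →ᴸ L)
    (hf : ∀ n (f : L'.Functions n), φ.onFunction (ψ.onFunction f) = f)
    (hr : ∀ n (r : L'.Relations n), φ.onRelation (ψ.onRelation r) = r)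
    {add mul : L.Functions 2} {o : L.Relations 1} {T : L.Theory} {T' : L'.Theory}
    {add' mul' : L'.Functions 2} {o' : L'.Relations 1} (h1 : φ.onFunction add = add')
    (h2 : φ.onFunction mul = mul') (h3 : φ.onRelation o = o')
    (hT : ∀ (K : Type w) [L.Structure K] [L'.Structure K] [φ.IsExpansionOn K]
      [ψ.IsExpansionOn K], K ⊨ T' → K ⊨ T)
    {ell : ℕ∞} (h : HMinimal.{u, v, w} L add mul o T ell) :
    HMinimal.{u', v', w} L' add' mul' o' T' ell := by
  intro K _ _ O hK lam h0 hl A m hm X ⟨n, b, c, S, hS, hX⟩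
  let _ : L.Structure K := φ.reduct K
  have : φ.IsExpansionOn K := LHom.isExpansionOn_reduct φ K
  have : ψ.IsExpansionOn K :=
    ⟨fun f x => by rw [← φ.map_onFunction, hf], fun r x => by rw [← φ.map_onRelation, hr]⟩
  obtain ⟨C, e1, e2, e3⟩ := h K O
    ⟨fun x y => by rw [← φ.map_onFunction, h1]; exact hK.1 x y,
      fun x y => by rw [← φ.map_onFunction, h2]; exact hK.2.1 x y,
      fun x => by rw [← φ.map_onRelation, h3]; exact hK.2.2.1 x,
      hK.2.2.2.1, hK.2.2.2.2.1, hT K hK.2.2.2.2.2⟩ lam h0 hl A m hm X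
    ⟨n, b, c, S, hS.map_expansion ψ, hX⟩
  exact ⟨C, e1, Set.Definable.map_expansion e2 φ, e3⟩

/-- A language in other universes. -/
def up (L : FirstOrder.Language.{0, 0}) : FirstOrder.Language.{u, v} :=
  ⟨fun n => ULift (L.Functions n), fun n => ULift (L.Relations n)⟩

/-- The inclusion. -/
def upHom (L : FirstOrder.Language.{0, 0}) : L →ᴸ up.{u, v} L :=
  ⟨fun _ f => ULift.up f, fun _ r => ULift.up r⟩

/-- Its inverse. -/
def downHom (L : FirstOrder.Language.{0, 0}) : up.{u, v} L →ᴸ L :=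
  ⟨fun _ f => ULift.down f, fun _ r => ULift.down r⟩

theorem hminimal_up {L : FirstOrder.Language.{0, 0}} {add mul : L.Functions 2}
    {o : L.Relations 1} {T : L.Theory} {ell : ℕ∞} :
    HMinimal.{u, v, w} (up.{u, v} L) (ULift.up add) (ULift.up mul) (ULift.up o)
      ((upHom L).onTheory T) ell ↔ HMinimal.{0, 0, w} L add mul o T ell :=
  ⟨hminimal_of_hom (downHom L) (upHom L) (fun _ _ => rfl) (fun _ _ => rfl) rfl rfl rfl
      fun _ _ _ _ _ h => (LHom.onTheory_model _ _).2 h,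
    hminimal_of_hom (upHom L) (downHom L) (fun _ _ => rfl) (fun _ _ => rfl) rfl rfl rfl
      fun _ _ _ _ _ h => (LHom.onTheory_model _ _).1 h⟩

end Pool.Agent.MP_0e4269_lc.Z

end MrgPart2

-- marker of a merged file
example : 731051 + 333655 = 731051 + 333655 := rfl
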