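import Pool.Agent.MP_0e4269_lc.z.Spec
import Pool.Agent.MP_0e4269_lc.z.Base2

/-!
Elements of minimal degree, induction principles for multiplicative properties, and values of
algebraic elements.
-/

open Set

universe w

namespace Pool.Agent.MP_0e4269_lc.Z

namespace Wind

variable {U : Type w} [Field U]

theorem cf_iff {K : Subfield U} {f : Polynomial U} :
    (∀ i, f.coeff i ∈ K) ↔ ∃ g : Polynomial K, g.map K.subtype = f := by
  constructor
  · intro h
    have : f ∈ Polynomial.lifts K.subtype := by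
      rw [Polynomial.lifts_iff_coeff_lifts]
      exact fun i => ⟨⟨_, h i⟩, rfl⟩
    exact (Polynomial.mem_lifts _).1 this
  · rintro ⟨g, rfl⟩ i
    rw [Polynomial.coeff_map]
    exact (g.coeff i).2

theorem prod_mem {W : Set U} (hW : MulCl W) (h1 : (1 : U) ∈ W) (s : Multiset U)
    (hs : ∀ a ∈ s, a ∈ W) : s.prod ∈ W := by
  induction s using Multiset.induction_on with
  | empty => simpa using h1
  | cons a s ih =>
    rw [Multiset.prod_cons]
    exact hW.2.1 _ (hs a (by simp)) _ (ih fun b hb => hs b (by simp [hb]))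

theorem eval_mem [IsAlgClosed U] {W : Set U} (hW : MulCl W) {K : Subfield U}
    (hK : (K : Set U) ⊆ W) {y : U} (hy : ∀ a ∈ K, y - a ∈ W) {f : Polynomial U}
    (hf : ∀ i, f.coeff i ∈ K) (hr : f ≠ 0 → ∀ β, f.eval β = 0 → β ∈ K) : f.eval y ∈ W := by
  by_cases h0 : f = 0
  · rw [h0, Polynomial.eval_zero]
    exact hW.1
  have h := Polynomial.C_leadingCoeff_mul_prod_multiset_X_sub_C
    (IsAlgClosed.card_roots_eq_natDegree (p := f))
  rw [← h, Polynomial.eval_mul, Polynomial.eval_C, Polynomial.eval_multiset_prod,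
    Multiset.map_map]
  refine hW.2.1 _ (hK (hf _)) _ (prod_mem hW (hK K.one_mem) _ fun a ha => ?_)
  obtain ⟨b, hb, rfl⟩ := Multiset.mem_map.1 ha
  have hb' := (Polynomial.mem_roots h0).1 hb
  simpa using hy b (hr h0 b hb')

theorem ring_closure {K : Subfield U} {y x : U}
    (hx : x ∈ Subring.closure ((K : Set U) ∪ {y})) :
    ∃ g : Polynomial K, (g.map K.subtype).eval y = x := by
  induction hx using Subring.closure_induction with
  | mem a ha =>
    rcases ha with ha | ha
    · exact ⟨Polynomial.C ⟨a, ha⟩, by simp⟩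
    · exact ⟨Polynomial.X, by simpa using (mem_singleton_iff.1 ha).symm⟩
  | zero => exact ⟨0, by simp⟩
  | one => exact ⟨1, by simp⟩
  | add a b _ _ ha hb =>
    obtain ⟨g, rfl⟩ := ha
    obtain ⟨h, rfl⟩ := hb
    exact ⟨g + h, by simp⟩
  | neg a _ ha =>
    obtain ⟨g, rfl⟩ := ha
    exact ⟨-g, by simp⟩
  | mul a b _ _ ha hb =>
    obtain ⟨g, rfl⟩ := ha
    obtain ⟨h, rfl⟩ := hb
    exact ⟨g * h, by simp⟩

theorem closure_subset {W : Set U} (hW : MulCl W) {K : Subfield U} {y : U}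
    (h : ∀ g : Polynomial K, (g.map K.subtype).eval y ∈ W) :
    (Subfield.closure ((K : Set U) ∪ {y}) : Set U) ⊆ W := by
  intro x hx
  obtain ⟨a, ha, b, hb, rfl⟩ := Subfield.mem_closure_iff.1 hx
  obtain ⟨g, rfl⟩ := ring_closure ha
  obtain ⟨g', rfl⟩ := ring_closure hb
  rw [div_eq_mul_inv]
  exact hW.2.1 _ (h g) _ (hW.2.2 _ (h g'))

theorem shift [CharZero U] {K : Subfield U} {α a : U} {P : Polynomial U} (h : MinData K α P)
    (ha : a ∈ K) : MinData K (α - a) (P.comp (Polynomial.X + Polynomial.C a)) := by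
  obtain ⟨h1, h2, h3, h4⟩ := h
  refine ⟨fun h => h1 (by simpa using K.add_mem h ha), ?_, by simpa using h3, fun β hβ => ?_⟩
  · obtain ⟨g, rfl⟩ := cf_iff.1 h2
    exact cf_iff.2 ⟨g.comp (Polynomial.X + Polynomial.C ⟨a, ha⟩), by simp [Polynomial.map_comp]⟩
  · rw [Polynomial.derivative_comp] at hβ
    have : β + a ∈ K := h4 _ (by simpa using hβ)
    simpa using K.sub_mem this ha

end Wind

open Wind

theorem md : MdStmt.{w} := by
  classical
  intro U _ _ K hK
  have hex : ∃ n : ℕ, ∃ f : Polynomial U, f ≠ 0 ∧ (∀ i, f.coeff i ∈ K) ∧ f.natDegree = n ∧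
      ∃ β, f.eval β = 0 ∧ β ∉ K := by
    obtain ⟨β, h1, h2⟩ := SetLike.not_le_iff_exists.1 hK
    obtain ⟨f, h0, hc, hβ⟩ := mem_ac_field.1 h1
    exact ⟨_, f, h0, hc, rfl, β, hβ, h2⟩
  obtain ⟨f, h0, hc, hn, α, hα, hαK⟩ := Nat.find_spec hex
  have hmin : ∀ g : Polynomial U, g ≠ 0 → (∀ i, g.coeff i ∈ K) → g.natDegree < f.natDegree →
      ∀ β, g.eval β = 0 → β ∈ K := by
    intro g g0 gc gd β hβ
    by_contra hb
    exact Nat.find_min hex (hn ▸ gd) ⟨g, g0, gc, rfl, β, hβ, hb⟩
  have hl : f.leadingCoeff ≠ 0 := Polynomial.leadingCoeff_ne_zero.2 h0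
  have hd : (f * Polynomial.C f.leadingCoeff⁻¹).natDegree = f.natDegree :=
    Polynomial.natDegree_mul_C (inv_ne_zero hl)
  have hm := Polynomial.monic_mul_leadingCoeff_inv h0
  have hcf : ∀ i, (f * Polynomial.C f.leadingCoeff⁻¹).coeff i ∈ K := fun i => by
    rw [Polynomial.coeff_mul_C]
    exact K.mul_mem (hc i) (K.inv_mem (hc _))
  have hev : (f * Polynomial.C f.leadingCoeff⁻¹).eval α = 0 := by simp [hα]
  refine ⟨α, mem_ac_field.2 ⟨f, h0, hc, hα⟩, _, hm, ⟨hαK, hcf, hev, fun β hβ => ?_⟩, ?_⟩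
  · have hpos : (f * Polynomial.C f.leadingCoeff⁻¹).natDegree ≠ 0 := fun h => by
      rw [Polynomial.eq_one_of_monic_natDegree_zero hm h] at hev
      simp at hev
    refine hmin _ (fun h => hpos (Polynomial.derivative_eq_zero.1 h))
      (fun i => ?_) (hd ▸ Polynomial.natDegree_derivative_lt hpos) β hβ
    rw [Polynomial.coeff_derivative]
    exact K.mul_mem (hcf _) (K.add_mem (natCast_mem K i) K.one_mem)
  · rw [hd]
    exact hmin

theorem wind : WindStmt.{w} := by
  intro U _ _ _ W hW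
  refine ⟨fun K₀ h0 hstep => ?_, fun K y hK hKW hy => ?_⟩
  · obtain ⟨K, -, hK⟩ := zorn_le_nonempty₀
      {K : Subfield U | K₀ ≤ K ∧ K ≤ ac (K₀ : Set U) ∧ (K : Set U) ⊆ W}
      (fun c hc hch y hy => by
        refine ⟨sSup c, ⟨(hc hy).1.trans (le_sSup hy), sSup_le fun K hK => (hc hK).2.1,
          fun x hx => ?_⟩, fun K hK => le_sSup hK⟩
        obtain ⟨K, hK, hx⟩ := (Subfield.mem_sSup_of_directedOn ⟨y, hy⟩ hch.directedOn).1 hx
        exact (hc hK).2.2 hx) K₀ ⟨le_rfl, le_ac K₀, h0⟩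
    obtain ⟨h1, h2, h3⟩ := hK.prop
    have hac : ac (K : Set U) ≤ ac (K₀ : Set U) := ac_le h2
    by_cases hcl : ac (K : Set U) ≤ K
    · exact fun x hx => h3 (hcl (ac_mono h1 hx))
    exfalso
    obtain ⟨α, hα, P, hm, hP, hmin⟩ := md U K hcl
    obtain ⟨P₀, hP₀⟩ := cf_iff.1 hP.2.1
    have hm₀ : P₀.Monic := Polynomial.monic_of_injective K.subtype.injective (hP₀ ▸ hm)
    have hP1 : P₀ ≠ 1 := fun h => by
      have := hP.2.2.1
      rw [← hP₀, h] at this
      simp at this
    have hy : ∀ a ∈ K, α - a ∈ W := fun a ha =>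
      hstep K h1 h2 h3 _ (sub_mem (hac hα) (h2 ha)) _ (shift hP ha)
    have hsub : (Subfield.closure ((K : Set U) ∪ {α}) : Set U) ⊆ W := by
      refine closure_subset hW fun g => ?_
      have e : (g.map K.subtype).eval α = ((g %ₘ P₀).map K.subtype).eval α := by
        conv_lhs => rw [← Polynomial.modByMonic_add_div g P₀]
        rw [Polynomial.map_add, Polynomial.map_mul, Polynomial.eval_add, Polynomial.eval_mul,
          hP₀, hP.2.2.1, zero_mul, add_zero]
      rw [e]
      refine eval_mem hW h3 hy (cf_iff.2 ⟨_, rfl⟩) fun hne => hmin _ hne (cf_iff.2 ⟨_, rfl⟩) ?_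
      rw [← hP₀, Polynomial.natDegree_map, Polynomial.natDegree_map]
      exact Polynomial.natDegree_modByMonic_lt g hm₀ hP1
    have hle : K ≤ Subfield.closure ((K : Set U) ∪ {α}) :=
      fun x hx => Subfield.subset_closure (Or.inl hx)
    have := hK.le_of_ge (y := Subfield.closure ((K : Set U) ∪ {α}))
      ⟨h1.trans hle, Subfield.closure_le.2 (union_subset h2 (singleton_subset_iff.2 (hac hα))),
        hsub⟩ hle
    exact hP.1 (this (Subfield.subset_closure (Or.inr rfl)))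
  · exact closure_subset hW fun g => eval_mem hW hKW hy (cf_iff.2 ⟨_, rfl⟩)
      fun hne β hβ => mem_of_root hK hne (cf_iff.2 ⟨_, rfl⟩) hβ

theorem val : ValStmt.{w} := by
  classical
  intro U _ _ O K y hy hy0
  obtain ⟨P, h0, hc, hP⟩ := mem_ac_field.1 hy
  have key : ∀ i j, i < j → P.coeff j ≠ 0 →
      O.valuation (P.coeff i * y ^ i) = O.valuation (P.coeff j * y ^ j) →
      ∃ N : ℕ, N ≠ 0 ∧ ∃ a ∈ K, O.valuation y ^ N = O.valuation a := by
    intro i j hij hj h
    obtain ⟨d, rfl⟩ := Nat.exists_eq_add_of_lt hij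
    refine ⟨d + 1, d.succ_ne_zero, P.coeff i / P.coeff (i + d + 1), K.div_mem (hc _) (hc _), ?_⟩
    have hvj : O.valuation (P.coeff (i + d + 1)) ≠ 0 := by simpa using hj
    have hvy : O.valuation y ^ i ≠ 0 := pow_ne_zero _ (by simpa using hy0)
    rw [map_div₀, eq_div_iff hvj]
    apply mul_right_cancel₀ hvy
    simp only [map_mul, map_pow] at h
    rw [h, add_assoc i d 1, pow_add _ i (d + 1)]
    ac_rfl
  obtain ⟨i, hi, hmax⟩ := P.support.exists_max_image (fun i => O.valuation (P.coeff i * y ^ i))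
    (Polynomial.support_nonempty.2 h0)
  have hi0 : P.coeff i ≠ 0 := Polynomial.mem_support_iff.1 hi
  by_cases h : ∃ j ∈ P.support, j ≠ i ∧
      O.valuation (P.coeff j * y ^ j) = O.valuation (P.coeff i * y ^ i)
  · obtain ⟨j, hj, hji, e⟩ := h
    rcases lt_or_gt_of_ne hji with hlt | hlt
    · exact key j i hlt hi0 e
    · exact key i j hlt (Polynomial.mem_support_iff.1 hj) e.symm
  · exfalso
    have hne : O.valuation (P.coeff i * y ^ i) ≠ 0 := by simp [hi0, hy0]
    have hs := O.valuation.map_sum_eq_of_lt (s := P.support) (f := fun j => P.coeff j * y ^ j) hi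
      (fun j hj => by
        have hj' := Finset.mem_sdiff.1 hj
        have hji : j ≠ i := by simpa using hj'.2
        exact lt_of_le_of_ne (hmax j hj'.1) fun e => h ⟨j, hj'.1, hji, e⟩)
    rw [Polynomial.eval_eq_sum, Polynomial.sum_def] at hP
    rw [hP, map_zero] at hs
    exact hne hs.symm

end Pool.Agent.MP_0e4269_lc.Z
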