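import Mathlib.RingTheory.PicardGroup
import Pool.Agent.MP_0e4269_lc.z.Spec
import Pool.Agent.MP_0e4269_lc.z.Base4
import Pool.Agent.MP_0e4269_lc.z.Nd
import Pool.Agent.MP_0e4269_lc.z.Etale
import Pool.Agent.MP_0e4269_lc.z.Gauss
import Pool.Agent.MP_0e4269_lc.z.Uniq
import Pool.Agent.MP_0e4269_lc.z.Swap
import Pool.Agent.MP_0e4269_lc.z.Univ
import Pool.Agent.MP_0e4269_lc.z.Ros
import Pool.Agent.MP_0e4269_lc.z.Top
import Pool.Agent.MP_0e4269_lc.z.Wind

-- ======== part 0: formerly Pool.Agent.MP_0e4269_lc.z.Res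
section MrgPart0

/-!
Residue structures.
-/

open MvPolynomial Sum Set

universe w

namespace Pool.Agent.MP_0e4269_lc.Z

namespace Res

section Hk

variable {U k : Type w} [Field U] [Field k] {S : ES U} {R : ValuationSubring U} {π : U → k}
  {S' : ES k}

theorem memR {a j : U} (hle : S.O ≤ R) (hj : j ∈ R) (h : S.v a < S.v j) : a ∈ R :=
  (R.valuation_le_one_iff _).1
    ((val_le_coarse hle h.le).trans ((R.valuation_le_one_iff _).2 hj))

theorem pt_mem (h0 : Ax0 S) (hle : S.O ≤ R) {κ ι : Type} {z : κ ⊕ ι → U} (hz : ∀ t, z t ∈ R)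
    (t : (κ ⊕ κ) ⊕ ι) : pt S z t ∈ R := by
  rcases t with (t | t) | t
  · exact hz _
  · exact hle (h0.E_mem _)
  · exact hz _

theorem pt_res (h : IsRes S R π S') {κ ι : Type} {z : κ ⊕ ι → U} (hz : ∀ t, z t ∈ R) :
    pt S' (fun t => π (z t)) = fun t => π (pt S z t) := by
  funext t
  rcases t with (t | t) | t
  · rfl
  · exact h.E _ (hz _)
  · rfl

theorem lift_poly (h : IsRes S R π S') {F : Subfield U} {τ : Type} {G : MvPolynomial τ k}
    (hG : Cf ((resF R π F : Set k) ∩ S'.O) G) : ∃ G₁ : MvPolynomial τ R,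
      map h.pl.hom G₁ = G ∧ Cf ((F : Set U) ∩ S.O) (map R.subtype G₁) := by
  let A : Subring R := (F.toSubring ⊓ S.O.toSubring).comap R.subtype
  obtain ⟨G₀, hG₀⟩ := lift_cf (h.pl.hom.comp A.subtype) (G := G) fun m => by
    obtain ⟨a, ha, haR, e⟩ := h.pl.mem_resF.1 (hG m).1
    exact ⟨⟨⟨a, haR⟩, ha, (h.mem a haR).1 (e ▸ (hG m).2)⟩, e⟩
  refine ⟨map A.subtype G₀, by rw [MvPolynomial.map_map, hG₀], ?_⟩
  rw [MvPolynomial.map_map]
  exact cf_map _ (fun a => a.2) _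

end Hk

end Res

open Res in
theorem reshk : ResHkStmt.{w} := by
  intro U k _ _ S R π S' F h0 h hF κ ι _ _ _ _ G b j hG hb hA hj hj0 d1 d2 he
  choose G₁ e₁ c₁ using fun i => lift_poly h (hG i)
  choose b₁ bF bR eb using fun t => h.pl.mem_resF.1 (hb t)
  obtain ⟨j₁, jF, jR, rfl⟩ := h.pl.mem_resF.1 hj
  obtain rfl : b = fun t => π (b₁ t) := (funext eb).symm
  obtain rfl : G = fun i => map h.pl.hom (G₁ i) := (funext e₁).symm
  have ev : ∀ z : κ ⊕ ι → U, (∀ t, z t ∈ R) → ∀ i,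
      eval (pt S z) (map R.subtype (G₁ i)) ∈ R ∧
      eval (pt S' fun t => π (z t)) (map h.pl.hom (G₁ i)) =
        π (eval (pt S z) (map R.subtype (G₁ i))) := fun z hz i => by
    have e1 := eval_map' R.subtype (fun t => ⟨pt S z t, pt_mem h0 h.le hz t⟩) (G₁ i)
    have e2 := eval_map' h.pl.hom (fun t => ⟨pt S z t, pt_mem h0 h.le hz t⟩) (G₁ i)
    rw [pt_res h hz]
    refine ⟨?_, e2.trans (congrArg π e1.symm)⟩
    exact e1.symm ▸ Subtype.property _
  have dt : ∀ c : ℕ, S'.v (π j₁) ≤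
      S'.v (jac (fun i => map h.pl.hom (G₁ i)) (c : k) (pt S' fun t => π (b₁ t))).det →
      S.v j₁ ≤ S.v (jac (fun i => map R.subtype (G₁ i)) (c : U) (pt S b₁)).det := fun c hc => by
    have e1 := det_jac_map R.subtype G₁ (c : R) fun t => ⟨pt S b₁ t, pt_mem h0 h.le bR t⟩
    have e2 := det_jac_map h.pl.hom G₁ (c : R) fun t => ⟨pt S b₁ t, pt_mem h0 h.le bR t⟩
    rw [map_natCast] at e1 e2
    rw [pt_res h bR] at hc
    have hc' := hc.trans_eq (congrArg S'.v e2)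
    refine Eq.trans_ge (congrArg S.v e1) ?_
    refine (h.toPlaceO.val_le jR (Subtype.property _) fun hz => hj0 ?_).1 hc'
    rw [h.pl.hom_apply, hz, map_zero] at hc'
    exact (Valuation.zero_iff _).1 (le_zero_iff.1 hc')
  have hj1 : j₁ ≠ 0 := fun e => hj0 (by rw [e, h.pl.map_zero])
  obtain ⟨z, hz, hz0⟩ := hF κ ι (fun i => map R.subtype (G₁ i)) b₁ j₁ c₁ bF
    ⟨fun t => (h.toPlaceO.lt_one (bR _)).1 (hA.1 t), fun t => (h.mem _ (bR _)).1 (hA.2 t)⟩ jF hj1
    (by simpa using dt 1 (by simpa using d1)) (by simpa using dt 2 (by simpa using d2))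
    fun i => by
      have e := he i
      rw [(ev b₁ bR i).2, ← map_pow, ← h.pl.pow jR] at e
      rw [← map_pow]
      exact (h.toPlaceO.val_lt (ev b₁ bR i).1 (R.pow_mem jR 3)
        (by rw [h.pl.pow jR]; exact pow_ne_zero _ hj0)).1 e
  have zb : ∀ t, z t - b₁ t ∈ R := fun t => memR h.le jR (hz t).2
  have zR : ∀ t, z t ∈ R := fun t => by simpa using add_mem (zb t) (bR t)
  refine ⟨fun t => π (z t), fun t => ⟨h.pl.mem_resF.2 ⟨_, (hz t).1, zR t, rfl⟩, ?_⟩, fun i => ?_⟩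
  · rw [← h.pl.sub (zR t) (bR t)]
    exact (h.toPlaceO.val_lt (zb t) jR hj0).2 (hz t).2
  · rw [(ev z zR i).2, hz0 i, h.pl.map_zero]

namespace Res

section Ex

variable {U : Type w} [Field U]

open Classical in
/-- The residue map, extended by zero. -/
noncomputable def pl (R : ValuationSubring U) (a : U) : IsLocalRing.ResidueField R :=
  if h : a ∈ R then IsLocalRing.residue R ⟨a, h⟩ else 0

theorem pl_eq {R : ValuationSubring U} {a : U} (h : a ∈ R) :
    pl R a = IsLocalRing.residue R ⟨a, h⟩ := dif_pos h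

theorem place_pl (R : ValuationSubring U) : Place R (pl R) where
  add a ha b hb := by rw [pl_eq ha, pl_eq hb, pl_eq (add_mem ha hb), ← map_add]; rfl
  mul a ha b hb := by rw [pl_eq ha, pl_eq hb, pl_eq (mul_mem ha hb), ← map_mul]; rfl
  one := by rw [pl_eq R.one_mem]; exact map_one _
  zero a ha := by
    rw [pl_eq ha, IsLocalRing.residue_eq_zero_iff, R.valuation_lt_one_iff]
  surj y := by
    obtain ⟨a, rfl⟩ := IsLocalRing.residue_surjective y
    exact ⟨a, a.2, pl_eq a.2⟩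

variable {k : Type w} [Field k] {O R : ValuationSubring U} {π : U → k}

theorem alg_closed [IsAlgClosed U] (h : Place R π) : IsAlgClosed k := by
  refine IsAlgClosed.of_exists_root k fun P hm hi => ?_
  have hs : Function.Surjective h.hom := fun y => by
    obtain ⟨a, ha, e⟩ := h.surj y
    exact ⟨⟨a, ha⟩, e⟩
  obtain ⟨Q, e, hd, hQ⟩ := Polynomial.lifts_and_degree_eq_and_monic
    (Polynomial.mem_lifts_of_surjective hs P) hm
  obtain ⟨x, hx⟩ := IsAlgClosed.exists_aeval_eq_zero U Q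
    (by rw [hd]; exact (Polynomial.degree_pos_of_irreducible hi).ne')
  obtain ⟨y, rfl⟩ := IsIntegrallyClosed.algebraMap_eq_of_integral (R := R) (K := U) ⟨Q, hQ, hx⟩
  refine ⟨h.hom y, ?_⟩
  rw [Polynomial.aeval_algebraMap_apply, map_eq_zero_iff _ Subtype.val_injective] at hx
  rw [← e, Polynomial.eval_map, Polynomial.eval₂_hom]
  exact (congrArg h.hom hx).trans (map_zero _)

/-- The image of the valuation ring. -/
def imO (h : Place R π) (hle : O ≤ R) : ValuationSubring k where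
  toSubring := (O.toSubring.comap R.subtype).map h.hom
  mem_or_inv_mem' y := by
    obtain ⟨a, ha, rfl⟩ := h.surj y
    by_cases hO : a ∈ O
    · exact Or.inl ⟨⟨a, ha⟩, hO, rfl⟩
    · have h0 : π a ≠ 0 := fun e => hO (mem_of_lt_one (lt_one_of_coarse hle ((h.zero a ha).1 e)))
      have hi := (O.mem_or_inv_mem a).resolve_left hO
      exact Or.inr ⟨⟨a⁻¹, hle hi⟩, hi, h.inv ha h0⟩

theorem placeO (h : Place R π) (hle : O ≤ R) : PlaceO O R π (imO h hle) where
  le := hle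
  pl := h
  mem a ha := by
    refine ⟨?_, fun hO => ⟨⟨a, ha⟩, hO, rfl⟩⟩
    rintro ⟨b, hb, e⟩
    have := mem_of_lt_one (lt_one_of_coarse hle ((h.eq_iff ha b.2).1 e.symm))
    simpa using add_mem this hb

theorem E_congr {S : ES U} (h0 : Ax0 S) (h : Place R π) (hle : S.O ≤ R) {a b : U} (ha : a ∈ R)
    (hb : b ∈ R) (e : π a = π b) : π (S.E a) = π (S.E b) := by
  have h1 := (h.eq_iff ha hb).1 e
  have h2 : S.v (a - b) < 1 := lt_one_of_coarse hle h1
  by_cases hv : S.v b < 1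
  · have hv' : S.v a < 1 := by simpa using S.v.map_add_lt h2 hv
    exact (h.eq_iff (hle (h0.E_mem _)) (hle (h0.E_mem _))).2
      ((val_le_coarse hle (h0.E_lip hv' hv)).trans_lt h1)
  · have hv' : ¬ S.v a < 1 := fun h3 => hv (by simpa using S.v.map_sub_lt h3 h2)
    rw [h0.E0 a hv', h0.E0 b hv]

theorem exists_res {S : ES U} (h0 : Ax0 S) (h : Place R π) (hle : S.O ≤ R) :
    ∃ S' : ES k, IsRes S R π S' ∧ (0 : k) ∈ S'.nn := by
  choose l hl el using h.surj
  refine ⟨⟨imO h hle, {y | y = 0 ∨ ∃ a ∈ S.nn, π a = y}, fun y => π (S.E (l y))⟩,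
    ⟨placeO h hle, fun a ha h1 => ⟨?_, fun hn => Or.inr ⟨a, hn, rfl⟩⟩,
      fun a ha => E_congr h0 h hle (hl _) ha (el _)⟩, Or.inl rfl⟩
  have h2 : π a ≠ 0 := fun e => h1 ((h.zero a ha).1 e)
  rintro (e | ⟨b, hb, e⟩)
  · exact (h2 e).elim
  · refine h0.nnle a b hb (((placeO h hle).val_le ha
      (hle (mem_of_lt_one (h0.nnlt b hb))) (e ▸ h2)).1 (by rw [e]))

variable {S : ES U} {S' : ES k}

theorem nn_iff (h : IsRes S R π S') {a : U} (ha : a ∈ R) (h0 : π a ≠ 0) :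
    π a ∈ S'.nn ↔ a ∈ S.nn := h.nn a ha fun e => h0 ((h.pl.zero a ha).2 e)

theorem Tn_res [CharZero k] (h : Place R π) {x : U} (hx : x ∈ R) (n : ℕ) :
    Tn n x ∈ R ∧ π (Tn n x) = Tn n (π x) := by
  induction n with
  | zero => rw [Tn_zero, Tn_zero]; exact ⟨R.one_mem, h.one⟩
  | succ n ih =>
    have h1 : ((n + 1).factorial : U) ∈ R := natCast_mem R _
    have h2 : π ((n + 1).factorial : U) ≠ 0 := by
      rw [h.nat]; exact_mod_cast (n + 1).factorial_ne_zero
    have h3 : x ^ (n + 1) / ((n + 1).factorial : U) ∈ R := by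
      rw [div_eq_mul_inv]; exact mul_mem (R.pow_mem hx _) (h.inv_mem h1 h2)
    rw [Tn_succ, Tn_succ]
    refine ⟨add_mem ih.1 h3, ?_⟩
    rw [h.add _ ih.1 _ h3, ih.2, h.div (R.pow_mem hx _) h1 h2, h.pow hx, h.nat]

theorem slope_res (h : IsRes S R π S') {a : U} (ha : a ∈ R) :
    π (slope S.nn a * a) = slope S'.nn (π a) * π a := by
  rw [h.pl.mul _ (h.le (slope_mem S.O _ _)) _ ha]
  by_cases h0 : π a = 0
  · rw [h0, mul_zero, mul_zero]
  · have h1 := nn_iff h ha h0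
    congr 1
    rcases slope_cases S.nn a with ⟨e1, e2⟩ | ⟨e1, e2⟩ <;>
      rcases slope_cases S'.nn (π a) with ⟨e3, e4⟩ | ⟨e3, e4⟩
    · rw [e2, e4]; exact_mod_cast h.pl.nat 2
    · exact (e3 (h1.2 e1)).elim
    · exact (e1 (h1.1 e3)).elim
    · rw [e2, e4, h.pl.one]

theorem ax0_res [CharZero k] (h0 : Ax0 S) (h : IsRes S R π S') (hn : (0 : k) ∈ S'.nn) :
    Ax0 S' where
  alg := have := h0.alg; alg_closed h.pl
  ch := h.toPlaceO.ch h0.ch
  nn0 := hn
  nnle y y' hy hle := by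
    obtain ⟨a, ha, rfl⟩ := h.pl.surj y
    obtain ⟨b, hb, rfl⟩ := h.pl.surj y'
    by_cases e : π a = 0
    · rwa [e]
    · have e' : π b ≠ 0 := fun e' => e (by simpa [e'] using hle)
      exact (nn_iff h ha e).2 (h0.nnle a b ((nn_iff h hb e').1 hy)
        ((h.toPlaceO.val_le ha hb e').1 hle))
  nnsq y hy := by
    obtain ⟨a, ha, rfl⟩ := h.pl.surj y
    by_cases e : π a = 0
    · rwa [e]
    · rw [← h.pl.mul a ha a ha] at hy
      refine (nn_iff h ha e).2 (h0.nnsq a ((nn_iff h (mul_mem ha ha) ?_).1 hy))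
      rw [h.pl.mul a ha a ha]
      exact mul_ne_zero e e
  nnlt y hy := by
    obtain ⟨a, ha, rfl⟩ := h.pl.surj y
    by_cases e : π a = 0
    · simp [e]
    · exact (h.toPlaceO.lt_one ha).2 (h0.nnlt a ((nn_iff h ha e).1 hy))
  E0 y hy := by
    obtain ⟨a, ha, rfl⟩ := h.pl.surj y
    rw [h.E a ha, h0.E0 a fun e => hy ((h.toPlaceO.lt_one ha).2 e), h.pl.map_zero]
  E1 y y' hy hy' := by
    obtain ⟨a, ha, rfl⟩ := h.pl.surj y
    obtain ⟨b, hb, rfl⟩ := h.pl.surj y'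
    rw [← h.pl.add a ha b hb, h.E a ha, h.E b hb, h.E _ (add_mem ha hb),
      h0.E1 a b ((h.toPlaceO.lt_one ha).1 hy) ((h.toPlaceO.lt_one hb).1 hy'),
      h.pl.mul _ (h.le (h0.E_mem _)) _ (h.le (h0.E_mem _))]
  ET y hy n := by
    obtain ⟨a, ha, rfl⟩ := h.pl.surj y
    have h1 := Tn_res h.pl (mul_mem (h.le (slope_mem S.O S.nn a)) ha) n
    have h2 := h0.ET a ((h.toPlaceO.lt_one ha).1 hy) n
    have h3 := sub_mem (h.le (h0.E_mem a)) h1.1
    rw [h.E a ha, ← slope_res h ha, ← h1.2, ← h.pl.sub (h.le (h0.E_mem a)) h1.1]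
    rw [← map_pow] at h2
    by_cases e : π a = 0
    · have h4 := val_le_coarse h.le h2
      rw [map_pow] at h4
      rw [(h.pl.zero _ h3).2 (h4.trans_lt (pow_lt_one₀ zero_le ((h.pl.zero a ha).1 e)
        n.succ_ne_zero)), map_zero]
      exact zero_le
    · rw [← map_pow, ← h.pl.pow ha]
      exact (h.toPlaceO.val_le h3 (R.pow_mem ha _)
        (by rw [h.pl.pow ha]; exact pow_ne_zero _ e)).2 h2

theorem sc_res (h : IsRes S R π S') (hs : SC S.O) : SC S'.O := by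
  intro ι _ c r hr hc
  choose c₁ cR ec using fun i => h.pl.surj (c i)
  choose r₁ rR er using fun i => h.pl.surj (r i)
  obtain rfl : c = fun i => π (c₁ i) := (funext ec).symm
  obtain rfl : r = fun i => π (r₁ i) := (funext er).symm
  obtain ⟨x, hx⟩ := hs ι c₁ r₁ (fun i e => hr i (by simp only [e, h.pl.map_zero])) fun i j => by
    have e := hc i j
    simp only [← h.pl.sub (cR i) (cR j)] at e
    exact lt_max_iff.2 ((lt_max_iff.1 e).imp
      (h.toPlaceO.val_lt (sub_mem (cR i) (cR j)) (rR i) (hr i)).1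
      (h.toPlaceO.val_lt (sub_mem (cR i) (cR j)) (rR j) (hr j)).1)
  refine ⟨π x, fun i => ?_⟩
  have h1 : x - c₁ i ∈ R := memR h.le (rR i) (hx i)
  have h2 : x ∈ R := by simpa using add_mem h1 (cR i)
  rw [← h.pl.sub h2 (cR i)]
  exact (h.toPlaceO.val_lt h1 (rR i) (hr i)).2 (hx i)

end Ex

end Res

open Res in
theorem res (abh : AbhStmt.{w}) : ResStmt.{w} := by
  intro U _ _ S R
  refine ⟨fun hS hle => ?_, fun k _ _ π S' F h0 h hF => ⟨?_, fun y hy => ?_, ?_⟩⟩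
  · have hc := (place_pl R).charZero (hS.ch.mono hle)
    obtain ⟨S', h, hn⟩ := exists_res hS.toAx0 (place_pl R) hle
    refine ⟨_, inferInstance, hc, pl R, S', h, ax0_res hS.toAx0 h hn, ?_, sc_res h hS.sc⟩
    rw [← h.pl.resF_top]
    exact reshk U _ S R _ S' ⊤ hS.toAx0 h hS.hk
  · have := h0.alg
    exact (abh U k R π F h.pl).2.1 hF.acF
  · obtain ⟨a, ha, haR, rfl⟩ := h.pl.mem_resF.1 hy
    exact h.pl.mem_resF.2 ⟨_, hF.EF a ha, h.le (h0.E_mem a), (h.E a haR).symm⟩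
  · exact reshk U k S R π S' F h0 h hF.hk

end Pool.Agent.MP_0e4269_lc.Z

end MrgPart0

-- ======== part 1: formerly Pool.Agent.MP_0e4269_lc.z.Sa
section MrgPart1

/-!
The main step of the extension lemma.
-/

open Set

universe w

namespace Pool.Agent.MP_0e4269_lc.Z

/-- Composition of the inverse of a graph with a graph. -/
def cmp {U : Type w} [Field U] (σ τ : Subring (U × U)) : Subring (U × U) where
  carrier := {p | ∃ a, (a, p.1) ∈ σ ∧ (a, p.2) ∈ τ}
  mul_mem' := fun ⟨a, h1, h2⟩ ⟨b, h3, h4⟩ => ⟨a * b, σ.mul_mem h1 h3, τ.mul_mem h2 h4⟩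
  one_mem' := ⟨1, σ.one_mem, τ.one_mem⟩
  add_mem' := fun ⟨a, h1, h2⟩ ⟨b, h3, h4⟩ => ⟨a + b, σ.add_mem h1 h3, τ.add_mem h2 h4⟩
  zero_mem' := ⟨0, σ.zero_mem, τ.zero_mem⟩
  neg_mem' := fun ⟨a, h1, h2⟩ => ⟨-a, σ.neg_mem h1, τ.neg_mem h2⟩

theorem sa (c : CStmt.{w}) (str : StrStmt.{w}) (nd : NdStmt.{w}) (ord : OrdStmt.{w})
    (split : SplitStmt.{w}) (span : SpanStmt.{w}) (res : ResStmt.{w}) (abh : AbhStmt.{w})
    (rb : RbStmt.{w}) (nob : NoBStmt.{w}) (lift : LiftStmt.{w}) (ext : ExtStmt.{w})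
    (auto : AutoStmt.{w}) : SaStmt.{w} := by
  intro n IH U _ _ S F M ψ z hS hF hFM hne hMc hMa hrk hψ hdom hFE hz hLI hr hP
  obtain ⟨hn, hstar⟩ := hP trivial
  have h0 : Ax0 S := hS.toAx0
  have := h0.alg
  have hFc : (F : Set U).Countable := hMc.mono hFM
  have hO : S.O ≠ ⊤ := ne_top_of_small (a := z ⟨0, Nat.pos_of_ne_zero hn⟩)
    (fun e => hLI.notMem _ (e ▸ zero_mem _)) (hz _)
  have hND : ND S M (cst S) z := nd U S F M (cst S) n z h0 hFM (cst_ne_zero S) hz hLI hr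
    fun l _ y hy hl => str U S F M l y hS hF hFc hFM hrk hy hl
  obtain ⟨R, hOR, hRt, hnear, hcase⟩ := (ord U S.O F h0.ch).2.2 n z hO
  obtain ⟨m, l, z', z'', h1, h2, hl', h3, h4, h5⟩ := (split U).1 (fp F R) n z
  obtain ⟨hml, hl'', hl0⟩ := h5 _ hLI
  have hl0 := hl0 (hstar R hOR hRt)
  have hsm := (span U S (range z) h0).1 (range_subset_iff.2 hz)
  have hz' : ∀ j, S.v (z' j) < 1 := fun j => hsm (h1 j)
  have hz'' : ∀ j, S.v (z'' j) < 1 := fun j => hsm (h2 j)
  have hn'' : ∀ j, Near S.O F (z'' j) := fun j => hnear _ (h2 j) (h3 j)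
  have hEL : ∀ B : Set U, (Submodule.span ℚ (range z) : Set U) ⊆ EL S (ac (B ∪ zE S z)) :=
    fun B => (span U S _ h0).2.1 _ (ac_ac _) (range_subset_iff.2 fun j =>
      ⟨hz j, subset_ac _ (Or.inr (mem_zE S z j)), subset_ac _ (Or.inr (E_mem_zE S z j))⟩)
  have fin : ∀ ψ₁, ψ ≤ ψ₁ → Good S.O ψ₁ → (dom ψ₁).Countable →
      (∀ j, ∃ y ∈ EC S ψ₁, Near S.O F (z' j - y)) →
      ∃ (Φ : Subring (U × U)) (K : Subfield U), ψ ≤ Φ ∧ Good S.O Φ ∧ dom Φ = K ∧
        ac (K : Set U) = K ∧ ∀ j, z j ∈ EC S Φ := by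
    intro ψ₁ h6 h7 h8 h9
    obtain ⟨Φ, g1, g2, g3⟩ := ext U S.O ψ₁ (zE S z) h0.ch hS.sc h7 h8 (zE_finite _ _)
    have hEL := hEL (dom ψ₁)
    set K := ac (dom ψ₁ ∪ zE S z)
    have hK : ac (K : Set U) = K := ac_ac _
    have hFK : F ≤ K := fun a ha => subset_ac _ (Or.inl (dom_mono h6 (hdom.ge (hFM ha))))
    have hA : ∀ s ∈ EL S K, Near S.O F s → s ∈ EC S Φ := fun s hs hn =>
      (auto U S F K s h0 hFK hs.1).2.1 Φ g2 g3
        (fun a ha h => EC_mono (h6.trans g1) (hFE a ha h)) hs.2.1 hs.2.2 hn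
    have hsp := fun T => (span U S T h0).2.2.2 Φ K g2 g3 hK
    refine ⟨Φ, K, h6.trans g1, g2, g3, hK, fun j => hsp _ (union_subset ?_ ?_) (h4 j)⟩
    · rintro _ ⟨j, rfl⟩
      obtain ⟨y, hy, hyn⟩ := h9 j
      have hy := EC_mono g1 hy
      have hyL : y ∈ EL S K := by
        obtain ⟨e1, s, e2, e3⟩ := hy
        exact ⟨e1, g3.le ⟨_, e2⟩, g3.le ⟨_, e3⟩⟩
      have he : z' j - y ∈ EL S K := (span U S {z' j, y} h0).2.1 K hK
        (pair_subset (hEL (h1 j)) hyL)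
        (sub_mem (Submodule.subset_span (by simp)) (Submodule.subset_span (by simp)))
      have := hsp {z' j - y, y} (pair_subset (hA _ he hyn) hy)
        (add_mem (Submodule.subset_span (mem_insert _ _))
          (Submodule.subset_span (mem_insert_of_mem _ rfl)))
      simpa using this
    · rintro _ ⟨j, rfl⟩
      exact hA _ (hEL (h2 j)) (hn'' j)
  by_cases hm : m = 0
  · subst hm
    exact fin ψ le_rfl hψ (hdom ▸ hMc) fun j => j.elim0
  obtain ⟨k, _, _, π, S', hR, hS'⟩ := (res U S R).1 hS hOR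
  have h0' : Ax0 S' := hS'.toAx0
  rcases hcase with hA | hB
  swap
  · exfalso
    have e1 := nob U k S R π S' F m l z' z'' hS hS' hR hRt hF hFc hm hl0 hz' hz'' hl' hl''
      fun j => hB _ (hn'' j)
    have e2 : rk (F : Set U) (zE S z' ∪ zE S z'') ≤ rk (F : Set U) (M ∪ zE S z) := by
      refine rk_le_of_subset (Subset.trans (union_subset ?_ ?_)
        (ac_mono (subset_union_right (t := (M : Set U) ∪ zE S z))))
      · exact zE_subset.2 fun j => (hEL M (h1 j)).2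
      · exact zE_subset.2 fun j => (hEL M (h2 j)).2
    rw [rk_union _ (M : Set U), union_eq_self_of_subset_left hFM] at e2
    have e3 := (e1.trans e2).trans (add_le_add hrk hr)
    rw [← Nat.cast_one (R := ℕ∞), ← Nat.cast_add, Nat.cast_le] at e3
    omega
  have hF' := (res U S R).2 k π S' F h0 hR hF
  have hFc' := hR.pl.resF_countable hFc
  have hMc' := hR.pl.resF_countable hMc
  have hFM' : resF R π F ≤ resF R π M := resF_mono hFM
  have hzR : ∀ j, z' j ∈ R := fun j => hR.memR (hz' j)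
  have hzb : ∀ j, S'.v (π (z' j)) < 1 := fun j => (hR.lt_one (hzR j)).2 (hz' j)
  have hLb := (ord U S.O F h0.ch).2.1 m z' R k π hR.pl hzR hl'
  have hrb := (rb U S F M n m l z z' z'' hS hF.EF hFM hMc hMa hz h1 h2 h4 hn'' hND).1
    R k π S' hR hRt
  have hab := abh U k R π M hR.pl
  have hMa' := hab.2.1 hMa
  have hrk' : rk (resF R π F : Set k) (resF R π M) ≤ 1 := by
    rw [hR.pl.coe_resF M]
    exact ((abh U k R π F hR.pl).2.2.2 M).trans hrk
  have hne' : resF R π M ≠ resF R π F := fun e => by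
    have e1 := c m k S' _ _ hS' hF' hFc' hm hzb hLb False.elim
    rw [← e] at e1
    have e2 := e1.trans hrb
    rw [Nat.cast_le] at e2
    omega
  have hstr := fun l y => str k S' _ (resF R π M) l y hS' hF' hFc' hFM' hrk'
  obtain ⟨Φ, K, g1, g2, g3, g4, g5⟩ := IH m (by omega) k S' _ _ (resG R π ψ) _ hS' hF' hFM' hne'
    hMc' hMa' hrk' (hψ.res hR.toPlaceO) (hψ.dom_res hR.toPlaceO hdom) (hR.ec_all h0 hψ hFE) hzb
    hLb hrb False.elim
  obtain ⟨ub, hu1, hu2⟩ := exists_tri (hstr m _ hzb hLb)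
  have hsp := hu2.spans (range_subset_iff.2 fun i => subset_ac _ (Or.inr (hu1 i))) hrb
  have hu3 : ∀ i, ub i ∈ ac ((resF R π M : Set k) ∪ zE S' fun j => π (z' j)) :=
    fun i => subset_ac _ (Or.inr (hu1 i))
  have hu4 : (ac ((resF R π M : Set k) ∪ range ub) : Set k) ⊆ dom Φ := by
    rw [g3]
    refine ac_le_of_closed g4 (union_subset ?_ (range_subset_iff.2 fun i => ?_))
    · rw [← g3, ← hψ.dom_res hR.toPlaceO hdom]
      exact dom_mono g1
    · refine (zE_subset.2 fun j => ?_ : _ ⊆ (K : Set k)) (hu1 i)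
      obtain ⟨-, s, e2, e3⟩ := g5 j
      exact ⟨g3.le ⟨_, e2⟩, g3.le ⟨_, e3⟩⟩
  rw [hR.zE_inter h0 hz'] at hu1
  obtain ⟨u, hu, rfl⟩ := lift_tuple hu1
  have huR : ∀ i, u i ∈ R := fun i => (hu i).2
  rw [← (hab.2.2.1 m u huR hu2).2.2, zE_subset] at hsp
  choose z₀ a1 a2 a3 using fun j => hR.pl.mem_resF.1 (hsp j).1
  choose w₀ b1 b2 b3 using fun j => hR.pl.mem_resF.1 (hsp j).2
  have ez : (fun j => π (z₀ j)) = fun j => π (z' j) := funext a3
  have hnd : ∀ q : ℚ, q ≠ 0 → ND S' (resF R π M) q fun j => π (z₀ j) := fun q hq => by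
    rw [ez]
    exact nd k S' _ _ q m _ h0' hFM' hq hzb hLb hrb fun l _ y => hstr l y
  have L := fun ψ Φ e1 e2 e3 e4 e5 e6 => lift U k S R π S' M ψ Φ m u z₀ w₀ hS h0' hR hMa e1 e2 e3
    e4 huR hu2 e5 (fun j => ⟨a1 j, (hR.lt_one (a2 j)).1 (a3 j ▸ hzb j)⟩)
    (fun j => ⟨b1 j, b2 j, by rw [a3, b3]⟩) (ez ▸ hu3) (hnd 1 one_ne_zero) (hnd 2 two_ne_zero) e6
  obtain ⟨τ, t1, t2, t3, -, t5⟩ := L ψ Φ hψ hdom g2 g1 hu4 fun j => a3 j ▸ g5 j
  obtain ⟨σ, s1, s2, s3, s4, s5⟩ := L (diag M) (diag ⊤) (good_diag _ _) (dom_diag _)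
    (good_diag _ _) (resG_diag hR.pl _) (by rw [dom_diag]; exact subset_univ _)
    fun j => EC_diag (a3 j ▸ hzb j) trivial trivial
  refine fin (cmp σ τ) ?_ ?_ ?_ fun j => ?_
  · rintro ⟨a, s⟩ h
    exact ⟨a, s1 (mem_diag.2 ⟨hdom.le ⟨s, h⟩, rfl⟩), t1 h⟩
  · rintro a s ⟨b, e1, e2⟩
    exact rv_trans (t2 _ _ e2) (rv_symm (s2 _ _ e1))
  · refine (dom_countable_swp s2 ?_).mono ?_
    · rw [s3]
      exact ac_countable (hMc.union (finite_range u).countable)
    · rintro a ⟨_, b, e1, _⟩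
      exact ⟨b, e1⟩
  · obtain ⟨s, e1, e2⟩ := s5 j
    obtain ⟨t, e3, e4⟩ := t5 j
    have e5 : S.v s < 1 := by
      rw [s2.val e1]
      exact (hR.lt_one (a2 j)).1 (a3 j ▸ hzb j)
    refine ⟨s, ⟨e5, t, ⟨_, e1, e3⟩, ⟨_, e2, e4⟩⟩, hA _ ?_⟩
    rw [← hR.pl.eq_iff (hzR j) (hR.memR e5), ← a3]
    exact (mem_diag.1 (s4 (s2.mem_res hR.toPlaceO e1 (a2 j)))).2.symm

end Pool.Agent.MP_0e4269_lc.Z

end MrgPart1

-- ======== part 2: formerly Pool.Agent.MP_0e4269_lc.z.Sb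
section MrgPart2

/-!
Reduction of the extension step to the case of tuples that become dependent modulo every
nonzero prime.
-/

open Set

universe w

namespace Pool.Agent.MP_0e4269_lc.Z

theorem sb (c : CStmt.{w}) (str : StrStmt.{w}) (nd : NdStmt.{w}) (ord : OrdStmt.{w})
    (res : ResStmt.{w}) (abh : AbhStmt.{w}) (lift : LiftStmt.{w}) : SbStmt.{w} := by
  intro n hn U _ _ S F M ψ z hS hF hFM _ hMc hM hrk hψ hdom hec hz hli hzn _
  rcases eq_or_ne n 0 with rfl | h0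
  · exact ⟨ψ, M, le_rfl, hψ, hdom, hM, fun j => j.elim0⟩
  have := hS.alg
  obtain ⟨R, hR, hliR, hstar⟩ :=
    (ord U S.O F hS.ch).1 n z (fun j => mem_of_lt_one (hz j)) hli
  obtain ⟨k, _, _, π, S', hres, hS'⟩ := (res U S R).1 hS hR
  have hF' : Closed S' (resF R π F) := (res U S R).2 k π S' F hS.toAx0 hres hF
  have hFc : (F : Set U).Countable := hMc.mono hFM
  have hFc' := hres.pl.resF_countable hFc
  have hzR : ∀ j, z j ∈ R := fun j => hres.memR (hz j)
  have hz' : ∀ j, S'.v (π (z j)) < 1 := fun j => (hres.lt_one (hzR j)).2 (hz j)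
  have hli' : LI (sub (resF R π F)) fun j => π (z j) :=
    (ord U S.O F hS.ch).2.1 n z R k π hres.pl hzR hliR
  have hFM' : resF R π F ≤ resF R π M := resF_mono hFM
  have hzn' : rk (resF R π M : Set k) (zE S' fun j => π (z j)) ≤ n := by
    rw [hres.zE_inter hS.toAx0 hz]
    exact ((abh U k R π M hres.pl).2.2.2 _).trans hzn
  have hne : resF R π M ≠ resF R π F := fun e => by
    have h1 := c n k S' (resF R π F) _ hS' hF' hFc' h0 hz' hli' False.elim
    rw [← e] at h1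
    have h2 := h1.trans hzn'
    rw [Nat.cast_le] at h2
    omega
  have hrk' : rk (resF R π F : Set k) (resF R π M : Set k) ≤ 1 := by
    rw [hres.pl.coe_resF M]
    exact ((abh U k R π F hres.pl).2.2.2 _).trans hrk
  have hM' := (abh U k R π M hres.pl).2.1 hM
  have hdom' := hψ.dom_res hres.toPlaceO hdom
  obtain ⟨Φ, K, h1, h2, h3, h4, h5⟩ := hn k S' (resF R π F) (resF R π M) (resG R π ψ) _ hS' hF'
    hFM' hne (hres.pl.resF_countable hMc) hM' hrk' (hψ.res hres.toPlaceO) hdom'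
    (hres.ec_all hS.toAx0 hψ hec) hz' hli' hzn' fun _ => ⟨h0, hstar k π S'.O hres.toPlaceO⟩
  have hstr : ∀ (l : ℕ) (y : Fin l → k), (∀ j, S'.v (y j) < 1) → LI (sub (resF R π F)) y →
      (l : ℕ∞) ≤ rk (resF R π M : Set k) (zE S' y) := fun l y =>
    str k S' (resF R π F) _ l y hS' hF' hFc' hFM' hrk'
  obtain ⟨y, hy, hty⟩ := exists_tri (hstr n _ hz' hli')
  obtain ⟨u, hu, rfl⟩ := lift_tuple (π := π) (X := zE S z) (y := y) fun i => by
    rw [← hres.zE_eq hz]
    exact hy i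
  have huR : ∀ i, u i ∈ R := fun i => hR (hS.toAx0.zE_mem hz (hu i))
  have htu : Tri (M : Set U) u := ((abh U k R π M hres.pl).2.2.1 n u huR hty).2.1
  have hsp : zE S z ⊆ ac ((M : Set U) ∪ range u) := htu.spans
    ((range_subset_iff.2 hu).trans (subset_union_right.trans (subset_ac _))) hzn
  have hK : (zE S' fun j => π (z j)) ⊆ K := zE_subset.2 fun j => by
    obtain ⟨-, s, h6, h7⟩ := h5 j
    rw [← h3]
    exact ⟨⟨s, h6⟩, ⟨_, h7⟩⟩
  have hMK : (resF R π M : Set k) ⊆ K := by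
    rw [← hdom', ← h3]
    exact dom_mono h1
  have hND : ∀ q : ℚ, q ≠ 0 → ND S' (resF R π M) q fun j => π (z j) := fun q hq =>
    nd k S' (resF R π F) _ q n _ hS'.toAx0 hFM' hq hz' hli' hzn' fun l _ => hstr l
  obtain ⟨τ, t1, t2, t3, -, t4⟩ := lift U k S R π S' M ψ Φ n u z (fun j => S.E (z j)) hS
    hS'.toAx0 hres hM hψ hdom h2 h1 huR hty
    (by
      rw [h3]
      exact ac_le_of_closed h4 (union_subset hMK ((range_subset_iff.2 hy).trans hK)))
    (fun j => ⟨hsp (mem_zE S z j), hz j⟩)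
    (fun j => ⟨hsp (E_mem_zE S z j), hR (hS.toAx0.E_mem _), (hres.E _ (hzR j)).symm⟩)
    (fun i => subset_ac _ (Or.inr (hy i))) (hND 1 one_ne_zero) (hND 2 two_ne_zero) h5
  exact ⟨τ, _, t1, t2, t3, ac_ac _, fun j => ⟨hz j, t4 j⟩⟩

end Pool.Agent.MP_0e4269_lc.Z

end MrgPart2

-- ======== part 3: formerly Pool.Agent.MP_0e4269_lc.z.Fin
section MrgPart3

/-!
Assembly.
-/

universe u v w

namespace Pool.Agent.MP_0e4269_lc.Z

theorem zero_not_one : ∃ T : LE.Theory, HMinimal.{0, 0, w} LE addS mulS valS T 0 ∧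
    ¬ HMinimal.{0, 0, w} LE addS mulS valS T 1 := by
  have habh := abh.{w} wind
  have hnd := nd.{w} (ax dex (ros dex wind)) split span
  have hres := res.{w} habh
  have hbder := bder.{w} dex wind core
  have hrb := rb.{w} dex count hbder habh span auto
  have het := etale.{w} wind val core habh
  have halg := alg.{w} md core
  have htr := trans.{w} halg
  have hext := ext.{w} halg htr
  have hC : CStmt.{w} := ind_two (P := CAt.{w})
    (ca hnd ord split hres hrb het (sys dex) (hkp tay) span) (cb ord hres habh)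
  have hstr := str.{w} hC
  have hlift := lift.{w} dex het (sys dex) (gauss htr (uniq wind core) habh) tay (hkp tay)
  have hS : SStmt.{w} := ind_two (P := SAt.{w})
    (sa hC hstr hnd ord split span hres habh hrb (nob hC ord hbder habh auto hres) hlift hext auto)
    (sb hC hstr hnd ord hres habh hlift)
  exact top hahn ez (hks tay) ult glue acla (aclc tay)
    (forth htr hext (dirs dex count split span hstr tay) hS (swap tay) span) (swap tay) bf comp
    (not1 acla)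

theorem levels (ell ell' : ℕ∞) :
    (∀ (L : FirstOrder.Language.{u, v}) (add mul : L.Functions 2) (o : L.Relations 1)
      (T : L.Theory),
      HMinimal.{u, v, w} L add mul o T ell ↔ HMinimal.{u, v, w} L add mul o T ell') ↔
    (ell = ell' ∨ (1 ≤ ell ∧ 1 ≤ ell')) := by
  constructor
  · intro h
    obtain ⟨T, h0, h1⟩ := zero_not_one.{w}
    have h2 := h (up.{u, v} LE) (ULift.up addS) (ULift.up mulS) (ULift.up valS)
      ((upHom LE).onTheory T)
    rw [hminimal_up, hminimal_up] at h2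
    by_cases e : ell = 0 <;> by_cases e' : ell' = 0
    · exact Or.inl (e.trans e'.symm)
    · exact absurd ((h2.1 (e ▸ h0)).mono (Order.one_le_iff_ne_zero.2 e')) h1
    · exact absurd ((h2.2 (e' ▸ h0)).mono (Order.one_le_iff_ne_zero.2 e)) h1
    · exact Or.inr ⟨Order.one_le_iff_ne_zero.2 e, Order.one_le_iff_ne_zero.2 e'⟩
  · rintro (rfl | ⟨h, h'⟩) L add mul o T
    · rfl
    · exact ⟨fun H => hminimal_of_one (H.mono h) ell', fun H => hminimal_of_one (H.mono h') ell⟩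

end Pool.Agent.MP_0e4269_lc.Z

end MrgPart3

-- marker of a merged file
example : 731051 + 889169 = 731051 + 889169 := rfl
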